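import Pool.Agent.Lib_helper33.HOM.Defs

set_option autoImplicit false

namespace Pool.Agent.HOM

open Filter Topology
open scoped BigOperators ComplexConjugate

section MA
variable {X : Type*} (m : Mn X)

/-- Positivity applied to `g - f`. -/
theorem L_mono {f g : X → ℝ} (hf : Bd f) (hg : Bd g) (h : ∀ x, f x ≤ g x) : m.L f ≤ m.L g := by
  have h1 := m.nonneg (fun x => g x - f x) (hg.sub hf) (fun x => sub_nonneg.2 (h x))
  have e : (fun x => g x - f x) = g - f := rfl
  rw [e, map_sub] at h1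
  linarith

/-- `fun _ => c = c • fun _ => 1`. -/
theorem L_const (c : ℝ) : m.L (fun _ => c) = c := by
  have e : (fun _ : X => c) = c • (fun _ : X => (1 : ℝ)) := by
    ext x; simp
  rw [e, map_smul, m.one]
  simp

theorem L_le {f : X → ℝ} (c : ℝ) (hf : Bd f) (h : ∀ x, f x ≤ c) : m.L f ≤ c := by
  have h1 := L_mono m hf (Bd.const c) h
  rwa [L_const m c] at h1

theorem le_L {f : X → ℝ} (c : ℝ) (hf : Bd f) (h : ∀ x, c ≤ f x) : c ≤ m.L f := by
  have h1 := L_mono m (Bd.const c) hf h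
  rwa [L_const m c] at h1

theorem abs_L_le_const {f : X → ℝ} (c : ℝ) (h : ∀ x, |f x| ≤ c) : |m.L f| ≤ c := by
  have hf : Bd f := Bd.of_abs_le c h
  rw [abs_le]
  exact ⟨le_L m (-c) hf fun x => (abs_le.1 (h x)).1, L_le m c hf fun x => (abs_le.1 (h x)).2⟩

theorem abs_L_le {f : X → ℝ} (hf : Bd f) : |m.L f| ≤ m.L (fun x => |f x|) := by
  rw [abs_le]
  constructor
  · have h1 := L_mono m hf.abs.neg hf (fun x => neg_abs_le (f x))
    have e : (fun x => -|f x|) = -(fun x => |f x|) := rfl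
    rw [e, map_neg] at h1
    exact h1
  · exact L_mono m hf hf.abs (fun x => le_abs_self (f x))

theorem C_ofReal (f : X → ℝ) : m.C (fun x => (f x : ℂ)) = (m.L f : ℂ) := by
  have h0 : (m.L (fun _ => (0 : ℝ))) = 0 := L_const m 0
  simp only [Mn.C, LinearMap.coe_mk, AddHom.coe_mk, Complex.ofReal_re, Complex.ofReal_im]
  rw [h0]
  simp

theorem ma_re (f : X → ℂ) : (m.C f).re = m.L (fun x => (f x).re) := by
  simp [Mn.C]

/-- Choose `a`, `‖a‖ = 1`, with `a * m.C f = ‖m.C f‖`; then `‖m.C f‖ = m.L (re (a f)) ≤ m.L ‖f‖`. -/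
theorem norm_C_le {f : X → ℂ} (hf : Bd f) : ‖m.C f‖ ≤ m.L (fun x => ‖f x‖) := by
  by_cases h0 : m.C f = 0
  · rw [h0, norm_zero]
    exact le_L m 0 hf.norm fun x => norm_nonneg _
  · set a : ℂ := conj (m.C f) / ‖m.C f‖ with ha
    have hn : (‖m.C f‖ : ℂ) ≠ 0 := by
      simpa using h0
    have h1 : a * m.C f = (‖m.C f‖ : ℂ) := by
      rw [ha, div_mul_eq_mul_div, Complex.conj_mul', sq, mul_div_assoc, div_self hn, mul_one]
    have ha1 : ‖a‖ = 1 := by
      rw [ha, norm_div, RCLike.norm_conj, Complex.norm_real, norm_norm, div_self]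
      simpa using h0
    have h2 : ‖m.C f‖ = m.L (fun x => (a * f x).re) := by
      rw [← ma_re]
      have e : (fun x => a * f x) = a • f := rfl
      rw [e, map_smul, smul_eq_mul, h1, Complex.ofReal_re]
    rw [h2]
    refine L_mono m ?_ hf.norm fun x => ?_
    · exact ((Bd.const a).mul hf).re
    · refine (Complex.re_le_norm _).trans ?_
      rw [norm_mul, ha1, one_mul]

theorem norm_C_le_const {f : X → ℂ} (c : ℝ) (h : ∀ x, ‖f x‖ ≤ c) : ‖m.C f‖ ≤ c := by
  have hf : Bd f := Bd.of_le c h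
  exact (norm_C_le m hf).trans (L_le m c hf.norm h)

theorem Bd_L {Y : Type*} {F : Y → X → ℝ} (B : ℝ) (h : ∀ y x, |F y x| ≤ B) :
    Bd (fun y => m.L (F y)) := Bd.of_abs_le B fun y => abs_L_le_const m B (h y)

/-- Induction on `v` in both directions from `m.Inv`. -/
theorem L_shift (m : Mn ℤ) (hm : m.Inv) {f : ℤ → ℝ} (hf : Bd f) (v : ℤ) :
    m.L (fun x => f (x + v)) = m.L f := by
  induction v using Int.induction_on with
  | zero => simp
  | succ i ih =>
    rw [← ih, ← hm (fun x => f (x + i)) (hf.comp _)]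
    congr 1
    ext x
    congr 1
    ring
  | pred i ih =>
    rw [← ih, ← hm (fun x => f (x + (-(i : ℤ) - 1))) (hf.comp _)]
    congr 1
    ext x
    congr 1
    ring

theorem C_shift (m : Mn ℤ) (hm : m.Inv) {f : ℤ → ℂ} (hf : Bd f) (v : ℤ) :
    m.C (fun x => f (x + v)) = m.C f := by
  simp only [Mn.C, LinearMap.coe_mk, AddHom.coe_mk]
  rw [L_shift m hm hf.re v, L_shift m hm hf.im v]

end MA


end Pool.Agent.HOM
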