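import Pool.Agent.Lib_helper33.HOM.Defs

set_option autoImplicit false

namespace Pool.Agent.HOM

open Filter Topology
open scoped BigOperators ComplexConjugate

theorem norm_tav_le (z : Circle) (N : ℕ) {f : ℤ → ℂ} (B : ℝ) (hB : 0 ≤ B) (hf : ∀ x, ‖f x‖ ≤ B)
    (x : ℤ) : ‖tav z N f x‖ ≤ B := by
  unfold tav
  rcases Nat.eq_zero_or_pos N with h | h
  · subst h; simpa using hB
  have hN : (0 : ℝ) < N := by exact_mod_cast h
  rw [norm_mul, norm_inv, Complex.norm_natCast]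
  have h1 : ‖∑ s ∈ Finset.range N, ch z (-(s : ℤ)) * f (x + s)‖ ≤ N * B := by
    refine (norm_sum_le _ _).trans ?_
    refine (Finset.sum_le_sum (g := fun _ => B) fun s _ => ?_).trans ?_
    · rw [norm_mul, norm_ch, one_mul]; exact hf _
    · simp
  calc (N : ℝ)⁻¹ * _ ≤ (N : ℝ)⁻¹ * (N * B) := mul_le_mul_of_nonneg_left h1 (by positivity)
    _ = B := by field_simp

theorem Bd_tav (z : Circle) (N : ℕ) {f : ℤ → ℂ} (hf : Bd f) : Bd (tav z N f) := by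
  obtain ⟨B, hB⟩ := hf
  have hB0 : 0 ≤ B := (norm_nonneg _).trans (hB 0)
  exact ⟨B, fun x => norm_tav_le z N B hB0 hB x⟩

theorem kc_step (z : Circle) (N : ℕ) (hN : 0 < N) {f : ℤ → ℂ} (hf : ∀ x, ‖f x‖ ≤ 1) (x : ℤ) :
    ‖tav z N f (x + 1) - ch z 1 * tav z N f x‖ ≤ 2 / N := by
  have hN' : (0 : ℝ) < N := by exact_mod_cast hN
  have e : tav z N f (x + 1) - ch z 1 * tav z N f x =
      (N : ℂ)⁻¹ * (ch z 1 * (ch z (-(N : ℤ)) * f (x + N) - f x)) := by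
    unfold tav
    have h1 : ∑ s ∈ Finset.range N, ch z (-(s : ℤ)) * f (x + 1 + s) =
        ch z 1 * ∑ s ∈ Finset.range N, ch z (-((s + 1 : ℕ) : ℤ)) * f (x + ((s + 1 : ℕ) : ℤ)) := by
      rw [Finset.mul_sum]
      refine Finset.sum_congr rfl fun s _ => ?_
      rw [← mul_assoc, ← ch_add]
      have a1 : (1 : ℤ) + -((s + 1 : ℕ) : ℤ) = -(s : ℤ) := by push_cast; ring
      have a2 : x + 1 + (s : ℤ) = x + ((s + 1 : ℕ) : ℤ) := by push_cast; ring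
      rw [a1, a2]
    have h2 := Finset.sum_range_succ' (fun s : ℕ => ch z (-(s : ℤ)) * f (x + s)) N
    have h3 := Finset.sum_range_succ (fun s : ℕ => ch z (-(s : ℤ)) * f (x + s)) N
    have h4 : ∑ s ∈ Finset.range N, ch z (-((s + 1 : ℕ) : ℤ)) * f (x + ((s + 1 : ℕ) : ℤ)) =
        ∑ s ∈ Finset.range N, ch z (-(s : ℤ)) * f (x + s) + ch z (-(N : ℤ)) * f (x + N) - f x := by
      rw [h2] at h3
      simp only [Nat.cast_zero, neg_zero, ch_zero, add_zero, one_mul] at h3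
      rw [← h3]; ring
    rw [h1, h4]
    ring
  rw [e, norm_mul, norm_inv, Complex.norm_natCast, norm_mul, norm_ch, one_mul]
  have h5 : ‖ch z (-(N : ℤ)) * f (x + N) - f x‖ ≤ 2 := by
    refine (norm_sub_le _ _).trans ?_
    rw [norm_mul, norm_ch, one_mul]
    linarith [hf (x + N), hf x]
  calc (N : ℝ)⁻¹ * _ ≤ (N : ℝ)⁻¹ * 2 := mul_le_mul_of_nonneg_left h5 (by positivity)
    _ = 2 / N := by field_simp

theorem kc_shift_nat (z : Circle) (N : ℕ) (hN : 0 < N) {f : ℤ → ℂ} (hf : ∀ x, ‖f x‖ ≤ 1) (x : ℤ)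
    (k : ℕ) : ‖tav z N f (x + k) - ch z k * tav z N f x‖ ≤ 2 * k / N := by
  induction k with
  | zero => simp
  | succ k ih =>
    have h1 := kc_step z N hN hf (x + k)
    have e : tav z N f (x + ((k + 1 : ℕ) : ℤ)) - ch z ((k + 1 : ℕ) : ℤ) * tav z N f x =
        (tav z N f (x + k + 1) - ch z 1 * tav z N f (x + k)) +
          ch z 1 * (tav z N f (x + k) - ch z k * tav z N f x) := by
      have a1 : x + ((k + 1 : ℕ) : ℤ) = x + k + 1 := by push_cast; ring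
      have a2 : ((k + 1 : ℕ) : ℤ) = 1 + k := by push_cast; ring
      rw [a1, a2, ch_add]; ring
    rw [e]
    refine (norm_add_le _ _).trans ?_
    rw [norm_mul, norm_ch, one_mul]
    have hN' : (0 : ℝ) < N := by exact_mod_cast hN
    have : 2 * ((k + 1 : ℕ) : ℝ) / N = 2 / N + 2 * k / N := by push_cast; field_simp; ring
    rw [this]
    linarith

theorem tav_shift (z : Circle) (N : ℕ) (hN : 0 < N) {f : ℤ → ℂ} (hf : ∀ x, ‖f x‖ ≤ 1)
    (x k : ℤ) : ‖tav z N f (x + k) - ch z k * tav z N f x‖ ≤ 2 * |(k : ℝ)| / N := by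
  obtain ⟨n, rfl | rfl⟩ := k.eq_nat_or_neg
  · have := kc_shift_nat z N hN hf x n
    simpa using this
  · have h := kc_shift_nat z N hN hf (x + -(n : ℤ)) n
    have e1 : x + -(n : ℤ) + n = x := by ring
    rw [e1] at h
    have e2 : tav z N f (x + -(n : ℤ)) - ch z (-(n : ℤ)) * tav z N f x =
        - (ch z (-(n : ℤ)) * (tav z N f x - ch z n * tav z N f (x + -(n : ℤ)))) := by
      have := ch_mul_neg z n
      have h3 : ch z (-(n : ℤ)) * (ch z n * tav z N f (x + -(n : ℤ))) = tav z N f (x + -(n : ℤ)) := by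
        rw [← mul_assoc, mul_comm (ch z (-(n : ℤ))), this, one_mul]
      rw [mul_sub, h3]; ring
    rw [e2, norm_neg, norm_mul, norm_ch, one_mul]
    simpa using h

theorem kc_sum_symm (K : Ker) (g : Circle → ℂ) :
    ∑ z ∈ K.Z, (K.c z : ℂ) * g z = ∑ z ∈ K.Z, (K.c z : ℂ) * g z⁻¹ := by
  classical
  have h1 : ∀ h : Circle → ℂ, ∑ z ∈ K.Z, (K.c z : ℂ) * h z =
      ∑ z ∈ K.Z.filter (fun z => K.c z ≠ 0), (K.c z : ℂ) * h z := by
    intro h
    rw [Finset.sum_filter]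
    refine Finset.sum_congr rfl fun z _ => ?_
    split_ifs with hz
    · rfl
    · push Not at hz
      rw [hz]; simp
  rw [h1, h1]
  refine Finset.sum_nbij' (fun z => z⁻¹) (fun z => z⁻¹) ?_ ?_ ?_ ?_ ?_
  · intro z hz
    rw [Finset.mem_filter] at hz ⊢
    have : K.c z⁻¹ ≠ 0 := by rw [K.symm]; exact hz.2
    refine ⟨?_, this⟩
    by_contra hcon
    exact this (K.supp _ hcon)
  · intro z hz
    rw [Finset.mem_filter] at hz ⊢
    have : K.c z⁻¹ ≠ 0 := by rw [K.symm]; exact hz.2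
    refine ⟨?_, this⟩
    by_contra hcon
    exact this (K.supp _ hcon)
  · intro z _; simp
  · intro z _; simp
  · intro z _
    rw [K.symm]; simp

theorem app_eq (K : Ker) (N : ℕ) (f : ℤ → ℝ) (x : ℤ) :
    (K.app N f x : ℂ) = ∑ z ∈ K.Z, (K.c z : ℂ) * tav z N (fun y => (f y : ℂ)) x := by
  unfold Ker.app
  set S := ∑ z ∈ K.Z, (K.c z : ℂ) * tav z N (fun y => (f y : ℂ)) x with hS
  have hconj : conj S = S := by
    have h1 : conj S = ∑ z ∈ K.Z, (K.c z : ℂ) * tav z⁻¹ N (fun y => (f y : ℂ)) x := by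
      rw [hS, map_sum]
      refine Finset.sum_congr rfl fun z _ => ?_
      rw [map_mul, Complex.conj_ofReal]
      congr 1
      unfold tav
      rw [map_mul, map_inv₀, Complex.conj_natCast, map_sum]
      congr 1
      refine Finset.sum_congr rfl fun s _ => ?_
      rw [map_mul, Complex.conj_ofReal, ← ch_neg, ch_inv]
    rw [h1, hS, kc_sum_symm K (fun z => tav z N (fun y => (f y : ℂ)) x)]
  exact Complex.conj_eq_iff_re.1 hconj

theorem kc_app_formula (K : Ker) (N : ℕ) (f : ℤ → ℝ) (x : ℤ) :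
    K.app N f x = (N : ℝ)⁻¹ * ∑ s ∈ Finset.range N,
      (∑ z ∈ K.Z, (K.c z : ℂ) * ch z (-(s : ℤ))).re * f (x + s) := by
  unfold Ker.app tav
  have h1 : ∑ z ∈ K.Z, (K.c z : ℂ) * ((N : ℂ)⁻¹ * ∑ s ∈ Finset.range N,
      ch z (-(s : ℤ)) * (f (x + s) : ℂ)) =
      ((N : ℝ)⁻¹ : ℝ) * ∑ s ∈ Finset.range N,
        (∑ z ∈ K.Z, (K.c z : ℂ) * ch z (-(s : ℤ))) * (f (x + s) : ℂ) := by
    push_cast
    simp only [Finset.mul_sum, Finset.sum_mul]
    rw [Finset.sum_comm]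
    refine Finset.sum_congr rfl fun s _ => Finset.sum_congr rfl fun z _ => ?_
    ring
  rw [h1, Complex.re_ofReal_mul, Complex.re_sum]
  congr 1
  refine Finset.sum_congr rfl fun s _ => ?_
  rw [Complex.re_mul_ofReal]

theorem app_nonneg (K : Ker) (N : ℕ) {f : ℤ → ℝ} (hf : ∀ x, 0 ≤ f x) (x : ℤ) :
    0 ≤ K.app N f x := by
  rw [kc_app_formula]
  exact mul_nonneg (by positivity) (Finset.sum_nonneg fun s _ => mul_nonneg (K.pos _) (hf _))

open Classical in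
theorem kc_one (K : Ker) (N : ℕ) (hN : 0 < N) :
    (N : ℝ)⁻¹ * ∑ s ∈ Finset.range N, (∑ z ∈ K.Z, (K.c z : ℂ) * ch z (-(s : ℤ))).re ≤
      1 + (N : ℝ)⁻¹ * ∑ z ∈ K.Z, if z = 1 then 0 else 2 / ‖(1 : ℂ) - (z⁻¹ : Circle)‖ := by
  have hN' : (0 : ℝ) < N := by exact_mod_cast hN
  have h1 : ∀ z ∈ K.Z, (∑ s ∈ Finset.range N, (K.c z : ℂ) * ch z (-(s : ℤ))).re ≤
      (if z = 1 then (N : ℝ) else 0) +
        (if z = 1 then 0 else 2 / ‖(1 : ℂ) - (z⁻¹ : Circle)‖) := by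
    intro z _
    split_ifs with hz
    · subst hz
      have hc : K.c 1 = 1 := (K.one 1 (one_pow _)).2
      simp [hc]
    · refine (Complex.re_le_norm _).trans ?_
      rw [← Finset.mul_sum, norm_mul, Complex.norm_real, Real.norm_eq_abs, abs_of_nonneg (K.nonneg z)]
      have hne : (1 : ℂ) - (z⁻¹ : Circle) ≠ 0 := by
        intro h
        apply hz
        have : ((z⁻¹ : Circle) : ℂ) = ((1 : Circle) : ℂ) := by
          rw [Circle.coe_one]; exact (sub_eq_zero.1 h).symm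
        have := Circle.ext this
        simpa using this
      have hg : ∑ s ∈ Finset.range N, ch z (-(s : ℤ)) =
          (1 - ((z⁻¹ : Circle) : ℂ) ^ N) / (1 - ((z⁻¹ : Circle) : ℂ)) := by
        rw [eq_div_iff hne]
        have : ∀ s : ℕ, ch z (-(s : ℤ)) = ((z⁻¹ : Circle) : ℂ) ^ s := by
          intro s
          rw [← ch_inv, ch_eq, zpow_natCast]
        simp only [this]
        exact geom_sum_mul_neg _ _
      rw [hg, norm_div]
      have h3 : ‖(1 : ℂ) - ((z⁻¹ : Circle) : ℂ) ^ N‖ ≤ 2 := by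
        refine (norm_sub_le _ _).trans ?_
        rw [norm_pow, Circle.norm_coe]; norm_num
      have h4 : 0 < ‖(1 : ℂ) - ((z⁻¹ : Circle) : ℂ)‖ := norm_pos_iff.2 hne
      have h5 : ‖(1 : ℂ) - ((z⁻¹ : Circle) : ℂ) ^ N‖ / ‖(1 : ℂ) - ((z⁻¹ : Circle) : ℂ)‖ ≤
          2 / ‖(1 : ℂ) - ((z⁻¹ : Circle) : ℂ)‖ := div_le_div_of_nonneg_right h3 h4.le
      have h6 : 0 ≤ 2 / ‖(1 : ℂ) - ((z⁻¹ : Circle) : ℂ)‖ := by positivity
      rw [zero_add]
      calc K.c z * _ ≤ 1 * (2 / ‖(1 : ℂ) - ((z⁻¹ : Circle) : ℂ)‖) :=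
            mul_le_mul (K.le_one z) h5 (by positivity) zero_le_one
        _ = _ := one_mul _
  have h2 : ∑ s ∈ Finset.range N, (∑ z ∈ K.Z, (K.c z : ℂ) * ch z (-(s : ℤ))).re =
      ∑ z ∈ K.Z, (∑ s ∈ Finset.range N, (K.c z : ℂ) * ch z (-(s : ℤ))).re := by
    rw [← Complex.re_sum, Finset.sum_comm, Complex.re_sum]
  rw [h2]
  have h3 := Finset.sum_le_sum h1
  rw [Finset.sum_add_distrib] at h3
  have h4 : ∑ z ∈ K.Z, (if z = 1 then (N : ℝ) else 0) = N := by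
    rw [Finset.sum_ite_eq' K.Z 1 (fun _ => (N : ℝ)), if_pos (K.one 1 (one_pow _)).1]
  rw [h4] at h3
  calc (N : ℝ)⁻¹ * _ ≤ (N : ℝ)⁻¹ * (N + ∑ z ∈ K.Z, if z = 1 then 0 else
        2 / ‖(1 : ℂ) - (z⁻¹ : Circle)‖) := mul_le_mul_of_nonneg_left h3 (by positivity)
    _ = _ := by rw [mul_add, inv_mul_cancel₀ hN'.ne']

theorem app_le (K : Ker) (θ : ℝ) (hθ : 0 < θ) : ∃ N₀ : ℕ, 0 < N₀ ∧ ∀ N ≥ N₀, ∀ f : ℤ → ℝ,
    (∀ x, 0 ≤ f x ∧ f x ≤ 1) → ∀ x, K.app N f x ≤ 1 + θ := by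
  classical
  set A : ℝ := ∑ z ∈ K.Z, if z = 1 then 0 else 2 / ‖(1 : ℂ) - (z⁻¹ : Circle)‖ with hA
  refine ⟨⌈A / θ⌉₊ + 1, Nat.succ_pos _, fun N hN f hf x => ?_⟩
  have hN0 : 0 < N := lt_of_lt_of_le (Nat.succ_pos _) hN
  have hN' : (0 : ℝ) < N := by exact_mod_cast hN0
  have hAN : A / θ ≤ N := (Nat.le_ceil _).trans (by exact_mod_cast (Nat.le_succ _).trans hN)
  have h1 : (N : ℝ)⁻¹ * A ≤ θ := by
    rw [div_le_iff₀ hθ] at hAN
    rw [inv_mul_le_iff₀ hN']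
    exact hAN
  have h2 := kc_one K N hN0
  rw [kc_app_formula]
  have h3 : ∑ s ∈ Finset.range N, (∑ z ∈ K.Z, (K.c z : ℂ) * ch z (-(s : ℤ))).re * f (x + s) ≤
      ∑ s ∈ Finset.range N, (∑ z ∈ K.Z, (K.c z : ℂ) * ch z (-(s : ℤ))).re :=
    Finset.sum_le_sum fun s _ => mul_le_of_le_one_right (K.pos _) (hf _).2
  calc (N : ℝ)⁻¹ * _ ≤ (N : ℝ)⁻¹ * _ := mul_le_mul_of_nonneg_left h3 (by positivity)
    _ ≤ 1 + (N : ℝ)⁻¹ * A := h2
    _ ≤ 1 + θ := by linarith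

end Pool.Agent.HOM
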