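import Pool.Agent.Lib_helper33.HOM.Defs
import Pool.Agent.Lib_helper33.HOMF.MA

set_option autoImplicit false

namespace Pool.Agent.HOM

open Filter Topology
open scoped BigOperators ComplexConjugate

section MB
variable {X E E' : Type*} [NormedAddCommGroup E] [NormedAddCommGroup E'] (m : Mn X)

theorem nrm_nonneg (f : X → E) : 0 ≤ nrm m f := Real.sqrt_nonneg _

theorem nrm_sq {f : X → E} (hf : Bd f) : nrm m f ^ 2 = m.L (fun x => ‖f x‖ ^ 2) := by
  rw [nrm, Real.sq_sqrt]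
  exact m.nonneg _ (hf.norm.powR 2) (fun x => by positivity)

theorem nrm_mono {f : X → E} {g : X → E'} (hf : Bd f) (hg : Bd g) (h : ∀ x, ‖f x‖ ≤ ‖g x‖) :
    nrm m f ≤ nrm m g := by
  apply Real.sqrt_le_sqrt
  exact L_mono m (hf.norm.powR 2) (hg.norm.powR 2)
    (fun x => pow_le_pow_left₀ (norm_nonneg _) (h x) 2)

theorem nrm_ofReal (f : X → ℝ) : nrm m (fun x => (f x : ℂ)) = nrm m f := by
  simp only [nrm, Complex.norm_real]

theorem nrm_le {f : X → E} (c : ℝ) (hc : 0 ≤ c) (h : ∀ x, ‖f x‖ ≤ c) : nrm m f ≤ c := by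
  rw [nrm, Real.sqrt_le_left hc]
  exact L_le m (c ^ 2) ((Bd.of_le c h).norm.powR 2)
    (fun x => pow_le_pow_left₀ (norm_nonneg _) (h x) 2)

theorem mb_nrm_norm (f : X → E) : nrm m (fun x => ‖f x‖) = nrm m f := by
  simp only [nrm, norm_norm]

/-- Real Cauchy-Schwarz. -/
theorem L_mul_le {f g : X → ℝ} (hf : Bd f) (hg : Bd g) :
    |m.L (fun x => f x * g x)| ≤ nrm m f * nrm m g := by
  have key : ∀ s : ℝ, 0 ≤ nrm m f ^ 2 * (s * s) + (-2 * m.L (fun x => f x * g x)) * s
      + nrm m g ^ 2 := by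
    intro s
    have h1 : 0 ≤ m.L (fun x => (s * f x - g x) ^ 2) := by
      apply m.nonneg
      · exact (((Bd.const s).mulR hf).sub hg).powR 2
      · intro x; positivity
    have h2 : (fun x => (s * f x - g x) ^ 2) = (s * s) • (fun x => ‖f x‖ ^ 2)
        + (-2 * s) • (fun x => f x * g x) + fun x => ‖g x‖ ^ 2 := by
      ext x
      simp only [Pi.add_apply, Pi.smul_apply, smul_eq_mul, Real.norm_eq_abs, sq_abs]
      ring
    rw [h2, map_add, map_add, map_smul, map_smul, ← nrm_sq m hf, ← nrm_sq m hg] at h1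
    simp only [smul_eq_mul] at h1
    linarith
  have h3 := discrim_le_zero key
  rw [discrim] at h3
  have h4 : m.L (fun x => f x * g x) ^ 2 ≤ (nrm m f * nrm m g) ^ 2 := by
    nlinarith
  exact abs_le_of_sq_le_sq h4 (mul_nonneg (nrm_nonneg m f) (nrm_nonneg m g))

/-- Minkowski. -/
theorem nrm_add {f g : X → E} (hf : Bd f) (hg : Bd g) :
    nrm m (fun x => f x + g x) ≤ nrm m f + nrm m g := by
  have h0 : 0 ≤ nrm m f + nrm m g := add_nonneg (nrm_nonneg m f) (nrm_nonneg m g)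
  have h1 : nrm m (fun x => f x + g x) ^ 2 ≤ (nrm m f + nrm m g) ^ 2 := by
    rw [nrm_sq m (hf.add hg)]
    have h2 : m.L (fun x => ‖f x + g x‖ ^ 2) ≤
        m.L ((fun x => ‖f x‖ ^ 2) + (2 : ℝ) • (fun x => ‖f x‖ * ‖g x‖) + fun x => ‖g x‖ ^ 2) := by
      apply L_mono m ((hf.add hg).norm.powR 2)
      · have h5 := ((hf.norm.powR 2).add ((Bd.const (2 : ℝ)).mulR (hf.norm.mulR hg.norm))).add
          (hg.norm.powR 2)
        exact h5
      · intro x
        simp only [Pi.add_apply, Pi.smul_apply, smul_eq_mul]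
        have h6 := norm_add_le (f x) (g x)
        calc ‖f x + g x‖ ^ 2 ≤ (‖f x‖ + ‖g x‖) ^ 2 := pow_le_pow_left₀ (norm_nonneg _) h6 2
          _ = _ := by ring
    rw [map_add, map_add, map_smul, ← nrm_sq m hf, ← nrm_sq m hg] at h2
    have h7 := L_mul_le m hf.norm hg.norm
    rw [mb_nrm_norm, mb_nrm_norm] at h7
    have h8 := le_of_abs_le h7
    simp only [smul_eq_mul] at h2
    nlinarith
  exact (abs_le_of_sq_le_sq h1 h0) |> le_of_abs_le

theorem mb_nrm_neg (f : X → E) : nrm m (fun x => -f x) = nrm m f := by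
  simp only [nrm, norm_neg]

theorem nrm_sub {f g : X → E} (hf : Bd f) (hg : Bd g) :
    nrm m (fun x => f x - g x) ≤ nrm m f + nrm m g := by
  have h := nrm_add m hf hg.neg
  rw [mb_nrm_neg] at h
  simpa only [sub_eq_add_neg] using h

theorem nrm_sub_comm (f g : X → E) :
    nrm m (fun x => f x - g x) = nrm m (fun x => g x - f x) := by
  simp only [nrm, norm_sub_rev]

theorem mb_nrm_zero : nrm m (fun _ : X => (0 : E)) = 0 := by
  have h : (fun x : X => ‖(0 : E)‖ ^ 2) = (0 : X → ℝ) := by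
    ext x; simp
  rw [nrm, h, map_zero, Real.sqrt_zero]

theorem nrm_sum {ι : Type*} (s : Finset ι) {f : ι → X → E} (hf : ∀ i ∈ s, Bd (f i)) :
    nrm m (fun x => ∑ i ∈ s, f i x) ≤ ∑ i ∈ s, nrm m (f i) := by
  classical
  induction s using Finset.induction_on with
  | empty =>
    simp only [Finset.sum_empty]
    exact (mb_nrm_zero (E := E) m).le
  | insert a s ha ih =>
    have h1 := hf a (Finset.mem_insert_self a s)
    have h2 := ih (fun i hi => hf i (Finset.mem_insert_of_mem hi))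
    have h3 : Bd (fun x => ∑ i ∈ s, f i x) :=
      Bd.sum s (fun i hi => hf i (Finset.mem_insert_of_mem hi))
    have h4 := nrm_add m h1 h3
    simp only [Finset.sum_insert ha]
    linarith

theorem nrm_const_mul (c : ℂ) (f : X → ℂ) : nrm m (fun x => c * f x) = ‖c‖ * nrm m f := by
  have h : (fun x => ‖c * f x‖ ^ 2) = (‖c‖ ^ 2) • (fun x => ‖f x‖ ^ 2) := by
    ext x
    simp only [Pi.smul_apply, smul_eq_mul, norm_mul]
    ring
  rw [nrm, h, map_smul, smul_eq_mul, Real.sqrt_mul (by positivity), Real.sqrt_sq (norm_nonneg _),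
    nrm]

theorem nrm_mul_le {g f : X → ℂ} (B : ℝ) (hB : 0 ≤ B) (hg : ∀ x, ‖g x‖ ≤ B) (hf : Bd f) :
    nrm m (fun x => g x * f x) ≤ B * nrm m f := by
  have h1 : nrm m (fun x => g x * f x) ≤ nrm m (fun x => (B : ℂ) * f x) := by
    apply nrm_mono m ((Bd.of_le B hg).mul hf) ((Bd.const (B : ℂ)).mul hf)
    intro x
    rw [norm_mul, norm_mul, Complex.norm_real, Real.norm_of_nonneg hB]
    exact mul_le_mul_of_nonneg_right (hg x) (norm_nonneg _)
  rw [nrm_const_mul, Complex.norm_real, Real.norm_of_nonneg hB] at h1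
  exact h1

theorem L_norm_le {f : X → E} (hf : Bd f) : m.L (fun x => ‖f x‖) ≤ nrm m f := by
  have h := L_mul_le m hf.norm (Bd.const (X := X) (1 : ℝ))
  have h1 : nrm m (fun _ : X => (1 : ℝ)) = 1 := by
    have h2 : (fun _ : X => ‖(1 : ℝ)‖ ^ 2) = fun _ => 1 := by
      ext x; simp
    rw [nrm, h2, m.one, Real.sqrt_one]
  rw [h1, mb_nrm_norm, mul_one] at h
  simp only [mul_one] at h
  exact le_of_abs_le h

/-- Complex Cauchy-Schwarz. -/
theorem C_mul_le {f g : X → ℂ} (hf : Bd f) (hg : Bd g) :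
    ‖m.C (fun x => f x * g x)‖ ≤ nrm m f * nrm m g := by
  have h1 := norm_C_le m (hf.mul hg)
  have h2 := L_mul_le m hf.norm hg.norm
  rw [mb_nrm_norm, mb_nrm_norm] at h2
  simp only [norm_mul] at h1
  exact h1.trans (le_of_abs_le h2)

/-- `m.L (conj f * f) = nrm²`. -/
theorem C_self {f : X → ℂ} (hf : Bd f) :
    m.C (fun x => conj (f x) * f x) = ((nrm m f ^ 2 : ℝ) : ℂ) := by
  have h : (fun x => conj (f x) * f x) = fun x => ((‖f x‖ ^ 2 : ℝ) : ℂ) := by
    ext x
    rw [Complex.conj_mul']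
    push_cast
    rfl
  rw [h, C_ofReal, nrm_sq m hf]

/-- Markov (Chebyshev). -/
theorem markov {f : X → E} (hf : Bd f) (c : ℝ) (hc : 0 < c) :
    m.L (Set.indicator {x | c ≤ ‖f x‖} 1) ≤ (nrm m f / c) ^ 2 := by
  have h1 : m.L (Set.indicator {x | c ≤ ‖f x‖} 1) ≤ m.L ((c ^ 2)⁻¹ • fun x => ‖f x‖ ^ 2) := by
    apply L_mono m
    · apply Bd.of_abs_le 1
      intro x
      by_cases hx : x ∈ {x | c ≤ ‖f x‖}
      · rw [Set.indicator_of_mem hx]; simp
      · rw [Set.indicator_of_notMem hx]; simp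
    · exact (Bd.const ((c ^ 2)⁻¹)).mulR (hf.norm.powR 2)
    · intro x
      simp only [Pi.smul_apply, smul_eq_mul]
      by_cases hx : x ∈ {x | c ≤ ‖f x‖}
      · rw [Set.indicator_of_mem hx]
        have hx' : c ≤ ‖f x‖ := hx
        have h3 : c ^ 2 ≤ ‖f x‖ ^ 2 := pow_le_pow_left₀ hc.le hx' 2
        have h4 : 0 < c ^ 2 := by positivity
        rw [Pi.one_apply]
        calc (1 : ℝ) = (c ^ 2)⁻¹ * c ^ 2 := by field_simp
          _ ≤ (c ^ 2)⁻¹ * ‖f x‖ ^ 2 := by
            apply mul_le_mul_of_nonneg_left h3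
            positivity
      · rw [Set.indicator_of_notMem hx]
        positivity
  rw [map_smul, smul_eq_mul, ← nrm_sq m hf] at h1
  calc _ ≤ _ := h1
    _ = _ := by
      rw [div_pow]
      ring

theorem nrm_shift (m : Mn ℤ) (hm : m.Inv) {f : ℤ → E} (hf : Bd f) (v : ℤ) :
    nrm m (fun x => f (x + v)) = nrm m f := by
  have h := L_shift m hm (hf.norm.powR 2) v
  simp only [nrm]
  rw [← h]

end MB

end Pool.Agent.HOM
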