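import Pool.Agent.Lib_helper33.HOM.Defs

/-! # Block HA: mean ergodic theorem -/

set_option autoImplicit false

namespace Pool.Agent.HOM

open Filter Topology
open scoped BigOperators ComplexConjugate

section
variable {H : Type} [NormedAddCommGroup H] [InnerProductSpace ℂ H]

/-- the twisted isometry -/
noncomputable def ha_T (S : H →ₗᵢ[ℂ] H) (z : Circle) : H →L[ℂ] H :=
  (ch z (-1)) • S.toContinuousLinearMap

theorem ha_T_apply (S : H →ₗᵢ[ℂ] H) (z : Circle) (h : H) : ha_T S z h = ch z (-1) • S h := rfl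

theorem ha_T_iter (S : H →ₗᵢ[ℂ] H) (z : Circle) (a : ℕ) (h : H) :
    (⇑(ha_T S z))^[a] h = ch z (-(a : ℤ)) • (⇑S)^[a] h := by
  induction a with
  | zero => simp
  | succ n ih =>
    rw [Function.iterate_succ_apply', ih, Function.iterate_succ_apply', ha_T_apply, map_smul,
      smul_smul, ← ch_add]
    congr 2
    push_cast
    ring

theorem ha_T_norm (S : H →ₗᵢ[ℂ] H) (z : Circle) : ‖ha_T S z‖ ≤ 1 := by
  refine ContinuousLinearMap.opNorm_le_bound _ zero_le_one (fun h => ?_)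
  rw [ha_T_apply, norm_smul, norm_ch, S.norm_map]

/-- the eigenspace -/
noncomputable def ha_K (S : H →ₗᵢ[ℂ] H) (z : Circle) : Submodule ℂ H :=
  (ha_T S z).eqLocus (1 : H →L[ℂ] H)

theorem ha_mem (S : H →ₗᵢ[ℂ] H) (z : Circle) (h : H) (hh : h ∈ ha_K S z) : S h = (z : ℂ) • h := by
  have h1 : ha_T S z h = h := hh
  rw [ha_T_apply] at h1
  have h2 : (z : ℂ) • (ch z (-1) • S h) = (z : ℂ) • h := by rw [h1]
  rw [smul_smul, ← ch_one z, ← ch_add, show (1 : ℤ) + -1 = 0 by norm_num, ch_zero, one_smul] at h2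
  rw [h2, ch_one]

theorem ha_orth (S : H →ₗᵢ[ℂ] H) (z w : Circle) (hzw : z ≠ w) (g h : H) (hg : g ∈ ha_K S z)
    (hh : h ∈ ha_K S w) : inner ℂ g h = 0 := by
  have h1 : inner ℂ (S g) (S h) = inner ℂ g h := S.inner_map_map g h
  rw [ha_mem S z g hg, ha_mem S w h hh, inner_smul_left, inner_smul_right] at h1
  have h2 : (conj (z : ℂ) * (w : ℂ) - 1) * inner ℂ g h = 0 := by
    rw [sub_mul, one_mul, mul_assoc, h1, sub_self]
  rcases mul_eq_zero.mp h2 with h3 | h3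
  · exfalso
    apply hzw
    have h4 : ((z⁻¹ * w : Circle) : ℂ) = ((1 : Circle) : ℂ) := by
      rw [Circle.coe_mul, Circle.coe_inv_eq_conj, Circle.coe_one]
      exact sub_eq_zero.mp h3
    have h5 : z⁻¹ * w = 1 := Circle.coe_inj.mp h4
    exact inv_mul_eq_one.mp h5
  · exact h3

variable [CompleteSpace H]

noncomputable instance ha_inst (S : H →ₗᵢ[ℂ] H) (z : Circle) :
    (ha_K S z).HasOrthogonalProjection := by
  unfold ha_K
  infer_instance

/-- the projections -/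
noncomputable def ha_P (S : H →ₗᵢ[ℂ] H) (z : Circle) : H →L[ℂ] H := (ha_K S z).starProjection

theorem ha_P_mem (S : H →ₗᵢ[ℂ] H) (z : Circle) (h : H) : ha_P S z h ∈ ha_K S z :=
  Submodule.starProjection_apply_mem _ _

theorem ha_tendsto (S : H →ₗᵢ[ℂ] H) (z : Circle) (h : H) :
    Tendsto (fun N : ℕ => (N : ℂ)⁻¹ • ∑ a ∈ Finset.range N,
        ch z (-(a : ℤ)) • (⇑S)^[a] h) atTop (𝓝 (ha_P S z h)) := by
  have h1 := ContinuousLinearMap.tendsto_birkhoffAverage_orthogonalProjection (ha_T S z)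
    (ha_T_norm S z) h
  have e : (fun N : ℕ => (N : ℂ)⁻¹ • ∑ a ∈ Finset.range N,
        ch z (-(a : ℤ)) • (⇑S)^[a] h) = fun N => birkhoffAverage ℂ (ha_T S z) _root_.id N h := by
    ext N
    unfold birkhoffAverage birkhoffSum
    congr 1
    refine Finset.sum_congr rfl (fun a _ => ?_)
    rw [id_eq, ha_T_iter]
  rw [e]
  exact h1

theorem spectral {H : Type} [NormedAddCommGroup H] [InnerProductSpace ℂ H] [CompleteSpace H]
    (S : H →ₗᵢ[ℂ] H) : ∃ P : Circle → H →L[ℂ] H,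
      (∀ z h, Tendsto (fun N : ℕ => (N : ℂ)⁻¹ • ∑ a ∈ Finset.range N,
        ch z (-(a : ℤ)) • (⇑S)^[a] h) atTop (𝓝 (P z h))) ∧
      (∀ z h, S (P z h) = (z : ℂ) • P z h) ∧
      (∀ z h, ‖P z h‖ ≤ ‖h‖) ∧
      (∀ z h, P z (P z h) = P z h) ∧
      (∀ z w h, z ≠ w → P z (P w h) = 0) ∧
      (∀ z w g h, z ≠ w → inner ℂ (P z g) (P w h) = 0) ∧
      (∀ (Λ : Finset Circle) h, ∑ z ∈ Λ, ‖P z h‖ ^ 2 ≤ ‖h‖ ^ 2) := by
  refine ⟨ha_P S, ha_tendsto S, fun z h => ha_mem S z _ (ha_P_mem S z h),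
    fun z h => Submodule.norm_starProjection_apply_le _ h,
    fun z h => Submodule.starProjection_eq_self_iff.mpr (ha_P_mem S z h), fun z w h hzw => ?_,
    fun z w g h hzw => ha_orth S z w hzw _ _ (ha_P_mem S z g) (ha_P_mem S w h), fun Λ h => ?_⟩
  · refine (Submodule.starProjection_apply_eq_zero_iff _).mpr ?_
    rw [Submodule.mem_orthogonal]
    intro u hu
    exact ha_orth S z w hzw u _ hu (ha_P_mem S w h)
  · classical
    set k : H := ∑ z ∈ Λ, ha_P S z h with hk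
    have hself : ∀ z, inner ℂ (ha_P S z h) h = ((‖ha_P S z h‖ ^ 2 : ℝ) : ℂ) := by
      intro z
      have h1 : inner ℂ (ha_P S z h) h = inner ℂ (ha_P S z h) (ha_P S z h) := by
        have h2 : inner ℂ (ha_P S z (ha_P S z h)) h = inner ℂ (ha_P S z h) (ha_P S z h) :=
          Submodule.inner_starProjection_left_eq_right (ha_K S z) (ha_P S z h) h
        have h3 : ha_P S z (ha_P S z h) = ha_P S z h :=
          Submodule.starProjection_eq_self_iff.mpr (ha_P_mem S z h)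
        rw [h3] at h2
        exact h2
      rw [h1, inner_self_eq_norm_sq_to_K]
      push_cast
      rfl
    have hkh : inner ℂ k h = ((∑ z ∈ Λ, ‖ha_P S z h‖ ^ 2 : ℝ) : ℂ) := by
      rw [hk, sum_inner]
      push_cast
      refine Finset.sum_congr rfl (fun z _ => ?_)
      rw [hself z]
      push_cast
      rfl
    have hkk : inner ℂ k k = ((∑ z ∈ Λ, ‖ha_P S z h‖ ^ 2 : ℝ) : ℂ) := by
      rw [hk, sum_inner]
      push_cast
      refine Finset.sum_congr rfl (fun z hz => ?_)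
      rw [inner_sum, Finset.sum_eq_single z]
      · rw [inner_self_eq_norm_sq_to_K]
        rfl
      · intro w _ hwz
        exact ha_orth S z w (Ne.symm hwz) _ _ (ha_P_mem S z h) (ha_P_mem S w h)
      · intro hz'
        exact absurd hz hz'
    set s : ℝ := ∑ z ∈ Λ, ‖ha_P S z h‖ ^ 2 with hs
    have hs0 : 0 ≤ s := Finset.sum_nonneg (fun z _ => sq_nonneg _)
    have hk2 : ‖k‖ ^ 2 = s := by
      have h1 : ((‖k‖ : ℝ) : ℂ) ^ 2 = (s : ℂ) := by
        rw [← hkk, inner_self_eq_norm_sq_to_K]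
        rfl
      exact_mod_cast h1
    have hle : s ≤ ‖k‖ * ‖h‖ := by
      have h1 : ‖inner ℂ k h‖ ≤ ‖k‖ * ‖h‖ := norm_inner_le_norm k h
      rw [hkh, Complex.norm_real, Real.norm_eq_abs, abs_of_nonneg hs0] at h1
      exact h1
    have hkn : ‖k‖ ≤ ‖h‖ := by
      by_contra hcon
      push Not at hcon
      have hpos : 0 < ‖k‖ := lt_of_le_of_lt (norm_nonneg h) hcon
      have h1 : ‖k‖ * ‖h‖ < ‖k‖ * ‖k‖ := mul_lt_mul_of_pos_left hcon hpos
      nlinarith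
    rw [← hk2]
    exact pow_le_pow_left₀ (norm_nonneg _) hkn 2

end

theorem tail_small {H : Type} [NormedAddCommGroup H] (P : Circle → H → H) (h : H)
    (hP : ∀ Λ : Finset Circle, ∑ z ∈ Λ, ‖P z h‖ ^ 2 ≤ ‖h‖ ^ 2) (τ : ℝ) (hτ : 0 < τ) :
    ∃ Λ : Finset Circle, ∀ Λ' : Finset Circle, Disjoint Λ Λ' → ∑ z ∈ Λ', ‖P z h‖ ^ 2 ≤ τ := by
  classical
  set A : Set ℝ := Set.range (fun Λ : Finset Circle => ∑ z ∈ Λ, ‖P z h‖ ^ 2) with hA
  have hne : A.Nonempty := ⟨_, ⟨∅, rfl⟩⟩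
  have hbd : BddAbove A := ⟨‖h‖ ^ 2, by rintro _ ⟨Λ, rfl⟩; exact hP Λ⟩
  obtain ⟨x, ⟨Λ, rfl⟩, hx⟩ := exists_lt_of_lt_csSup hne (show sSup A - τ < sSup A by linarith)
  refine ⟨Λ, fun Λ' hd => ?_⟩
  have h1 : ∑ z ∈ Λ ∪ Λ', ‖P z h‖ ^ 2 ≤ sSup A := le_csSup hbd ⟨Λ ∪ Λ', rfl⟩
  rw [Finset.sum_union hd] at h1
  simp only at hx
  linarith

end Pool.Agent.HOM
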