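import Pool.Agent.Lib_helper33.HOM.Defs

set_option autoImplicit false

namespace Pool.Agent.HOM

open Filter Topology
open scoped BigOperators ComplexConjugate

/-! ## BLOCK HB -/

section HB
variable {H : Type} [NormedAddCommGroup H] [InnerProductSpace ℂ H]

theorem hb_iter_smul (S : H →ₗᵢ[ℂ] H) (n : ℕ) (c : ℂ) (x : H) :
    (⇑S)^[n] (c • x) = c • (⇑S)^[n] x := by
  induction n generalizing x with
  | zero => rfl
  | succ n ih => rw [Function.iterate_succ_apply, Function.iterate_succ_apply, map_smul, ih]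

theorem hb_iter_sum (S : H →ₗᵢ[ℂ] H) (n : ℕ) {ι : Type*} (s : Finset ι) (g : ι → H) :
    (⇑S)^[n] (∑ i ∈ s, g i) = ∑ i ∈ s, (⇑S)^[n] (g i) := by
  induction n generalizing g with
  | zero => rfl
  | succ n ih =>
    rw [Function.iterate_succ_apply, map_sum, ih]
    rfl

theorem hb_iter_norm (S : H →ₗᵢ[ℂ] H) (n : ℕ) (x : H) : ‖(⇑S)^[n] x‖ = ‖x‖ := by
  induction n generalizing x with
  | zero => rfl
  | succ n ih => rw [Function.iterate_succ_apply, ih, S.norm_map]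

theorem hb_mul (S : H →ₗᵢ[ℂ] H) (h : H) (z : Circle) (N k : ℕ) :
    ‖∑ a ∈ Finset.range (k * N), ch z (-(a : ℤ)) • (⇑S)^[a] h‖ ≤
      k * ‖∑ a ∈ Finset.range N, ch z (-(a : ℤ)) • (⇑S)^[a] h‖ := by
  induction k with
  | zero => simp
  | succ k ih =>
    rw [Nat.succ_mul, Finset.sum_range_add]
    have e : ∑ x ∈ Finset.range N, ch z (-((k * N + x : ℕ) : ℤ)) • (⇑S)^[k * N + x] h =
        ch z (-((k * N : ℕ) : ℤ)) • (⇑S)^[k * N]
          (∑ a ∈ Finset.range N, ch z (-(a : ℤ)) • (⇑S)^[a] h) := by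
      rw [hb_iter_sum, Finset.smul_sum]
      refine Finset.sum_congr rfl fun x _ => ?_
      rw [hb_iter_smul, smul_smul, ← ch_add, Function.iterate_add_apply]
      congr 2
      push_cast
      ring
    rw [e]
    refine (norm_add_le _ _).trans ?_
    rw [norm_smul, norm_ch, one_mul, hb_iter_norm]
    push_cast
    linarith

theorem hb_avg (S : H →ₗᵢ[ℂ] H) (h : H) (z : Circle) (N k : ℕ) (hk : 0 < k) :
    ‖((k * N : ℕ) : ℂ)⁻¹ • ∑ a ∈ Finset.range (k * N), ch z (-(a : ℤ)) • (⇑S)^[a] h‖ ≤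
      ‖(N : ℂ)⁻¹ • ∑ a ∈ Finset.range N, ch z (-(a : ℤ)) • (⇑S)^[a] h‖ := by
  rw [norm_smul, norm_smul, norm_inv, norm_inv, Complex.norm_natCast, Complex.norm_natCast]
  have h1 := hb_mul S h z N k
  have hk' : (0 : ℝ) < k := by exact_mod_cast hk
  calc ((k * N : ℕ) : ℝ)⁻¹ * ‖∑ a ∈ Finset.range (k * N), ch z (-(a : ℤ)) • (⇑S)^[a] h‖
      ≤ ((k * N : ℕ) : ℝ)⁻¹ * (k * ‖∑ a ∈ Finset.range N, ch z (-(a : ℤ)) • (⇑S)^[a] h‖) :=
        mul_le_mul_of_nonneg_left h1 (by positivity)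
    _ = (N : ℝ)⁻¹ * ‖∑ a ∈ Finset.range N, ch z (-(a : ℤ)) • (⇑S)^[a] h‖ := by
        rw [← mul_assoc]
        congr 1
        push_cast
        rw [mul_inv]
        field_simp

theorem hb_ch_cont (v : ℤ) : Continuous (fun z : Circle => ch z v) :=
  continuous_subtype_val.comp (continuous_zpow v)

theorem hb_cont (S : H →ₗᵢ[ℂ] H) (h : H) (N : ℕ) : Continuous (fun z : Circle =>
    ‖(N : ℂ)⁻¹ • ∑ a ∈ Finset.range N, ch z (-(a : ℤ)) • (⇑S)^[a] h‖) := by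
  refine (Continuous.const_smul (continuous_finsetSum _ fun a _ => ?_) _).norm
  exact (hb_ch_cont _).smul continuous_const

end HB

theorem dini {H : Type} [NormedAddCommGroup H] [InnerProductSpace ℂ H] (S : H →ₗᵢ[ℂ] H) (h : H)
    (η : ℝ) (hη : ∀ z : Circle, ∃ N : ℕ, 0 < N ∧
      ‖(N : ℂ)⁻¹ • ∑ a ∈ Finset.range N, ch z (-(a : ℤ)) • (⇑S)^[a] h‖ < η) :
    ∃ N : ℕ, 0 < N ∧ ∀ z : Circle,
      ‖(N : ℂ)⁻¹ • ∑ a ∈ Finset.range N, ch z (-(a : ℤ)) • (⇑S)^[a] h‖ ≤ η := by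
  classical
  choose N hN hlt using hη
  obtain ⟨t, -, ht⟩ := isCompact_univ.elim_nhds_subcover
    (fun z : Circle => {w : Circle |
      ‖(N z : ℂ)⁻¹ • ∑ a ∈ Finset.range (N z), ch w (-(a : ℤ)) • (⇑S)^[a] h‖ < η})
    (fun z _ => (isOpen_lt (hb_cont S h (N z)) continuous_const).mem_nhds (hlt z))
  refine ⟨∏ z ∈ t, N z, Finset.prod_pos fun z _ => hN z, fun w => ?_⟩
  have hw := ht (Set.mem_univ w)
  rw [Set.mem_iUnion₂] at hw
  obtain ⟨z, hz, hwz⟩ := hw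
  rw [← Finset.prod_erase_mul t N hz]
  refine (hb_avg S h w (N z) _ (Finset.prod_pos fun z _ => hN z)).trans ?_
  exact le_of_lt hwz


theorem hb_shift {H : Type} [NormedAddCommGroup H] [InnerProductSpace ℂ H]
    (ι : (ℤ → ℂ) →ₗ[ℂ] H) (S : H →ₗᵢ[ℂ] H)
    (hS : ∀ f : ℤ → ℂ, Bd f → ι (fun x => f (x + 1)) = S (ι f)) (f : ℤ → ℂ) (hf : Bd f) (a : ℕ) :
    ι (fun x => f (x + a)) = (⇑S)^[a] (ι f) := by
  induction a with
  | zero => simp
  | succ a ih =>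
    rw [Function.iterate_succ_apply', ← ih, ← hS _ (hf.comp _)]
    congr 1
    ext x
    congr 1
    push_cast
    ring

theorem iota_tav {H : Type} [NormedAddCommGroup H] [InnerProductSpace ℂ H]
    (ι : (ℤ → ℂ) →ₗ[ℂ] H) (S : H →ₗᵢ[ℂ] H)
    (hS : ∀ f : ℤ → ℂ, Bd f → ι (fun x => f (x + 1)) = S (ι f)) (f : ℤ → ℂ) (hf : Bd f)
    (z : Circle) (N : ℕ) :
    ι (tav z N f) = (N : ℂ)⁻¹ • ∑ a ∈ Finset.range N, ch z (-(a : ℤ)) • (⇑S)^[a] (ι f) := by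
  have e : tav z N f = (N : ℂ)⁻¹ • ∑ a ∈ Finset.range N, ch z (-(a : ℤ)) • (fun x => f (x + a)) := by
    ext x
    simp [tav]
  rw [e, map_smul, map_sum]
  congr 1
  refine Finset.sum_congr rfl fun a _ => ?_
  rw [map_smul, hb_shift ι S hS f hf a]


end Pool.Agent.HOM
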