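import Pool.Agent.Lib_helper33.HOM.Defs
import Pool.Agent.Lib_helper33.HOMF.MA
import Pool.Agent.Lib_helper33.HOMF.MB

set_option autoImplicit false

namespace Pool.Agent.HOM

open Filter Topology
open scoped BigOperators ComplexConjugate

/-- the bounded functions -/
def md_V : Submodule ℂ (ℤ → ℂ) where
  carrier := {f | Bd f}
  add_mem' := fun hf hg => hf.add hg
  zero_mem' := ⟨0, fun x => by simp⟩
  smul_mem' := fun c _ hf => (Bd.const c).mul hf

/-- a type synonym without topology -/
def md_B : Type := md_V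

noncomputable instance md_acg : AddCommGroup md_B := inferInstanceAs (AddCommGroup md_V)

noncomputable instance md_mod : Module ℂ md_B := inferInstanceAs (Module ℂ md_V)

/-- the function -/
def md_fn (f : md_B) : ℤ → ℂ := f.1

theorem md_bd (f : md_B) : Bd (md_fn f) := f.2

theorem md_fn_add (f g : md_B) : md_fn (f + g) = md_fn f + md_fn g := rfl

theorem md_fn_smul (c : ℂ) (f : md_B) : md_fn (c • f) = c • md_fn f := rfl

theorem md_conj (m : Mn ℤ) (f : ℤ → ℂ) : conj (m.C f) = m.C (fun x => conj (f x)) := by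
  have h : (fun x => (conj (f x)).im) = -fun x => (f x).im := by
    ext x; simp
  simp only [Mn.C, LinearMap.coe_mk, AddHom.coe_mk]
  rw [h, map_neg]
  simp

/-- the form -/
@[instance_reducible]
noncomputable def md_core (m : Mn ℤ) : PreInnerProductSpace.Core ℂ md_B where
  inner f g := m.C (fun x => conj (md_fn f x) * md_fn g x)
  conj_inner_symm f g := by
    rw [md_conj]
    congr 1
    ext x
    simp [mul_comm]
  re_inner_nonneg f := by
    rw [C_self m (md_bd f)]
    simp only [RCLike.re_to_complex, Complex.ofReal_re]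
    positivity
  add_left f g h := by
    rw [← map_add]
    congr 1
    ext x
    simp only [md_fn_add, Pi.add_apply, map_add]
    ring
  smul_left f g r := by
    rw [← smul_eq_mul, ← map_smul]
    congr 1
    ext x
    simp only [md_fn_smul, Pi.smul_apply, smul_eq_mul, map_mul]
    ring

/-- the shift -/
def md_sh (f : md_B) : md_B := ⟨fun x => md_fn f (x + 1), (md_bd f).comp _⟩

theorem gns (m : Mn ℤ) (hm : m.Inv) : ∃ (H : Type) (_ : NormedAddCommGroup H)
    (_ : InnerProductSpace ℂ H) (_ : CompleteSpace H) (ι : (ℤ → ℂ) →ₗ[ℂ] H) (S : H →ₗᵢ[ℂ] H),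
    (∀ f g : ℤ → ℂ, Bd f → Bd g → inner ℂ (ι f) (ι g) = m.C (fun x => conj (f x) * g x)) ∧
    (∀ f : ℤ → ℂ, Bd f → ‖ι f‖ = nrm m f) ∧
    (∀ f : ℤ → ℂ, Bd f → ι (fun x => f (x + 1)) = S (ι f)) := by
  let i1 : SeminormedAddCommGroup md_B :=
    @InnerProductSpace.Core.toSeminormedAddCommGroup ℂ md_B _ _ _ (md_core m)
  let i2 : InnerProductSpace ℂ md_B := InnerProductSpace.ofCore (md_core m)
  have hin : ∀ f g : md_B, inner ℂ f g = m.C (fun x => conj (md_fn f x) * md_fn g x) :=
    fun _ _ => rfl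
  let e : md_B →ₗᵢ[ℂ] UniformSpace.Completion md_B := UniformSpace.Completion.toComplₗᵢ
  obtain ⟨ι, hι⟩ := LinearMap.exists_extend (p := md_V) (e.toLinearMap : md_B →ₗ[ℂ] _)
  have hι' : ∀ f : md_B, ι (md_fn f) = e f := fun f => LinearMap.congr_fun hι f
  let T0 : md_B →ₗ[ℂ] md_B :=
    { toFun := md_sh
      map_add' := fun f g => rfl
      map_smul' := fun c f => rfl }
  have hT0 : ∀ f : md_B, ‖T0 f‖ = ‖f‖ := by
    intro f
    have h1 : inner ℂ (T0 f) (T0 f) = inner ℂ f f := by
      rw [hin, hin]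
      exact C_shift m hm ((md_bd f).conj.mul (md_bd f)) 1
    rw [@norm_eq_sqrt_re_inner ℂ, @norm_eq_sqrt_re_inner ℂ _ _ _ _ f, h1]
  let T1 : md_B →ₗᵢ[ℂ] md_B := ⟨T0, hT0⟩
  let F : md_B →L[ℂ] UniformSpace.Completion md_B := (e.comp T1).toContinuousLinearMap
  have hd : DenseRange e := UniformSpace.Completion.denseRange_coe
  have hu : IsUniformInducing e := UniformSpace.Completion.isUniformInducing_coe md_B
  let S : UniformSpace.Completion md_B →L[ℂ] UniformSpace.Completion md_B :=
    F.extend e.toContinuousLinearMap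
  have hS : ∀ f : md_B, S (e f) = e (T1 f) := by
    intro f
    exact ContinuousLinearMap.extend_eq F hd hu f
  have hSn : ∀ x, ‖S x‖ = ‖x‖ := by
    intro x
    induction x using UniformSpace.Completion.induction_on with
    | hp => exact isClosed_eq S.continuous.norm continuous_norm
    | ih f =>
      have h1 := hS f
      have h2 : ‖S (e f)‖ = ‖e f‖ := by
        rw [h1, e.norm_map, T1.norm_map, e.norm_map]
      exact h2
  refine ⟨UniformSpace.Completion md_B, inferInstance, inferInstance, inferInstance, ι,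
    ⟨S.toLinearMap, hSn⟩, ?_, ?_, ?_⟩
  · intro f g hf hg
    have h1 := hι' ⟨f, hf⟩
    have h2 := hι' ⟨g, hg⟩
    have h3 : inner ℂ (ι f) (ι g) = inner ℂ (e ⟨f, hf⟩) (e ⟨g, hg⟩) := by
      rw [← h1, ← h2]; rfl
    rw [h3, e.inner_map_map]
    rfl
  · intro f hf
    have h1 := hι' ⟨f, hf⟩
    have h3 : ‖ι f‖ = ‖e ⟨f, hf⟩‖ := by
      rw [← h1]; rfl
    rw [h3, e.norm_map, @norm_eq_sqrt_re_inner ℂ, hin, C_self m (md_bd _)]
    simp only [RCLike.re_to_complex, Complex.ofReal_re]
    rw [Real.sqrt_sq (nrm_nonneg m _)]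
    rfl
  · intro f hf
    have h1 := hι' ⟨f, hf⟩
    have h2 := hι' (T1 ⟨f, hf⟩)
    have h3 := hS ⟨f, hf⟩
    rw [← h1, ← h2] at h3
    exact h3.symm

end Pool.Agent.HOM
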