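import Pool.Agent.Lib_helper33.HOM.Defs
import Pool.Agent.Lib_helper33.HOMF.HA
import Pool.Agent.Lib_helper33.HOMF.HB
import Pool.Agent.Lib_helper33.HOMF.KC
import Pool.Agent.Lib_helper33.HOMF.MB
import Pool.Agent.Lib_helper33.HOMF.MD

/-!
# Half of the multiples, block SA: twisted averages are approximate eigenfunctions
-/

set_option autoImplicit false

namespace Pool.Agent.HOM

open Filter Topology
open scoped BigOperators ComplexConjugate

theorem sa_shift {H : Type} [NormedAddCommGroup H] [InnerProductSpace ℂ H]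
    (ι : (ℤ → ℂ) →ₗ[ℂ] H) (S : H →ₗᵢ[ℂ] H)
    (hS : ∀ f : ℤ → ℂ, Bd f → ι (fun x => f (x + 1)) = S (ι f)) {E : ℤ → ℂ} (hE : Bd E)
    (n : ℕ) : ι (fun x => E (x + n)) = (⇑S)^[n] (ι E) := by
  induction n with
  | zero =>
    have : (fun x : ℤ => E (x + ((0 : ℕ) : ℤ))) = E := by
      funext x
      simp
    rw [this]
    rfl
  | succ n ih =>
    have h1 : (fun x : ℤ => E (x + ((n + 1 : ℕ) : ℤ))) =
        fun x => (fun y : ℤ => E (y + n)) (x + 1) := by
      funext x
      show E _ = E _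
      congr 1
      push_cast
      ring
    rw [h1, hS _ (hE.comp fun y : ℤ => y + n), ih, Function.iterate_succ_apply']

theorem sa_eig {H : Type} [NormedAddCommGroup H] [InnerProductSpace ℂ H] (S : H →ₗᵢ[ℂ] H)
    (z : Circle) (g : H) (hg : S g = (z : ℂ) • g) (n : ℕ) : (⇑S)^[n] g = ch z n • g := by
  induction n with
  | zero => simp
  | succ n ih =>
    have h1 : ch z ((n + 1 : ℕ) : ℤ) = ch z n * (z : ℂ) := by
      rw [← ch_one z, ← ch_add]
      push_cast
      rfl
    rw [Function.iterate_succ_apply', ih, map_smul, hg, smul_smul, h1]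

theorem sa_dist {H : Type} [NormedAddCommGroup H] [InnerProductSpace ℂ H] (S : H →ₗᵢ[ℂ] H)
    (a g : H) (n : ℕ) : ‖(⇑S)^[n] a - (⇑S)^[n] g‖ = ‖a - g‖ := by
  induction n with
  | zero => rfl
  | succ n ih =>
    rw [Function.iterate_succ_apply', Function.iterate_succ_apply', ← map_sub, S.norm_map, ih]

/-- In the Hilbert space of `m` (`gns`, `spectral`, `iota_tav`): `ι (tav z N f) → P z (ι f) =: g`,
`S^[v] g = z^v g`, so for `v ≥ 0` the norm is `‖S^[v] ι E - z^v ι E‖ ≤ 2 ‖ι E - g‖ → 0`. For `v < 0`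
translate by `-v` (`nrm_shift`) and multiply by a unimodular number. -/
theorem tav_eig (m : Mn ℤ) (hm : m.Inv) {f : ℤ → ℂ} (hf : Bd f) (z : Circle) (τ : ℝ)
    (hτ : 0 < τ) :
    ∃ N₀ : ℕ, 0 < N₀ ∧ ∀ N ≥ N₀, Eig m z τ (tav z N f) := by
  obtain ⟨H, _, _, _, ι, S, -, h2, h3⟩ := gns m hm
  obtain ⟨P, hP, hPS, -⟩ := spectral S
  have hlim := hP z (ι f)
  rw [Metric.tendsto_atTop] at hlim
  obtain ⟨N₁, hN₁⟩ := hlim (τ / 2) (half_pos hτ)
  refine ⟨max N₁ 1, lt_max_of_lt_right one_pos, fun N hN => ?_⟩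
  have hE := Bd_tav z N hf
  have hd : ‖ι (tav z N f) - P z (ι f)‖ ≤ τ / 2 := by
    rw [iota_tav ι S h3 f hf z N, ← dist_eq_norm]
    exact (hN₁ N (le_trans (le_max_left _ _) hN)).le
  generalize tav z N f = E at hE hd
  have hn : ∀ n : ℕ, nrm m (fun x => E (x + n) - ch z n * E x) ≤ τ := by
    intro n
    have hb : Bd (fun x : ℤ => E (x + n) - ch z n * E x) :=
      (hE.comp fun x : ℤ => x + n).sub ((Bd.const (ch z n)).mul hE)
    rw [← h2 _ hb]
    have h4 : (fun x : ℤ => E (x + n) - ch z n * E x) =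
        (fun x : ℤ => E (x + n)) - ch z n • E := by
      funext x
      rfl
    rw [h4, map_sub, map_smul, sa_shift ι S h3 hE n]
    have h5 : (⇑S)^[n] (ι E) - ch z n • ι E =
        ((⇑S)^[n] (ι E) - (⇑S)^[n] (P z (ι f))) - ch z n • (ι E - P z (ι f)) := by
      rw [sa_eig S z _ (hPS z _) n, smul_sub]
      abel
    rw [h5]
    refine (norm_sub_le _ _).trans ?_
    rw [sa_dist, norm_smul, norm_ch, one_mul]
    linarith
  intro v
  obtain ⟨n, hn' | hn'⟩ := v.eq_nat_or_neg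
  · rw [hn']
    exact hn n
  · rw [hn']
    have hb : Bd (fun x : ℤ => E (x + -(n : ℤ)) - ch z (-(n : ℤ)) * E x) :=
      (hE.comp fun x : ℤ => x + -(n : ℤ)).sub ((Bd.const (ch z (-(n : ℤ)))).mul hE)
    have h6 := nrm_shift m hm hb n
    rw [← h6]
    have h7 : (fun x : ℤ => E (x + n + -(n : ℤ)) - ch z (-(n : ℤ)) * E (x + n)) =
        fun x : ℤ => -ch z (-(n : ℤ)) * (E (x + n) - ch z n * E x) := by
      funext x
      have h8 : x + n + -(n : ℤ) = x := by ring
      have h9 := ch_mul_neg z n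
      rw [h8]
      linear_combination (-E x) * h9
    rw [h7, nrm_const_mul, norm_neg, norm_ch, one_mul]
    exact hn n

end Pool.Agent.HOM
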