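import Pool.Agent.Lib_helper33.HOM.Defs
import Pool.Agent.Lib_helper33.HOMF.KC
import Pool.Agent.Lib_helper33.HOMF.MA
import Pool.Agent.Lib_helper33.HOMF.MB
import Pool.Agent.Lib_helper33.HOMF.SA

/-! Block SF: local densities in residue classes. -/

set_option autoImplicit false

namespace Pool.Agent.HOM

open Filter Topology
open scoped BigOperators ComplexConjugate

theorem dn_rng (M N : ℕ) (hN : 0 < N) {f : ℤ → ℝ} (hf : ∀ x, 0 ≤ f x ∧ f x ≤ 1) (x : ℤ) :
    0 ≤ dn M N f x ∧ dn M N f x ≤ 1 := by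
  have hNr : (0:ℝ) < N := by exact_mod_cast hN
  unfold dn
  refine ⟨mul_nonneg (inv_nonneg.2 hNr.le) (Finset.sum_nonneg fun s _ => (hf _).1), ?_⟩
  rw [inv_mul_le_iff₀ hNr]
  refine (Finset.sum_le_sum fun s _ => (hf _).2).trans ?_
  simp

theorem dn_mean (m : Mn ℤ) (hm : m.Inv) (M N : ℕ) (hN : 0 < N) {f : ℤ → ℝ} (hf : Bd f) :
    m.L (dn M N f) = m.L f := by
  have hNr : (0:ℝ) < N := by exact_mod_cast hN
  have h1 : dn M N f = (N : ℝ)⁻¹ • ∑ s ∈ Finset.range N, fun x => f (x + (M : ℤ) * s) := by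
    funext x
    simp [dn]
  rw [h1, map_smul, map_sum]
  have h2 : ∀ s ∈ Finset.range N, m.L (fun x => f (x + (M : ℤ) * s)) = m.L f :=
    fun s _ => L_shift m hm hf _
  rw [Finset.sum_congr rfl h2, Finset.sum_const, Finset.card_range, nsmul_eq_mul, smul_eq_mul]
  field_simp

/-- a primitive root of unity on the circle -/
theorem sf_prim (M : ℕ) (hM : 0 < M) : ∃ ζ : Circle, IsPrimitiveRoot (ζ : ℂ) M := by
  refine ⟨Circle.exp (2 * Real.pi / M), ?_⟩
  have h := Complex.isPrimitiveRoot_exp M hM.ne'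
  rw [Circle.coe_exp]
  convert h using 2
  push_cast
  ring

theorem sf_orth (M : ℕ) (hM : 0 < M) (Z : Finset Circle) (hZ : ∀ z : Circle, z ∈ Z ↔ z ^ M = 1)
    (s : ℕ) : ∑ z ∈ Z, ch z (-(s : ℤ)) = if M ∣ s then (M : ℂ) else 0 := by
  classical
  obtain ⟨ζ, hζ⟩ := sf_prim M hM
  have hζ1 : ζ ^ M = 1 := by
    apply Circle.ext
    rw [Circle.coe_pow, Circle.coe_one]
    exact hζ.pow_eq_one
  have hZi : Z = (Finset.range M).image fun i => ζ ^ i := by
    ext z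
    rw [hZ, Finset.mem_image]
    constructor
    · intro hz
      have h1 : (z : ℂ) ^ M = 1 := by
        rw [← Circle.coe_pow, hz, Circle.coe_one]
      have : NeZero M := ⟨hM.ne'⟩
      obtain ⟨i, hi, hiz⟩ := hζ.eq_pow_of_pow_eq_one h1
      refine ⟨i, Finset.mem_range.2 hi, ?_⟩
      apply Circle.ext
      rw [Circle.coe_pow]
      exact hiz
    · rintro ⟨i, -, rfl⟩
      rw [← pow_mul, mul_comm, pow_mul, hζ1, one_pow]
  have hinj : Set.InjOn (fun i : ℕ => ζ ^ i) (Finset.range M : Set ℕ) := by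
    intro i hi j hj hij
    refine hζ.pow_inj (Finset.mem_range.1 hi) (Finset.mem_range.1 hj) ?_
    have := congrArg (fun z : Circle => (z : ℂ)) hij
    simpa using this
  rw [hZi, Finset.sum_image hinj]
  have h2 : ∀ i : ℕ, ch (ζ ^ i) (-(s : ℤ)) = (ch ζ (-(s : ℤ))) ^ i := by
    intro i
    rw [ch_eq, ch_eq, Circle.coe_pow, ← zpow_natCast, ← zpow_natCast, ← zpow_mul, ← zpow_mul,
      mul_comm]
  rw [Finset.sum_congr rfl fun i _ => h2 i]
  have h3 : ch ζ (-(s : ℤ)) = ((ζ : ℂ) ^ s)⁻¹ := by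
    rw [ch_eq, zpow_neg, zpow_natCast]
  split_ifs with hs
  · have h4 : (ζ : ℂ) ^ s = 1 := (hζ.pow_eq_one_iff_dvd s).2 hs
    rw [h3, h4, inv_one]
    simp
  · have h4 : (ζ : ℂ) ^ s ≠ 1 := fun h => hs ((hζ.pow_eq_one_iff_dvd s).1 h)
    have h5 : ch ζ (-(s : ℤ)) ≠ 1 := by
      rw [h3]
      intro h
      exact h4 (by rw [← inv_inv ((ζ : ℂ) ^ s), h, inv_one])
    have h6 : ch ζ (-(s : ℤ)) ^ M = 1 := by
      rw [h3, inv_pow, ← pow_mul, mul_comm, pow_mul, hζ.pow_eq_one, one_pow, inv_one]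
    rw [geom_sum_eq h5, h6, sub_self, zero_div]

/-- Orthogonality of characters: `∑_{z^M = 1} z^(-s)` is `M` if `M ∣ s` and `0` otherwise. -/
theorem dn_eq (M N : ℕ) (hM : 0 < M) (hN : 0 < N) (Z : Finset Circle) (hZ : ∀ z : Circle,
    z ∈ Z ↔ z ^ M = 1) (f : ℤ → ℝ) (x : ℤ) :
    ∑ z ∈ Z, tav z (M * N) (fun y => (f y : ℂ)) x = (dn M N f x : ℂ) := by
  have hNr : (N : ℂ) ≠ 0 := by exact_mod_cast hN.ne'
  have hMr : (M : ℂ) ≠ 0 := by exact_mod_cast hM.ne'
  unfold tav dn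
  rw [← Finset.mul_sum, Finset.sum_comm]
  have h1 : ∀ s ∈ Finset.range (M * N), ∑ z ∈ Z, ch z (-(s : ℤ)) * (f (x + s) : ℂ) =
      (if M ∣ s then (M : ℂ) * f (x + s) else 0) := by
    intro s _
    rw [← Finset.sum_mul, sf_orth M hM Z hZ s]
    split_ifs <;> simp
  rw [Finset.sum_congr rfl h1, ← Finset.sum_filter]
  have h2 : (Finset.range (M * N)).filter (fun s => M ∣ s) =
      (Finset.range N).image fun t => M * t := by
    ext s
    rw [Finset.mem_filter, Finset.mem_range, Finset.mem_image]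
    constructor
    · rintro ⟨h3, t, rfl⟩
      exact ⟨t, Finset.mem_range.2 (Nat.lt_of_mul_lt_mul_left h3), rfl⟩
    · rintro ⟨t, ht, rfl⟩
      exact ⟨Nat.mul_lt_mul_of_pos_left (Finset.mem_range.1 ht) hM, dvd_mul_right _ _⟩
  rw [h2, Finset.sum_image (fun a _ b _ hab => Nat.eq_of_mul_eq_mul_left hM hab)]
  push_cast
  rw [← Finset.mul_sum]
  field_simp

/-- By `dn_eq` and `tav_eig` with `τ / M` for each of the `M` roots of unity, as `z^k = 1`. -/
theorem dn_shift (m : Mn ℤ) (hm : m.Inv) (M : ℕ) (hM : 0 < M) {f : ℤ → ℝ}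
    (hf : ∀ x, 0 ≤ f x ∧ f x ≤ 1) (τ : ℝ) (hτ : 0 < τ) : ∃ N₀ : ℕ, ∀ N ≥ N₀, ∀ k : ℤ,
      (M : ℤ) ∣ k → nrm m (fun x => dn M N f (x + k) - dn M N f x) ≤ τ := by
  classical
  have hMr : (0:ℝ) < M := by exact_mod_cast hM
  obtain ⟨ζ, hζ⟩ := sf_prim M hM
  -- the set of roots of unity
  obtain ⟨Z, hZ⟩ : ∃ Z : Finset Circle, ∀ z : Circle, z ∈ Z ↔ z ^ M = 1 := by
    refine ⟨(Finset.range M).image fun i => ζ ^ i, fun z => ?_⟩
    rw [Finset.mem_image]
    constructor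
    · rintro ⟨i, -, rfl⟩
      apply Circle.ext
      rw [Circle.coe_pow, Circle.coe_pow, ← pow_mul, mul_comm, pow_mul, hζ.pow_eq_one, one_pow,
        Circle.coe_one]
    · intro hz
      have h1 : (z : ℂ) ^ M = 1 := by
        rw [← Circle.coe_pow, hz, Circle.coe_one]
      have : NeZero M := ⟨hM.ne'⟩
      obtain ⟨i, hi, hiz⟩ := hζ.eq_pow_of_pow_eq_one h1
      refine ⟨i, Finset.mem_range.2 hi, ?_⟩
      apply Circle.ext
      rw [Circle.coe_pow]
      exact hiz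
  have hZc : (Z.card : ℝ) ≤ M := by
    have h1 := sf_orth M hM Z hZ 0
    simp only [Nat.cast_zero, neg_zero, ch_zero, Finset.sum_const, nsmul_eq_mul, mul_one,
      dvd_zero, if_true] at h1
    have h2 : Z.card = M := by exact_mod_cast h1
    rw [h2]
  have hfb : Bd f := Bd.of_mem_Icc hf
  have hfc : Bd (fun y => (f y : ℂ)) := hfb.ofReal
  choose N₀ hN₀ hE using fun z : Circle => tav_eig m hm hfc z (τ / M) (by positivity)
  refine ⟨∑ z ∈ Z, N₀ z + 1, fun N hN k hk => ?_⟩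
  have hN0 : 0 < N := by omega
  rw [← nrm_ofReal]
  have h1 : (fun x => ((dn M N f (x + k) - dn M N f x : ℝ) : ℂ)) =
      fun x => ∑ z ∈ Z, (tav z (M * N) (fun y => (f y : ℂ)) (x + k) -
        ch z k * tav z (M * N) (fun y => (f y : ℂ)) x) := by
    funext x
    rw [Complex.ofReal_sub, ← dn_eq M N hM hN0 Z hZ f (x + k), ← dn_eq M N hM hN0 Z hZ f x,
      ← Finset.sum_sub_distrib]
    refine Finset.sum_congr rfl fun z hz => ?_
    have h2 : ch z k = 1 := by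
      obtain ⟨l, rfl⟩ := hk
      have h3 : z ^ ((M : ℤ) * l) = 1 := by
        rw [zpow_mul, zpow_natCast, (hZ z).1 hz, one_zpow]
      unfold ch
      rw [h3, Circle.coe_one]
    rw [h2, one_mul]
  rw [h1]
  have h2 : ∀ z ∈ Z, Bd (fun x => tav z (M * N) (fun y => (f y : ℂ)) (x + k) -
      ch z k * tav z (M * N) (fun y => (f y : ℂ)) x) := by
    intro z _
    have h3 := Bd_tav z (M * N) hfc
    exact (h3.comp (fun x => x + k)).sub ((Bd.const (ch z k)).mul h3)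
  refine (nrm_sum m Z h2).trans ?_
  calc ∑ z ∈ Z, nrm m (fun x => tav z (M * N) (fun y => (f y : ℂ)) (x + k) -
        ch z k * tav z (M * N) (fun y => (f y : ℂ)) x) ≤ ∑ z ∈ Z, τ / M := by
        refine Finset.sum_le_sum fun z hz => ?_
        refine hE z (M * N) ?_ k
        have h4 : N₀ z ≤ ∑ z ∈ Z, N₀ z := Finset.single_le_sum (fun _ _ => Nat.zero_le _) hz
        calc N₀ z ≤ N := by omega
          _ ≤ M * N := Nat.le_mul_of_pos_left N hM
    _ = Z.card * (τ / M) := by rw [Finset.sum_const, nsmul_eq_mul]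
    _ ≤ M * (τ / M) := by gcongr
    _ = τ := by field_simp

end Pool.Agent.HOM
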