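import Pool.Agent.Lib_helper33.HOM.Defs

set_option autoImplicit false

namespace Pool.Agent.HOM

open Filter Topology
open scoped BigOperators ComplexConjugate

/-- window average -/
noncomputable def mcA (a : ℕ → ℤ) (N : ℕ → ℕ) (n : ℕ) (g : ℤ → ℝ) : ℝ :=
  (N n : ℝ)⁻¹ * ∑ j ∈ Finset.range (N n), g (a n + j)

theorem mc_abs (a : ℕ → ℤ) (N : ℕ → ℕ) (hN : ∀ n, 0 < N n) (n : ℕ) (g : ℤ → ℝ) (B : ℝ)
    (hB : ∀ x, |g x| ≤ B) : |mcA a N n g| ≤ B := by
  have h0 : (0 : ℝ) < N n := by exact_mod_cast hN n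
  unfold mcA
  rw [abs_mul, abs_of_pos (inv_pos.2 h0)]
  have h1 : |∑ j ∈ Finset.range (N n), g (a n + j)| ≤ (N n : ℝ) * B := by
    refine (Finset.abs_sum_le_sum_abs _ _).trans ?_
    refine (Finset.sum_le_sum fun j _ => hB _).trans ?_
    simp
  calc (N n : ℝ)⁻¹ * |∑ j ∈ Finset.range (N n), g (a n + j)| ≤ (N n : ℝ)⁻¹ * ((N n : ℝ) * B) :=
        mul_le_mul_of_nonneg_left h1 (inv_pos.2 h0).le
    _ = B := by rw [← mul_assoc, inv_mul_cancel₀ h0.ne', one_mul]

theorem mc_lim (a : ℕ → ℤ) (N : ℕ → ℕ) (hN : ∀ n, 0 < N n) (g : ℤ → ℝ) (hg : Bd g) :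
    ∃ x : ℝ, Tendsto (fun n => mcA a N n g) (hyperfilter ℕ : Filter ℕ) (𝓝 x) := by
  obtain ⟨B, hB⟩ := hg
  have h1 : ∀ n, mcA a N n g ∈ Set.Icc (-B) B := fun n => by
    have := mc_abs a N hN n g B hB
    rw [abs_le] at this
    exact this
  obtain ⟨x, _, hx⟩ := (isCompact_Icc (a := -B) (b := B)).ultrafilter_le_nhds
    ((hyperfilter ℕ).map fun n => mcA a N n g) (by
      rw [le_principal_iff]
      change (fun n => mcA a N n g) ⁻¹' Set.Icc (-B) B ∈ (hyperfilter ℕ : Filter ℕ)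
      exact Filter.univ_mem' h1)
  exact ⟨x, hx⟩

/-- the bounded functions -/
def mcW : Submodule ℝ (ℤ → ℝ) where
  carrier := {g | Bd g}
  add_mem' := fun ha hb => ha.add hb
  zero_mem' := Bd.const 0
  smul_mem' := fun c g hg => by
    obtain ⟨B, hB⟩ := hg
    refine ⟨‖c‖ * B, fun x => ?_⟩
    simp only [Pi.smul_apply, norm_smul]
    exact mul_le_mul_of_nonneg_left (hB x) (norm_nonneg _)

/-- Let `a n`, `N n ≥ n`, be the windows, `A n f = (1/N n) ∑_{j < N n} f (a n + j)`. For bounded `f`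
let `L f` be the limit of `A n f` along a free ultrafilter of `ℕ` (`Filter.hyperfilter ℕ`; the values
lie in a compact interval). It is linear on the subspace of bounded functions; extend it to a linear
functional on all functions (`LinearMap.exists_extend`). Positivity, `L 1 = 1`, `c ≤ L f` are clear
and `|A n (f (· + 1)) - A n f| ≤ 2 B / N n → 0` gives invariance. -/
theorem mean_of_windows (f : ℤ → ℝ) (hf : Bd f) (c : ℝ)
    (h : ∀ L : ℕ, ∃ (a : ℤ) (N : ℕ), L ≤ N ∧ 0 < N ∧ c * N ≤ ∑ j ∈ Finset.range N, f (a + j)) :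
    ∃ m : Mn ℤ, m.Inv ∧ c ≤ m.L f := by
  choose a N hNn hN0 hc using h
  have ex : ∀ g : mcW, ∃ x : ℝ, Tendsto (fun n => mcA a N n g.1) (hyperfilter ℕ : Filter ℕ) (𝓝 x) :=
    fun g => mc_lim a N hN0 g.1 g.2
  choose l hl using ex
  let L0 : mcW →ₗ[ℝ] ℝ :=
    { toFun := l
      map_add' := fun g k => by
        refine tendsto_nhds_unique (hl (g + k)) ?_
        refine ((hl g).add (hl k)).congr fun n => ?_
        simp only [mcA, Submodule.coe_add, Pi.add_apply, Finset.sum_add_distrib]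
        ring
      map_smul' := fun r g => by
        refine tendsto_nhds_unique (hl (r • g)) ?_
        refine ((hl g).const_mul r).congr fun n => ?_
        simp only [mcA, Submodule.coe_smul, Pi.smul_apply, smul_eq_mul, ← Finset.mul_sum]
        ring }
  obtain ⟨L, hL⟩ := LinearMap.exists_extend L0
  have key : ∀ g : ℤ → ℝ, Bd g → Tendsto (fun n => mcA a N n g) (hyperfilter ℕ : Filter ℕ)
      (𝓝 (L g)) := fun g hg => by
    have h1 : L g = l ⟨g, hg⟩ := by
      have := congrArg (fun F : mcW →ₗ[ℝ] ℝ => F ⟨g, hg⟩) hL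
      exact this
    rw [h1]
    exact hl ⟨g, hg⟩
  have hpos : ∀ n, (0 : ℝ) < N n := fun n => by exact_mod_cast hN0 n
  refine ⟨⟨L, ?_, ?_⟩, ?_, ?_⟩
  · refine tendsto_nhds_unique (key _ (Bd.const 1)) ?_
    refine tendsto_const_nhds.congr fun n => ?_
    simp only [mcA, Finset.sum_const, Finset.card_range, nsmul_eq_mul, mul_one]
    rw [inv_mul_cancel₀ (hpos n).ne']
  · intro g hg h0
    refine ge_of_tendsto' (key g hg) fun n => ?_
    exact mul_nonneg (inv_pos.2 (hpos n)).le (Finset.sum_nonneg fun j _ => h0 _)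
  · intro g hg
    have h1 := key g hg
    have h2 := key (fun x => g (x + 1)) (hg.comp _)
    have h3 := h2.sub h1
    have h4 : Tendsto (fun n => mcA a N n (fun x => g (x + 1)) - mcA a N n g)
        (hyperfilter ℕ : Filter ℕ) (𝓝 0) := by
      obtain ⟨B, hB⟩ := hg
      have hB0 : 0 ≤ B := (norm_nonneg _).trans (hB 0)
      have h5 : Tendsto (fun n : ℕ => 2 * B * (n : ℝ)⁻¹) (hyperfilter ℕ : Filter ℕ) (𝓝 0) := by
        have h6 : Tendsto (fun n : ℕ => 2 * B * (n : ℝ)⁻¹) atTop (𝓝 (2 * B * 0)) :=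
          (tendsto_inv_atTop_nhds_zero_nat (𝕜 := ℝ)).const_mul (2 * B)
        rw [mul_zero] at h6
        exact h6.mono_left Nat.hyperfilter_le_atTop
      refine squeeze_zero_norm' ?_ h5
      have h7 : ∀ᶠ n in (hyperfilter ℕ : Filter ℕ), 1 ≤ n :=
        Nat.hyperfilter_le_atTop (eventually_ge_atTop 1)
      refine h7.mono fun n hn => ?_
      have h8 : mcA a N n (fun x => g (x + 1)) - mcA a N n g =
          (N n : ℝ)⁻¹ * (g (a n + N n) - g (a n)) := by
        unfold mcA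
        rw [← mul_sub, ← Finset.sum_sub_distrib]
        congr 1
        have h9 := Finset.sum_range_sub (fun j : ℕ => g (a n + j)) (N n)
        simp only [Nat.cast_zero, add_zero] at h9
        rw [← h9]
        refine Finset.sum_congr rfl fun j _ => ?_
        rw [show a n + ((j + 1 : ℕ) : ℤ) = a n + (j : ℤ) + 1 by push_cast; ring]
      rw [h8, norm_mul, Real.norm_of_nonneg (inv_pos.2 (hpos n)).le]
      have h10 : ‖g (a n + N n) - g (a n)‖ ≤ 2 * B := by
        refine (norm_sub_le _ _).trans ?_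
        linarith [hB (a n + N n), hB (a n)]
      have h11 : (N n : ℝ)⁻¹ ≤ (n : ℝ)⁻¹ := by
        refine inv_anti₀ (by exact_mod_cast hn) (by exact_mod_cast hNn n)
      calc (N n : ℝ)⁻¹ * ‖g (a n + N n) - g (a n)‖ ≤ (n : ℝ)⁻¹ * (2 * B) :=
            mul_le_mul h11 h10 (norm_nonneg _) (inv_nonneg.2 (Nat.cast_nonneg n))
        _ = 2 * B * (n : ℝ)⁻¹ := by ring
    have h5 := tendsto_nhds_unique h3 h4
    exact sub_eq_zero.1 h5
  · refine ge_of_tendsto' (key f hf) fun n => ?_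
    unfold mcA
    rw [le_inv_mul_iff₀ (hpos n), mul_comm]
    exact hc n


end Pool.Agent.HOM
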