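import Pool.Agent.Lib_helper33.HOM.Defs
import Pool.Agent.Lib_helper33.HOMF.KC
import Pool.Agent.Lib_helper33.HOMF.MA
import Pool.Agent.Lib_helper33.HOMF.MB

/-!
# Block WA: an inequality of Wiener type
-/

set_option autoImplicit false

namespace Pool.Agent.HOM

open Filter Topology
open scoped BigOperators ComplexConjugate

/-- a primitive root of unity on the circle -/
theorem wa_prim (M : ℕ) (hM : 0 < M) : ∃ z : Circle, IsPrimitiveRoot (z : ℂ) M := by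
  have h := Complex.isPrimitiveRoot_exp M hM.ne'
  have hn : ‖Complex.exp (2 * Real.pi * Complex.I / M)‖ = 1 := by
    have := h.norm'_eq_one hM.ne'
    exact this
  exact ⟨⟨Complex.exp (2 * Real.pi * Complex.I / M), mem_sphere_zero_iff_norm.2 hn⟩, h⟩

theorem wa_orth (M : ℕ) (hM : 0 < M) (z : Circle) (hz : IsPrimitiveRoot (z : ℂ) M) (k : ℤ)
    (hk : |k| < M) : ∑ l ∈ Finset.range M, ch (z ^ (l : ℤ)) k = if k = 0 then (M : ℂ) else 0 := by
  by_cases h0 : k = 0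
  · rw [if_pos h0, h0]
    simp
  · rw [if_neg h0]
    have e : ∀ l : ℕ, ch (z ^ (l : ℤ)) k = ((z : ℂ) ^ k) ^ l := by
      intro l
      rw [ch_zpow, ch_eq, mul_comm, zpow_mul, zpow_natCast]
    simp only [e]
    have hne : (z : ℂ) ^ k ≠ 1 := by
      intro h
      rw [hz.zpow_eq_one_iff_dvd] at h
      have := Int.eq_zero_of_abs_lt_dvd h hk
      exact h0 this
    have hM1 : ((z : ℂ) ^ k) ^ M = 1 := by
      rw [← zpow_natCast, ← zpow_mul, mul_comm, zpow_mul, zpow_natCast, hz.pow_eq_one, one_zpow]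
    have := mul_neg_geom_sum ((z : ℂ) ^ k) M
    rw [hM1, sub_self] at this
    rcases mul_eq_zero.1 this with h | h
    · exact absurd (sub_eq_zero.1 h).symm hne
    · exact h

/-- finite Parseval -/
theorem wa_pars (M : ℕ) (hM : 0 < M) (z : Circle) (hz : IsPrimitiveRoot (z : ℂ) M) (S : Finset ℤ)
    (hS : ∀ k ∈ S, ∀ k' ∈ S, |k - k'| < M) (c : ℤ → ℂ) :
    ∑ l ∈ Finset.range M, ‖∑ k ∈ S, c k * ch (z ^ (l : ℤ)) (-k)‖ ^ 2 =
      M * ∑ k ∈ S, ‖c k‖ ^ 2 := by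
  have hc : ((∑ l ∈ Finset.range M, ‖∑ k ∈ S, c k * ch (z ^ (l : ℤ)) (-k)‖ ^ 2 : ℝ) : ℂ) =
      ((M * ∑ k ∈ S, ‖c k‖ ^ 2 : ℝ) : ℂ) := by
    push_cast
    have e : ∀ l : ℕ, ((‖∑ k ∈ S, c k * ch (z ^ (l : ℤ)) (-k)‖ : ℝ) : ℂ) ^ 2 =
        ∑ k ∈ S, ∑ k' ∈ S, c k * conj (c k') * ch (z ^ (l : ℤ)) (k' - k) := by
      intro l
      rw [← Complex.mul_conj', map_sum, Finset.sum_mul_sum]
      refine Finset.sum_congr rfl fun k _ => Finset.sum_congr rfl fun k' _ => ?_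
      rw [map_mul, ← ch_neg, neg_neg, sub_eq_add_neg, ch_add]
      ring
    simp only [e]
    rw [Finset.sum_comm, Finset.mul_sum]
    refine Finset.sum_congr rfl fun k hk => ?_
    rw [Finset.sum_comm]
    have e2 : ∀ k' ∈ S, ∑ l ∈ Finset.range M, c k * conj (c k') * ch (z ^ (l : ℤ)) (k' - k) =
        if k' = k then (M : ℂ) * (‖c k‖ : ℂ) ^ 2 else 0 := by
      intro k' hk'
      rw [← Finset.mul_sum, wa_orth M hM z hz (k' - k) (hS k' hk' k hk)]
      by_cases h : k' = k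
      · rw [if_pos h, if_pos (by rw [h, sub_self]), h, ← Complex.mul_conj']
        ring
      · rw [if_neg h, if_neg (by omega), mul_zero]
    rw [Finset.sum_congr rfl e2, Finset.sum_ite_eq' S k, if_pos hk]
  exact_mod_cast hc

/-- the Fourier expansion of the squares of the norms of the twisted averages -/
theorem wa_q (m : Mn ℤ) (hm : m.Inv) (U : ℤ → ℂ) (hU : Bd U) (N : ℕ) (z : Circle) :
    ((nrm m (tav z N U) ^ 2 : ℝ) : ℂ) = ∑ k ∈ Finset.Ioo (-(N : ℤ)) N,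
      (((N : ℂ)⁻¹ ^ 2 * ((((Finset.range N ×ˢ Finset.range N).filter
        (fun ab : ℕ × ℕ => (ab.1 : ℤ) - ab.2 = k)).card : ℕ) : ℂ) *
        m.C (fun x => U (x + k) * conj (U x)))) * ch z (-k) := by
  have hsum : ∀ {ι : Type} (s : Finset ι) (f : ι → ℤ → ℂ),
      m.C (fun x => ∑ i ∈ s, f i x) = ∑ i ∈ s, m.C (f i) := by
    intro ι s f
    have : (fun x => ∑ i ∈ s, f i x) = ∑ i ∈ s, f i := by ext x; simp
    rw [this, map_sum]
  have hmul : ∀ (c : ℂ) (f : ℤ → ℂ), m.C (fun x => c * f x) = c * m.C f := by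
    intro c f
    have : (fun x => c * f x) = c • f := by ext x; simp
    rw [this, map_smul, smul_eq_mul]
  have hb : Bd (tav z N U) := Bd_tav z N hU
  rw [← C_self m hb]
  have e1 : ∀ x, conj (tav z N U x) * tav z N U x = ∑ ab ∈ Finset.range N ×ˢ Finset.range N,
      ((N : ℂ)⁻¹ ^ 2 * ch z (-((ab.1 : ℤ) - ab.2))) *
        (U (x + ab.1) * conj (U (x + ab.2))) := by
    intro x
    unfold tav
    rw [map_mul, map_inv₀, Complex.conj_natCast, map_sum]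
    rw [show ∀ a b : ℂ, (N : ℂ)⁻¹ * a * ((N : ℂ)⁻¹ * b) = (N : ℂ)⁻¹ ^ 2 * (b * a) from
      fun a b => by ring, Finset.sum_mul_sum, ← Finset.sum_product', Finset.mul_sum]
    refine Finset.sum_congr rfl fun ab _ => ?_
    rw [map_mul, ← ch_neg, neg_neg, neg_sub, sub_eq_add_neg, ch_add]
    ring
  simp only [e1]
  rw [hsum]
  have e2 : ∀ ab ∈ Finset.range N ×ˢ Finset.range N, m.C (fun x =>
      ((N : ℂ)⁻¹ ^ 2 * ch z (-((ab.1 : ℤ) - ab.2))) * (U (x + ab.1) * conj (U (x + ab.2)))) =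
      (N : ℂ)⁻¹ ^ 2 * ch z (-((ab.1 : ℤ) - ab.2)) *
        m.C (fun x => U (x + ((ab.1 : ℤ) - ab.2)) * conj (U x)) := by
    intro ab _
    rw [hmul]
    congr 1
    have hbd : Bd (fun x => U (x + ((ab.1 : ℤ) - ab.2)) * conj (U x)) :=
      (hU.comp (fun x : ℤ => x + ((ab.1 : ℤ) - ab.2))).mul hU.conj
    rw [← C_shift m hm hbd (ab.2 : ℤ)]
    congr 1
    funext x
    rw [show x + (ab.2 : ℤ) + ((ab.1 : ℤ) - ab.2) = x + ab.1 by ring]
  rw [Finset.sum_congr rfl e2]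
  have hmaps : ∀ ab ∈ Finset.range N ×ˢ Finset.range N, ((ab.1 : ℤ) - ab.2) ∈
      Finset.Ioo (-(N : ℤ)) N := by
    intro ab hab
    rw [Finset.mem_product, Finset.mem_range, Finset.mem_range] at hab
    rw [Finset.mem_Ioo]
    omega
  rw [← Finset.sum_fiberwise_of_maps_to hmaps]
  refine Finset.sum_congr rfl fun k _ => ?_
  have e3 : ∀ ab ∈ (Finset.range N ×ˢ Finset.range N).filter
      (fun ab : ℕ × ℕ => (ab.1 : ℤ) - ab.2 = k), (N : ℂ)⁻¹ ^ 2 * ch z (-((ab.1 : ℤ) - ab.2)) *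
        m.C (fun x => U (x + ((ab.1 : ℤ) - ab.2)) * conj (U x)) =
      (N : ℂ)⁻¹ ^ 2 * ch z (-k) * m.C (fun x => U (x + k) * conj (U x)) := by
    intro ab hab
    rw [(Finset.mem_filter.1 hab).2]
  rw [Finset.sum_congr rfl e3, Finset.sum_const, nsmul_eq_mul]
  ring

theorem wa_card (n : ℕ) (k : ℤ) (hk : k ∈ Finset.Ioo (-(n : ℤ)) n) :
    n ≤ ((Finset.range (2 * n) ×ˢ Finset.range (2 * n)).filter
        (fun ab : ℕ × ℕ => (ab.1 : ℤ) - ab.2 = k)).card := by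
  rw [Finset.mem_Ioo] at hk
  have h : (Finset.range n).card ≤ ((Finset.range (2 * n) ×ˢ Finset.range (2 * n)).filter
        (fun ab : ℕ × ℕ => (ab.1 : ℤ) - ab.2 = k)).card := by
    refine Finset.card_le_card_of_injOn (fun j => (j + k.toNat, j + (-k).toNat)) ?_ ?_
    · intro j hj
      have hj' : j < n := by simpa using hj
      simp only [Finset.coe_filter, Finset.mem_product, Finset.mem_range, Set.mem_ofPred_eq]
      refine ⟨⟨by omega, by omega⟩, by omega⟩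
    · intro i _ j _ hij
      have := congrArg Prod.fst hij
      simp only at this
      omega
  rwa [Finset.card_range] at h

theorem wa_card0 (N : ℕ) : ((Finset.range N ×ˢ Finset.range N).filter
        (fun ab : ℕ × ℕ => (ab.1 : ℤ) - ab.2 = 0)).card = N := by
  have : (Finset.range N ×ˢ Finset.range N).filter
        (fun ab : ℕ × ℕ => (ab.1 : ℤ) - ab.2 = 0) = (Finset.range N).image fun j => (j, j) := by
    ext ⟨a, b⟩
    simp only [Finset.mem_filter, Finset.mem_product, Finset.mem_range, Finset.mem_image,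
      Prod.mk.injEq]
    constructor
    · rintro ⟨⟨h1, _⟩, h2⟩
      exact ⟨a, h1, rfl, by omega⟩
    · rintro ⟨j, h1, h2, h3⟩
      omega
  rw [this, Finset.card_image_of_injective _ (fun a b h => (Prod.mk.inj h).1), Finset.card_range]

/-- `N = 2 n`, `r k = m.C (U (· + k) * conj U)`, so `m.C (U (· + a) * conj (U (· + b))) = r (a - b)`
(`C_shift`). For `z` on the circle `q z := nrm (tav z N U)² =
N^(-2) ∑_{a,b<N} z^(-(a-b)) r (a-b) = ∑_{|k|<N} ((N-|k|)/N²) r k z^(-k)`, a real number in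
`[0, η²]`. Average over the `M = 2N` roots of unity `z^M = 1` (or over `z = exp(2πi l/M)`, `l < M`),
using `∑_{z^M=1} z^k = M` or `0`: `avg q = r 0 / N`, `avg q² = ∑_{|k|<N} ((N-|k|)/N²)² |r k|²`
(finite Parseval), and `avg q² ≤ η² avg q`. For `|k| < n` the coefficient is at least
`(n/N²)² = 1/(4N²)`. So `∑_{|k|<n} |r k|² ≤ 4 N² η² r 0 / N = 8 n η² r 0`, `r 0 ≤ B²`. -/
theorem parseval (m : Mn ℤ) (hm : m.Inv) (U : ℤ → ℂ) (B : ℝ) (hU : ∀ x, ‖U x‖ ≤ B) (n : ℕ)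
    (hn : 0 < n) (η : ℝ) (h : Uni m (2 * n) η U) :
    ∑ k ∈ Finset.Ioo (-(n : ℤ)) n, ‖m.C (fun x => U (x + k) * conj (U x))‖ ^ 2 ≤
      8 * n * η ^ 2 * B ^ 2 := by
  have hUb : Bd U := ⟨B, hU⟩
  set N : ℕ := 2 * n with hN
  have hN0 : 0 < N := by omega
  have hNr : (0 : ℝ) < N := by exact_mod_cast hN0
  have hnr : (0 : ℝ) < n := by exact_mod_cast hn
  set M : ℕ := 2 * N with hM
  have hM0 : 0 < M := by omega
  have hMr : (0 : ℝ) < M := by exact_mod_cast hM0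
  obtain ⟨z, hz⟩ := wa_prim M hM0
  set r : ℤ → ℂ := fun k => m.C (fun x => U (x + k) * conj (U x)) with hr
  set d : ℤ → ℕ := fun k => ((Finset.range N ×ˢ Finset.range N).filter
        (fun ab : ℕ × ℕ => (ab.1 : ℤ) - ab.2 = k)).card with hd
  set c : ℤ → ℂ := fun k => (N : ℂ)⁻¹ ^ 2 * (d k : ℂ) * r k with hc
  set q : ℕ → ℝ := fun l => nrm m (tav (z ^ (l : ℤ)) N U) ^ 2 with hq
  have hqe : ∀ l, ((q l : ℝ) : ℂ) = ∑ k ∈ Finset.Ioo (-(N : ℤ)) N, c k *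
      ch (z ^ (l : ℤ)) (-k) := fun l => wa_q m hm U hUb N (z ^ (l : ℤ))
  have hq0 : ∀ l, 0 ≤ q l := fun l => sq_nonneg _
  have hq1 : ∀ l, q l ≤ η ^ 2 := fun l => by
    have h1 := h (z ^ (l : ℤ))
    exact pow_le_pow_left₀ (nrm_nonneg m _) h1 2
  -- the mean of `q`
  have hr0 : ‖r 0‖ ≤ B ^ 2 := by
    refine norm_C_le_const m (B ^ 2) fun x => ?_
    rw [norm_mul, RCLike.norm_conj, add_zero, sq]
    exact mul_le_mul (hU x) (hU x) (norm_nonneg _) ((norm_nonneg _).trans (hU x))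
  have hs1 : ((∑ l ∈ Finset.range M, q l : ℝ) : ℂ) = M * c 0 := by
    push_cast
    simp only [hqe]
    rw [Finset.sum_comm]
    have e : ∀ k ∈ Finset.Ioo (-(N : ℤ)) N, ∑ l ∈ Finset.range M, c k * ch (z ^ (l : ℤ)) (-k) =
        if k = 0 then (M : ℂ) * c 0 else 0 := by
      intro k hk
      rw [Finset.mem_Ioo] at hk
      rw [← Finset.mul_sum, wa_orth M hM0 z hz (-k) (by rw [abs_neg, abs_lt]; omega)]
      by_cases h0 : k = 0
      · rw [if_pos h0, if_pos (by omega), h0, mul_comm]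
      · rw [if_neg h0, if_neg (by omega), mul_zero]
    rw [Finset.sum_congr rfl e, Finset.sum_ite_eq', if_pos (by rw [Finset.mem_Ioo]; omega)]
  have hc0 : ‖c 0‖ ≤ B ^ 2 / N := by
    have : c 0 = (N : ℂ)⁻¹ ^ 2 * (N : ℂ) * r 0 := by
      rw [hc, hd]
      simp only
      rw [wa_card0 N]
    rw [this, norm_mul, norm_mul, norm_pow, norm_inv, Complex.norm_natCast]
    have e : ((N : ℝ)⁻¹) ^ 2 * N = 1 / N := by field_simp
    rw [e, one_div, ← div_eq_inv_mul]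
    exact div_le_div_of_nonneg_right hr0 hNr.le
  have hS1 : ∑ l ∈ Finset.range M, q l ≤ M * (B ^ 2 / N) := by
    have h1 : ‖((∑ l ∈ Finset.range M, q l : ℝ) : ℂ)‖ ≤ M * (B ^ 2 / N) := by
      rw [hs1, norm_mul, Complex.norm_natCast]
      exact mul_le_mul_of_nonneg_left hc0 hMr.le
    rw [Complex.norm_real, Real.norm_eq_abs] at h1
    exact (le_abs_self _).trans h1
  -- Parseval
  have hS2 : ∑ l ∈ Finset.range M, q l ^ 2 = M * ∑ k ∈ Finset.Ioo (-(N : ℤ)) N, ‖c k‖ ^ 2 := by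
    rw [← wa_pars M hM0 z hz (Finset.Ioo (-(N : ℤ)) N) ?_ c]
    · refine Finset.sum_congr rfl fun l _ => ?_
      rw [← hqe l, Complex.norm_real, Real.norm_eq_abs, sq_abs]
    · intro k hk k' hk'
      rw [Finset.mem_Ioo] at hk hk'
      rw [abs_lt]
      omega
  have hS3 : ∑ l ∈ Finset.range M, q l ^ 2 ≤ η ^ 2 * (M * (B ^ 2 / N)) := by
    calc ∑ l ∈ Finset.range M, q l ^ 2 ≤ ∑ l ∈ Finset.range M, η ^ 2 * q l := by
          refine Finset.sum_le_sum fun l _ => ?_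
          rw [sq]
          exact mul_le_mul_of_nonneg_right (hq1 l) (hq0 l)
      _ = η ^ 2 * ∑ l ∈ Finset.range M, q l := by rw [Finset.mul_sum]
      _ ≤ _ := mul_le_mul_of_nonneg_left hS1 (sq_nonneg _)
  have hS4 : ∑ k ∈ Finset.Ioo (-(N : ℤ)) N, ‖c k‖ ^ 2 ≤ η ^ 2 * (B ^ 2 / N) := by
    rw [hS2] at hS3
    have : (M : ℝ) * ∑ k ∈ Finset.Ioo (-(N : ℤ)) N, ‖c k‖ ^ 2 ≤
        M * (η ^ 2 * (B ^ 2 / N)) := by
      calc _ ≤ η ^ 2 * (M * (B ^ 2 / N)) := hS3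
        _ = _ := by ring
    exact le_of_mul_le_mul_left this hMr
  have hS5 : ∑ k ∈ Finset.Ioo (-(n : ℤ)) n, (((N : ℝ)⁻¹) ^ 2 * n) ^ 2 * ‖r k‖ ^ 2 ≤
      ∑ k ∈ Finset.Ioo (-(N : ℤ)) N, ‖c k‖ ^ 2 := by
    refine le_trans (Finset.sum_le_sum fun k hk => ?_)
      (Finset.sum_le_sum_of_subset_of_nonneg ?_ fun k _ _ => sq_nonneg _)
    · have h1 : (n : ℝ) ≤ d k := Nat.cast_le.2 (wa_card n k hk)
      rw [hc]
      simp only
      rw [norm_mul, norm_mul, norm_pow, norm_inv, Complex.norm_natCast, Complex.norm_natCast,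
        mul_pow _ ‖r k‖]
      refine mul_le_mul_of_nonneg_right ?_ (sq_nonneg _)
      refine pow_le_pow_left₀ (by positivity) ?_ 2
      exact mul_le_mul_of_nonneg_left h1 (by positivity)
    · intro k hk
      rw [Finset.mem_Ioo] at hk ⊢
      omega
  rw [← Finset.mul_sum] at hS5
  have hS6 := hS5.trans hS4
  have hNn : (N : ℝ) = 2 * n := by rw [hN]; push_cast; ring
  have e5 : (((N : ℝ)⁻¹) ^ 2 * n) ^ 2 = 1 / (16 * n ^ 2) := by
    rw [hNn]; field_simp; norm_num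
  rw [e5, hNn] at hS6
  have e6 : ∑ k ∈ Finset.Ioo (-(n : ℤ)) n, ‖r k‖ ^ 2 =
      (16 * n ^ 2) * (1 / (16 * (n : ℝ) ^ 2) * ∑ k ∈ Finset.Ioo (-(n : ℤ)) n, ‖r k‖ ^ 2) := by
    field_simp
  rw [e6]
  calc _ ≤ (16 * (n : ℝ) ^ 2) * (η ^ 2 * (B ^ 2 / (2 * n))) :=
        mul_le_mul_of_nonneg_left hS6 (by positivity)
    _ = 8 * n * η ^ 2 * B ^ 2 := by field_simp; ring

end Pool.Agent.HOM
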