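import Pool.Agent.Lib_helper33.HOM.Defs
import Pool.Agent.Lib_helper33.HOMF.KC
import Pool.Agent.Lib_helper33.HOMF.MA
import Pool.Agent.Lib_helper33.HOMF.MB
import Pool.Agent.Lib_helper33.HOMF.WA

/-!
# Half of the multiples: block WB (the Wiener lemma)
-/

set_option autoImplicit false

namespace Pool.Agent.HOM

open Filter Topology
open scoped BigOperators ComplexConjugate

theorem wb_sum_range_mul {M : Type*} [AddCommMonoid M] (f : ℕ → M) (k N : ℕ) :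
    ∑ s ∈ Finset.range (k * N), f s =
      ∑ i ∈ Finset.range k, ∑ j ∈ Finset.range N, f (i * N + j) := by
  induction k with
  | zero => simp
  | succ k ih => rw [Nat.succ_mul, Finset.sum_range_add, ih, Finset.sum_range_succ]

theorem wb_tav_mul (z : Circle) (k N : ℕ) (U : ℤ → ℂ) (x : ℤ) :
    tav z (k * N) U x = (k : ℂ)⁻¹ * ∑ i ∈ Finset.range k,
      ch z (-((i * N : ℕ) : ℤ)) * tav z N U (x + ((i * N : ℕ) : ℤ)) := by
  simp only [tav]
  rw [wb_sum_range_mul (fun s : ℕ => ch z (-(s : ℤ)) * U (x + s))]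
  rw [Nat.cast_mul, mul_inv, mul_assoc, Finset.mul_sum]
  refine congrArg (fun t => (k : ℂ)⁻¹ * t) (Finset.sum_congr rfl fun i _ => ?_)
  rw [mul_left_comm]
  refine congrArg (fun t => (N : ℂ)⁻¹ * t) ?_
  rw [Finset.mul_sum]
  refine Finset.sum_congr rfl fun j _ => ?_
  rw [← mul_assoc, ← ch_add]
  push_cast
  rw [neg_add, add_assoc]

theorem uni_mul (m : Mn ℤ) (hm : m.Inv) (U : ℤ → ℂ) (hU : Bd U) (N k : ℕ) (hk : 0 < k) (η : ℝ)
    (h : Uni m N η U) : Uni m (k * N) η U := by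
  intro z
  have hT : Bd (tav z N U) := Bd_tav z N hU
  have e : tav z (k * N) U = fun x => (k : ℂ)⁻¹ * ∑ i ∈ Finset.range k,
      ch z (-((i * N : ℕ) : ℤ)) * tav z N U (x + ((i * N : ℕ) : ℤ)) := by
    funext x; exact wb_tav_mul z k N U x
  rw [e, nrm_const_mul]
  have h1 : nrm m (fun x => ∑ i ∈ Finset.range k,
      ch z (-((i * N : ℕ) : ℤ)) * tav z N U (x + ((i * N : ℕ) : ℤ))) ≤
      ∑ i ∈ Finset.range k, nrm m (fun x => ch z (-((i * N : ℕ) : ℤ)) *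
        tav z N U (x + ((i * N : ℕ) : ℤ))) := by
    refine nrm_sum m (Finset.range k)
      (f := fun i x => ch z (-((i * N : ℕ) : ℤ)) * tav z N U (x + ((i * N : ℕ) : ℤ))) ?_
    intro i _
    exact (Bd.const _).mul (hT.comp fun x => x + ((i * N : ℕ) : ℤ))
  have h2 : ∀ i ∈ Finset.range k, nrm m (fun x => ch z (-((i * N : ℕ) : ℤ)) *
        tav z N U (x + ((i * N : ℕ) : ℤ))) ≤ η := by
    intro i _
    rw [nrm_const_mul, norm_ch, one_mul, nrm_shift m hm hT]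
    exact h z
  have h3 := h1.trans (Finset.sum_le_sum h2)
  rw [Finset.sum_const, Finset.card_range, nsmul_eq_mul] at h3
  have hk' : (0 : ℝ) < k := by exact_mod_cast hk
  rw [norm_inv, Complex.norm_natCast]
  rw [inv_mul_le_iff₀ hk']
  exact h3

/-- The double sum of correlations. -/
theorem wb_corr (r : ℤ → ℂ) (σ N : ℕ) (hσ : 0 < σ) (S : ℝ)
    (hS : ∑ k ∈ Finset.Ioo (-((σ * N : ℕ) : ℤ)) ((σ * N : ℕ) : ℤ), ‖r k‖ ^ 2 ≤ S) :
    ∑ p ∈ Finset.range N ×ˢ Finset.range N, ‖r (σ * ((p.2 : ℤ) - p.1))‖ ^ 2 ≤ N * S := by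
  rw [Finset.sum_product]
  have : ∀ a ∈ Finset.range N, ∑ b ∈ Finset.range N, ‖r (σ * ((b : ℤ) - a))‖ ^ 2 ≤ S := by
    intro a ha
    have ha' : a < N := Finset.mem_range.1 ha
    have hσ' : (σ : ℤ) ≠ 0 := by exact_mod_cast hσ.ne'
    have hinj : Set.InjOn (fun b : ℕ => (σ : ℤ) * ((b : ℤ) - a)) (Finset.range N) := by
      intro b _ b' _ hbb
      have := mul_left_cancel₀ hσ' hbb
      omega
    have e := Finset.sum_image (s := Finset.range N) (f := fun k : ℤ => ‖r k‖ ^ 2)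
      (g := fun b : ℕ => (σ : ℤ) * ((b : ℤ) - a)) hinj
    rw [← e]
    refine le_trans (Finset.sum_le_sum_of_subset_of_nonneg ?_ ?_) hS
    · intro k hk
      obtain ⟨b, hb, rfl⟩ := Finset.mem_image.1 hk
      have hb' : b < N := Finset.mem_range.1 hb
      have hσ0 : (0 : ℤ) < σ := by exact_mod_cast hσ
      rw [Finset.mem_Ioo]
      push_cast
      constructor
      · have : -(N : ℤ) < (b : ℤ) - a := by omega
        nlinarith
      · have : (b : ℤ) - a < (N : ℤ) := by omega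
        nlinarith
    · intro k _ _
      positivity
  calc _ ≤ ∑ a ∈ Finset.range N, S := Finset.sum_le_sum this
    _ = N * S := by simp

theorem wb_pt (m₁ : Mn ℤ) (hm₁ : m₁.Inv) (U g : ℤ → ℂ) (B : ℝ) (hB : 0 ≤ B)
    (hU : ∀ x, ‖U x‖ ≤ 2) (hg : ∀ x, ‖g x‖ ≤ B) (N : ℕ) (hN : 0 < N) (η : ℝ) (hη : 0 ≤ η)
    (h : Uni m₁ N η U) (σ : ℕ) (hσ : 0 < σ) (k : ℤ) (A : ℕ → ℂ)
    (hA : ∀ a, A a = m₁.C (fun x => g x * U (x - k + σ * a))) :
    ∑ a ∈ Finset.range N, ‖A a‖ ^ 2 ≤ B ^ 2 * (6 * σ * η) * N := by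
  set X : ℝ := ∑ a ∈ Finset.range N, ‖A a‖ ^ 2 with hX
  have hX0 : 0 ≤ X := Finset.sum_nonneg fun a _ => by positivity
  have hUb : Bd U := Bd.of_le 2 hU
  have hgb : Bd g := Bd.of_le B hg
  set r : ℤ → ℂ := fun k => m₁.C (fun x => U (x + k) * conj (U x)) with hr
  -- the function `G`
  set G : ℤ → ℂ := fun x => ∑ a ∈ Finset.range N, conj (A a) * U (x - k + σ * a) with hG
  have hVb : ∀ a : ℕ, Bd (fun x : ℤ => U (x - k + σ * a)) := fun a =>
    hUb.comp (fun x : ℤ => x - k + σ * a)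
  have hGb : Bd G := Bd.sum (Finset.range N) (f := fun a x => conj (A a) * U (x - k + σ * a))
    (fun a _ => (Bd.const _).mul (hVb a))
  -- X = C (g G)
  have h1 : m₁.C (fun x => g x * G x) = (X : ℂ) := by
    have e1 : (fun x => g x * G x) = ∑ a ∈ Finset.range N,
        conj (A a) • (fun x => g x * U (x - k + σ * a)) := by
      funext x
      simp only [hG, Finset.mul_sum, Finset.sum_apply, Pi.smul_apply, smul_eq_mul]
      refine Finset.sum_congr rfl fun a _ => by ring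
    rw [e1, map_sum, hX]
    push_cast
    refine Finset.sum_congr rfl fun a _ => ?_
    rw [map_smul, ← hA a, smul_eq_mul, mul_comm, Complex.mul_conj']
  have h2 : X ≤ B * nrm m₁ G := by
    have h3 := C_mul_le m₁ hgb hGb
    rw [h1, Complex.norm_real, Real.norm_eq_abs, abs_of_nonneg hX0] at h3
    exact h3.trans (mul_le_mul_of_nonneg_right (nrm_le m₁ B hB hg) (nrm_nonneg m₁ G))
  -- the norm of G
  have h4 : ((nrm m₁ G ^ 2 : ℝ) : ℂ) = ∑ p ∈ Finset.range N ×ˢ Finset.range N,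
      A p.1 * conj (A p.2) * r (σ * ((p.2 : ℤ) - p.1)) := by
    rw [← C_self m₁ hGb]
    have e1 : (fun x => conj (G x) * G x) = ∑ p ∈ Finset.range N ×ˢ Finset.range N,
        (A p.1 * conj (A p.2)) • (fun x => conj (U (x - k + σ * p.1)) * U (x - k + σ * p.2)) := by
      funext x
      simp only [hG, map_sum, map_mul, Complex.conj_conj, Finset.sum_mul_sum, Finset.sum_apply,
        Pi.smul_apply, smul_eq_mul]
      rw [Finset.sum_product]
      refine Finset.sum_congr rfl fun a _ => Finset.sum_congr rfl fun b _ => by ring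
    rw [e1, map_sum]
    refine Finset.sum_congr rfl fun p _ => ?_
    rw [map_smul, smul_eq_mul]
    congr 1
    have hFb : Bd (fun y : ℤ => U (y + σ * ((p.2 : ℤ) - p.1)) * conj (U y)) :=
      (hUb.comp (fun y : ℤ => y + σ * ((p.2 : ℤ) - p.1))).mul hUb.conj
    have := C_shift m₁ hm₁ hFb (-k + σ * p.1)
    rw [hr]
    simp only
    rw [← this]
    congr 1
    funext x
    rw [mul_comm]
    congr 2
    · ring
    · congr 1
      ring
  have h5 : nrm m₁ G ^ 2 ≤ ∑ p ∈ Finset.range N ×ˢ Finset.range N,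
      (‖A p.1‖ * ‖A p.2‖) * ‖r (σ * ((p.2 : ℤ) - p.1))‖ := by
    have e0 : nrm m₁ G ^ 2 = ‖((nrm m₁ G ^ 2 : ℝ) : ℂ)‖ := by
      rw [Complex.norm_real, Real.norm_eq_abs, abs_of_nonneg (sq_nonneg _)]
    rw [e0, h4]
    refine (norm_sum_le _ _).trans (Finset.sum_le_sum fun p _ => ?_)
    rw [norm_mul, norm_mul, RCLike.norm_conj]
  set R : ℝ := ∑ p ∈ Finset.range N ×ˢ Finset.range N, ‖r (σ * ((p.2 : ℤ) - p.1))‖ ^ 2 with hR
  have hR0 : 0 ≤ R := Finset.sum_nonneg fun a _ => by positivity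
  have h6 : (nrm m₁ G ^ 2) ^ 2 ≤ X ^ 2 * R := by
    have h7 := Finset.sum_mul_sq_le_sq_mul_sq (Finset.range N ×ˢ Finset.range N)
      (fun p => ‖A p.1‖ * ‖A p.2‖) (fun p => ‖r (σ * ((p.2 : ℤ) - p.1))‖)
    have e2 : ∑ p ∈ Finset.range N ×ˢ Finset.range N, (‖A p.1‖ * ‖A p.2‖) ^ 2 = X ^ 2 := by
      rw [sq X, hX, Finset.sum_mul_sum, Finset.sum_product]
      refine Finset.sum_congr rfl fun a _ => Finset.sum_congr rfl fun b _ => by ring
    rw [e2] at h7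
    refine le_trans ?_ h7
    exact pow_le_pow_left₀ (sq_nonneg _) h5 2
  -- the correlations
  have hσN : 0 < σ * N := Nat.mul_pos hσ hN
  have hUni : Uni m₁ (2 * (σ * N)) η U := by
    have := uni_mul m₁ hm₁ U hUb N (2 * σ) (by omega) η h
    rwa [mul_assoc] at this
  have h8 := parseval m₁ hm₁ U 2 hU (σ * N) hσN η hUni
  have h9 := wb_corr r σ N hσ _ h8
  have h10 : R ≤ 32 * σ * N ^ 2 * η ^ 2 := by
    refine h9.trans (le_of_eq ?_)
    push_cast
    ring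
  -- conclusion
  have hσ1 : (1 : ℝ) ≤ σ := by exact_mod_cast hσ
  have hn := nrm_nonneg m₁ G
  rcases hX0.eq_or_lt with h0 | h0
  · rw [← h0]; positivity
  · have h11 : X ^ 4 ≤ B ^ 4 * (X ^ 2 * R) := by
      calc X ^ 4 ≤ (B * nrm m₁ G) ^ 4 := pow_le_pow_left₀ hX0 h2 4
        _ = B ^ 4 * (nrm m₁ G ^ 2) ^ 2 := by ring
        _ ≤ B ^ 4 * (X ^ 2 * R) := mul_le_mul_of_nonneg_left h6 (by positivity)
    have h12 : X ^ 2 ≤ B ^ 4 * R := by
      have hX2 : 0 < X ^ 2 := by positivity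
      have : X ^ 2 * X ^ 2 ≤ X ^ 2 * (B ^ 4 * R) := by nlinarith
      exact le_of_mul_le_mul_left this hX2
    have h13 : X ^ 2 ≤ (B ^ 2 * (6 * σ * η) * N) ^ 2 := by
      refine h12.trans ((mul_le_mul_of_nonneg_left h10 (by positivity)).trans ?_)
      have : (32 : ℝ) * σ ≤ 36 * σ ^ 2 := by nlinarith
      have hq : 0 ≤ B ^ 4 * (N : ℝ) ^ 2 * η ^ 2 := by positivity
      calc B ^ 4 * (32 * σ * N ^ 2 * η ^ 2) = (B ^ 4 * (N : ℝ) ^ 2 * η ^ 2) * (32 * σ) := by ring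
        _ ≤ (B ^ 4 * (N : ℝ) ^ 2 * η ^ 2) * (36 * σ ^ 2) := mul_le_mul_of_nonneg_left this hq
        _ = _ := by ring
    exact abs_le_of_sq_le_sq' h13 (by positivity) |>.2

theorem wiener (m₁ m : Mn ℤ) (hm₁ : m₁.Inv) (hm : m.Inv) (U g : ℤ → ℂ) (B : ℝ) (hB : 0 ≤ B)
    (hU : ∀ x, ‖U x‖ ≤ 2) (hg : ∀ x, ‖g x‖ ≤ B) (N : ℕ) (hN : 0 < N) (η : ℝ) (hη : 0 ≤ η)
    (h : Uni m₁ N η U) (σ : ℕ) (hσ : 0 < σ) (ρ : ℤ) :
    m.L (fun u => ‖m₁.C (fun x => g x * U (x - (ρ + σ * u)))‖) ≤ B * Real.sqrt (6 * σ * η) := by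
  set A : ℤ → ℂ := fun u => m₁.C (fun x => g x * U (x - (ρ + σ * u))) with hA
  have hAb' : ∀ u, ‖A u‖ ≤ B * 2 := fun u => norm_C_le_const m₁ _ fun x => by
    rw [norm_mul]
    exact mul_le_mul (hg x) (hU _) (norm_nonneg _) hB
  have hAb : Bd A := Bd.of_le _ hAb'
  have h1 : m.L (fun u => ‖A u‖) ≤ nrm m A := L_norm_le m hAb
  have hSb : Bd (fun u => ‖A u‖ ^ 2) := hAb.norm.powR 2
  have hN' : (0 : ℝ) < N := by exact_mod_cast hN
  have h2 : (N : ℝ) * m.L (fun u => ‖A u‖ ^ 2) ≤ B ^ 2 * (6 * σ * η) * N := by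
    have e1 : (N : ℝ) * m.L (fun u => ‖A u‖ ^ 2) =
        m.L (fun u => ∑ a ∈ Finset.range N, ‖A (u - a)‖ ^ 2) := by
      have e2 : (fun u => ∑ a ∈ Finset.range N, ‖A (u - a)‖ ^ 2) =
          ∑ a ∈ Finset.range N, (fun u : ℤ => ‖A (u - a)‖ ^ 2) := by
        funext u; simp
      rw [e2, map_sum]
      have e3 : ∀ a ∈ Finset.range N, m.L (fun u : ℤ => ‖A (u - (a : ℕ))‖ ^ 2) =
          m.L (fun u => ‖A u‖ ^ 2) := by
        intro a _
        have := L_shift m hm hSb (-(a : ℤ))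
        rw [← this]
        rfl
      rw [Finset.sum_congr rfl e3, Finset.sum_const, Finset.card_range, nsmul_eq_mul]
    rw [e1]
    refine L_le m _ (Bd.sum (Finset.range N) (f := fun a (u : ℤ) => ‖A (u - a)‖ ^ 2)
      fun a _ => hSb.comp fun u : ℤ => u - a) fun u => ?_
    refine wb_pt m₁ hm₁ U g B hB hU hg N hN η hη h σ hσ (ρ + σ * u) (fun a => A (u - a)) ?_
    intro a
    simp only [hA]
    congr 1
    funext x
    congr 2
    ring
  have h3 : m.L (fun u => ‖A u‖ ^ 2) ≤ B ^ 2 * (6 * σ * η) := by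
    rw [mul_comm _ (N : ℝ)] at h2
    exact le_of_mul_le_mul_left h2 hN'
  refine h1.trans ?_
  rw [nrm, show B * Real.sqrt (6 * σ * η) = Real.sqrt (B ^ 2 * (6 * σ * η)) by
    rw [Real.sqrt_mul (sq_nonneg B), Real.sqrt_sq hB]]
  exact Real.sqrt_le_sqrt h3


end Pool.Agent.HOM
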