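import Pool.Agent.Lib_helper33.HOM.Defs
import Pool.Agent.Lib_helper33.HOMF.KC
import Pool.Agent.Lib_helper33.HOMF.MA
import Pool.Agent.Lib_helper33.HOMF.MB

set_option autoImplicit false

namespace Pool.Agent.HOM

open Filter Topology
open scoped BigOperators ComplexConjugate

theorem corr_eig (m : Mn ℤ) (hm : m.Inv) (U E : ℤ → ℂ) (hU : ∀ x, ‖U x‖ ≤ 2)
    (hE : ∀ x, ‖E x‖ ≤ 1) (N : ℕ) (hN : 0 < N) (η τ : ℝ) (h : Uni m N η U) (z : Circle)
    (hz : Eig m z τ E) : ‖m.C (fun x => U x * E x)‖ ≤ η + 2 * τ := by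
  have hUB : Bd U := ⟨2, hU⟩
  have hEB : Bd E := ⟨1, hE⟩
  have hτ : 0 ≤ τ := (nrm_nonneg m _).trans (hz 0)
  have hchB : ∀ a : ℤ, Bd (fun x : ℤ => ch z a * E x) := fun a => (Bd.const _).mul hEB
  have hdB : ∀ a : ℤ, Bd (fun x : ℤ => E (x + a) - ch z a * E x) := fun a =>
    (hEB.comp _).sub (hchB a)
  have key : ∀ a : ℤ, m.C (fun x => U x * E x) =
      m.C (fun x => ch z a * U (x + a) * E x) +
        m.C (fun x => U (x + a) * (E (x + a) - ch z a * E x)) := by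
    intro a
    rw [← C_shift m hm (hUB.mul hEB) a, ← map_add]
    congr 1
    ext x
    simp only [Pi.add_apply]
    ring
  have hsum : (N : ℂ) * m.C (fun x => U x * E x) =
      (N : ℂ) * m.C (fun x => E x * tav z⁻¹ N U x) +
        ∑ a ∈ Finset.range N, m.C (fun x => U (x + (a : ℤ)) * (E (x + (a : ℤ)) - ch z a * E x)) := by
    have h1 : (N : ℂ) * m.C (fun x => U x * E x) =
        ∑ a ∈ Finset.range N, m.C (fun x => U x * E x) := by simp
    rw [h1, Finset.sum_congr rfl (fun (a : ℕ) _ => key (a : ℤ)), Finset.sum_add_distrib]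
    congr 1
    rw [← map_sum]
    have h2 : (N : ℂ) * m.C (fun x => E x * tav z⁻¹ N U x) =
        m.C ((N : ℂ) • fun x => E x * tav z⁻¹ N U x) := by
      rw [map_smul, smul_eq_mul]
    rw [h2]
    congr 1
    ext x
    have hN' : (N : ℂ) ≠ 0 := by exact_mod_cast hN.ne'
    rw [Finset.sum_apply, Pi.smul_apply, smul_eq_mul, tav]
    have h3 : ∀ s : ℕ, ch z⁻¹ (-(s : ℤ)) = ch z s := by
      intro s
      rw [ch_inv, neg_neg]
    simp only [h3]
    rw [show (N : ℂ) * (E x * ((N : ℂ)⁻¹ * ∑ s ∈ Finset.range N, ch z s * U (x + s))) =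
      ((N : ℂ) * (N : ℂ)⁻¹) * (∑ s ∈ Finset.range N, ch z s * U (x + s)) * E x from by ring,
      mul_inv_cancel₀ hN', one_mul, Finset.sum_mul]
  have hN0 : (0 : ℝ) < N := by exact_mod_cast hN
  have b1 : ‖m.C (fun x => E x * tav z⁻¹ N U x)‖ ≤ η := by
    have h1 := C_mul_le m hEB (Bd_tav z⁻¹ N hUB)
    have h2 : nrm m E ≤ 1 := nrm_le m 1 zero_le_one hE
    have h3 := h z⁻¹
    have h4 := nrm_nonneg m (tav z⁻¹ N U)
    nlinarith
  have b2 : ∀ a : ℕ, ‖m.C (fun x => U (x + (a : ℤ)) * (E (x + (a : ℤ)) - ch z a * E x))‖ ≤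
      2 * τ := by
    intro a
    have h1 := C_mul_le m (hUB.comp fun x : ℤ => x + (a : ℤ)) (hdB a)
    have h2 : nrm m (fun x => U (x + (a : ℤ))) ≤ 2 := nrm_le m 2 zero_le_two fun x => hU _
    have h3 := hz a
    have h4 := nrm_nonneg m (fun x : ℤ => E (x + (a : ℤ)) - ch z a * E x)
    refine h1.trans (mul_le_mul h2 h3 h4 zero_le_two)
  have b3 : (N : ℝ) * ‖m.C (fun x => U x * E x)‖ ≤ N * (η + 2 * τ) := by
    have e1 : (N : ℝ) * ‖m.C (fun x => U x * E x)‖ = ‖(N : ℂ) * m.C (fun x => U x * E x)‖ := by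
      rw [norm_mul, Complex.norm_natCast]
    rw [e1, hsum]
    refine (norm_add_le _ _).trans ?_
    rw [norm_mul, Complex.norm_natCast, mul_add]
    refine add_le_add (mul_le_mul_of_nonneg_left b1 hN0.le) ?_
    refine (norm_sum_le _ _).trans ?_
    refine (Finset.sum_le_sum fun a _ => b2 a).trans ?_
    simp
  exact le_of_mul_le_mul_left b3 hN0

theorem eig_mul (m : Mn ℤ) (E E' : ℤ → ℂ) (hE : ∀ x, ‖E x‖ ≤ 1) (hE' : ∀ x, ‖E' x‖ ≤ 1)
    (z w : Circle) (τ τ' : ℝ) (h : Eig m z τ E) (h' : Eig m w τ' E') :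
    Eig m (z * w) (τ + τ') (fun x => E x * E' x) := by
  intro v
  have hEB : Bd E := ⟨1, hE⟩
  have hEB' : Bd E' := ⟨1, hE'⟩
  have hd : Bd (fun x : ℤ => E (x + v) - ch z v * E x) :=
    (hEB.comp _).sub ((Bd.const _).mul hEB)
  have hd' : Bd (fun x : ℤ => E' (x + v) - ch w v * E' x) :=
    (hEB'.comp _).sub ((Bd.const _).mul hEB')
  have e1 : (fun x => (fun x => E x * E' x) (x + v) - ch (z * w) v * (fun x => E x * E' x) x) =
      fun x => (ch w v * E' x) * (E (x + v) - ch z v * E x) +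
        E (x + v) * (E' (x + v) - ch w v * E' x) := by
    ext x
    simp only
    rw [ch_mul]
    ring
  rw [e1]
  refine (nrm_add m (((Bd.const _).mul hEB').mul hd) ((hEB.comp _).mul hd')).trans ?_
  refine add_le_add ?_ ?_
  · have := nrm_mul_le m (g := fun x => ch w v * E' x) 1 zero_le_one (fun x => by
      rw [norm_mul, norm_ch, one_mul]
      exact hE' x) hd
    rw [one_mul] at this
    exact this.trans (h v)
  · have := nrm_mul_le m (g := fun x => E (x + v)) 1 zero_le_one (fun x => hE _) hd'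
    rw [one_mul] at this
    exact this.trans (h' v)

theorem eig_ch (m : Mn ℤ) (w : Circle) (σ : ℤ) :
    Eig m (w ^ σ) 0 (fun x => ch w (σ * x)) := by
  intro v
  refine nrm_le m 0 le_rfl fun x => ?_
  simp only
  rw [ch_zpow, mul_add, ch_add, mul_comm (ch w (σ * x)), sub_self, norm_zero]

theorem eig_mono (m : Mn ℤ) (E : ℤ → ℂ) (z : Circle) (τ τ' : ℝ) (h : Eig m z τ E)
    (hτ : τ ≤ τ') : Eig m z τ' E := fun v => (h v).trans hτ

theorem expand (m : Mn ℤ) (hm : m.Inv) (F : ℤ → ℝ) (Z : Finset Circle) (c : Circle → ℝ)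
    (E : Circle → ℤ → ℂ) (τ : ℝ) (h : Str m F Z c E τ) (g : ℤ → ℂ) (B : ℝ)
    (hg : ∀ x, ‖g x‖ ≤ B) (k : ℤ) :
    ‖m.C (fun x => g x * (F (x - k) : ℂ)) -
      ∑ z ∈ Z, (c z : ℂ) * ch z (-k) * m.C (fun x => g x * E z x)‖ ≤ B * τ * ∑ z ∈ Z, c z := by
  have hB : 0 ≤ B := (norm_nonneg _).trans (hg 0)
  have hgB : Bd g := ⟨B, hg⟩
  have e1 : m.C (fun x => g x * (F (x - k) : ℂ)) -
      ∑ z ∈ Z, (c z : ℂ) * ch z (-k) * m.C (fun x => g x * E z x) =
      ∑ z ∈ Z, (c z : ℂ) * m.C (fun x => g x * (E z (x + -k) - ch z (-k) * E z x)) := by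
    have e2 : (fun x => g x * (F (x - k) : ℂ)) =
        ∑ z ∈ Z, (c z : ℂ) • fun x => g x * E z (x - k) := by
      ext x
      rw [h.eq, Finset.sum_apply, Finset.mul_sum]
      refine Finset.sum_congr rfl fun z _ => ?_
      simp only [Pi.smul_apply, smul_eq_mul]
      ring
    rw [e2, map_sum, ← Finset.sum_sub_distrib]
    refine Finset.sum_congr rfl fun z _ => ?_
    have e3 : (fun x => g x * (E z (x + -k) - ch z (-k) * E z x)) =
        (fun x => g x * E z (x - k)) - ch z (-k) • fun x => g x * E z x := by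
      ext x
      simp only [Pi.sub_apply, Pi.smul_apply, smul_eq_mul, ← sub_eq_add_neg]
      ring
    rw [e3, map_sub, map_smul, map_smul, smul_eq_mul, smul_eq_mul]
    ring
  rw [e1]
  refine (norm_sum_le _ _).trans ?_
  rw [Finset.mul_sum]
  refine Finset.sum_le_sum fun z hz => ?_
  rw [norm_mul, Complex.norm_real, Real.norm_eq_abs, abs_of_nonneg (h.nonneg z), mul_comm]
  refine mul_le_mul_of_nonneg_right ?_ (h.nonneg z)
  have hEB : Bd (E z) := ⟨1, h.le_one z hz⟩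
  have hd : Bd (fun x : ℤ => E z (x + -k) - ch z (-k) * E z x) :=
    (hEB.comp _).sub ((Bd.const _).mul hEB)
  refine (C_mul_le m hgB hd).trans ?_
  exact mul_le_mul (nrm_le m B hB hg) (h.eig z hz (-k)) (nrm_nonneg _ _) hB

end Pool.Agent.HOM

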