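import Pool.Agent.Lib_helper33.HOM.Defs
import Pool.Agent.Lib_helper33.HOMF.MA
import Pool.Agent.Lib_helper33.HOMF.WB
import Pool.Agent.Lib_helper33.HOMF.WC

/-!
# Half of the multiples: block CA (the three slots of the innermost mean)
-/

set_option autoImplicit false

namespace Pool.Agent.HOM

open Filter Topology
open scoped BigOperators ComplexConjugate

theorem ca_abs {X : Type*} (m : Mn X) (f : X → ℝ) (g : X → ℂ) (h : ∀ x, (f x : ℂ) = g x) :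
    |m.L f| = ‖m.C g‖ := by
  have : g = fun x => (f x : ℂ) := funext fun x => (h x).symm
  rw [this, C_ofReal, Complex.norm_real, Real.norm_eq_abs]

theorem ca_abs3 {a b c : ℝ} (ha : |a| ≤ 2) (hb : |b| ≤ 2) (hc : |c| ≤ 2) : |a * b * c| ≤ 8 := by
  rw [abs_mul, abs_mul]
  have h1 : |a| * |b| ≤ 2 * 2 := mul_le_mul ha hb (abs_nonneg _) (by norm_num)
  have h2 : |a| * |b| * |c| ≤ 2 * 2 * 2 := mul_le_mul h1 hc (abs_nonneg _) (by norm_num)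
  linarith

theorem ca_exp (m : Mn ℤ) (hm : m.Inv) (F : ℤ → ℝ) (Z : Finset Circle) (c : Circle → ℝ)
    (E : Circle → ℤ → ℂ) (τ : ℝ) (h : Str m F Z c E τ) (g : ℤ → ℂ) (B : ℝ)
    (hg : ∀ x, ‖g x‖ ≤ B) (k : ℤ) :
    ‖m.C (fun x => g x * (F (x - k) : ℂ))‖ ≤
      B * τ * ∑ z ∈ Z, c z + ∑ z ∈ Z, c z * ‖m.C (fun x => g x * E z x)‖ := by
  have h1 := expand m hm F Z c E τ h g B hg k
  have h2 : ‖∑ z ∈ Z, (c z : ℂ) * ch z (-k) * m.C (fun x => g x * E z x)‖ ≤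
      ∑ z ∈ Z, c z * ‖m.C (fun x => g x * E z x)‖ := by
    refine (norm_sum_le _ _).trans (Finset.sum_le_sum fun z _ => ?_)
    rw [norm_mul, norm_mul, norm_ch, mul_one, Complex.norm_real, Real.norm_eq_abs,
      abs_of_nonneg (h.nonneg z)]
  have h3 := norm_sub_norm_le (m.C (fun x => g x * (F (x - k) : ℂ)))
    (∑ z ∈ Z, (c z : ℂ) * ch z (-k) * m.C (fun x => g x * E z x))
  linarith

theorem ca_Fle {m : Mn ℤ} {F : ℤ → ℝ} {Z : Finset Circle} {c : Circle → ℝ}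
    {E : Circle → ℤ → ℂ} {τ : ℝ} (h : Str m F Z c E τ) (x : ℤ) : |F x| ≤ 2 := by
  rw [abs_of_nonneg (h.rng x).1]
  exact (h.rng x).2

theorem ca_n2 {a : ℝ} {b : ℂ} (ha : |a| ≤ 2) (hb : ‖b‖ ≤ 1) : ‖(a : ℂ) * b‖ ≤ 2 := by
  rw [norm_mul, Complex.norm_real, Real.norm_eq_abs]
  nlinarith [abs_nonneg a, norm_nonneg b]

theorem ca_n4 {a b : ℝ} (ha : |a| ≤ 2) (hb : |b| ≤ 2) : ‖(a : ℂ) * (b : ℂ)‖ ≤ 4 := by
  rw [norm_mul, Complex.norm_real, Real.norm_eq_abs, Complex.norm_real, Real.norm_eq_abs]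
  nlinarith [abs_nonneg a, abs_nonneg b]

/-- For fixed `v` apply `wiener` (with `m = m₂`) to `g x = g₀ x g₂ (x - b v)`, `B = 4`. -/
theorem slot1 (m₁ m₂ m₃ : Mn ℤ) (h₁ : m₁.Inv) (h₂ : m₂.Inv) (h₃ : m₃.Inv) (g₀ g₂ U : ℤ → ℝ)
    (hg₀ : ∀ x, |g₀ x| ≤ 2) (hg₂ : ∀ x, |g₂ x| ≤ 2) (hU : ∀ x, |U x| ≤ 2) (N : ℕ) (hN : 0 < N)
    (η : ℝ) (hη : 0 ≤ η) (h : Uni m₁ N η (fun x => (U x : ℂ))) (ρ : ℤ) (σ : ℕ) (hσ : 0 < σ)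
    (b : ℤ → ℤ) :
    m₃.L (fun v => m₂.L (fun u => |m₁.L (fun x => g₀ x * U (x - (ρ + σ * u)) * g₂ (x - b v))|)) ≤
      4 * Real.sqrt (6 * σ * η) := by
  have hb : ∀ v u : ℤ, |m₁.L (fun x => g₀ x * U (x - (ρ + σ * u)) * g₂ (x - b v))| ≤ 8 :=
    fun v u => abs_L_le_const m₁ 8 fun x => ca_abs3 (hg₀ x) (hU _) (hg₂ _)
  refine L_le m₃ _ (Bd_L m₂ 8 fun v u => ?_) fun v => ?_
  · rw [abs_abs]; exact hb v u
  · have e : (fun u : ℤ => |m₁.L (fun x => g₀ x * U (x - (ρ + σ * u)) * g₂ (x - b v))|) =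
        fun u : ℤ => ‖m₁.C (fun x => ((g₀ x : ℂ) * (g₂ (x - b v) : ℂ)) *
          ((fun y : ℤ => (U y : ℂ)) (x - (ρ + σ * u))))‖ := by
      funext u
      refine ca_abs m₁ _ _ fun x => ?_
      push_cast
      ring
    rw [e]
    exact wiener m₁ m₂ h₁ h₂ (fun y : ℤ => (U y : ℂ))
      (fun x => (g₀ x : ℂ) * (g₂ (x - b v) : ℂ)) 4 (by norm_num)
      (fun x => by rw [Complex.norm_real, Real.norm_eq_abs]; exact hU x)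
      (fun x => ca_n4 (hg₀ x) (hg₂ _)) N hN η hη h σ hσ ρ

/-- Expand `F` (`expand` with `g x = g₀ x U (x - b v)`, `B = 4`); then `wiener` with `m = m₃`,
`g = g₀ E z`, `B = 2`, for each `z`. -/
theorem slot2 (m₁ m₂ m₃ : Mn ℤ) (h₁ : m₁.Inv) (h₂ : m₂.Inv) (h₃ : m₃.Inv) (g₀ F U : ℤ → ℝ)
    (hg₀ : ∀ x, |g₀ x| ≤ 2) (hU : ∀ x, |U x| ≤ 2) (N : ℕ) (hN : 0 < N)
    (η : ℝ) (hη : 0 ≤ η) (h : Uni m₁ N η (fun x => (U x : ℂ))) (Z : Finset Circle)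
    (c : Circle → ℝ) (E : Circle → ℤ → ℂ) (τ : ℝ) (hF : Str m₁ F Z c E τ) (a : ℤ → ℤ) (ρ : ℤ)
    (σ : ℕ) (hσ : 0 < σ) :
    m₃.L (fun v => m₂.L (fun u => |m₁.L (fun x => g₀ x * F (x - a u) * U (x - (ρ + σ * v)))|)) ≤
      (∑ z ∈ Z, c z) * (4 * τ + 2 * Real.sqrt (6 * σ * η)) := by
  have hUC : ∀ x : ℤ, ‖((U x : ℝ) : ℂ)‖ ≤ 2 := fun x => by
    rw [Complex.norm_real, Real.norm_eq_abs]; exact hU x
  have hb : ∀ v u : ℤ, |m₁.L (fun x => g₀ x * F (x - a u) * U (x - (ρ + σ * v)))| ≤ 8 :=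
    fun v u => abs_L_le_const m₁ 8 fun x => ca_abs3 (hg₀ x) (ca_Fle hF _) (hU _)
  -- the majorant
  set K : Circle → ℤ → ℝ := fun z v =>
    ‖m₁.C (fun x => ((g₀ x : ℂ) * E z x) * (U (x - (ρ + σ * v)) : ℂ))‖ with hK
  have hKb : ∀ z ∈ Z, ∀ v, ‖m₁.C (fun x => ((g₀ x : ℂ) * E z x) *
      (U (x - (ρ + σ * v)) : ℂ))‖ ≤ 4 := fun z hz v => norm_C_le_const m₁ 4 fun x => by
    rw [norm_mul]
    have h1 := ca_n2 (hg₀ x) (hF.le_one z hz x)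
    have h2 := hUC (x - (ρ + σ * v))
    nlinarith [norm_nonneg ((g₀ x : ℂ) * E z x), norm_nonneg ((U (x - (ρ + σ * v)) : ℝ) : ℂ)]
  have hK' : ∀ z ∈ Z, Bd (K z) := fun z hz => Bd.of_le 4 fun v => by
    rw [hK]; simp only [norm_norm]; exact hKb z hz v
  have hpt : ∀ v u : ℤ, |m₁.L (fun x => g₀ x * F (x - a u) * U (x - (ρ + σ * v)))| ≤
      4 * τ * ∑ z ∈ Z, c z + ∑ z ∈ Z, c z * K z v := by
    intro v u
    rw [ca_abs m₁ _ (fun x => ((g₀ x : ℂ) * (U (x - (ρ + σ * v)) : ℂ)) * (F (x - a u) : ℂ))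
      (fun x => by push_cast; ring)]
    refine (ca_exp m₁ h₁ F Z c E τ hF (fun x => (g₀ x : ℂ) * (U (x - (ρ + σ * v)) : ℂ)) 4
      (fun x => ca_n4 (hg₀ x) (hU _)) (a u)).trans (le_of_eq ?_)
    congr 1
    refine Finset.sum_congr rfl fun z _ => ?_
    rw [hK]
    simp only
    congr 3
    funext x
    ring
  have h1 : m₃.L (fun v => m₂.L (fun u =>
      |m₁.L (fun x => g₀ x * F (x - a u) * U (x - (ρ + σ * v)))|)) ≤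
      m₃.L (fun v => 4 * τ * ∑ z ∈ Z, c z + ∑ z ∈ Z, c z * K z v) := by
    refine L_mono m₃ (Bd_L m₂ 8 fun v u => ?_) ?_ fun v => ?_
    · rw [abs_abs]; exact hb v u
    · exact (Bd.const _).add (Bd.sum Z (f := fun z v => c z * K z v)
        fun z hz => (Bd.const (c z)).mulR (hK' z hz))
    · refine L_le m₂ _ (Bd.of_le 8 fun u => ?_) fun u => hpt v u
      rw [Real.norm_eq_abs, abs_abs]; exact hb v u
  have h2 : m₃.L (fun v => 4 * τ * ∑ z ∈ Z, c z + ∑ z ∈ Z, c z * K z v) =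
      4 * τ * ∑ z ∈ Z, c z + ∑ z ∈ Z, c z * m₃.L (K z) := by
    have e : (fun v => 4 * τ * ∑ z ∈ Z, c z + ∑ z ∈ Z, c z * K z v) =
        (fun _ => 4 * τ * ∑ z ∈ Z, c z) + ∑ z ∈ Z, c z • K z := by
      funext v
      simp [Finset.sum_apply]
    rw [e, map_add, L_const, map_sum]
    congr 1
    refine Finset.sum_congr rfl fun z _ => ?_
    rw [map_smul, smul_eq_mul]
  have h4 : ∀ z ∈ Z, c z * m₃.L (K z) ≤ c z * (2 * Real.sqrt (6 * σ * η)) := fun z hz =>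
    mul_le_mul_of_nonneg_left (wiener m₁ m₃ h₁ h₃ (fun y : ℤ => (U y : ℂ))
      (fun x => (g₀ x : ℂ) * E z x) 2 (by norm_num) hUC
      (fun x => ca_n2 (hg₀ x) (hF.le_one z hz x)) N hN η hη h σ hσ ρ) (hF.nonneg z)
  calc _ ≤ _ := h1
    _ = _ := h2
    _ ≤ 4 * τ * ∑ z ∈ Z, c z + ∑ z ∈ Z, c z * (2 * Real.sqrt (6 * σ * η)) :=
        add_le_add le_rfl (Finset.sum_le_sum h4)
    _ = _ := by rw [← Finset.sum_mul]; ring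

/-- Expand `F₁` (`B = 4`), then `F₂` in each term (`g = U E z`, `B = 2`), then `corr_eig` with
`eig_mul`. -/
theorem slot0 (m₁ : Mn ℤ) (h₁ : m₁.Inv) (U F₁ F₂ : ℤ → ℝ) (hU : ∀ x, |U x| ≤ 2) (N : ℕ)
    (hN : 0 < N) (η : ℝ) (h : Uni m₁ N η (fun x => (U x : ℂ)))
    (Z₁ Z₂ : Finset Circle) (c₁ c₂ : Circle → ℝ) (E₁ E₂ : Circle → ℤ → ℂ) (τ : ℝ)
    (hF₁ : Str m₁ F₁ Z₁ c₁ E₁ τ) (hF₂ : Str m₁ F₂ Z₂ c₂ E₂ τ) (k l : ℤ) :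
    |m₁.L (fun x => U x * F₁ (x - k) * F₂ (x - l))| ≤
      4 * (∑ z ∈ Z₁, c₁ z) * τ + (∑ z ∈ Z₁, c₁ z) * (∑ z ∈ Z₂, c₂ z) * (η + 6 * τ) := by
  have hUC : ∀ x : ℤ, ‖((U x : ℝ) : ℂ)‖ ≤ 2 := fun x => by
    rw [Complex.norm_real, Real.norm_eq_abs]; exact hU x
  rw [ca_abs m₁ _ (fun x => ((U x : ℂ) * (F₂ (x - l) : ℂ)) * (F₁ (x - k) : ℂ))
      (fun x => by push_cast; ring)]
  have h2 := ca_exp m₁ h₁ F₁ Z₁ c₁ E₁ τ hF₁ (fun x => (U x : ℂ) * (F₂ (x - l) : ℂ)) 4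
      (fun x => ca_n4 (hU x) (ca_Fle hF₂ _)) k
  have h3 : ∀ z ∈ Z₁, ‖m₁.C (fun x => (U x : ℂ) * (F₂ (x - l) : ℂ) * E₁ z x)‖ ≤
      2 * τ * (∑ w ∈ Z₂, c₂ w) + (∑ w ∈ Z₂, c₂ w) * (η + 4 * τ) := by
    intro z hz
    have e : (fun x => (U x : ℂ) * (F₂ (x - l) : ℂ) * E₁ z x) =
        fun x => ((U x : ℂ) * E₁ z x) * (F₂ (x - l) : ℂ) := by
      funext x; ring
    rw [e]
    refine (ca_exp m₁ h₁ F₂ Z₂ c₂ E₂ τ hF₂ (fun x => (U x : ℂ) * E₁ z x) 2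
      (fun x => ca_n2 (hU x) (hF₁.le_one z hz x)) l).trans ?_
    rw [Finset.sum_mul]
    gcongr with w hw
    · exact hF₂.nonneg w
    · have e2 : (fun x => (U x : ℂ) * E₁ z x * E₂ w x) =
          fun x => (U x : ℂ) * (E₁ z x * E₂ w x) := by
        funext x; ring
      rw [e2]
      have hE : ∀ x, ‖E₁ z x * E₂ w x‖ ≤ 1 := fun x => by
        rw [norm_mul]
        have := hF₁.le_one z hz x
        have := hF₂.le_one w hw x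
        nlinarith [norm_nonneg (E₁ z x), norm_nonneg (E₂ w x)]
      have := corr_eig m₁ h₁ (fun x => (U x : ℂ)) (fun x => E₁ z x * E₂ w x) hUC hE N hN η
        (τ + τ) h (z * w) (eig_mul m₁ (E₁ z) (E₂ w) (hF₁.le_one z hz) (hF₂.le_one w hw) z w τ τ
          (hF₁.eig z hz) (hF₂.eig w hw))
      linarith
  refine h2.trans ?_
  have h5 : ∑ z ∈ Z₁, c₁ z * ‖m₁.C (fun x => (U x : ℂ) * (F₂ (x - l) : ℂ) * E₁ z x)‖ ≤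
      ∑ z ∈ Z₁, c₁ z * (2 * τ * (∑ w ∈ Z₂, c₂ w) + (∑ w ∈ Z₂, c₂ w) * (η + 4 * τ)) :=
    Finset.sum_le_sum fun z hz => mul_le_mul_of_nonneg_left (h3 z hz) (hF₁.nonneg z)
  rw [← Finset.sum_mul] at h5
  calc _ ≤ 4 * τ * ∑ z ∈ Z₁, c₁ z + (∑ z ∈ Z₁, c₁ z) *
        (2 * τ * (∑ w ∈ Z₂, c₂ w) + (∑ w ∈ Z₂, c₂ w) * (η + 4 * τ)) := by linarith
    _ = _ := by ring

/-- The same expansion (with `F₀` in place of `U`) is a finite sum of products of characters in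
`u`, `v`: `z^(-(ρ + σ u)) = ch (z) (-ρ) * ch (z ^ (-σ)) u` etc. Index the pairs `(z, w) ∈ Z₁ × Z₂`
by `Fin n` (`Finset.equivFin`). -/
theorem trigF (m₁ : Mn ℤ) (h₁ : m₁.Inv) (F₀ F₁ F₂ : ℤ → ℝ) (hF₀ : ∀ x, |F₀ x| ≤ 2)
    (Z₁ Z₂ : Finset Circle) (c₁ c₂ : Circle → ℝ) (E₁ E₂ : Circle → ℤ → ℂ) (τ : ℝ)
    (hF₁ : Str m₁ F₁ Z₁ c₁ E₁ τ) (hF₂ : Str m₁ F₂ Z₂ c₂ E₂ τ) (ρ σ ρ' σ' : ℤ) :
    Trig2 (4 * (∑ z ∈ Z₁, c₁ z) * τ + 2 * (∑ z ∈ Z₁, c₁ z) * (∑ z ∈ Z₂, c₂ z) * τ)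
      (fun u v => m₁.L (fun x => F₀ x * F₁ (x - (ρ + σ * u)) * F₂ (x - (ρ' + σ' * v)))) := by
  set P := Z₁ ×ˢ Z₂ with hP
  set M : Circle → Circle → ℂ := fun z w => m₁.C (fun x => (F₀ x : ℂ) * E₁ z x * E₂ w x) with hM
  set R : Circle × Circle → ℂ := fun q =>
    (c₁ q.1 : ℂ) * ch q.1 (-ρ) * ((c₂ q.2 : ℂ) * ch q.2 (-ρ')) * M q.1 q.2 with hR
  set e := P.equivFin.symm with he
  refine ⟨P.card, fun i => R (e i), fun i => (e i).1.1 ^ (-σ), fun i => (e i).1.2 ^ (-σ'),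
    fun u v => ?_⟩
  have hsum : ∑ i : Fin P.card, R (e i) * ch ((e i).1.1 ^ (-σ)) u * ch ((e i).1.2 ^ (-σ')) v =
      ∑ z ∈ Z₁, (c₁ z : ℂ) * ch z (-(ρ + σ * u)) *
        ∑ w ∈ Z₂, (c₂ w : ℂ) * ch w (-(ρ' + σ' * v)) * M z w := by
    have e1 : ∑ i : Fin P.card, R (e i) * ch ((e i).1.1 ^ (-σ)) u * ch ((e i).1.2 ^ (-σ')) v =
        ∑ q : P, R q * ch (q.1.1 ^ (-σ)) u * ch (q.1.2 ^ (-σ')) v :=
      Equiv.sum_comp e (fun q : P => R q * ch (q.1.1 ^ (-σ)) u * ch (q.1.2 ^ (-σ')) v)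
    rw [e1]
    have e2 : ∑ q : P, R q * ch (q.1.1 ^ (-σ)) u * ch (q.1.2 ^ (-σ')) v =
        ∑ q ∈ P, R q * ch (q.1 ^ (-σ)) u * ch (q.2 ^ (-σ')) v :=
      Finset.sum_coe_sort P (fun q => R q * ch (q.1 ^ (-σ)) u * ch (q.2 ^ (-σ')) v)
    rw [e2, hP, Finset.sum_product]
    refine Finset.sum_congr rfl fun z _ => ?_
    rw [Finset.mul_sum]
    refine Finset.sum_congr rfl fun w _ => ?_
    rw [hR]
    simp only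
    rw [ch_zpow, ch_zpow, neg_add, neg_add, ch_add, ch_add, neg_mul, neg_mul]
    ring
  rw [hsum]
  -- first expansion
  have hb1 : ∀ x, ‖(F₀ x : ℂ) * (F₂ (x - (ρ' + σ' * v)) : ℂ)‖ ≤ 4 := fun x =>
    ca_n4 (hF₀ x) (ca_Fle hF₂ _)
  have h2 := expand m₁ h₁ F₁ Z₁ c₁ E₁ τ hF₁
    (fun x => (F₀ x : ℂ) * (F₂ (x - (ρ' + σ' * v)) : ℂ)) 4 hb1 (ρ + σ * u)
  have e3 : ((m₁.L (fun x => F₀ x * F₁ (x - (ρ + σ * u)) * F₂ (x - (ρ' + σ' * v))) : ℝ) : ℂ) =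
      m₁.C (fun x => (F₀ x : ℂ) * (F₂ (x - (ρ' + σ' * v)) : ℂ) * (F₁ (x - (ρ + σ * u)) : ℂ)) := by
    rw [← C_ofReal]
    congr 1
    funext x
    push_cast
    ring
  rw [e3]
  -- second expansion
  have h3 : ‖∑ z ∈ Z₁, (c₁ z : ℂ) * ch z (-(ρ + σ * u)) *
        m₁.C (fun x => (F₀ x : ℂ) * (F₂ (x - (ρ' + σ' * v)) : ℂ) * E₁ z x) -
      ∑ z ∈ Z₁, (c₁ z : ℂ) * ch z (-(ρ + σ * u)) *
        ∑ w ∈ Z₂, (c₂ w : ℂ) * ch w (-(ρ' + σ' * v)) * M z w‖ ≤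
      ∑ z ∈ Z₁, c₁ z * (2 * τ * ∑ w ∈ Z₂, c₂ w) := by
    rw [← Finset.sum_sub_distrib]
    refine (norm_sum_le _ _).trans (Finset.sum_le_sum fun z hz => ?_)
    rw [← mul_sub, norm_mul, norm_mul, norm_ch, mul_one, Complex.norm_real, Real.norm_eq_abs,
      abs_of_nonneg (hF₁.nonneg z)]
    refine mul_le_mul_of_nonneg_left ?_ (hF₁.nonneg z)
    have h4 := expand m₁ h₁ F₂ Z₂ c₂ E₂ τ hF₂ (fun x => (F₀ x : ℂ) * E₁ z x) 2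
      (fun x => ca_n2 (hF₀ x) (hF₁.le_one z hz x)) (ρ' + σ' * v)
    have e4 : (fun x => (F₀ x : ℂ) * (F₂ (x - (ρ' + σ' * v)) : ℂ) * E₁ z x) =
        fun x => (F₀ x : ℂ) * E₁ z x * (F₂ (x - (ρ' + σ' * v)) : ℂ) := by
      funext x; ring
    rw [e4]
    exact h4
  refine (norm_sub_le_norm_sub_add_norm_sub _ (∑ z ∈ Z₁, (c₁ z : ℂ) * ch z (-(ρ + σ * u)) *
        m₁.C (fun x => (F₀ x : ℂ) * (F₂ (x - (ρ' + σ' * v)) : ℂ) * E₁ z x)) _).trans ?_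
  rw [← Finset.sum_mul] at h3
  calc _ ≤ 4 * τ * ∑ z ∈ Z₁, c₁ z + (∑ z ∈ Z₁, c₁ z) * (2 * τ * ∑ w ∈ Z₂, c₂ w) :=
        add_le_add h2 h3
    _ = _ := by ring


end Pool.Agent.HOM
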