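import Pool.Agent.Lib_helper33.HOM.Defs
import Pool.Agent.Lib_helper33.HOMF.CA
import Pool.Agent.Lib_helper33.HOMF.MA

/-!
# HOM block CB: stage 1
-/

set_option autoImplicit false

namespace Pool.Agent.HOM

open Filter Topology
open scoped BigOperators ComplexConjugate

theorem cb_nest_mono (m₂ m₃ : Mn ℤ) (A A' : ℤ → ℤ → ℝ) (B B' : ℝ) (hA : ∀ v u, |A v u| ≤ B)
    (hA' : ∀ v u, |A' v u| ≤ B') (h : ∀ v u, A v u ≤ A' v u) :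
    m₃.L (fun v => m₂.L (fun u => A v u)) ≤ m₃.L (fun v => m₂.L (fun u => A' v u)) := by
  apply L_mono
  · exact Bd.of_abs_le B (fun v => abs_L_le_const m₂ B (hA v))
  · exact Bd.of_abs_le B' (fun v => abs_L_le_const m₂ B' (hA' v))
  · intro v
    exact L_mono m₂ (Bd.of_abs_le B (hA v)) (Bd.of_abs_le B' (hA' v)) (h v)

theorem cb_nest_add3 (m₂ m₃ : Mn ℤ) (A₁ A₂ A₃ : ℤ → ℤ → ℝ) :
    m₃.L (fun v => m₂.L (fun u => A₁ v u + A₂ v u + A₃ v u)) =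
      m₃.L (fun v => m₂.L (fun u => A₁ v u)) + m₃.L (fun v => m₂.L (fun u => A₂ v u)) +
        m₃.L (fun v => m₂.L (fun u => A₃ v u)) := by
  have h1 : (fun v => m₂.L (fun u => A₁ v u + A₂ v u + A₃ v u)) =
      (fun v => m₂.L (fun u => A₁ v u)) + (fun v => m₂.L (fun u => A₂ v u)) +
        (fun v => m₂.L (fun u => A₃ v u)) := by
    ext v
    have : (fun u => A₁ v u + A₂ v u + A₃ v u) =
      (fun u => A₁ v u) + (fun u => A₂ v u) + (fun u => A₃ v u) := rfl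
    rw [this, map_add, map_add]
    rfl
  rw [h1, map_add, map_add]

theorem cb_trig_mono (κ κ' : ℝ) (W : ℤ → ℤ → ℝ) (h : Trig2 κ W) (hk : κ ≤ κ') : Trig2 κ' W := by
  obtain ⟨n, r, z, w, hh⟩ := h
  exact ⟨n, r, z, w, fun u v => (hh u v).trans hk⟩

theorem cb_split (m₁ : Mn ℤ) (f F₀ F₁ F₂ : ℤ → ℝ) (a b : ℤ) :
    m₁.L (fun x => f x * f (x - a) * f (x - b)) - m₁.L (fun x => F₀ x * F₁ (x - a) * F₂ (x - b)) =
      m₁.L (fun x => f x * (f (x - a) - F₁ (x - a)) * f (x - b)) +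
      m₁.L (fun x => f x * F₁ (x - a) * (f (x - b) - F₂ (x - b))) +
      m₁.L (fun x => (f x - F₀ x) * F₁ (x - a) * F₂ (x - b)) := by
  rw [← map_sub, ← map_add, ← map_add]
  congr 1
  ext x
  simp only [Pi.sub_apply, Pi.add_apply]
  ring

theorem cb_abs3 (a b c A B C : ℝ) (ha : |a| ≤ A) (hb : |b| ≤ B) (hc : |c| ≤ C) :
    |a * b * c| ≤ A * B * C := by
  rw [abs_mul, abs_mul]
  have hA : 0 ≤ A := (abs_nonneg a).trans ha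
  have hB : 0 ≤ B := (abs_nonneg b).trans hb
  exact mul_le_mul (mul_le_mul ha hb (abs_nonneg _) hA) hc (abs_nonneg _) (mul_nonneg hA hB)

theorem stage1 (m₁ m₂ m₃ : Mn ℤ) (h₁ : m₁.Inv) (h₂ : m₂.Inv) (h₃ : m₃.Inv) (f h : ℤ → ℝ)
    (hf : ∀ x, 0 ≤ f x ∧ f x ≤ 1) (τ : ℝ) (hFA : FA m₁ f h τ) (ρ ρ' : ℤ) (σ σ' : ℕ) (hσ : 0 < σ)
    (hσ' : 0 < σ') (κ : ℝ) (hκ : 0 < κ) :
    ∃ F₀ F₁ F₂ : ℤ → ℝ, (∀ x, 0 ≤ F₀ x ∧ F₀ x ≤ 2) ∧ (∀ x, 0 ≤ F₁ x ∧ F₁ x ≤ 2) ∧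
      (∀ x, 0 ≤ F₂ x ∧ F₂ x ≤ 2) ∧ nrm m₁ (fun x => F₀ x - h x) ≤ τ ∧
      nrm m₁ (fun x => F₁ x - h x) ≤ τ ∧ nrm m₁ (fun x => F₂ x - h x) ≤ τ ∧
      m₃.L (fun v => m₂.L (fun u =>
        |m₁.L (fun x => f x * f (x - (ρ + σ * u)) * f (x - (ρ' + σ' * v))) -
          m₁.L (fun x => F₀ x * F₁ (x - (ρ + σ * u)) * F₂ (x - (ρ' + σ' * v)))|)) ≤ κ ∧
      Trig2 κ (fun u v =>
        m₁.L (fun x => F₀ x * F₁ (x - (ρ + σ * u)) * F₂ (x - (ρ' + σ' * v)))) := by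
  have hσR : (0:ℝ) < σ := by exact_mod_cast hσ
  have hσR' : (0:ℝ) < σ' := by exact_mod_cast hσ'
  set η₁ : ℝ := (κ / 12) ^ 2 / (6 * σ) with hη₁
  have hη₁p : 0 < η₁ := by positivity
  obtain ⟨Z₁, c₁, H₁⟩ := hFA η₁ hη₁p
  have hc₁ : ∀ z, 0 ≤ c₁ z := by
    obtain ⟨E, F, N, _, hS, _⟩ := H₁ 1 one_pos
    exact hS.nonneg
  set S₁ : ℝ := ∑ z ∈ Z₁, c₁ z with hS₁
  have hS₁0 : 0 ≤ S₁ := Finset.sum_nonneg fun z _ => hc₁ z
  set η₂ : ℝ := (κ / (12 * (S₁ + 1))) ^ 2 / (6 * σ') with hη₂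
  have hη₂p : 0 < η₂ := by positivity
  obtain ⟨Z₂, c₂, H₂⟩ := hFA η₂ hη₂p
  have hc₂ : ∀ z, 0 ≤ c₂ z := by
    obtain ⟨E, F, N, _, hS, _⟩ := H₂ 1 one_pos
    exact hS.nonneg
  set S₂ : ℝ := ∑ z ∈ Z₂, c₂ z with hS₂
  have hS₂0 : 0 ≤ S₂ := Finset.sum_nonneg fun z _ => hc₂ z
  set η₀ : ℝ := κ / (12 * ((S₁ + 1) * (S₂ + 1))) with hη₀
  have hη₀p : 0 < η₀ := by positivity
  obtain ⟨Z₀, c₀, H₀⟩ := hFA η₀ hη₀p
  set τ' : ℝ := κ / (72 * ((S₁ + 1) * (S₂ + 1))) with hτ'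
  have hτ'p : 0 < τ' := by positivity
  obtain ⟨E₁, F₁, N₁, hN₁, st₁, nr₁, un₁⟩ := H₁ τ' hτ'p
  obtain ⟨E₂, F₂, N₂, hN₂, st₂, nr₂, un₂⟩ := H₂ τ' hτ'p
  obtain ⟨E₀, F₀, N₀, hN₀, st₀, nr₀, un₀⟩ := H₀ τ' hτ'p
  -- numerical facts
  have q1 : S₁ * S₂ * τ' ≤ κ / 72 := by
    have e : S₁ * S₂ * τ' = κ / 72 * ((S₁ * S₂) / ((S₁ + 1) * (S₂ + 1))) := by
      rw [hτ']; field_simp
    rw [e]
    have : (S₁ * S₂) / ((S₁ + 1) * (S₂ + 1)) ≤ 1 := by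
      rw [div_le_one (by positivity)]
      nlinarith
    nlinarith [hκ]
  have q2 : S₁ * τ' ≤ κ / 72 := by
    have e : S₁ * τ' = κ / 72 * (S₁ / ((S₁ + 1) * (S₂ + 1))) := by
      rw [hτ']; field_simp
    rw [e]
    have : S₁ / ((S₁ + 1) * (S₂ + 1)) ≤ 1 := by
      rw [div_le_one (by positivity)]
      nlinarith [mul_nonneg hS₁0 hS₂0]
    nlinarith [hκ]
  have q3 : S₁ * S₂ * η₀ ≤ κ / 12 := by
    have e : S₁ * S₂ * η₀ = κ / 12 * ((S₁ * S₂) / ((S₁ + 1) * (S₂ + 1))) := by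
      rw [hη₀]; field_simp
    rw [e]
    have : (S₁ * S₂) / ((S₁ + 1) * (S₂ + 1)) ≤ 1 := by
      rw [div_le_one (by positivity)]
      nlinarith
    nlinarith [hκ]
  have q4 : Real.sqrt (6 * σ * η₁) = κ / 12 := by
    have e : 6 * (σ:ℝ) * η₁ = (κ / 12) ^ 2 := by
      rw [hη₁]; field_simp
    rw [e, Real.sqrt_sq (by positivity)]
  have q5 : Real.sqrt (6 * σ' * η₂) = κ / (12 * (S₁ + 1)) := by
    have e : 6 * (σ':ℝ) * η₂ = (κ / (12 * (S₁ + 1))) ^ 2 := by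
      rw [hη₂]; field_simp
    rw [e, Real.sqrt_sq (by positivity)]
  have q6 : S₁ * (κ / (12 * (S₁ + 1))) ≤ κ / 12 := by
    have e : S₁ * (κ / (12 * (S₁ + 1))) = κ / 12 * (S₁ / (S₁ + 1)) := by field_simp
    rw [e]
    have : S₁ / (S₁ + 1) ≤ 1 := by
      rw [div_le_one (by positivity)]
      linarith
    nlinarith [hκ]
  -- bounds
  have bf : ∀ x, |f x| ≤ 2 := fun x => by rw [abs_le]; constructor <;> linarith [(hf x).1, (hf x).2]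
  have bF₀ : ∀ x, |F₀ x| ≤ 2 := fun x => by
    rw [abs_le]; constructor <;> linarith [(st₀.rng x).1, (st₀.rng x).2]
  have bF₁ : ∀ x, |F₁ x| ≤ 2 := fun x => by
    rw [abs_le]; constructor <;> linarith [(st₁.rng x).1, (st₁.rng x).2]
  have bF₂ : ∀ x, |F₂ x| ≤ 2 := fun x => by
    rw [abs_le]; constructor <;> linarith [(st₂.rng x).1, (st₂.rng x).2]
  have bU₀ : ∀ x, |f x - F₀ x| ≤ 2 := fun x => by
    rw [abs_le]; constructor <;> linarith [(st₀.rng x).1, (st₀.rng x).2, (hf x).1, (hf x).2]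
  have bU₁ : ∀ x, |f x - F₁ x| ≤ 2 := fun x => by
    rw [abs_le]; constructor <;> linarith [(st₁.rng x).1, (st₁.rng x).2, (hf x).1, (hf x).2]
  have bU₂ : ∀ x, |f x - F₂ x| ≤ 2 := fun x => by
    rw [abs_le]; constructor <;> linarith [(st₂.rng x).1, (st₂.rng x).2, (hf x).1, (hf x).2]
  refine ⟨F₀, F₁, F₂, st₀.rng, st₁.rng, st₂.rng, nr₀, nr₁, nr₂, ?_, ?_⟩
  · -- the main estimate
    have p1 := slot1 m₁ m₂ m₃ h₁ h₂ h₃ f f (fun x => f x - F₁ x) bf bf bU₁ N₁ hN₁ η₁ hη₁p.le un₁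
      ρ σ hσ (fun v => ρ' + σ' * v)
    have p2 := slot2 m₁ m₂ m₃ h₁ h₂ h₃ f F₁ (fun x => f x - F₂ x) bf bU₂ N₂ hN₂ η₂ hη₂p.le un₂
      Z₁ c₁ E₁ τ' st₁ (fun u => ρ + σ * u) ρ' σ' hσ'
    have p3 : ∀ u v : ℤ, |m₁.L (fun x => (f x - F₀ x) * F₁ (x - (ρ + σ * u)) *
        F₂ (x - (ρ' + σ' * v)))| ≤ 4 * S₁ * τ' + S₁ * S₂ * (η₀ + 6 * τ') := fun u v =>
      slot0 m₁ h₁ (fun x => f x - F₀ x) F₁ F₂ bU₀ N₀ hN₀ η₀ un₀ Z₁ Z₂ c₁ c₂ E₁ E₂ τ' st₁ st₂ _ _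
    have a1 : ∀ v u : ℤ, |m₁.L (fun x => f x * (f (x - (ρ + σ * u)) - F₁ (x - (ρ + σ * u))) *
        f (x - (ρ' + σ' * v)))| ≤ 8 := fun v u => by
      refine abs_L_le_const m₁ 8 fun x => ?_
      have := cb_abs3 _ _ _ 2 2 2 (bf x) (bU₁ (x - (ρ + σ * u))) (bf (x - (ρ' + σ' * v)))
      linarith
    have a2 : ∀ v u : ℤ, |m₁.L (fun x => f x * F₁ (x - (ρ + σ * u)) *
        (f (x - (ρ' + σ' * v)) - F₂ (x - (ρ' + σ' * v))))| ≤ 8 := fun v u => by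
      refine abs_L_le_const m₁ 8 fun x => ?_
      have := cb_abs3 _ _ _ 2 2 2 (bf x) (bF₁ (x - (ρ + σ * u))) (bU₂ (x - (ρ' + σ' * v)))
      linarith
    have a3 : ∀ v u : ℤ, |m₁.L (fun x => (f x - F₀ x) * F₁ (x - (ρ + σ * u)) *
        F₂ (x - (ρ' + σ' * v)))| ≤ 8 := fun v u => by
      refine abs_L_le_const m₁ 8 fun x => ?_
      have := cb_abs3 _ _ _ 2 2 2 (bU₀ x) (bF₁ (x - (ρ + σ * u))) (bF₂ (x - (ρ' + σ' * v)))
      linarith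
    have big := cb_nest_mono m₂ m₃
      (fun v u => |m₁.L (fun x => f x * f (x - (ρ + σ * u)) * f (x - (ρ' + σ' * v))) -
          m₁.L (fun x => F₀ x * F₁ (x - (ρ + σ * u)) * F₂ (x - (ρ' + σ' * v)))|)
      (fun v u => |m₁.L (fun x => f x * (f (x - (ρ + σ * u)) - F₁ (x - (ρ + σ * u))) *
        f (x - (ρ' + σ' * v)))| + |m₁.L (fun x => f x * F₁ (x - (ρ + σ * u)) *
        (f (x - (ρ' + σ' * v)) - F₂ (x - (ρ' + σ' * v))))| +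
        |m₁.L (fun x => (f x - F₀ x) * F₁ (x - (ρ + σ * u)) * F₂ (x - (ρ' + σ' * v)))|) 24 24
      (fun v u => by
        rw [abs_abs, cb_split]
        refine (abs_add_three _ _ _).trans ?_
        linarith [a1 v u, a2 v u, a3 v u])
      (fun v u => by
        rw [abs_of_nonneg (by positivity)]
        linarith [a1 v u, a2 v u, a3 v u])
      (fun v u => by
        rw [cb_split]
        exact abs_add_three _ _ _)
    refine big.trans ?_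
    rw [cb_nest_add3 m₂ m₃
      (fun v u => |m₁.L (fun x => f x * (f (x - (ρ + σ * u)) - F₁ (x - (ρ + σ * u))) *
        f (x - (ρ' + σ' * v)))|)
      (fun v u => |m₁.L (fun x => f x * F₁ (x - (ρ + σ * u)) *
        (f (x - (ρ' + σ' * v)) - F₂ (x - (ρ' + σ' * v))))|)
      (fun v u => |m₁.L (fun x => (f x - F₀ x) * F₁ (x - (ρ + σ * u)) *
        F₂ (x - (ρ' + σ' * v)))|)]
    have p3' : m₃.L (fun v => m₂.L (fun u => |m₁.L (fun x => (f x - F₀ x) *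
        F₁ (x - (ρ + σ * u)) * F₂ (x - (ρ' + σ' * v)))|)) ≤
        4 * S₁ * τ' + S₁ * S₂ * (η₀ + 6 * τ') := by
      apply L_le
      · exact Bd.of_abs_le 8 fun v => abs_L_le_const m₂ 8 fun u => by
          rw [abs_abs]; exact a3 v u
      · intro v
        apply L_le
        · exact Bd.of_abs_le 8 fun u => by rw [abs_abs]; exact a3 v u
        · intro u
          exact p3 u v
    rw [q4] at p1
    rw [q5] at p2
    have e2 : S₁ * (4 * τ' + 2 * (κ / (12 * (S₁ + 1)))) =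
      4 * (S₁ * τ') + 2 * (S₁ * (κ / (12 * (S₁ + 1)))) := by ring
    rw [e2] at p2
    have e3 : 4 * S₁ * τ' + S₁ * S₂ * (η₀ + 6 * τ') =
      4 * (S₁ * τ') + S₁ * S₂ * η₀ + 6 * (S₁ * S₂ * τ') := by ring
    rw [e3] at p3'
    linarith
  · have ht := trigF m₁ h₁ F₀ F₁ F₂ bF₀ Z₁ Z₂ c₁ c₂ E₁ E₂ τ' st₁ st₂ ρ σ ρ' σ'
    apply cb_trig_mono _ _ _ ht
    have e3 : 4 * (∑ z ∈ Z₁, c₁ z) * τ' + 2 * (∑ z ∈ Z₁, c₁ z) * (∑ z ∈ Z₂, c₂ z) * τ' =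
      4 * (S₁ * τ') + 2 * (S₁ * S₂ * τ') := by rw [← hS₁, ← hS₂]; ring
    rw [e3]
    linarith


end Pool.Agent.HOM
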