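import Pool.Agent.Lib_helper33.HOM.Defs
import Pool.Agent.Lib_helper33.HOMF.MA
import Pool.Agent.Lib_helper33.HOMF.WB
import Pool.Agent.Lib_helper33.HOMF.WC

/-!
# Half of the multiples, block CC: the two slots of the middle mean
-/

set_option autoImplicit false

namespace Pool.Agent.HOM

open Filter Topology
open scoped BigOperators ComplexConjugate

theorem cc_mul4 {x y : ℝ} (hx : |x| ≤ 2) (hy : |y| ≤ 2) : |x * y| ≤ 4 := by
  rw [abs_mul]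
  nlinarith [abs_nonneg x, abs_nonneg y]

theorem cc_rng {m : Mn ℤ} {F : ℤ → ℝ} {Z : Finset Circle} {c : Circle → ℝ} {E : Circle → ℤ → ℂ}
    {τ : ℝ} (h : Str m F Z c E τ) (x : ℤ) : |F x| ≤ 2 := by
  rw [abs_le]
  constructor <;> linarith [(h.rng x).1, (h.rng x).2]

/-- replace `W` by its trigonometric approximation -/
theorem cc_split (m : Mn ℤ) (a : ℤ → ℝ) (ha : ∀ u, |a u| ≤ 4) (W : ℤ → ℤ → ℝ) (κ : ℝ) (n : ℕ)
    (r : Fin n → ℂ) (z w : Fin n → Circle) (v : ℤ)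
    (hT : ∀ u v : ℤ, ‖(W u v : ℂ) - ∑ i, r i * ch (z i) u * ch (w i) v‖ ≤ κ) :
    ‖((m.L (fun u => a u * W u v) : ℝ) : ℂ) -
      ∑ i, (r i * ch (w i) v) * m.C (fun u => (a u : ℂ) * ch (z i) u)‖ ≤ 4 * κ := by
  have e : ((m.L (fun u => a u * W u v) : ℝ) : ℂ) -
      ∑ i, (r i * ch (w i) v) * m.C (fun u => (a u : ℂ) * ch (z i) u) =
      m.C (fun u => (a u : ℂ) * ((W u v : ℂ) - ∑ i, r i * ch (z i) u * ch (w i) v)) := by
    have e1 : (fun u : ℤ => (a u : ℂ) * ((W u v : ℂ) - ∑ i, r i * ch (z i) u * ch (w i) v)) =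
        (fun u : ℤ => ((a u * W u v : ℝ) : ℂ)) -
          ∑ i, (r i * ch (w i) v) • (fun u : ℤ => (a u : ℂ) * ch (z i) u) := by
      funext u
      simp only [Pi.sub_apply, Finset.sum_apply, Pi.smul_apply, smul_eq_mul]
      push_cast
      rw [mul_sub, Finset.mul_sum]
      congr 1
      refine Finset.sum_congr rfl fun i _ => ?_
      ring
    rw [e1, map_sub, map_sum, C_ofReal]
    simp only [map_smul, smul_eq_mul]
  rw [e]
  refine norm_C_le_const m _ fun u => ?_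
  rw [norm_mul, Complex.norm_real, Real.norm_eq_abs]
  have := hT u v
  exact mul_le_mul (ha u) this (norm_nonneg _) (by norm_num)

theorem cc_norm_g (g : ℤ → ℝ) (hg : ∀ x, |g x| ≤ 2) (z : Circle) (u : ℤ) :
    ‖(g u : ℂ) * ch z u‖ ≤ 2 := by
  rw [norm_mul, norm_ch, mul_one, Complex.norm_real, Real.norm_eq_abs]
  exact hg u

theorem slotG1 (m₂ m₃ : Mn ℤ) (h₂ : m₂.Inv) (h₃ : m₃.Inv) (g₀ U : ℤ → ℝ)
    (hg₀ : ∀ x, |g₀ x| ≤ 2)
    (hU : ∀ x, |U x| ≤ 2) (N : ℕ) (hN : 0 < N) (η : ℝ) (hη : 0 ≤ η)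
    (h : Uni m₂ N η (fun x => (U x : ℂ))) (ρ : ℤ) (σ : ℕ) (hσ : 0 < σ) (W : ℤ → ℤ → ℝ) (κ B : ℝ)
    (hW : ∀ u v, |W u v| ≤ B) (n : ℕ) (r : Fin n → ℂ) (z w : Fin n → Circle)
    (hT : ∀ u v : ℤ, ‖(W u v : ℂ) - ∑ i, r i * ch (z i) u * ch (w i) v‖ ≤ κ) :
    m₃.L (fun v => |m₂.L (fun u => g₀ u * U (u - (ρ + σ * v)) * W u v)|) ≤
      4 * κ + (∑ i, ‖r i‖) * (2 * Real.sqrt (6 * σ * η)) := by
  set A : Fin n → ℤ → ℝ := fun i v =>
    ‖m₂.C (fun u => ((g₀ u : ℂ) * ch (z i) u) * ((U (u - (ρ + σ * v)) : ℝ) : ℂ))‖ with hA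
  have hAb : ∀ i v, ‖A i v‖ ≤ 4 := by
    intro i v
    rw [hA]
    simp only [norm_norm]
    refine norm_C_le_const m₂ _ fun u => ?_
    rw [norm_mul, Complex.norm_real, Real.norm_eq_abs]
    have h1 := cc_norm_g g₀ hg₀ (z i) u
    have h2 := hU (u - (ρ + σ * v))
    nlinarith [norm_nonneg ((g₀ u : ℂ) * ch (z i) u), abs_nonneg (U (u - (ρ + σ * v)))]
  have hpt : ∀ v, |m₂.L (fun u => g₀ u * U (u - (ρ + σ * v)) * W u v)| ≤
      4 * κ + ∑ i, ‖r i‖ * A i v := by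
    intro v
    have h1 := cc_split m₂ (fun u => g₀ u * U (u - (ρ + σ * v)))
      (fun u => cc_mul4 (hg₀ u) (hU _)) W κ n r z w v hT
    rw [← Real.norm_eq_abs, ← Complex.norm_real]
    have h2 := norm_le_norm_add_norm_sub' ((m₂.L (fun u => g₀ u * U (u - (ρ + σ * v)) * W u v) : ℝ) : ℂ)
      (∑ i, (r i * ch (w i) v) * m₂.C (fun u => ((g₀ u * U (u - (ρ + σ * v)) : ℝ) : ℂ) *
        ch (z i) u))
    refine h2.trans ?_
    rw [add_comm]
    refine add_le_add h1 ((norm_sum_le _ _).trans (Finset.sum_le_sum fun i _ => ?_))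
    rw [norm_mul, norm_mul, norm_ch, mul_one]
    refine mul_le_mul_of_nonneg_left (le_of_eq ?_) (norm_nonneg _)
    rw [hA]
    simp only
    congr 2
    funext u
    push_cast
    ring
  have hL0 : ∀ v, |m₂.L (fun u => g₀ u * U (u - (ρ + σ * v)) * W u v)| ≤ 4 * B := by
    intro v
    refine abs_L_le_const m₂ _ fun u => ?_
    rw [abs_mul]
    have h1 := cc_mul4 (hg₀ u) (hU (u - (ρ + σ * v)))
    exact mul_le_mul h1 (hW u v) (abs_nonneg _) (by norm_num)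
  have hBd1 : Bd (fun v => |m₂.L (fun u => g₀ u * U (u - (ρ + σ * v)) * W u v)|) :=
    Bd.of_abs_le (4 * B) fun v => by rw [abs_abs]; exact hL0 v
  have hBd2 : Bd (fun v => 4 * κ + ∑ i, ‖r i‖ * A i v) :=
    (Bd.const (4 * κ)).add (Bd.sum _ fun i _ => (Bd.const ‖r i‖).mulR (Bd.of_le 4 (hAb i)))
  refine (L_mono m₃ hBd1 hBd2 hpt).trans ?_
  have e : (fun v => 4 * κ + ∑ i, ‖r i‖ * A i v) =
      (fun _ : ℤ => 4 * κ) + ∑ i, ‖r i‖ • A i := by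
    funext v
    simp only [Pi.add_apply, Finset.sum_apply, Pi.smul_apply, smul_eq_mul]
  rw [e, map_add, L_const, map_sum, Finset.sum_mul]
  refine add_le_add le_rfl (Finset.sum_le_sum fun i _ => ?_)
  rw [map_smul, smul_eq_mul]
  refine mul_le_mul_of_nonneg_left ?_ (norm_nonneg _)
  exact wiener m₂ m₃ h₂ h₃ (fun x => (U x : ℂ)) (fun u => (g₀ u : ℂ) * ch (z i) u) 2
    (by norm_num) (fun x => by
      rw [Complex.norm_real, Real.norm_eq_abs]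
      exact hU x) (cc_norm_g g₀ hg₀ (z i)) N hN η hη h σ hσ ρ

/-- the expansion of `G` in one term -/
theorem cc_exp (m : Mn ℤ) (hm : m.Inv) (g G : ℤ → ℝ) (hg : ∀ x, |g x| ≤ 2) (Z : Finset Circle)
    (c : Circle → ℝ) (E : Circle → ℤ → ℂ) (τ : ℝ) (hG : Str m G Z c E τ) (z : Circle) (k : ℤ) :
    ‖m.C (fun u => ((g u * G (u - k) : ℝ) : ℂ) * ch z u) -
      ∑ y ∈ Z, (c y : ℂ) * ch y (-k) * m.C (fun u => ((g u : ℂ) * ch z u) * E y u)‖ ≤
      2 * τ * ∑ y ∈ Z, c y := by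
  have h1 := expand m hm G Z c E τ hG (fun u => (g u : ℂ) * ch z u) 2 (cc_norm_g g hg z) k
  have e : (fun u : ℤ => ((g u * G (u - k) : ℝ) : ℂ) * ch z u) =
      fun u => ((g u : ℂ) * ch z u) * ((G (u - k) : ℝ) : ℂ) := by
    funext u
    push_cast
    ring
  rw [e]
  exact h1

theorem slotG0 (m₂ : Mn ℤ) (h₂ : m₂.Inv) (G U : ℤ → ℝ)
    (hU : ∀ x, |U x| ≤ 2) (N : ℕ) (hN : 0 < N) (η : ℝ)
    (h : Uni m₂ N η (fun x => (U x : ℂ))) (Z : Finset Circle) (c : Circle → ℝ)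
    (E : Circle → ℤ → ℂ) (τ : ℝ) (hG : Str m₂ G Z c E τ) (W : ℤ → ℤ → ℝ) (κ B : ℝ)
    (hW : ∀ u v, |W u v| ≤ B) (n : ℕ) (r : Fin n → ℂ) (z w : Fin n → Circle)
    (hT : ∀ u v : ℤ, ‖(W u v : ℂ) - ∑ i, r i * ch (z i) u * ch (w i) v‖ ≤ κ) (k v : ℤ) :
    |m₂.L (fun u => U u * G (u - k) * W u v)| ≤
      4 * κ + (∑ i, ‖r i‖) * (∑ y ∈ Z, c y) * (η + 4 * τ) := by
  have hpt : ∀ i, ‖m₂.C (fun u => ((U u * G (u - k) : ℝ) : ℂ) * ch (z i) u)‖ ≤
      (∑ y ∈ Z, c y) * (η + 4 * τ) := by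
    intro i
    have h1 := cc_exp m₂ h₂ U G hU Z c E τ hG (z i) k
    have h3 : ‖∑ y ∈ Z, (c y : ℂ) * ch y (-k) *
        m₂.C (fun u => ((U u : ℂ) * ch (z i) u) * E y u)‖ ≤ (∑ y ∈ Z, c y) * (η + 2 * τ) := by
      rw [Finset.sum_mul]
      refine (norm_sum_le _ _).trans (Finset.sum_le_sum fun y hy => ?_)
      rw [norm_mul, norm_mul, norm_ch, mul_one, Complex.norm_real, Real.norm_eq_abs,
        abs_of_nonneg (hG.nonneg y)]
      refine mul_le_mul_of_nonneg_left ?_ (hG.nonneg y)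
      have h4 : Eig m₂ (z i) 0 (fun x => ch (z i) x) := by
        have := eig_ch m₂ (z i) 1
        simpa using this
      have h5 := eig_mul m₂ (E y) (fun x => ch (z i) x) (hG.le_one y hy)
        (fun x => (norm_ch _ _).le) y (z i) τ 0 (hG.eig y hy) h4
      rw [add_zero] at h5
      have h6 := corr_eig m₂ h₂ (fun x => (U x : ℂ)) (fun x => E y x * ch (z i) x) (fun x => by
        rw [Complex.norm_real, Real.norm_eq_abs]
        exact hU x) (fun x => by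
          rw [norm_mul, norm_ch, mul_one]
          exact hG.le_one y hy x) N hN η τ h _ h5
      have e : (fun u : ℤ => ((U u : ℂ) * ch (z i) u) * E y u) =
          fun u => (U u : ℂ) * (E y u * ch (z i) u) := by
        funext u
        ring
      rw [e]
      exact h6
    have h2 := norm_le_norm_add_norm_sub' (m₂.C (fun u => ((U u * G (u - k) : ℝ) : ℂ) * ch (z i) u))
      (∑ y ∈ Z, (c y : ℂ) * ch y (-k) * m₂.C (fun u => ((U u : ℂ) * ch (z i) u) * E y u))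
    refine h2.trans ?_
    have := add_le_add h3 h1
    refine this.trans (le_of_eq ?_)
    ring
  have h1 := cc_split m₂ (fun u => U u * G (u - k)) (fun u => cc_mul4 (hU u) (cc_rng hG _))
    W κ n r z w v hT
  rw [← Real.norm_eq_abs, ← Complex.norm_real]
  have h2 := norm_le_norm_add_norm_sub' ((m₂.L (fun u => U u * G (u - k) * W u v) : ℝ) : ℂ)
    (∑ i, (r i * ch (w i) v) * m₂.C (fun u => ((U u * G (u - k) : ℝ) : ℂ) * ch (z i) u))
  refine h2.trans ?_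
  rw [add_comm]
  refine add_le_add h1 ?_
  rw [mul_assoc, Finset.sum_mul]
  refine (norm_sum_le _ _).trans (Finset.sum_le_sum fun i _ => ?_)
  rw [norm_mul, norm_mul, norm_ch, mul_one]
  exact mul_le_mul_of_nonneg_left (hpt i) (norm_nonneg _)

theorem cc_trig1 {ι : Type} [Fintype ι] (κ : ℝ) (Q : ℤ → ℝ) (r : ι → ℂ) (w : ι → Circle)
    (h : ∀ v : ℤ, ‖(Q v : ℂ) - ∑ i, r i * ch (w i) v‖ ≤ κ) : Trig1 κ Q := by
  refine ⟨Fintype.card ι, fun i => r ((Fintype.equivFin ι).symm i),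
    fun i => w ((Fintype.equivFin ι).symm i), fun v => ?_⟩
  rw [Equiv.sum_comp (Fintype.equivFin ι).symm (fun i => r i * ch (w i) v)]
  exact h v

theorem trigG (m₂ : Mn ℤ) (h₂ : m₂.Inv) (G₀ G : ℤ → ℝ) (hG₀ : ∀ x, |G₀ x| ≤ 2)
    (Z : Finset Circle) (c : Circle → ℝ) (E : Circle → ℤ → ℂ) (τ : ℝ) (hG : Str m₂ G Z c E τ)
    (W : ℤ → ℤ → ℝ) (κ B : ℝ) (hW : ∀ u v, |W u v| ≤ B) (n : ℕ) (r : Fin n → ℂ)
    (z w : Fin n → Circle)
    (hT : ∀ u v : ℤ, ‖(W u v : ℂ) - ∑ i, r i * ch (z i) u * ch (w i) v‖ ≤ κ) (ρ σ : ℤ) :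
    Trig1 (4 * κ + 2 * (∑ i, ‖r i‖) * (∑ y ∈ Z, c y) * τ)
      (fun v => m₂.L (fun u => G₀ u * G (u - (ρ + σ * v)) * W u v)) := by
  refine cc_trig1 (ι := Fin n × Z) _ _
    (fun p => r p.1 * ((c p.2 : ℂ) * ch (p.2 : Circle) (-ρ) *
      m₂.C (fun u => ((G₀ u : ℂ) * ch (z p.1) u) * E p.2 u)))
    (fun p => w p.1 * (p.2 : Circle) ^ (-σ)) fun v => ?_
  have h1 := cc_split m₂ (fun u => G₀ u * G (u - (ρ + σ * v)))
    (fun u => cc_mul4 (hG₀ u) (cc_rng hG _)) W κ n r z w v hT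
  have e : ∑ p : Fin n × Z, (r p.1 * ((c p.2 : ℂ) * ch (p.2 : Circle) (-ρ) *
      m₂.C (fun u => ((G₀ u : ℂ) * ch (z p.1) u) * E p.2 u))) *
      ch (w p.1 * (p.2 : Circle) ^ (-σ)) v =
      ∑ i, (r i * ch (w i) v) * ∑ y ∈ Z, (c y : ℂ) * ch y (-(ρ + σ * v)) *
        m₂.C (fun u => ((G₀ u : ℂ) * ch (z i) u) * E y u) := by
    rw [Fintype.sum_prod_type]
    refine Finset.sum_congr rfl fun i _ => ?_
    rw [Finset.mul_sum, ← Finset.sum_coe_sort Z (fun y => (r i * ch (w i) v) *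
      ((c y : ℂ) * ch y (-(ρ + σ * v)) * m₂.C (fun u => ((G₀ u : ℂ) * ch (z i) u) * E y u)))]
    refine Finset.sum_congr rfl fun y _ => ?_
    have e1 : ch (w i * (y : Circle) ^ (-σ)) v = ch (w i) v * ch (y : Circle) (-σ * v) := by
      rw [ch_mul, ch_zpow]
    have e2 : ch (y : Circle) (-(ρ + σ * v)) = ch (y : Circle) (-ρ) * ch (y : Circle) (-σ * v) := by
      rw [← ch_add]
      congr 1
      ring
    simp only [e1, e2]
    ring
  rw [e]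
  have h3 : ‖∑ i, (r i * ch (w i) v) *
        m₂.C (fun u => ((G₀ u * G (u - (ρ + σ * v)) : ℝ) : ℂ) * ch (z i) u) -
      ∑ i, (r i * ch (w i) v) * ∑ y ∈ Z, (c y : ℂ) * ch y (-(ρ + σ * v)) *
        m₂.C (fun u => ((G₀ u : ℂ) * ch (z i) u) * E y u)‖ ≤
      (∑ i, ‖r i‖) * (2 * τ * ∑ y ∈ Z, c y) := by
    rw [← Finset.sum_sub_distrib, Finset.sum_mul]
    refine (norm_sum_le _ _).trans (Finset.sum_le_sum fun i _ => ?_)
    rw [← mul_sub, norm_mul, norm_mul, norm_ch, mul_one]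
    exact mul_le_mul_of_nonneg_left (cc_exp m₂ h₂ G₀ G hG₀ Z c E τ hG (z i) _) (norm_nonneg _)
  have h4 := norm_sub_le_norm_sub_add_norm_sub
    ((m₂.L (fun u => G₀ u * G (u - (ρ + σ * v)) * W u v) : ℝ) : ℂ)
    (∑ i, (r i * ch (w i) v) *
        m₂.C (fun u => ((G₀ u * G (u - (ρ + σ * v)) : ℝ) : ℂ) * ch (z i) u))
    (∑ i, (r i * ch (w i) v) * ∑ y ∈ Z, (c y : ℂ) * ch y (-(ρ + σ * v)) *
        m₂.C (fun u => ((G₀ u : ℂ) * ch (z i) u) * E y u))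
  refine h4.trans ((add_le_add h1 h3).trans (le_of_eq ?_))
  ring




end Pool.Agent.HOM
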