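import Pool.Agent.Lib_helper33.HOM.Defs
import Pool.Agent.Lib_helper33.HOMF.CC
import Pool.Agent.Lib_helper33.HOMF.MA

set_option autoImplicit false

namespace Pool.Agent.HOM

open Filter Topology
open scoped BigOperators ComplexConjugate

theorem cd_abs_sub {a b : ℝ} (ha : 0 ≤ a ∧ a ≤ 1) (hb : 0 ≤ b ∧ b ≤ 2) : |a - b| ≤ 2 := by
  rw [abs_le]; constructor <;> linarith [ha.1, ha.2, hb.1, hb.2]

theorem cd_abs_le {a c : ℝ} (ha : 0 ≤ a ∧ a ≤ c) (hc : c ≤ 2) : |a| ≤ 2 := by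
  rw [abs_le]; constructor <;> linarith [ha.1, ha.2]

theorem cd_frac (R S κ : ℝ) (hR : 0 ≤ R) (hS : 0 ≤ S) (hκ : 0 < κ) (n : ℝ) (hn : 0 < n) :
    R * S * (κ / (n * ((R + 1) * (S + 1)))) ≤ κ / n := by
  have h1 : R * S * (κ / (n * ((R + 1) * (S + 1)))) = (R * S / ((R + 1) * (S + 1))) * (κ / n) := by
    field_simp
  rw [h1]
  have h2 : R * S / ((R + 1) * (S + 1)) ≤ 1 := by
    rw [div_le_one (by positivity)]
    nlinarith
  have h3 : 0 ≤ κ / n := by positivity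
  nlinarith

theorem stage2 (m₂ m₃ : Mn ℤ) (h₂ : m₂.Inv) (h₃ : m₃.Inv) (f h : ℤ → ℝ)
    (hf : ∀ x, 0 ≤ f x ∧ f x ≤ 1) (τ : ℝ) (hFA : FA m₂ f h τ) (ρ : ℤ) (σ : ℕ) (hσ : 0 < σ)
    (κ : ℝ) (hκ : 0 < κ) (W : ℤ → ℤ → ℝ) (B : ℝ) (hW : ∀ u v, |W u v| ≤ B)
    (hT : Trig2 (κ / 16) W) :
    ∃ G₀ G₁ : ℤ → ℝ, (∀ x, 0 ≤ G₀ x ∧ G₀ x ≤ 2) ∧ (∀ x, 0 ≤ G₁ x ∧ G₁ x ≤ 2) ∧
      nrm m₂ (fun x => G₀ x - h x) ≤ τ ∧ nrm m₂ (fun x => G₁ x - h x) ≤ τ ∧
      m₃.L (fun v => |m₂.L (fun u => f u * f (u - (ρ + σ * v)) * W u v) -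
        m₂.L (fun u => G₀ u * G₁ (u - (ρ + σ * v)) * W u v)|) ≤ κ ∧
      Trig1 κ (fun v => m₂.L (fun u => G₀ u * G₁ (u - (ρ + σ * v)) * W u v)) := by
  obtain ⟨n, r, z, w, hrzw⟩ := hT
  set R : ℝ := ∑ i, ‖r i‖ with hRdef
  have hR : 0 ≤ R := Finset.sum_nonneg fun i _ => norm_nonneg _
  have hB : 0 ≤ B := (abs_nonneg _).trans (hW 0 0)
  have hσ' : (0 : ℝ) < σ := by exact_mod_cast hσ
  -- the precision of `G₁`
  set η₁ : ℝ := (κ / (16 * (R + 1))) ^ 2 / (6 * σ) with hη₁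
  have hη₁pos : 0 < η₁ := by positivity
  have hsq : Real.sqrt (6 * σ * η₁) = κ / (16 * (R + 1)) := by
    rw [show 6 * (σ : ℝ) * η₁ = (κ / (16 * (R + 1))) ^ 2 from by rw [hη₁]; field_simp]
    exact Real.sqrt_sq (by positivity)
  obtain ⟨Z₁, c₁, hF₁⟩ := hFA η₁ hη₁pos
  have hc₁ : 0 ≤ ∑ y ∈ Z₁, c₁ y := by
    obtain ⟨E, F, N, -, hStr, -, -⟩ := hF₁ 1 one_pos
    exact Finset.sum_nonneg fun y _ => hStr.nonneg y
  set S : ℝ := ∑ y ∈ Z₁, c₁ y with hS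
  obtain ⟨Z₀, c₀, hF₀⟩ := hFA (κ / (16 * ((R + 1) * (S + 1)))) (by positivity)
  obtain ⟨E₁, G₁, N₁, hN₁, hS₁, hn₁, hU₁⟩ := hF₁ (κ / (64 * ((R + 1) * (S + 1)))) (by positivity)
  obtain ⟨E₀, G₀, N₀, hN₀, hS₀, hn₀, hU₀⟩ := hF₀ (κ / (64 * ((R + 1) * (S + 1)))) (by positivity)
  have a1 : ∀ x, |f x| ≤ 2 := fun x => cd_abs_le (hf x) (by norm_num)
  have a2 : ∀ x, |G₀ x| ≤ 2 := fun x => cd_abs_le (hS₀.rng x) le_rfl
  have a2' : ∀ x, |G₁ x| ≤ 2 := fun x => cd_abs_le (hS₁.rng x) le_rfl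
  have a3 : ∀ x, |f x - G₁ x| ≤ 2 := fun x => cd_abs_sub (hf x) (hS₁.rng x)
  have a4 : ∀ x, |f x - G₀ x| ≤ 2 := fun x => cd_abs_sub (hf x) (hS₀.rng x)
  refine ⟨G₀, G₁, hS₀.rng, hS₁.rng, hn₀, hn₁, ?_, ?_⟩
  · -- the difference
    have e1 := slotG1 m₂ m₃ h₂ h₃ f (fun x => f x - G₁ x) a1 a3 N₁ hN₁ η₁ hη₁pos.le hU₁ ρ σ hσ
      W (κ / 16) B hW n r z w hrzw
    rw [hsq] at e1
    have e1' : R * (2 * (κ / (16 * (R + 1)))) ≤ κ / 8 := by
      have h1 : R * (2 * (κ / (16 * (R + 1)))) = (R / (R + 1)) * (κ / 8) := by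
        field_simp; ring
      rw [h1]
      have h2 : R / (R + 1) ≤ 1 := by
        rw [div_le_one (by positivity)]; linarith
      nlinarith
    have e0 : ∀ v : ℤ, |m₂.L (fun u => (f u - G₀ u) * G₁ (u - (ρ + σ * v)) * W u v)| ≤
        κ / 4 + κ / 8 := by
      intro v
      have := slotG0 m₂ h₂ G₁ (fun x => f x - G₀ x) a4 N₀ hN₀ _ hU₀ Z₁ c₁ E₁ _ hS₁ W (κ / 16) B hW
        n r z w hrzw (ρ + σ * v) v
      refine this.trans ?_
      have h1 := cd_frac R S κ hR hc₁ hκ 16 (by norm_num)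
      have h2 := cd_frac R S κ hR hc₁ hκ 64 (by norm_num)
      have h3 : (∑ i, ‖r i‖) * (∑ y ∈ Z₁, c₁ y) *
          (κ / (16 * ((R + 1) * (S + 1))) + 4 * (κ / (64 * ((R + 1) * (S + 1))))) =
          R * S * (κ / (16 * ((R + 1) * (S + 1)))) +
            4 * (R * S * (κ / (64 * ((R + 1) * (S + 1))))) := by
        rw [← hRdef, ← hS]; ring
      rw [h3]
      linarith
    have key : ∀ v : ℤ, |m₂.L (fun u => f u * f (u - (ρ + σ * v)) * W u v) -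
        m₂.L (fun u => G₀ u * G₁ (u - (ρ + σ * v)) * W u v)| ≤
        |m₂.L (fun u => f u * (f (u - (ρ + σ * v)) - G₁ (u - (ρ + σ * v))) * W u v)| +
          (κ / 4 + κ / 8) := by
      intro v
      have h1 : m₂.L (fun u => f u * f (u - (ρ + σ * v)) * W u v) -
          m₂.L (fun u => G₀ u * G₁ (u - (ρ + σ * v)) * W u v) =
          m₂.L (fun u => f u * (f (u - (ρ + σ * v)) - G₁ (u - (ρ + σ * v))) * W u v) +
          m₂.L (fun u => (f u - G₀ u) * G₁ (u - (ρ + σ * v)) * W u v) := by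
        rw [← map_sub, ← map_add]
        congr 1
        ext u
        simp only [Pi.sub_apply, Pi.add_apply]
        ring
      rw [h1]
      exact (abs_add_le _ _).trans (add_le_add le_rfl (e0 v))
    have bA : ∀ v u : ℤ, |f u * f (u - (ρ + σ * v)) * W u v| ≤ 2 * 2 * B := by
      intro v u
      rw [abs_mul, abs_mul]
      exact mul_le_mul (mul_le_mul (a1 _) (a1 _) (abs_nonneg _) (by norm_num)) (hW _ _)
        (abs_nonneg _) (by norm_num)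
    have bB : ∀ v u : ℤ, |G₀ u * G₁ (u - (ρ + σ * v)) * W u v| ≤ 2 * 2 * B := by
      intro v u
      rw [abs_mul, abs_mul]
      exact mul_le_mul (mul_le_mul (a2 _) (a2' _) (abs_nonneg _) (by norm_num)) (hW _ _)
        (abs_nonneg _) (by norm_num)
    have bC : ∀ v u : ℤ, |f u * (f (u - (ρ + σ * v)) - G₁ (u - (ρ + σ * v))) * W u v| ≤
        2 * 2 * B := by
      intro v u
      rw [abs_mul, abs_mul]
      exact mul_le_mul (mul_le_mul (a1 _) (a3 _) (abs_nonneg _) (by norm_num)) (hW _ _)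
        (abs_nonneg _) (by norm_num)
    have d1 := (Bd_L m₂ (F := fun v u => f u * f (u - (ρ + σ * v)) * W u v) (2 * 2 * B) bA)
    have d2 := (Bd_L m₂ (F := fun v u => G₀ u * G₁ (u - (ρ + σ * v)) * W u v) (2 * 2 * B) bB)
    have d3 := (Bd_L m₂ (F := fun v u => f u * (f (u - (ρ + σ * v)) - G₁ (u - (ρ + σ * v))) * W u v)
      (2 * 2 * B) bC)
    have h5 := L_mono m₃ (d1.sub d2).abs (d3.abs.add (Bd.const (κ / 4 + κ / 8))) key
    refine h5.trans ?_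
    have h6 : m₃.L (fun v : ℤ =>
        |m₂.L (fun u => f u * (f (u - (ρ + σ * v)) - G₁ (u - (ρ + σ * v))) * W u v)| +
          (κ / 4 + κ / 8)) =
        m₃.L (fun v : ℤ =>
          |m₂.L (fun u => f u * (f (u - (ρ + σ * v)) - G₁ (u - (ρ + σ * v))) * W u v)|) +
          (κ / 4 + κ / 8) := by
      have : (fun v : ℤ =>
        |m₂.L (fun u => f u * (f (u - (ρ + σ * v)) - G₁ (u - (ρ + σ * v))) * W u v)| +
          (κ / 4 + κ / 8)) = (fun v : ℤ =>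
          |m₂.L (fun u => f u * (f (u - (ρ + σ * v)) - G₁ (u - (ρ + σ * v))) * W u v)|) +
          fun _ => (κ / 4 + κ / 8) := rfl
      rw [this, map_add, L_const]
    rw [h6]
    linarith
  · -- the trigonometric approximation
    have h1 := trigG m₂ h₂ G₀ G₁ a2 Z₁ c₁ E₁ _ hS₁ W (κ / 16) B hW n r z w hrzw ρ σ
    obtain ⟨n', r', w', h2⟩ := h1
    refine ⟨n', r', w', fun v => (h2 v).trans ?_⟩
    have h3 := cd_frac R S κ hR hc₁ hκ 64 (by norm_num)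
    have h4 : 2 * (∑ i, ‖r i‖) * (∑ y ∈ Z₁, c₁ y) * (κ / (64 * ((R + 1) * (S + 1)))) =
        2 * (R * S * (κ / (64 * ((R + 1) * (S + 1))))) := by
      rw [← hRdef, ← hS]; ring
    rw [h4]
    linarith


end Pool.Agent.HOM
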