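import Pool.Agent.Lib_helper33.HOM.Defs
import Pool.Agent.Lib_helper33.HOMF.CB
import Pool.Agent.Lib_helper33.HOMF.CD
import Pool.Agent.Lib_helper33.HOMF.MA
import Pool.Agent.Lib_helper33.HOMF.WC

set_option autoImplicit false

namespace Pool.Agent.HOM

open Filter Topology
open scoped BigOperators ComplexConjugate

theorem ce_L_sub {X : Type*} (m : Mn X) (f g : X → ℝ) :
    m.L f - m.L g = m.L (fun x => f x - g x) := by
  rw [← map_sub]; rfl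

/-- Replace `Q` by `∑ r i (w i)^v` (`|f - H| ≤ 2`, error `2 κ/8`), then `corr_eig` with `eig_ch`. -/
theorem stage3 (m₃ : Mn ℤ) (h₃ : m₃.Inv) (f h : ℤ → ℝ) (hf : ∀ x, 0 ≤ f x ∧ f x ≤ 1) (τ : ℝ)
    (hFA : FA m₃ f h τ) (κ : ℝ) (hκ : 0 < κ) (Q : ℤ → ℝ) (B : ℝ) (hQ : ∀ v, |Q v| ≤ B)
    (hT : Trig1 (κ / 8) Q) :
    ∃ H : ℤ → ℝ, (∀ x, 0 ≤ H x ∧ H x ≤ 2) ∧ nrm m₃ (fun x => H x - h x) ≤ τ ∧
      |m₃.L (fun v => f v * Q v) - m₃.L (fun v => H v * Q v)| ≤ κ := by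
  obtain ⟨n, r, w, hrw⟩ := hT
  set R : ℝ := ∑ i, ‖r i‖ with hR
  have hR0 : 0 ≤ R := Finset.sum_nonneg fun i _ => norm_nonneg _
  have hη : 0 < κ / (4 * (R + 1)) := by positivity
  obtain ⟨Z, c, hZ⟩ := hFA _ hη
  obtain ⟨E, F, N, hN, hStr, hn, hU⟩ := hZ 1 one_pos
  refine ⟨F, hStr.rng, hn, ?_⟩
  set U : ℤ → ℂ := fun x => ((f x - F x : ℝ) : ℂ) with hUdef
  have hU2 : ∀ x, ‖U x‖ ≤ 2 := by
    intro x
    have h1 := hf x
    have h2 := hStr.rng x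
    rw [hUdef]
    simp only
    rw [Complex.norm_real, Real.norm_eq_abs, abs_le]
    constructor <;> linarith [h1.1, h1.2, h2.1, h2.2]
  have hBU : Bd U := ⟨2, hU2⟩
  have hT0 : ∀ v : ℤ, ‖∑ i, r i * ch (w i) v‖ ≤ R := by
    intro v
    refine (norm_sum_le _ _).trans ?_
    rw [hR]
    refine Finset.sum_le_sum fun i _ => ?_
    rw [norm_mul, norm_ch, mul_one]
  have e1 : m₃.L (fun v => f v * Q v) - m₃.L (fun v => F v * Q v)
      = m₃.L (fun v => (f v - F v) * Q v) := by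
    rw [ce_L_sub]
    congr 1
    ext v; ring
  have e2 : |m₃.L (fun v => (f v - F v) * Q v)| = ‖m₃.C (fun v => U v * (Q v : ℂ))‖ := by
    have : (fun v => U v * (Q v : ℂ)) = fun v => (((f v - F v) * Q v : ℝ) : ℂ) := by
      ext v; rw [hUdef]; push_cast; ring
    rw [this, C_ofReal, Complex.norm_real, Real.norm_eq_abs]
  rw [e1, e2]
  have e3 : (fun v => U v * (Q v : ℂ)) = (fun v => U v * ((Q v : ℂ) - ∑ i, r i * ch (w i) v))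
      + ∑ i, r i • (fun v => U v * ch (w i) v) := by
    ext v
    simp only [Pi.add_apply, Finset.sum_apply, Pi.smul_apply, smul_eq_mul]
    rw [mul_sub, Finset.mul_sum]
    have : ∑ i, U v * (r i * ch (w i) v) = ∑ i, r i * (U v * ch (w i) v) :=
      Finset.sum_congr rfl fun i _ => by ring
    rw [this]; ring
  rw [e3, map_add, map_sum]
  have b1 : ‖m₃.C (fun v => U v * ((Q v : ℂ) - ∑ i, r i * ch (w i) v))‖ ≤ 2 * (κ / 8) := by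
    refine norm_C_le_const m₃ _ fun v => ?_
    rw [norm_mul]
    exact mul_le_mul (hU2 v) (hrw v) (norm_nonneg _) (by norm_num)
  have b2 : ∀ i, ‖m₃.C (r i • (fun v => U v * ch (w i) v))‖ ≤ ‖r i‖ * (κ / (4 * (R + 1))) := by
    intro i
    rw [map_smul, norm_smul]
    refine mul_le_mul_of_nonneg_left ?_ (norm_nonneg _)
    have he : Eig m₃ (w i ^ (1 : ℤ)) 0 (fun x => ch (w i) ((1 : ℤ) * x)) := eig_ch m₃ (w i) 1
    have he' : Eig m₃ (w i ^ (1 : ℤ)) 0 (fun x => ch (w i) x) := by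
      simpa using he
    have := corr_eig m₃ h₃ U (fun x => ch (w i) x) hU2 (fun x => (norm_ch _ _).le) N hN
      (κ / (4 * (R + 1))) 0 hU (w i ^ (1 : ℤ)) he'
    simpa using this
  calc ‖m₃.C (fun v => U v * ((Q v : ℂ) - ∑ i, r i * ch (w i) v))
        + ∑ i, m₃.C (r i • (fun v => U v * ch (w i) v))‖
      ≤ ‖m₃.C (fun v => U v * ((Q v : ℂ) - ∑ i, r i * ch (w i) v))‖
        + ‖∑ i, m₃.C (r i • (fun v => U v * ch (w i) v))‖ := norm_add_le _ _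
    _ ≤ 2 * (κ / 8) + ∑ i, ‖r i‖ * (κ / (4 * (R + 1))) :=
        add_le_add b1 ((norm_sum_le _ _).trans (Finset.sum_le_sum fun i _ => b2 i))
    _ = κ / 4 + R * (κ / (4 * (R + 1))) := by rw [← Finset.sum_mul, hR]; ring
    _ ≤ κ := by
        have : R * (κ / (4 * (R + 1))) ≤ κ / 4 := by
          rw [mul_div_assoc', div_le_div_iff₀ (by positivity) (by norm_num)]
          nlinarith
        linarith

theorem ce_trig2_mono {κ κ' : ℝ} {W : ℤ → ℤ → ℝ} (h : Trig2 κ W) (hk : κ ≤ κ') : Trig2 κ' W := by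
  obtain ⟨n, r, z, w, h⟩ := h
  exact ⟨n, r, z, w, fun u v => (h u v).trans hk⟩

theorem ce_trig1_mono {κ κ' : ℝ} {Q : ℤ → ℝ} (h : Trig1 κ Q) (hk : κ ≤ κ') : Trig1 κ' Q := by
  obtain ⟨n, r, w, h⟩ := h
  exact ⟨n, r, w, fun v => (h v).trans hk⟩

theorem ce_abs3 {a b c A B C : ℝ} (ha : |a| ≤ A) (hb : |b| ≤ B) (hc : |c| ≤ C) :
    |a * b * c| ≤ A * B * C := by
  have hA : 0 ≤ A := (abs_nonneg _).trans ha
  have hB : 0 ≤ B := (abs_nonneg _).trans hb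
  rw [abs_mul, abs_mul]
  exact mul_le_mul (mul_le_mul ha hb (abs_nonneg _) hA) hc (abs_nonneg _) (mul_nonneg hA hB)

theorem ce_abs_of_rng {a B : ℝ} (h : 0 ≤ a ∧ a ≤ B) : |a| ≤ B := by
  rw [abs_of_nonneg h.1]; exact h.2

/-- `stage1` with `κ / 10000` (and `ρ' := σ ρ'`, `σ' := σ σ'`), `stage2` with `κ / 100`, `stage3`
with `κ / 4`: the three replacements change `T3` by at most `κ`. -/
theorem count (m₁ m₂ m₃ : Mn ℤ) (h₁ : m₁.Inv) (h₂ : m₂.Inv) (h₃ : m₃.Inv)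
    (f₁ f₂ f₃ k₁ k₂ k₃ : ℤ → ℝ) (hf₁ : ∀ x, 0 ≤ f₁ x ∧ f₁ x ≤ 1) (hf₂ : ∀ x, 0 ≤ f₂ x ∧ f₂ x ≤ 1)
    (hf₃ : ∀ x, 0 ≤ f₃ x ∧ f₃ x ≤ 1) (τ₁ τ₂ τ₃ : ℝ) (hA₁ : FA m₁ f₁ k₁ τ₁)
    (hA₂ : FA m₂ f₂ k₂ τ₂) (hA₃ : FA m₃ f₃ k₃ τ₃) (ρ ρ' : ℤ) (σ σ' : ℕ) (hσ : 0 < σ) (hσ' : 0 < σ') (κ : ℝ) (hκ : 0 < κ)
    (hz : T3 m₁ m₂ m₃ ρ ρ' σ σ' f₃ f₂ f₂ f₁ f₁ f₁ = 0) :
    ∃ H G₀ G₁ F₀ F₁ F₂ : ℤ → ℝ,
      (∀ x, 0 ≤ H x ∧ H x ≤ 2) ∧ (∀ x, 0 ≤ G₀ x ∧ G₀ x ≤ 2) ∧ (∀ x, 0 ≤ G₁ x ∧ G₁ x ≤ 2) ∧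
      (∀ x, 0 ≤ F₀ x ∧ F₀ x ≤ 2) ∧ (∀ x, 0 ≤ F₁ x ∧ F₁ x ≤ 2) ∧ (∀ x, 0 ≤ F₂ x ∧ F₂ x ≤ 2) ∧
      nrm m₃ (fun x => H x - k₃ x) ≤ τ₃ ∧ nrm m₂ (fun x => G₀ x - k₂ x) ≤ τ₂ ∧
      nrm m₂ (fun x => G₁ x - k₂ x) ≤ τ₂ ∧ nrm m₁ (fun x => F₀ x - k₁ x) ≤ τ₁ ∧
      nrm m₁ (fun x => F₁ x - k₁ x) ≤ τ₁ ∧ nrm m₁ (fun x => F₂ x - k₁ x) ≤ τ₁ ∧
      T3 m₁ m₂ m₃ ρ ρ' σ σ' H G₀ G₁ F₀ F₁ F₂ ≤ κ := by
  obtain ⟨F₀, F₁, F₂, hF₀, hF₁, hF₂, n₀, n₁, n₂, hs1, hW⟩ :=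
    stage1 m₁ m₂ m₃ h₁ h₂ h₃ f₁ k₁ hf₁ τ₁ hA₁ ρ (σ * ρ') σ (σ * σ') hσ (Nat.mul_pos hσ hσ')
      (κ / 10000) (by positivity)
  set W : ℤ → ℤ → ℝ := fun u v =>
    m₁.L (fun x => F₀ x * F₁ (x - (ρ + σ * u)) * F₂ (x - (σ * ρ' + ((σ * σ' : ℕ) : ℤ) * v)))
    with hWdef
  set A : ℤ → ℤ → ℝ := fun u v =>
    m₁.L (fun x => f₁ x * f₁ (x - (ρ + σ * u)) * f₁ (x - (σ * ρ' + ((σ * σ' : ℕ) : ℤ) * v)))
    with hAdef
  have hWB : ∀ u v, |W u v| ≤ 8 := by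
    intro u v
    refine abs_L_le_const m₁ 8 fun x => ?_
    have := ce_abs3 (ce_abs_of_rng (hF₀ x)) (ce_abs_of_rng (hF₁ (x - (ρ + σ * u))))
      (ce_abs_of_rng (hF₂ (x - (σ * ρ' + ((σ * σ' : ℕ) : ℤ) * v))))
    linarith
  have hAB : ∀ u v, |A u v| ≤ 1 := by
    intro u v
    refine abs_L_le_const m₁ 1 fun x => ?_
    have := ce_abs3 (ce_abs_of_rng (hf₁ x)) (ce_abs_of_rng (hf₁ (x - (ρ + σ * u))))
      (ce_abs_of_rng (hf₁ (x - (σ * ρ' + ((σ * σ' : ℕ) : ℤ) * v))))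
    linarith
  obtain ⟨G₀, G₁, hG₀, hG₁, p₀, p₁, hs2, hQ⟩ :=
    stage2 m₂ m₃ h₂ h₃ f₂ k₂ hf₂ τ₂ hA₂ ρ' σ' hσ' (κ / 100) (by positivity) W 8 hWB
      (ce_trig2_mono hW (by linarith))
  set Q : ℤ → ℝ := fun v => m₂.L (fun u => G₀ u * G₁ (u - (ρ' + σ' * v)) * W u v) with hQdef
  set P : ℤ → ℝ := fun v => m₂.L (fun u => f₂ u * f₂ (u - (ρ' + σ' * v)) * W u v) with hPdef
  set P' : ℤ → ℝ := fun v => m₂.L (fun u => f₂ u * f₂ (u - (ρ' + σ' * v)) * A u v) with hP'def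
  have hQB : ∀ v, |Q v| ≤ 32 := by
    intro v
    refine abs_L_le_const m₂ 32 fun u => ?_
    have := ce_abs3 (ce_abs_of_rng (hG₀ u)) (ce_abs_of_rng (hG₁ (u - (ρ' + σ' * v)))) (hWB u v)
    linarith
  have hPB : ∀ v, |P v| ≤ 8 := by
    intro v
    refine abs_L_le_const m₂ 8 fun u => ?_
    have := ce_abs3 (ce_abs_of_rng (hf₂ u)) (ce_abs_of_rng (hf₂ (u - (ρ' + σ' * v)))) (hWB u v)
    linarith
  have hP'B : ∀ v, |P' v| ≤ 1 := by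
    intro v
    refine abs_L_le_const m₂ 1 fun u => ?_
    have := ce_abs3 (ce_abs_of_rng (hf₂ u)) (ce_abs_of_rng (hf₂ (u - (ρ' + σ' * v)))) (hAB u v)
    linarith
  obtain ⟨H, hH, q₀, hs3⟩ := stage3 m₃ h₃ f₃ k₃ hf₃ τ₃ hA₃ (κ / 4) (by positivity) Q 32 hQB
    (ce_trig1_mono hQ (by linarith))
  refine ⟨H, G₀, G₁, F₀, F₁, F₂, hH, hG₀, hG₁, hF₀, hF₁, hF₂, q₀, p₀, p₁, n₀, n₁, n₂, ?_⟩
  -- the two nested means
  have eT : T3 m₁ m₂ m₃ ρ ρ' σ σ' H G₀ G₁ F₀ F₁ F₂ = m₃.L (fun v => H v * Q v) := by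
    rw [T3, hQdef]
    refine congrArg m₃.L (funext fun v => ?_)
    refine congrArg (fun t => H v * t) (congrArg m₂.L (funext fun u => ?_))
    simp only [hWdef]
    refine congrArg (fun t => G₀ u * G₁ (u - (ρ' + σ' * v)) * t) (congrArg m₁.L (funext fun x => ?_))
    have : (σ : ℤ) * (ρ' + σ' * v) = σ * ρ' + ((σ * σ' : ℕ) : ℤ) * v := by push_cast; ring
    rw [this]
  have eT0 : m₃.L (fun v => f₃ v * P' v) = 0 := by
    rw [← hz, T3, hP'def]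
    refine congrArg m₃.L (funext fun v => ?_)
    refine congrArg (fun t => f₃ v * t) (congrArg m₂.L (funext fun u => ?_))
    simp only [hAdef]
    refine congrArg (fun t => f₂ u * f₂ (u - (ρ' + σ' * v)) * t) (congrArg m₁.L (funext fun x => ?_))
    have : (σ : ℤ) * (ρ' + σ' * v) = σ * ρ' + ((σ * σ' : ℕ) : ℤ) * v := by push_cast; ring
    rw [this]
  have c1 : |m₃.L (fun v => f₃ v * P v) - m₃.L (fun v => f₃ v * Q v)| ≤ κ / 100 := by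
    rw [ce_L_sub]
    have hb1 : Bd (fun v => f₃ v * P v - f₃ v * Q v) := by
      refine Bd.of_abs_le 40 fun v => ?_
      have e1 : |f₃ v * P v| ≤ 1 * 8 := by
        rw [abs_mul]
        exact mul_le_mul (ce_abs_of_rng (hf₃ v)) (hPB v) (abs_nonneg _) (by norm_num)
      have e2 : |f₃ v * Q v| ≤ 1 * 32 := by
        rw [abs_mul]
        exact mul_le_mul (ce_abs_of_rng (hf₃ v)) (hQB v) (abs_nonneg _) (by norm_num)
      have := abs_sub (f₃ v * P v) (f₃ v * Q v)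
      linarith
    refine (abs_L_le m₃ hb1).trans ?_
    refine le_trans ?_ hs2
    refine L_mono m₃ hb1.abs ?_ ?_
    · refine Bd.abs (Bd.sub ?_ ?_)
      · exact Bd.of_abs_le 8 hPB
      · exact Bd.of_abs_le 32 hQB
    · intro v
      have : f₃ v * P v - f₃ v * Q v = f₃ v * (P v - Q v) := by ring
      rw [this, abs_mul]
      have h1 := ce_abs_of_rng (hf₃ v)
      have h2 := abs_nonneg (P v - Q v)
      calc |f₃ v| * |P v - Q v| ≤ 1 * |P v - Q v| := mul_le_mul_of_nonneg_right h1 h2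
        _ = |P v - Q v| := one_mul _
  have c2 : |m₃.L (fun v => f₃ v * P' v) - m₃.L (fun v => f₃ v * P v)| ≤ κ / 10000 := by
    rw [ce_L_sub]
    have hb1 : Bd (fun v => f₃ v * P' v - f₃ v * P v) := by
      refine Bd.of_abs_le 9 fun v => ?_
      have e1 : |f₃ v * P' v| ≤ 1 * 1 := by
        rw [abs_mul]
        exact mul_le_mul (ce_abs_of_rng (hf₃ v)) (hP'B v) (abs_nonneg _) (by norm_num)
      have e2 : |f₃ v * P v| ≤ 1 * 8 := by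
        rw [abs_mul]
        exact mul_le_mul (ce_abs_of_rng (hf₃ v)) (hPB v) (abs_nonneg _) (by norm_num)
      have := abs_sub (f₃ v * P' v) (f₃ v * P v)
      linarith
    refine (abs_L_le m₃ hb1).trans ?_
    refine le_trans ?_ hs1
    have hb3 : ∀ u v, |(|A u v - W u v|)| ≤ 9 := by
      intro u v
      rw [abs_abs]
      have := abs_sub (A u v) (W u v)
      have h1 := hAB u v
      have h2 := hWB u v
      linarith
    refine L_mono m₃ hb1.abs ?_ ?_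
    · exact Bd_L m₂ (F := fun v u => |A u v - W u v|) 9 fun v u => hb3 u v
    · intro v
      have : f₃ v * P' v - f₃ v * P v = f₃ v * (P' v - P v) := by ring
      rw [this, abs_mul]
      have h1 := ce_abs_of_rng (hf₃ v)
      have h2 := abs_nonneg (P' v - P v)
      have h3 : |P' v - P v| ≤ m₂.L (fun u => |A u v - W u v|) := by
        simp only [hP'def, hPdef]
        rw [ce_L_sub]
        have hb4 : Bd (fun u => f₂ u * f₂ (u - (ρ' + σ' * v)) * A u v -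
            f₂ u * f₂ (u - (ρ' + σ' * v)) * W u v) := by
          refine Bd.of_abs_le 9 fun u => ?_
          have e1 := ce_abs3 (ce_abs_of_rng (hf₂ u)) (ce_abs_of_rng (hf₂ (u - (ρ' + σ' * v))))
            (hAB u v)
          have e2 := ce_abs3 (ce_abs_of_rng (hf₂ u)) (ce_abs_of_rng (hf₂ (u - (ρ' + σ' * v))))
            (hWB u v)
          have := abs_sub (f₂ u * f₂ (u - (ρ' + σ' * v)) * A u v)
            (f₂ u * f₂ (u - (ρ' + σ' * v)) * W u v)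
          linarith
        refine (abs_L_le m₂ hb4).trans ?_
        refine L_mono m₂ hb4.abs (Bd.of_abs_le 9 fun u => hb3 u v) fun u => ?_
        have e : f₂ u * f₂ (u - (ρ' + σ' * v)) * A u v - f₂ u * f₂ (u - (ρ' + σ' * v)) * W u v
            = f₂ u * f₂ (u - (ρ' + σ' * v)) * (A u v - W u v) := by ring
        rw [e]
        have := ce_abs3 (ce_abs_of_rng (hf₂ u)) (ce_abs_of_rng (hf₂ (u - (ρ' + σ' * v))))
          (le_refl |A u v - W u v|)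
        linarith
      calc |f₃ v| * |P' v - P v| ≤ 1 * |P' v - P v| := mul_le_mul_of_nonneg_right h1 h2
        _ = |P' v - P v| := one_mul _
        _ ≤ _ := h3
  rw [eT]
  rw [abs_le] at c1 c2 hs3
  rw [eT0] at c2
  linarith [c1.1, c1.2, c2.1, c2.2, hs3.1, hs3.2]


end Pool.Agent.HOM
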