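import Pool.Agent.Lib_helper33.HOM.Defs
import Pool.Agent.Lib_helper33.HOMF.MA
import Pool.Agent.Lib_helper33.HOMF.MB

/-!
# Half of the multiples: block LA, a set of positive measure
-/

set_option autoImplicit false

namespace Pool.Agent.HOM

open Filter Topology
open scoped BigOperators ComplexConjugate

/-- Indicator functions are bounded. -/
theorem la_bd {X : Type*} (S : Set X) : Bd (Set.indicator S (1 : X → ℝ)) :=
  Bd.of_abs_le 1 (fun x => by by_cases hx : x ∈ S <;> simp [hx])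

theorem la_nonneg {X : Type*} (S : Set X) (x : X) : 0 ≤ Set.indicator S (1 : X → ℝ) x := by
  by_cases hx : x ∈ S <;> simp [hx]

theorem la_mem {X : Type*} {S : Set X} {x : X} (h : x ∈ S) :
    Set.indicator S (1 : X → ℝ) x = 1 := by simp [h]

/-- Comparison of the two counting functions. -/
theorem la_cnt (p : ℕ) (t : ℤ) (θ : ℝ) (F h : ℤ → ℝ) (y : ℤ) :
    (cnt p t (2 * θ) h y : ℝ) ≤ cnt p t θ F y + ∑ j ∈ Finset.range p,
      (Set.indicator {x : ℤ | θ ≤ ‖F x - h x‖} (1 : ℤ → ℝ) (y + (j : ℤ) * t) +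
        Set.indicator {x : ℤ | θ ≤ ‖F x - h x‖} (1 : ℤ → ℝ) (y + ((j : ℤ) - p) * t)) := by
  classical
  unfold cnt
  rw [Finset.card_filter, Finset.card_filter]
  push_cast
  rw [← Finset.sum_add_distrib]
  apply Finset.sum_le_sum
  intro j _
  by_cases h1 : 2 * θ ≤ h (y + j * t) ∧ 2 * θ ≤ h (y + ((j : ℤ) - p) * t)
  · by_cases h2 : θ ≤ F (y + j * t) ∧ θ ≤ F (y + ((j : ℤ) - p) * t)
    · rw [if_pos h1, if_pos h2]
      have a := la_nonneg {x : ℤ | θ ≤ ‖F x - h x‖} (y + (j : ℤ) * t)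
      have b := la_nonneg {x : ℤ | θ ≤ ‖F x - h x‖} (y + ((j : ℤ) - p) * t)
      linarith
    · rw [if_pos h1, if_neg h2]
      rcases not_and_or.mp h2 with h3 | h3
      · have a : (y + (j : ℤ) * t) ∈ {x : ℤ | θ ≤ ‖F x - h x‖} := by
          rw [Set.mem_ofPred_eq, Real.norm_eq_abs, abs_sub_comm]
          have := le_abs_self (h (y + (j : ℤ) * t) - F (y + (j : ℤ) * t))
          linarith [h1.1, not_le.mp h3]
        have b := la_nonneg {x : ℤ | θ ≤ ‖F x - h x‖} (y + ((j : ℤ) - p) * t)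
        rw [la_mem a]
        linarith
      · have a : (y + ((j : ℤ) - p) * t) ∈ {x : ℤ | θ ≤ ‖F x - h x‖} := by
          rw [Set.mem_ofPred_eq, Real.norm_eq_abs, abs_sub_comm]
          have := le_abs_self (h (y + ((j : ℤ) - p) * t) - F (y + ((j : ℤ) - p) * t))
          linarith [h1.2, not_le.mp h3]
        have b := la_nonneg {x : ℤ | θ ≤ ‖F x - h x‖} (y + (j : ℤ) * t)
        rw [la_mem a]
        linarith
  · rw [if_neg h1]
    have a := la_nonneg {x : ℤ | θ ≤ ‖F x - h x‖} (y + (j : ℤ) * t)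
    have b := la_nonneg {x : ℤ | θ ≤ ‖F x - h x‖} (y + ((j : ℤ) - p) * t)
    have c : (0 : ℝ) ≤ (if θ ≤ F (y + j * t) ∧ θ ≤ F (y + ((j : ℤ) - p) * t) then 1 else 0) := by
      split_ifs <;> norm_num
    linarith

/-- The set of the `y` at which `F` is often far from `h` is small. -/
theorem la_bad (m : Mn ℤ) (hm : m.Inv) (ε : ℝ) (hε : 0 < ε) (hε2 : ε ≤ 1 / 2) (h : ℤ → ℝ)
    (p : ℕ) (hp : 0 < p) (t : ℤ) (F : ℤ → ℝ) (hF : ∀ x, 0 ≤ F x ∧ F x ≤ 2)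
    (hh : ∀ x, 0 ≤ h x ∧ h x ≤ 2)
    (c : nrm m (fun x => F x - h x) ≤ ε ^ 2 / 1000) :
    ∃ C : Set ℤ, m.L (Set.indicator C 1) ≤ ε / 60 ∧ ∀ y, y ∉ C →
      (cnt p t (2 * (ε / 32)) h y : ℝ) ≤ cnt p t (ε / 32) F y + ε / 8 * p := by
  have hbd : Bd (fun x => F x - h x) := (Bd.of_mem_Icc hF).sub (Bd.of_mem_Icc hh)
  have hθ : 0 < ε / 32 := by positivity
  have hp' : (0 : ℝ) < p := by exact_mod_cast hp
  set E : Set ℤ := {x : ℤ | ε / 32 ≤ ‖F x - h x‖} with hE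
  have hμ : m.L (Set.indicator E 1) ≤ (ε * (32 / 1000)) ^ 2 := by
    refine (markov m hbd (ε / 32) hθ).trans ?_
    apply pow_le_pow_left₀
    · exact div_nonneg (nrm_nonneg m _) hθ.le
    · rw [div_le_iff₀ hθ]
      refine c.trans (le_of_eq ?_)
      ring
  set N : ℤ → ℝ := fun y => ∑ j ∈ Finset.range p,
      (Set.indicator E (1 : ℤ → ℝ) (y + (j : ℤ) * t) +
        Set.indicator E (1 : ℤ → ℝ) (y + ((j : ℤ) - p) * t)) with hN
  have hbj : ∀ v : ℤ, Bd (fun y : ℤ => Set.indicator E (1 : ℤ → ℝ) (y + v)) :=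
    fun v => (la_bd E).comp (fun y => y + v)
  have hNbd : Bd N := Bd.sum _ (fun j _ => (hbj _).add (hbj _))
  have hNL : m.L N = p * (2 * m.L (Set.indicator E 1)) := by
    have e : N = ∑ j ∈ Finset.range p,
      ((fun y : ℤ => Set.indicator E (1 : ℤ → ℝ) (y + (j : ℤ) * t)) +
        fun y : ℤ => Set.indicator E (1 : ℤ → ℝ) (y + ((j : ℤ) - p) * t)) := by
      ext y; simp [hN]
    rw [e, map_sum]
    have : ∀ j ∈ Finset.range p, m.L ((fun y : ℤ => Set.indicator E (1 : ℤ → ℝ) (y + (j : ℤ) * t)) +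
        fun y : ℤ => Set.indicator E (1 : ℤ → ℝ) (y + ((j : ℤ) - p) * t)) =
        2 * m.L (Set.indicator E 1) := by
      intro j _
      rw [map_add, L_shift m hm (la_bd E), L_shift m hm (la_bd E)]
      ring
    rw [Finset.sum_congr rfl this]
    simp
  have hNnn : ∀ y, 0 ≤ N y := fun y => Finset.sum_nonneg
    (fun j _ => add_nonneg (la_nonneg _ _) (la_nonneg _ _))
  refine ⟨{y | ε / 8 * p ≤ N y}, ?_, ?_⟩
  · have h1 : m.L (fun y => (ε / 8 * p) * Set.indicator {y | ε / 8 * p ≤ N y} (1 : ℤ → ℝ) y) ≤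
        m.L N := by
      refine L_mono m ?_ hNbd ?_
      · exact (Bd.const _).mulR (la_bd _)
      · intro y
        by_cases hy : ε / 8 * p ≤ N y
        · rw [la_mem (show y ∈ {y | ε / 8 * p ≤ N y} from hy)]; linarith
        · rw [Set.indicator_of_notMem (show y ∉ {y | ε / 8 * p ≤ N y} from hy)]
          simpa using hNnn y
    have h2 : m.L (fun y => (ε / 8 * p) * Set.indicator {y | ε / 8 * p ≤ N y} (1 : ℤ → ℝ) y) =
        (ε / 8 * p) * m.L (Set.indicator {y | ε / 8 * p ≤ N y} 1) := by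
      have := map_smul m.L (ε / 8 * p) (Set.indicator {y | ε / 8 * p ≤ N y} (1 : ℤ → ℝ))
      rw [smul_eq_mul] at this
      rw [← this]
      rfl
    rw [h2, hNL] at h1
    have h3 : ε / 8 * p * m.L (Set.indicator {y | ε / 8 * p ≤ N y} 1) ≤
        ε / 8 * p * (ε / 60) := by
      refine h1.trans ?_
      have h4 : 2 * m.L (Set.indicator E 1) ≤ ε / 8 * (ε / 60) := by
        nlinarith [hμ, mul_pos hε hε]
      calc (p : ℝ) * (2 * m.L (Set.indicator E 1)) ≤ p * (ε / 8 * (ε / 60)) :=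
            mul_le_mul_of_nonneg_left h4 hp'.le
        _ = ε / 8 * p * (ε / 60) := by ring
    exact le_of_mul_le_mul_left h3 (by positivity)
  · intro y hy
    have h1 := la_cnt p t (ε / 32) F h y
    have h2 : N y < ε / 8 * p := not_le.mp hy
    have h3 : N y = ∑ j ∈ Finset.range p,
      (Set.indicator {x : ℤ | ε / 32 ≤ ‖F x - h x‖} (1 : ℤ → ℝ) (y + (j : ℤ) * t) +
        Set.indicator {x : ℤ | ε / 32 ≤ ‖F x - h x‖} (1 : ℤ → ℝ) (y + ((j : ℤ) - p) * t)) := rfl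
    rw [← h3] at h1
    linarith

/-- The set of the `x` at which `d (x + k)` is far from `d x` is small. -/
theorem la_bad2 (m : Mn ℤ) (ε : ℝ) (hε : 0 < ε) (hε2 : ε ≤ 1 / 2) (d : ℤ → ℝ)
    (hd : ∀ x, 0 ≤ d x ∧ d x ≤ 1) (k : ℤ)
    (c : nrm m (fun x => d (x + k) - d x) ≤ ε ^ 2 / 1000) :
    ∃ C : Set ℤ, m.L (Set.indicator C 1) ≤ ε / 1000 ∧ ∀ y, y ∉ C →
      d y - ε / 4 ≤ d (y + k) := by
  have hbd : Bd (fun x => d (x + k) - d x) :=
    ((Bd.of_mem_Icc hd).comp (fun x => x + k)).sub (Bd.of_mem_Icc hd)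
  have hθ : 0 < ε / 4 := by positivity
  refine ⟨{x | ε / 4 ≤ ‖d (x + k) - d x‖}, ?_, ?_⟩
  · have h1 : m.L (Set.indicator {x | ε / 4 ≤ ‖d (x + k) - d x‖} 1) ≤ (ε * (4 / 1000)) ^ 2 := by
      refine (markov m hbd (ε / 4) hθ).trans ?_
      apply pow_le_pow_left₀
      · exact div_nonneg (nrm_nonneg m _) hθ.le
      · rw [div_le_iff₀ hθ]
        refine c.trans (le_of_eq ?_)
        ring
    refine h1.trans ?_
    nlinarith [hε]
  · intro y hy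
    have h2 : ‖d (y + k) - d y‖ < ε / 4 := not_le.mp hy
    rw [Real.norm_eq_abs, abs_lt] at h2
    linarith [h2.1]

theorem event (m : Mn ℤ) (hm : m.Inv) (ε : ℝ) (hε : 0 < ε) (hε2 : ε ≤ 1 / 2) (f h d : ℤ → ℝ)
    (M p : ℕ) (hp : 0 < p) (t : ℤ) (hP : Pack m f h d M p t (ε ^ 2 / 1000) (ε / 32))
    (hmf : 1 / 2 + ε ≤ m.L f) (F₀ F₁ F₂ : ℤ → ℝ) (hF₀ : ∀ x, 0 ≤ F₀ x ∧ F₀ x ≤ 2)
    (hF₁ : ∀ x, 0 ≤ F₁ x ∧ F₁ x ≤ 2) (hF₂ : ∀ x, 0 ≤ F₂ x ∧ F₂ x ≤ 2)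
    (c₀ : nrm m (fun x => F₀ x - h x) ≤ ε ^ 2 / 1000)
    (c₁ : nrm m (fun x => F₁ x - h x) ≤ ε ^ 2 / 1000)
    (c₂ : nrm m (fun x => F₂ x - h x) ≤ ε ^ 2 / 1000) (k₁ k₂ : ℤ) (hk₁ : (M : ℤ) ∣ k₁)
    (hk₂ : (M : ℤ) ∣ k₂) :
    ε / 8 ≤ m.L (Set.indicator
      {x | Gd p t ε F₀ x ∧ Gd p t ε F₁ (x + k₁) ∧ Gd p t ε F₂ (x + k₂)} 1) := by
  obtain ⟨C₀, hC₀, hC₀'⟩ := la_bad m hm ε hε hε2 h p hp t F₀ hF₀ hP.h_rng c₀
  obtain ⟨C₁, hC₁, hC₁'⟩ := la_bad m hm ε hε hε2 h p hp t F₁ hF₁ hP.h_rng c₁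
  obtain ⟨C₂, hC₂, hC₂'⟩ := la_bad m hm ε hε hε2 h p hp t F₂ hF₂ hP.h_rng c₂
  obtain ⟨B₁, hB₁, hB₁'⟩ := la_bad2 m ε hε hε2 d hP.d_rng k₁ (hP.d_shift k₁ hk₁)
  obtain ⟨B₂, hB₂, hB₂'⟩ := la_bad2 m ε hε hε2 d hP.d_rng k₂ (hP.d_shift k₂ hk₂)
  have hp' : (0 : ℝ) < p := by exact_mod_cast hp
  -- the basic pointwise statement
  have key : ∀ (F : ℤ → ℝ) (y : ℤ), 1 / 2 + ε / 2 ≤ d y →
      (cnt p t (2 * (ε / 32)) h y : ℝ) ≤ cnt p t (ε / 32) F y + ε / 8 * p → Gd p t ε F y := by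
    intro F y h1 h2
    unfold Gd
    have h3 := hP.low y
    have h4 : (1 / 2 + ε / 2 - 4 * (ε / 32)) * (p : ℝ) ≤ (d y - 4 * (ε / 32)) * p :=
      mul_le_mul_of_nonneg_right (by linarith) hp'.le
    nlinarith [h3, h4, h2]
  -- the set `A`
  set A : Set ℤ := {x | 1 / 2 + 3 * ε / 4 ≤ d x} with hA
  set G : Set ℤ := {x | Gd p t ε F₀ x ∧ Gd p t ε F₁ (x + k₁) ∧ Gd p t ε F₂ (x + k₂)} with hG
  have hμA : ε / 4 ≤ m.L (Set.indicator A 1) := by
    have h1 : m.L d ≤ m.L (fun x => (1 / 2 + 3 * ε / 4) + Set.indicator A (1 : ℤ → ℝ) x) := by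
      refine L_mono m (Bd.of_mem_Icc hP.d_rng) ((Bd.const _).add (la_bd A)) ?_
      intro x
      by_cases hx : x ∈ A
      · rw [la_mem hx]; linarith [(hP.d_rng x).2]
      · rw [Set.indicator_of_notMem hx]
        have : d x < 1 / 2 + 3 * ε / 4 := not_le.mp hx
        linarith
    have h2 : m.L (fun x => (1 / 2 + 3 * ε / 4) + Set.indicator A (1 : ℤ → ℝ) x) =
        (1 / 2 + 3 * ε / 4) + m.L (Set.indicator A 1) := by
      have := map_add m.L (fun _ : ℤ => (1 / 2 + 3 * ε / 4 : ℝ)) (Set.indicator A (1 : ℤ → ℝ))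
      rw [L_const] at this
      rw [← this]
      rfl
    rw [h2, hP.d_mean] at h1
    linarith
  -- covering of `A`
  have hb₁ : Bd (fun x : ℤ => Set.indicator C₁ (1 : ℤ → ℝ) (x + k₁)) :=
    (la_bd C₁).comp (fun x => x + k₁)
  have hb₂ : Bd (fun x : ℤ => Set.indicator C₂ (1 : ℤ → ℝ) (x + k₂)) :=
    (la_bd C₂).comp (fun x => x + k₂)
  have hle : m.L (Set.indicator A 1) ≤ m.L (fun x => Set.indicator G (1 : ℤ → ℝ) x +
      (Set.indicator B₁ (1 : ℤ → ℝ) x + (Set.indicator B₂ (1 : ℤ → ℝ) x +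
        (Set.indicator C₀ (1 : ℤ → ℝ) x + (Set.indicator C₁ (1 : ℤ → ℝ) (x + k₁) +
          Set.indicator C₂ (1 : ℤ → ℝ) (x + k₂)))))) := by
    refine L_mono m (la_bd A) ((la_bd G).add ((la_bd B₁).add ((la_bd B₂).add ((la_bd C₀).add
      (hb₁.add hb₂))))) ?_
    intro x
    have n0 := la_nonneg G x
    have n1 := la_nonneg B₁ x
    have n2 := la_nonneg B₂ x
    have n3 := la_nonneg C₀ x
    have n4 := la_nonneg C₁ (x + k₁)
    have n5 := la_nonneg C₂ (x + k₂)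
    by_cases hx : x ∈ A
    · rw [la_mem hx]
      by_cases i1 : x ∈ B₁
      · rw [la_mem i1]; linarith
      by_cases i2 : x ∈ B₂
      · rw [la_mem i2]; linarith
      by_cases i3 : x ∈ C₀
      · rw [la_mem i3]; linarith
      by_cases i4 : x + k₁ ∈ C₁
      · rw [la_mem i4]; linarith
      by_cases i5 : x + k₂ ∈ C₂
      · rw [la_mem i5]; linarith
      have hxA : 1 / 2 + 3 * ε / 4 ≤ d x := hx
      have hxG : x ∈ G := by
        refine ⟨key F₀ x (by linarith) (hC₀' x i3), key F₁ (x + k₁) ?_ (hC₁' _ i4),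
          key F₂ (x + k₂) ?_ (hC₂' _ i5)⟩
        · linarith [hB₁' x i1]
        · linarith [hB₂' x i2]
      rw [la_mem hxG]; linarith
    · rw [Set.indicator_of_notMem hx]; linarith
  have hsum : m.L (fun x => Set.indicator G (1 : ℤ → ℝ) x +
      (Set.indicator B₁ (1 : ℤ → ℝ) x + (Set.indicator B₂ (1 : ℤ → ℝ) x +
        (Set.indicator C₀ (1 : ℤ → ℝ) x + (Set.indicator C₁ (1 : ℤ → ℝ) (x + k₁) +
          Set.indicator C₂ (1 : ℤ → ℝ) (x + k₂)))))) = m.L (Set.indicator G 1) +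
      (m.L (Set.indicator B₁ 1) + (m.L (Set.indicator B₂ 1) + (m.L (Set.indicator C₀ 1) +
        (m.L (Set.indicator C₁ 1) + m.L (Set.indicator C₂ 1))))) := by
    have e : (fun x => Set.indicator G (1 : ℤ → ℝ) x +
      (Set.indicator B₁ (1 : ℤ → ℝ) x + (Set.indicator B₂ (1 : ℤ → ℝ) x +
        (Set.indicator C₀ (1 : ℤ → ℝ) x + (Set.indicator C₁ (1 : ℤ → ℝ) (x + k₁) +
          Set.indicator C₂ (1 : ℤ → ℝ) (x + k₂)))))) = Set.indicator G (1 : ℤ → ℝ) +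
      (Set.indicator B₁ (1 : ℤ → ℝ) + (Set.indicator B₂ (1 : ℤ → ℝ) +
        (Set.indicator C₀ (1 : ℤ → ℝ) + ((fun x => Set.indicator C₁ (1 : ℤ → ℝ) (x + k₁)) +
          fun x => Set.indicator C₂ (1 : ℤ → ℝ) (x + k₂))))) := by
      ext x; simp
    rw [e, map_add, map_add, map_add, map_add, map_add, L_shift m hm (la_bd C₁),
      L_shift m hm (la_bd C₂)]
  rw [hsum] at hle
  linarith


end Pool.Agent.HOM
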