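import Pool.Agent.Lib_helper33.HOM.Defs

/-!
# Block DA: Dyson's constant term identity for four variables (MP_49610d_nt)
-/

set_option autoImplicit false

namespace Pool.Agent.HOM

open Filter Topology
open scoped BigOperators ComplexConjugate

section da

variable {ι : Type} [DecidableEq ι] {R : Type} [CommRing R]

open MvPolynomial

/-- the product -/
noncomputable def da_D (R : Type) [CommRing R] (s : Finset ι) (a : ι → ℕ) : MvPolynomial ι R :=
  ∏ j ∈ s, ∏ i ∈ s.erase j, (X i - X j) ^ a j

/-- the monomial -/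
noncomputable def da_m (s : Finset ι) (a : ι → ℕ) : ι →₀ ℕ :=
  ∑ i ∈ s, Finsupp.single i ((∑ j ∈ s, a j) - a i)

theorem da_m_apply (s : Finset ι) (a : ι → ℕ) (k : ι) :
    da_m s a k = if k ∈ s then (∑ j ∈ s, a j) - a k else 0 := by
  rw [da_m, Finsupp.finsetSum_apply]
  simp only [Finsupp.single_apply]
  rw [Finset.sum_ite_eq']

/-- lowering one exponent -/
theorem da_D_lower (s : Finset ι) (a : ι → ℕ) {j : ι} (hj : j ∈ s) (ha : 1 ≤ a j) :
    da_D R s a = (∏ i ∈ s.erase j, (X i - X j)) * da_D R s (Function.update a j (a j - 1)) := by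
  rw [da_D, da_D, ← Finset.mul_prod_erase s _ hj, ← Finset.mul_prod_erase s (fun l =>
    ∏ i ∈ s.erase l, (X i - X l : MvPolynomial ι R) ^ Function.update a j (a j - 1) l) hj,
    ← mul_assoc]
  congr 1
  · rw [← Finset.prod_mul_distrib]
    refine Finset.prod_congr rfl fun i _ => ?_
    rw [Function.update_self, ← pow_succ']
    congr 1
    omega
  · refine Finset.prod_congr rfl fun l hl => ?_
    rw [Function.update_of_ne (Finset.ne_of_mem_erase hl)]

/-- Lagrange -/
theorem da_lag {K : Type} [Field K] (s : Finset ι) (hs : s.Nonempty) (v : ι → K)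
    (hv : Set.InjOn v s) : ∑ j ∈ s, (∏ i ∈ s.erase j, v i) / ∏ i ∈ s.erase j, (v i - v j) = 1 := by
  have h1 := congrArg (Polynomial.eval 0) (Lagrange.sum_basis hv hs)
  rw [Polynomial.eval_finsetSum, Polynomial.eval_one] at h1
  rw [← h1]
  refine Finset.sum_congr rfl fun j _ => ?_
  rw [Lagrange.basis, Polynomial.eval_prod, ← Finset.prod_div_distrib]
  refine Finset.prod_congr rfl fun i _ => ?_
  rw [Lagrange.basisDivisor, Polynomial.eval_mul, Polynomial.eval_C, Polynomial.eval_sub,
    Polynomial.eval_X, Polynomial.eval_C, div_eq_mul_inv, ← neg_sub (v j) (v i), inv_neg]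
  ring

/-- Good's recursion -/
theorem da_good [IsDomain R] (s : Finset ι) (hs : s.Nonempty) (a : ι → ℕ)
    (ha : ∀ j ∈ s, 1 ≤ a j) :
    da_D R s a = ∑ j ∈ s, (∏ i ∈ s.erase j, X i) * da_D R s (Function.update a j (a j - 1)) := by
  have hinj := IsFractionRing.injective (MvPolynomial ι R) (FractionRing (MvPolynomial ι R))
  apply hinj
  rw [map_sum]
  have hv : Set.InjOn (fun i : ι => algebraMap (MvPolynomial ι R)
      (FractionRing (MvPolynomial ι R)) (X i)) s := fun i _ j _ h =>
    MvPolynomial.X_injective (hinj h)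
  have h1 := da_lag s hs _ hv
  rw [← mul_one (algebraMap _ _ (da_D R s a)), ← h1, Finset.mul_sum]
  refine Finset.sum_congr rfl fun j hj => ?_
  rw [da_D_lower s a hj (ha j hj), map_mul, map_mul, map_prod, map_prod]
  simp only [map_sub]
  have h2 : ∏ i ∈ s.erase j, (algebraMap (MvPolynomial ι R) (FractionRing (MvPolynomial ι R)) (X i) -
      algebraMap (MvPolynomial ι R) (FractionRing (MvPolynomial ι R)) (X j)) ≠ 0 := by
    rw [Finset.prod_ne_zero_iff]
    intro i hi h
    exact Finset.ne_of_mem_erase hi (hv (Finset.mem_of_mem_erase hi) hj (sub_eq_zero.1 h))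
  field_simp

/-- the coefficient, all exponents positive -/
theorem da_coeff_pos [IsDomain R] (s : Finset ι) (hs : s.Nonempty) (a : ι → ℕ)
    (ha : ∀ j ∈ s, 1 ≤ a j) : coeff (da_m s a) (da_D R s a) =
      ∑ j ∈ s, coeff (da_m s (Function.update a j (a j - 1)))
        (da_D R s (Function.update a j (a j - 1))) := by
  rw [da_good s hs a ha, coeff_sum]
  refine Finset.sum_congr rfl fun j hj => ?_
  have h1 : (∏ i ∈ s.erase j, X i : MvPolynomial ι R) =
      monomial (∑ i ∈ s.erase j, Finsupp.single i 1) 1 := by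
    rw [monomial_sum_one]
    rfl
  have hA : ∑ l ∈ s, Function.update a j (a j - 1) l = (∑ l ∈ s, a l) - 1 := by
    rw [Finset.sum_update_of_mem hj, ← Finset.add_sum_erase s a hj, Finset.sdiff_singleton_eq_erase]
    have := ha j hj
    omega
  have hle : ∀ i ∈ s, a i ≤ ∑ l ∈ s, a l := fun i hi =>
    Finset.single_le_sum (fun _ _ => Nat.zero_le _) hi
  have h2 : da_m s a = (∑ i ∈ s.erase j, Finsupp.single i 1) +
      da_m s (Function.update a j (a j - 1)) := by
    ext k
    rw [Finsupp.add_apply, da_m_apply, da_m_apply, hA, Finsupp.finsetSum_apply]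
    simp only [Finsupp.single_apply]
    rw [Finset.sum_ite_eq']
    by_cases hk : k ∈ s
    · rw [if_pos hk, if_pos hk]
      by_cases hkj : k = j
      · subst hkj
        rw [if_neg (Finset.notMem_erase k s), Function.update_self]
        have := ha k hk
        have := hle k hk
        omega
      · rw [if_pos (Finset.mem_erase.2 ⟨hkj, hk⟩), Function.update_of_ne hkj]
        have h3 : a k + a j ≤ ∑ l ∈ s, a l := by
          rw [← Finset.add_sum_erase s a hk]
          have := Finset.single_le_sum (f := a) (fun _ _ => Nat.zero_le _)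
            (Finset.mem_erase.2 ⟨Ne.symm hkj, hj⟩ : j ∈ s.erase k)
          omega
        have := ha j hj
        omega
    · rw [if_neg hk, if_neg hk, if_neg fun h => hk (Finset.mem_of_mem_erase h)]
  rw [h1, h2, coeff_monomial_mul, one_mul]

/-- degree zero in one variable -/
theorem da_deg [Nontrivial R] (t : Finset ι) (a : ι → ℕ) {k : ι} (hk : k ∉ t) :
    degreeOf k (da_D R t a) = 0 := by
  have h1 : ∀ j ∈ t, degreeOf k (∏ i ∈ t.erase j, (X i - X j : MvPolynomial ι R) ^ a j) ≤ 0 := by
    intro j hj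
    refine (degreeOf_prod_le _ _ _).trans (Finset.sum_nonpos fun i hi => ?_)
    refine (degreeOf_pow_le _ _ _).trans ?_
    have h2 : degreeOf k (X i - X j : MvPolynomial ι R) ≤ 0 := by
      rw [sub_eq_add_neg]
      refine (degreeOf_add_le _ _ _).trans ?_
      rw [degreeOf_neg, degreeOf_X, degreeOf_X, if_neg, if_neg]
      · rfl
      · rintro rfl
        exact hk hj
      · rintro rfl
        exact hk (Finset.mem_of_mem_erase hi)
    rw [Nat.le_zero.1 h2, mul_zero]
  exact Nat.le_zero.1 ((degreeOf_prod_le _ _ _).trans (Finset.sum_nonpos h1))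

/-- one factor -/
theorem da_one [Nontrivial R] {k j : ι} (hkj : k ≠ j) {B : ℕ} {H : MvPolynomial ι R}
    (hH : degreeOf k H ≤ B) : degreeOf k ((X k - X j) * H) ≤ B + 1 ∧
      ∀ m : ι →₀ ℕ, m k = B → coeff (Finsupp.single k 1 + m) ((X k - X j) * H) = coeff m H := by
  have hd := degreeOf_le_iff.1 hH
  refine ⟨?_, fun m hm => ?_⟩
  · refine (degreeOf_mul_le _ _ _).trans ?_
    have h2 : degreeOf k (X k - X j : MvPolynomial ι R) ≤ 1 := by
      rw [sub_eq_add_neg]
      refine (degreeOf_add_le _ _ _).trans ?_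
      rw [degreeOf_neg, degreeOf_X, degreeOf_X, if_pos rfl, if_neg hkj]
      rfl
    omega
  · rw [sub_mul, coeff_sub, coeff_X_mul, sub_eq_self, coeff_X_mul']
    split_ifs with h
    · by_contra h1
      have h2 := hd _ (mem_support_iff.2 h1)
      rw [Finsupp.tsub_apply, Finsupp.add_apply, Finsupp.single_eq_same,
        Finsupp.single_eq_of_ne hkj, hm] at h2
      omega
    · rfl

theorem da_pow [Nontrivial R] {k j : ι} (hkj : k ≠ j) {B : ℕ} {H : MvPolynomial ι R}
    (hH : degreeOf k H ≤ B) (n : ℕ) : degreeOf k ((X k - X j) ^ n * H) ≤ B + n ∧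
      ∀ m : ι →₀ ℕ, m k = B →
        coeff (Finsupp.single k n + m) ((X k - X j) ^ n * H) = coeff m H := by
  induction n with
  | zero =>
    rw [pow_zero, one_mul]
    refine ⟨hH, fun m _ => ?_⟩
    rw [Finsupp.single_zero, zero_add]
  | succ n ih =>
    obtain ⟨h1, h2⟩ := ih
    obtain ⟨h3, h4⟩ := da_one hkj h1
    rw [pow_succ', mul_assoc]
    refine ⟨h3, fun m hm => ?_⟩
    rw [← h2 m hm, ← h4 _ (by rw [Finsupp.add_apply, Finsupp.single_eq_same, hm, add_comm]),
      ← add_assoc, ← Finsupp.single_add, add_comm 1 n]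

theorem da_prod [Nontrivial R] (t : Finset ι) {k : ι} (hk : k ∉ t) (a : ι → ℕ) {B : ℕ}
    {H : MvPolynomial ι R} (hH : degreeOf k H ≤ B) :
    degreeOf k ((∏ j ∈ t, (X k - X j) ^ a j) * H) ≤ B + ∑ j ∈ t, a j ∧
      ∀ m : ι →₀ ℕ, m k = B → coeff (Finsupp.single k (∑ j ∈ t, a j) + m)
        ((∏ j ∈ t, (X k - X j) ^ a j) * H) = coeff m H := by
  induction t using Finset.induction_on with
  | empty =>
    rw [Finset.prod_empty, one_mul, Finset.sum_empty]
    refine ⟨hH, fun m _ => ?_⟩
    rw [Finsupp.single_zero, zero_add]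
  | insert j t hj ih =>
    obtain ⟨h1, h2⟩ := ih fun h => hk (Finset.mem_insert_of_mem h)
    have hkj : k ≠ j := fun h => hk (h ▸ Finset.mem_insert_self j t)
    obtain ⟨h3, h4⟩ := da_pow hkj h1 (a j)
    rw [Finset.prod_insert hj, Finset.sum_insert hj, mul_assoc]
    refine ⟨by omega, fun m hm => ?_⟩
    rw [← h2 m hm, ← h4 _ (by rw [Finsupp.add_apply, Finsupp.single_eq_same, hm, add_comm]),
      ← add_assoc, ← Finsupp.single_add]

/-- an exponent zero -/
theorem da_coeff_zero [Nontrivial R] (s : Finset ι) (a : ι → ℕ) {k : ι} (hk : k ∈ s)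
    (ha : a k = 0) : coeff (da_m s a) (da_D R s a) =
      coeff (da_m (s.erase k) a) (da_D R (s.erase k) a) := by
  have h1 : da_D R s a = (∏ j ∈ s.erase k, (X k - X j) ^ a j) * da_D R (s.erase k) a := by
    rw [da_D, ← Finset.mul_prod_erase s _ hk, da_D]
    have h2 : ∏ i ∈ s.erase k, (X i - X k : MvPolynomial ι R) ^ a k = 1 := by
      rw [ha]
      exact Finset.prod_eq_one fun i _ => pow_zero _
    rw [h2, one_mul, ← Finset.prod_mul_distrib]
    refine Finset.prod_congr rfl fun j hj => ?_
    have hjk := Finset.ne_of_mem_erase hj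
    rw [← Finset.mul_prod_erase (s.erase j) _ (Finset.mem_erase.2 ⟨Ne.symm hjk, hk⟩),
      Finset.erase_right_comm]
  have hA : ∑ j ∈ s, a j = ∑ j ∈ s.erase k, a j := by
    rw [← Finset.add_sum_erase s a hk, ha, zero_add]
  have h2 : da_m s a = Finsupp.single k (∑ j ∈ s.erase k, a j) + da_m (s.erase k) a := by
    ext l
    rw [Finsupp.add_apply, da_m_apply, da_m_apply, Finsupp.single_apply, hA]
    by_cases hl : l = k
    · subst hl
      rw [if_pos hk, if_pos rfl, if_neg (Finset.notMem_erase l s), ha]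
      omega
    · rw [if_neg (Ne.symm hl : ¬k = l), zero_add]
      by_cases hls : l ∈ s
      · rw [if_pos hls, if_pos (Finset.mem_erase.2 ⟨hl, hls⟩)]
      · rw [if_neg hls, if_neg fun h => hls (Finset.mem_of_mem_erase h)]
  rw [h1, h2]
  refine (da_prod (s.erase k) (Finset.notMem_erase k s) a
    (le_of_eq (da_deg (s.erase k) a (Finset.notMem_erase k s)))).2 _ ?_
  rw [da_m_apply, if_neg (Finset.notMem_erase k s)]

/-- Dyson's identity -/
theorem da_dyson [IsDomain R] (n : ℕ) : ∀ (s : Finset ι) (a : ι → ℕ),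
    s.card + ∑ j ∈ s, a j = n →
    coeff (da_m s a) (da_D R s a) * ∏ j ∈ s, ((a j).factorial : R) =
      ((∑ j ∈ s, a j).factorial : R) := by
  induction n using Nat.strong_induction_on with
  | _ n ih =>
    intro s a hn
    rcases s.eq_empty_or_nonempty with rfl | hs
    · simp [da_D, da_m]
    by_cases h0 : ∀ j ∈ s, 1 ≤ a j
    · rw [da_coeff_pos s hs a h0, Finset.sum_mul]
      have hpos : 1 ≤ ∑ j ∈ s, a j := by
        obtain ⟨j, hj⟩ := hs
        exact (h0 j hj).trans (Finset.single_le_sum (fun _ _ => Nat.zero_le _) hj)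
      have h1 : ∀ j ∈ s, coeff (da_m s (Function.update a j (a j - 1)))
          (da_D R s (Function.update a j (a j - 1))) * ∏ l ∈ s, ((a l).factorial : R) =
          (a j : R) * (((∑ l ∈ s, a l) - 1).factorial : R) := by
        intro j hj
        have hA : ∑ l ∈ s, Function.update a j (a j - 1) l = (∑ l ∈ s, a l) - 1 := by
          rw [Finset.sum_update_of_mem hj, ← Finset.add_sum_erase s a hj,
            Finset.sdiff_singleton_eq_erase]
          have := h0 j hj
          omega
        have h2 := ih (s.card + ((∑ l ∈ s, a l) - 1)) (by omega) s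
          (Function.update a j (a j - 1)) (by rw [hA])
        rw [hA] at h2
        rw [← h2, ← Finset.mul_prod_erase s _ hj, ← Finset.mul_prod_erase s (fun l =>
          ((Function.update a j (a j - 1) l).factorial : R)) hj, Function.update_self]
        have h3 : ∏ l ∈ s.erase j, ((Function.update a j (a j - 1) l).factorial : R) =
            ∏ l ∈ s.erase j, ((a l).factorial : R) :=
          Finset.prod_congr rfl fun l hl => by
            rw [Function.update_of_ne (Finset.ne_of_mem_erase hl)]
        have h4 : ((a j).factorial : R) = (a j : R) * ((a j - 1).factorial : R) := by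
          rw [← Nat.cast_mul, Nat.mul_factorial_pred (by have := h0 j hj; omega)]
        rw [h3, h4]
        ring
      rw [Finset.sum_congr rfl h1, ← Finset.sum_mul, ← Nat.cast_sum, ← Nat.cast_mul,
        Nat.mul_factorial_pred (by omega)]
    · push Not at h0
      obtain ⟨k, hk, hk0⟩ := h0
      have hk0' : a k = 0 := by omega
      have hA : ∑ j ∈ s, a j = ∑ j ∈ s.erase k, a j := by
        rw [← Finset.add_sum_erase s a hk, hk0', zero_add]
      have hc := Finset.card_erase_add_one hk
      rw [da_coeff_zero s a hk hk0', hA, ← ih ((s.erase k).card + ∑ j ∈ s.erase k, a j)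
        (by omega) (s.erase k) a rfl, ← Finset.mul_prod_erase s _ hk, hk0', Nat.factorial_zero,
        Nat.cast_one, one_mul]

end da

theorem dyson4 (p : ℕ) [Fact p.Prime] (e : ℕ) (h : 4 * e < p) :
    MvPolynomial.coeff (Finsupp.equivFunOnFinite.symm (fun _ : Fin 4 => 3 * e))
      (∏ ij ∈ (Finset.univ : Finset (Fin 4 × Fin 4)).filter (fun ij => ij.1 < ij.2),
        (MvPolynomial.X ij.1 - MvPolynomial.X ij.2 : MvPolynomial (Fin 4) (ZMod p)) ^ (2 * e))
      ≠ 0 := by
  have h1 := da_dyson (R := ZMod p) _ (Finset.univ : Finset (Fin 4)) (fun _ => e) rfl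
  have h2 : da_m (Finset.univ : Finset (Fin 4)) (fun _ => e) =
      Finsupp.equivFunOnFinite.symm (fun _ : Fin 4 => 3 * e) := by
    ext k
    rw [da_m_apply, if_pos (Finset.mem_univ k)]
    simp
    omega
  have h3 : da_D (ZMod p) (Finset.univ : Finset (Fin 4)) (fun _ => e) =
      ∏ ij ∈ (Finset.univ : Finset (Fin 4 × Fin 4)).filter (fun ij => ij.1 < ij.2),
        (MvPolynomial.X ij.1 - MvPolynomial.X ij.2 : MvPolynomial (Fin 4) (ZMod p)) ^ (2 * e) := by
    have e1 : (Finset.univ : Finset (Fin 4 × Fin 4)).filter (fun ij => ij.1 < ij.2) =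
        {(0, 1), (0, 2), (0, 3), (1, 2), (1, 3), (2, 3)} := by decide
    have e2 : (Finset.univ : Finset (Fin 4)) = {0, 1, 2, 3} := by decide
    have e3 : ({0, 1, 2, 3} : Finset (Fin 4)).erase 0 = {1, 2, 3} := by decide
    have e4 : ({0, 1, 2, 3} : Finset (Fin 4)).erase 1 = {0, 2, 3} := by decide
    have e5 : ({0, 1, 2, 3} : Finset (Fin 4)).erase 2 = {0, 1, 3} := by decide
    have e6 : ({0, 1, 2, 3} : Finset (Fin 4)).erase 3 = {0, 1, 2} := by decide
    have key : ∀ x y : MvPolynomial (Fin 4) (ZMod p),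
        (x - y) ^ (2 * e) = (-1) ^ e * ((x - y) ^ e * (y - x) ^ e) := by
      intro x y
      rw [← mul_pow, ← mul_pow, pow_mul]
      congr 1
      ring
    have hs : ((-1 : MvPolynomial (Fin 4) (ZMod p)) ^ e) ^ 6 = 1 := by
      rw [← pow_mul, mul_comm, pow_mul]
      norm_num
    rw [e1, da_D, e2]
    rw [Finset.prod_insert (by decide), Finset.prod_insert (by decide),
      Finset.prod_insert (by decide), Finset.prod_singleton, e3, e4, e5, e6]
    rw [Finset.prod_insert (by decide), Finset.prod_insert (by decide), Finset.prod_singleton,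
      Finset.prod_insert (by decide), Finset.prod_insert (by decide), Finset.prod_singleton,
      Finset.prod_insert (by decide), Finset.prod_insert (by decide), Finset.prod_singleton,
      Finset.prod_insert (by decide), Finset.prod_insert (by decide), Finset.prod_singleton]
    rw [Finset.prod_insert (by decide), Finset.prod_insert (by decide),
      Finset.prod_insert (by decide), Finset.prod_insert (by decide),
      Finset.prod_insert (by decide), Finset.prod_singleton]
    simp only [key]
    linear_combination (-((MvPolynomial.X 0 - MvPolynomial.X 1) ^ e *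
      (MvPolynomial.X 1 - MvPolynomial.X 0) ^ e * (MvPolynomial.X 0 - MvPolynomial.X 2) ^ e *
      (MvPolynomial.X 2 - MvPolynomial.X 0) ^ e * (MvPolynomial.X 0 - MvPolynomial.X 3) ^ e *
      (MvPolynomial.X 3 - MvPolynomial.X 0) ^ e * (MvPolynomial.X 1 - MvPolynomial.X 2) ^ e *
      (MvPolynomial.X 2 - MvPolynomial.X 1) ^ e * (MvPolynomial.X 1 - MvPolynomial.X 3) ^ e *
      (MvPolynomial.X 3 - MvPolynomial.X 1) ^ e * (MvPolynomial.X 2 - MvPolynomial.X 3) ^ e *
      (MvPolynomial.X 3 - MvPolynomial.X 2) ^ e)) * hs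
  have h4 : ∑ j : Fin 4, (fun _ => e) j = 4 * e := by simp
  rw [h2, h3, h4] at h1
  intro h0
  rw [h0, zero_mul] at h1
  have h5 : ((4 * e).factorial : ZMod p) = 0 := h1.symm
  rw [ZMod.natCast_eq_zero_iff, (Fact.out : p.Prime).dvd_factorial] at h5
  omega


end Pool.Agent.HOM
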