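import Pool.Agent.Lib_helper33.HOM.Defs
import Pool.Agent.Lib_helper33.HOMF.DA

/-! # Block DB: a complete graph on four points in `ZMod p` -/

set_option autoImplicit false

namespace Pool.Agent.HOM

open Filter Topology
open scoped BigOperators ComplexConjugate

/-- product of affine forms: top degree part -/
theorem db_top {R : Type} [CommRing R] {κ : Type} [DecidableEq κ] (a b : κ → Fin 4) (c : κ → R)
    (K : Finset κ) : ∃ Q : MvPolynomial (Fin 4) R,
      ∏ k ∈ K, (MvPolynomial.X (a k) - MvPolynomial.X (b k) - MvPolynomial.C (c k)) =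
        (∏ k ∈ K, (MvPolynomial.X (a k) - MvPolynomial.X (b k) : MvPolynomial (Fin 4) R)) + Q ∧
      ∀ m : Fin 4 →₀ ℕ, K.card ≤ m.degree → MvPolynomial.coeff m Q = 0 := by
  induction K using Finset.induction_on with
  | empty => exact ⟨0, by simp, by simp⟩
  | insert k K hk ih =>
    obtain ⟨Q, hQ, hQ0⟩ := ih
    have hhom : (∏ k ∈ K, (MvPolynomial.X (a k) - MvPolynomial.X (b k) :
        MvPolynomial (Fin 4) R)).IsHomogeneous K.card := by
      have := MvPolynomial.IsHomogeneous.prod K (fun k => (MvPolynomial.X (a k) -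
        MvPolynomial.X (b k) : MvPolynomial (Fin 4) R)) (fun _ => 1)
        (fun k _ => (MvPolynomial.isHomogeneous_X R (a k)).sub (MvPolynomial.isHomogeneous_X R (b k)))
      simpa using this
    refine ⟨(MvPolynomial.X (a k) - MvPolynomial.X (b k) - MvPolynomial.C (c k)) * Q -
      MvPolynomial.C (c k) * ∏ k ∈ K, (MvPolynomial.X (a k) - MvPolynomial.X (b k) :
        MvPolynomial (Fin 4) R), ?_, ?_⟩
    · rw [Finset.prod_insert hk, Finset.prod_insert hk, hQ]
      ring
    · intro m hm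
      rw [Finset.card_insert_of_notMem hk] at hm
      have hX : ∀ i : Fin 4, MvPolynomial.coeff m (MvPolynomial.X i * Q) = 0 := by
        intro i
        rw [MvPolynomial.coeff_X_mul']
        split_ifs with hi
        · apply hQ0
          have h1 : m - Finsupp.single i 1 + Finsupp.single i 1 = m := by
            apply tsub_add_cancel_of_le
            rw [Finsupp.single_le_iff]
            exact Nat.one_le_iff_ne_zero.mpr (Finsupp.mem_support_iff.mp hi)
          have h2 : (m - Finsupp.single i 1).degree + 1 = m.degree := by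
            conv_rhs => rw [← h1]
            rw [map_add, Finsupp.degree_single]
          omega
        · rfl
      rw [MvPolynomial.coeff_sub, sub_mul, sub_mul, MvPolynomial.coeff_sub, MvPolynomial.coeff_sub,
        hX, hX, MvPolynomial.coeff_C_mul, MvPolynomial.coeff_C_mul, hQ0 m (by omega),
        hhom.coeff_eq_zero (by omega)]
      ring

theorem db_gen (p : ℕ) [Fact p.Prime] (e : ℕ) (h : 4 * e < p)
    (D : Fin 4 × Fin 4 → Finset (ZMod p)) (hD : ∀ ij, (D ij).card ≤ 2 * e) :
    ∃ s : Fin 4 → ZMod p, ∀ i j : Fin 4, i < j → s i - s j ∉ D (i, j) := by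
  classical
  have hsup : ∀ ij, ∃ E : Finset (ZMod p), D ij ⊆ E ∧ E.card = 2 * e := by
    intro ij
    obtain ⟨E, hE, hE2⟩ := Finset.exists_superset_card_eq (s := D ij) (n := 2 * e) (hD ij)
      (by rw [ZMod.card]; omega)
    exact ⟨E, hE, hE2⟩
  choose E hDE hE using hsup
  set F : Finset (Fin 4 × Fin 4) :=
    (Finset.univ : Finset (Fin 4 × Fin 4)).filter (fun ij => ij.1 < ij.2) with hF
  have hFc : F.card = 6 := by rw [hF]; rfl
  set K : Finset (Σ _ : Fin 4 × Fin 4, ZMod p) := F.sigma E with hK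
  have hKc : K.card = 12 * e := by
    rw [hK, Finset.card_sigma, Finset.sum_congr rfl (fun ij _ => hE ij), Finset.sum_const, hFc,
      smul_eq_mul]
    ring
  obtain ⟨Q, hQ, hQ0⟩ := db_top (R := ZMod p) (fun k : Σ _ : Fin 4 × Fin 4, ZMod p => k.1.1)
    (fun k => k.1.2) (fun k => k.2) K
  set P : MvPolynomial (Fin 4) (ZMod p) :=
    ∏ k ∈ K, (MvPolynomial.X k.1.1 - MvPolynomial.X k.1.2 - MvPolynomial.C k.2) with hP
  set t : Fin 4 →₀ ℕ := Finsupp.equivFunOnFinite.symm (fun _ : Fin 4 => 3 * e) with ht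
  have htd : t.degree = 12 * e := by
    rw [Finsupp.degree_eq_sum]
    simp only [ht, Finsupp.equivFunOnFinite_symm_apply_apply, Finset.sum_const, Finset.card_univ,
      Fintype.card_fin, smul_eq_mul]
    ring
  have hmain : ∏ k ∈ K, (MvPolynomial.X k.1.1 - MvPolynomial.X k.1.2 :
      MvPolynomial (Fin 4) (ZMod p)) = ∏ ij ∈ F, (MvPolynomial.X ij.1 - MvPolynomial.X ij.2) ^
        (2 * e) := by
    rw [hK, Finset.prod_sigma]
    refine Finset.prod_congr rfl (fun ij _ => ?_)
    rw [← hE ij, ← Finset.prod_const]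
  have hcoef : MvPolynomial.coeff t P ≠ 0 := by
    rw [hQ, MvPolynomial.coeff_add, hQ0 t (by rw [htd, hKc]), add_zero, hmain]
    exact dyson4 p e h
  have hdeg : P.totalDegree = t.degree := by
    apply le_antisymm
    · rw [htd, ← hKc]
      refine (MvPolynomial.totalDegree_finsetProd _ _).trans ?_
      refine (Finset.sum_le_card_nsmul K _ 1 (fun k _ => ?_)).trans (by simp)
      refine (MvPolynomial.totalDegree_sub _ _).trans ?_
      rw [MvPolynomial.totalDegree_C]
      refine max_le ((MvPolynomial.totalDegree_sub _ _).trans ?_) (Nat.zero_le _)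
      rw [MvPolynomial.totalDegree_X, MvPolynomial.totalDegree_X]
      exact le_of_eq (max_self 1)
    · have h1 := MvPolynomial.le_totalDegree (MvPolynomial.mem_support_iff.mpr hcoef)
      rw [Finsupp.degree_eq_sum]
      rw [Finsupp.sum_fintype _ _ (fun _ => rfl)] at h1
      exact h1
  obtain ⟨s, -, hs⟩ := MvPolynomial.combinatorial_nullstellensatz_exists_eval_nonzero P t hcoef hdeg
    (fun _ => Finset.univ) (fun i => by
      rw [Finset.card_univ, ZMod.card, ht, Finsupp.equivFunOnFinite_symm_apply_apply]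
      omega)
  refine ⟨s, fun i j hij hmem => hs ?_⟩
  rw [hP, map_prod]
  refine Finset.prod_eq_zero (i := (⟨(i, j), s i - s j⟩ : Σ _ : Fin 4 × Fin 4, ZMod p)) ?_ ?_
  · rw [hK, Finset.mem_sigma]
    refine ⟨?_, hDE _ hmem⟩
    rw [hF, Finset.mem_filter]
    exact ⟨Finset.mem_univ _, hij⟩
  · simp

theorem k4_zmod (p : ℕ) [Fact p.Prime] (e : ℕ) (h : 4 * e < p)
    (D₁ D₂ D₃ D₁₂ D₁₃ D₂₃ : Finset (ZMod p)) (h₁ : D₁.card ≤ 2 * e) (h₂ : D₂.card ≤ 2 * e)
    (h₃ : D₃.card ≤ 2 * e) (h₁₂ : D₁₂.card ≤ 2 * e) (h₁₃ : D₁₃.card ≤ 2 * e)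
    (h₂₃ : D₂₃.card ≤ 2 * e) :
    ∃ x y z : ZMod p, x ∉ D₁ ∧ y ∉ D₂ ∧ z ∉ D₃ ∧ x - y ∉ D₁₂ ∧ x - z ∉ D₁₃ ∧ y - z ∉ D₂₃ := by
  classical
  obtain ⟨s, hs⟩ := db_gen p e h (fun ij => if ij = (0, 3) then D₁ else if ij = (1, 3) then D₂
    else if ij = (2, 3) then D₃ else if ij = (0, 1) then D₁₂ else if ij = (0, 2) then D₁₃
    else D₂₃) (fun ij => by
      split_ifs <;> assumption)
  have e1 := hs 0 3 (by decide)
  have e2 := hs 1 3 (by decide)
  have e3 := hs 2 3 (by decide)
  have e4 := hs 0 1 (by decide)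
  have e5 := hs 0 2 (by decide)
  have e6 := hs 1 2 (by decide)
  simp only [if_true] at e1
  rw [if_neg (by decide), if_pos rfl] at e2
  rw [if_neg (by decide), if_neg (by decide), if_pos rfl] at e3
  rw [if_neg (by decide), if_neg (by decide), if_neg (by decide), if_pos rfl] at e4
  rw [if_neg (by decide), if_neg (by decide), if_neg (by decide), if_neg (by decide),
    if_pos rfl] at e5
  rw [if_neg (by decide), if_neg (by decide), if_neg (by decide), if_neg (by decide),
    if_neg (by decide)] at e6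
  refine ⟨s 0 - s 3, s 1 - s 3, s 2 - s 3, e1, e2, e3, ?_, ?_, ?_⟩
  · rwa [sub_sub_sub_cancel_right]
  · rwa [sub_sub_sub_cancel_right]
  · rwa [sub_sub_sub_cancel_right]

end Pool.Agent.HOM
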