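import Pool.Agent.Lib_helper33.HOM.Defs
import Pool.Agent.Lib_helper33.HOMF.DB

/-!
# HOM block DC: the pointwise inequality
-/

set_option autoImplicit false

namespace Pool.Agent.HOM

open Filter Topology
open scoped BigOperators ComplexConjugate

/-- The elements `j` of `ZMod p` at which `F` is small at one of the two points. -/
noncomputable def dc_bad (p : ℕ) [NeZero p] (t : ℤ) (θ : ℝ) (F : ℤ → ℝ) (y : ℤ) :
    Finset (ZMod p) := by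
  classical exact
  Finset.univ.filter (fun j : ZMod p =>
    ¬ (θ ≤ F (y + (j.val : ℕ) * t) ∧ θ ≤ F (y + (((j.val : ℕ) : ℤ) - p) * t)))

theorem dc_not_bad (p : ℕ) [NeZero p] (t : ℤ) (θ : ℝ) (F : ℤ → ℝ) (y : ℤ) (j : ZMod p)
    (h : j ∉ dc_bad p t θ F y) :
    θ ≤ F (y + (j.val : ℕ) * t) ∧ θ ≤ F (y + (((j.val : ℕ) : ℤ) - p) * t) := by
  classical
  unfold dc_bad at h
  rw [Finset.mem_filter] at h
  by_contra hc
  exact h ⟨Finset.mem_univ _, hc⟩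

theorem dc_card (p : ℕ) [NeZero p] (t : ℤ) (θ : ℝ) (F : ℤ → ℝ) (y : ℤ) :
    (dc_bad p t θ F y).card + cnt p t θ F y = p := by
  classical
  have h1 : cnt p t θ F y = (Finset.univ.filter (fun j : ZMod p =>
      (θ ≤ F (y + (j.val : ℕ) * t) ∧ θ ≤ F (y + (((j.val : ℕ) : ℤ) - p) * t)))).card := by
    unfold cnt
    symm
    apply Finset.card_bij (fun (j : ZMod p) _ => j.val)
    · intro j hj
      rw [Finset.mem_filter] at hj
      rw [Finset.mem_filter, Finset.mem_range]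
      exact ⟨ZMod.val_lt j, hj.2⟩
    · intro a _ b _ hab
      exact ZMod.val_injective p hab
    · intro b hb
      rw [Finset.mem_filter, Finset.mem_range] at hb
      refine ⟨(b : ZMod p), ?_, ?_⟩
      · rw [Finset.mem_filter]
        refine ⟨Finset.mem_univ _, ?_⟩
        rw [ZMod.val_natCast_of_lt hb.1]
        exact hb.2
      · exact ZMod.val_natCast_of_lt hb.1
  rw [h1]
  unfold dc_bad
  have h2 := Finset.card_filter_add_card_filter_not (s := (Finset.univ : Finset (ZMod p)))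
    (fun j : ZMod p =>
      (θ ≤ F (y + (j.val : ℕ) * t) ∧ θ ≤ F (y + (((j.val : ℕ) : ℤ) - p) * t)))
  rw [Finset.card_univ, ZMod.card] at h2
  omega

theorem dc_diff (p : ℕ) [NeZero p] (t : ℤ) (θ : ℝ) (F : ℤ → ℝ) (y : ℤ) (i j : ZMod p)
    (h : i - j ∉ dc_bad p t θ F y) :
    θ ≤ F (y + (((i.val : ℕ) : ℤ) - ((j.val : ℕ) : ℤ)) * t) := by
  have h' := dc_not_bad p t θ F y (i - j) h
  have hi := ZMod.val_lt i
  have hj := ZMod.val_lt j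
  by_cases hij : j.val ≤ i.val
  · have e : (i - j).val = i.val - j.val := ZMod.val_sub hij
    have := h'.1
    rw [e] at this
    have e2 : (((i.val - j.val : ℕ)) : ℤ) = ((i.val : ℕ) : ℤ) - ((j.val : ℕ) : ℤ) := by
      push_cast [Nat.cast_sub hij]; ring
    rw [e2] at this
    exact this
  · rw [not_le] at hij
    have e : (i - j).val = i.val + p - j.val := by
      have h0 : ((i.val + p - j.val : ℕ) : ZMod p) = i - j := by
        rw [Nat.cast_sub (by omega)]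
        push_cast
        rw [ZMod.natCast_zmod_val, ZMod.natCast_zmod_val]
        simp
      rw [← h0]
      exact ZMod.val_natCast_of_lt (by omega)
    have := h'.2
    rw [e] at this
    have e2 : (((i.val + p - j.val : ℕ)) : ℤ) - p = ((i.val : ℕ) : ℤ) - ((j.val : ℕ) : ℤ) := by
      rw [Nat.cast_sub (by omega)]
      push_cast
      ring
    rw [e2] at this
    exact this

theorem six (p : ℕ) (hp : p.Prime) (ε : ℝ) (hε : 0 < ε) (hε2 : ε ≤ 1 / 2) (hpε : 8 / ε < p)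
    (t₁ t₂ t₃ : ℤ) (H G₀ G₁ F₀ F₁ F₂ : ℤ → ℝ) (hH : ∀ x, 0 ≤ H x) (hG₀ : ∀ x, 0 ≤ G₀ x)
    (hG₁ : ∀ x, 0 ≤ G₁ x) (hF₀ : ∀ x, 0 ≤ F₀ x) (hF₁ : ∀ x, 0 ≤ F₁ x) (hF₂ : ∀ x, 0 ≤ F₂ x)
    (y u u' x x' x'' : ℤ) (g₃ : Gd p t₃ ε H y) (g₂ : Gd p t₂ ε G₀ u) (g₂' : Gd p t₂ ε G₁ u')
    (g₁ : Gd p t₁ ε F₀ x) (g₁' : Gd p t₁ ε F₁ x') (g₁'' : Gd p t₁ ε F₂ x'') :
    (ε / 32) ^ 6 ≤ ∑ j₁ ∈ Finset.range p, ∑ j₂ ∈ Finset.range p, ∑ j₃ ∈ Finset.range p,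
      H (y + j₃ * t₃) * (G₀ (u + j₂ * t₂) * G₁ (u' + ((j₂ : ℤ) - j₃) * t₂) *
        (F₀ (x + j₁ * t₁) * F₁ (x' + ((j₁ : ℤ) - j₂) * t₁) *
          F₂ (x'' + ((j₁ : ℤ) - j₃) * t₁))) := by
  haveI : Fact p.Prime := ⟨hp⟩
  have hp0 : (0:ℝ) < p := by exact_mod_cast hp.pos
  set e : ℕ := ⌈(1 / 4 - ε / 8) * (p : ℝ)⌉₊ with he
  have hnn : 0 ≤ (1 / 4 - ε / 8) * (p : ℝ) := by
    apply mul_nonneg _ hp0.le
    linarith
  have he1 : (1 / 4 - ε / 8) * (p : ℝ) ≤ e := Nat.le_ceil _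
  have he2 : (e : ℝ) < (1 / 4 - ε / 8) * (p : ℝ) + 1 := Nat.ceil_lt_add_one hnn
  have h4e : 4 * e < p := by
    have h8 : 8 < p * ε := by
      rw [div_lt_iff₀ hε] at hpε
      exact hpε
    have : (4 * e : ℝ) < p := by nlinarith
    exact_mod_cast this
  have key : ∀ (t : ℤ) (F : ℤ → ℝ) (y : ℤ), Gd p t ε F y → (dc_bad p t (ε / 32) F y).card ≤ 2 * e := by
    intro t F y hg
    have h1 := dc_card p t (ε / 32) F y
    have h2 : ((dc_bad p t (ε / 32) F y).card : ℝ) + cnt p t (ε / 32) F y = p := by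
      exact_mod_cast h1
    unfold Gd at hg
    have h3 : ((dc_bad p t (ε / 32) F y).card : ℝ) ≤ 2 * e := by nlinarith
    exact_mod_cast h3
  obtain ⟨j₁, j₂, j₃, k1, k2, k3, k12, k13, k23⟩ := k4_zmod p e h4e
    (dc_bad p t₁ (ε / 32) F₀ x) (dc_bad p t₂ (ε / 32) G₀ u) (dc_bad p t₃ (ε / 32) H y)
    (dc_bad p t₁ (ε / 32) F₁ x') (dc_bad p t₁ (ε / 32) F₂ x'') (dc_bad p t₂ (ε / 32) G₁ u')
    (key _ _ _ g₁) (key _ _ _ g₂) (key _ _ _ g₃) (key _ _ _ g₁') (key _ _ _ g₁'')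
    (key _ _ _ g₂')
  have l1 := (dc_not_bad _ _ _ _ _ _ k1).1
  have l2 := (dc_not_bad _ _ _ _ _ _ k2).1
  have l3 := (dc_not_bad _ _ _ _ _ _ k3).1
  have l12 := dc_diff _ _ _ _ _ _ _ k12
  have l13 := dc_diff _ _ _ _ _ _ _ k13
  have l23 := dc_diff _ _ _ _ _ _ _ k23
  have hθ : (0:ℝ) ≤ ε / 32 := by positivity
  have hterm : ∀ a b c : ℕ, 0 ≤ H (y + c * t₃) * (G₀ (u + b * t₂) * G₁ (u' + ((b : ℤ) - c) * t₂) *
        (F₀ (x + a * t₁) * F₁ (x' + ((a : ℤ) - b) * t₁) *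
          F₂ (x'' + ((a : ℤ) - c) * t₁))) := by
    intro a b c
    exact mul_nonneg (hH _) (mul_nonneg (mul_nonneg (hG₀ _) (hG₁ _))
      (mul_nonneg (mul_nonneg (hF₀ _) (hF₁ _)) (hF₂ _)))
  have hone : (ε / 32) ^ 6 ≤ H (y + (j₃.val : ℕ) * t₃) * (G₀ (u + (j₂.val : ℕ) * t₂) *
      G₁ (u' + (((j₂.val : ℕ) : ℤ) - (j₃.val : ℕ)) * t₂) *
        (F₀ (x + (j₁.val : ℕ) * t₁) * F₁ (x' + (((j₁.val : ℕ) : ℤ) - (j₂.val : ℕ)) * t₁) *
          F₂ (x'' + (((j₁.val : ℕ) : ℤ) - (j₃.val : ℕ)) * t₁))) := by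
    have e6 : (ε / 32) ^ 6 = ε / 32 * (ε / 32 * (ε / 32) * (ε / 32 * (ε / 32) * (ε / 32))) := by ring
    rw [e6]
    have hn2 : 0 ≤ ε / 32 * (ε / 32) := mul_nonneg hθ hθ
    have hn3 : 0 ≤ ε / 32 * (ε / 32) * (ε / 32) := mul_nonneg hn2 hθ
    apply mul_le_mul l3 _ (mul_nonneg hn2 hn3) (hH _)
    apply mul_le_mul _ _ hn3 (mul_nonneg (hG₀ _) (hG₁ _))
    · exact mul_le_mul l2 l23 hθ (hG₀ _)
    · apply mul_le_mul _ l13 hθ (mul_nonneg (hF₀ _) (hF₁ _))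
      exact mul_le_mul l1 l12 hθ (hF₀ _)
  refine hone.trans ?_
  have m1 : j₁.val ∈ Finset.range p := Finset.mem_range.2 (ZMod.val_lt _)
  have m2 : j₂.val ∈ Finset.range p := Finset.mem_range.2 (ZMod.val_lt _)
  have m3 : j₃.val ∈ Finset.range p := Finset.mem_range.2 (ZMod.val_lt _)
  refine le_trans ?_ (Finset.single_le_sum (f := fun a : ℕ => ∑ j₂ ∈ Finset.range p,
    ∑ j₃ ∈ Finset.range p,
      H (y + j₃ * t₃) * (G₀ (u + j₂ * t₂) * G₁ (u' + ((j₂ : ℤ) - j₃) * t₂) *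
        (F₀ (x + a * t₁) * F₁ (x' + ((a : ℤ) - j₂) * t₁) *
          F₂ (x'' + ((a : ℤ) - j₃) * t₁)))) (fun a _ => Finset.sum_nonneg fun b _ =>
            Finset.sum_nonneg fun c _ => hterm a b c) m1)
  refine le_trans ?_ (Finset.single_le_sum (f := fun b : ℕ =>
    ∑ j₃ ∈ Finset.range p,
      H (y + j₃ * t₃) * (G₀ (u + b * t₂) * G₁ (u' + ((b : ℤ) - j₃) * t₂) *
        (F₀ (x + (j₁.val : ℕ) * t₁) * F₁ (x' + (((j₁.val : ℕ) : ℤ) - b) * t₁) *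
          F₂ (x'' + (((j₁.val : ℕ) : ℤ) - j₃) * t₁)))) (fun b _ =>
            Finset.sum_nonneg fun c _ => hterm _ b c) m2)
  exact Finset.single_le_sum (f := fun c : ℕ =>
      H (y + c * t₃) * (G₀ (u + (j₂.val : ℕ) * t₂) * G₁ (u' + (((j₂.val : ℕ) : ℤ) - c) * t₂) *
        (F₀ (x + (j₁.val : ℕ) * t₁) * F₁ (x' + (((j₁.val : ℕ) : ℤ) - (j₂.val : ℕ)) * t₁) *
          F₂ (x'' + (((j₁.val : ℕ) : ℤ) - c) * t₁)))) (fun c _ => hterm _ _ c) m3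


end Pool.Agent.HOM
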