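import Pool.Agent.Lib_helper33.HOM.Defs
import Pool.Agent.Lib_helper33.HOMF.DC
import Pool.Agent.Lib_helper33.HOMF.MA

/-!
# Block LB: the lower bound
-/

set_option autoImplicit false

namespace Pool.Agent.HOM

open Filter Topology
open scoped BigOperators ComplexConjugate

theorem lb_mul {X : Type*} (m : Mn X) (c : ℝ) (f : X → ℝ) :
    m.L (fun x => c * f x) = c * m.L f := by
  have : (fun x => c * f x) = c • f := by ext x; simp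
  rw [this, map_smul, smul_eq_mul]

theorem lb_sum {X ι : Type*} (m : Mn X) (s : Finset ι) (f : ι → X → ℝ) :
    m.L (fun x => ∑ i ∈ s, f i x) = ∑ i ∈ s, m.L (f i) := by
  have : (fun x => ∑ i ∈ s, f i x) = ∑ i ∈ s, f i := by ext x; simp
  rw [this, map_sum]

theorem lb_ind {X : Type*} (m : Mn X) (A : Set X) (c e : ℝ) (hc : 0 ≤ c) (S : X → ℝ) (hS : Bd S)
    (h : ∀ x, c * Set.indicator A (1 : X → ℝ) x ≤ S x) (he : e ≤ m.L (Set.indicator A 1)) :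
    c * e ≤ m.L S := by
  have hb : Bd (fun x => c * Set.indicator A (1 : X → ℝ) x) := by
    refine Bd.of_abs_le c fun x => ?_
    by_cases hx : x ∈ A
    · rw [Set.indicator_of_mem hx, Pi.one_apply, mul_one, abs_of_nonneg hc]
    · rw [Set.indicator_of_notMem hx, mul_zero, abs_zero]; exact hc
  have h1 := L_mono m hb hS h
  rw [lb_mul] at h1
  exact (mul_le_mul_of_nonneg_left he hc).trans h1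

/-- the summand -/
def lbT (t₁ t₂ t₃ ρ ρ' : ℤ) (σ σ' : ℕ) (H G₀ G₁ F₀ F₁ F₂ : ℤ → ℝ) (j₁ j₂ j₃ : ℕ)
    (v u x : ℤ) : ℝ :=
  H (v + j₃ * t₃) * (G₀ (u + j₂ * t₂) * G₁ (u - (ρ' + σ' * v) + ((j₂ : ℤ) - j₃) * t₂) *
    (F₀ (x + j₁ * t₁) * F₁ (x - (ρ + σ * u) + ((j₁ : ℤ) - j₂) * t₁) *
      F₂ (x - σ * (ρ' + σ' * v) + ((j₁ : ℤ) - j₃) * t₁)))

theorem lb_rng2 {a b : ℝ} {A B : ℝ} (ha : 0 ≤ a ∧ a ≤ A) (hb : 0 ≤ b ∧ b ≤ B) :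
    0 ≤ a * b ∧ a * b ≤ A * B :=
  ⟨mul_nonneg ha.1 hb.1, mul_le_mul ha.2 hb.2 hb.1 (ha.1.trans ha.2)⟩

theorem lb_T_rng (t₁ t₂ t₃ ρ ρ' : ℤ) (σ σ' : ℕ) (H G₀ G₁ F₀ F₁ F₂ : ℤ → ℝ)
    (hH : ∀ x, 0 ≤ H x ∧ H x ≤ 2) (hG₀ : ∀ x, 0 ≤ G₀ x ∧ G₀ x ≤ 2)
    (hG₁ : ∀ x, 0 ≤ G₁ x ∧ G₁ x ≤ 2) (hF₀ : ∀ x, 0 ≤ F₀ x ∧ F₀ x ≤ 2)
    (hF₁ : ∀ x, 0 ≤ F₁ x ∧ F₁ x ≤ 2) (hF₂ : ∀ x, 0 ≤ F₂ x ∧ F₂ x ≤ 2) (j₁ j₂ j₃ : ℕ)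
    (v u x : ℤ) :
    0 ≤ lbT t₁ t₂ t₃ ρ ρ' σ σ' H G₀ G₁ F₀ F₁ F₂ j₁ j₂ j₃ v u x ∧
      lbT t₁ t₂ t₃ ρ ρ' σ σ' H G₀ G₁ F₀ F₁ F₂ j₁ j₂ j₃ v u x ≤ 64 := by
  have h := lb_rng2 (hH (v + j₃ * t₃)) (lb_rng2 (lb_rng2 (hG₀ (u + j₂ * t₂))
    (hG₁ (u - (ρ' + σ' * v) + ((j₂ : ℤ) - j₃) * t₂))) (lb_rng2 (lb_rng2 (hF₀ (x + j₁ * t₁))
      (hF₁ (x - (ρ + σ * u) + ((j₁ : ℤ) - j₂) * t₁)))
      (hF₂ (x - σ * (ρ' + σ' * v) + ((j₁ : ℤ) - j₃) * t₁))))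
  refine ⟨h.1, h.2.trans ?_⟩
  norm_num

theorem lb_shift (m₁ m₂ m₃ : Mn ℤ) (i₁ : m₁.Inv) (i₂ : m₂.Inv) (i₃ : m₃.Inv)
    (ρ ρ' : ℤ) (σ σ' : ℕ)
    (t₁ t₂ t₃ : ℤ) (ht₂ : t₂ = σ' * t₃) (ht₁ : t₁ = σ * t₂)
    (H G₀ G₁ F₀ F₁ F₂ : ℤ → ℝ) (hH : ∀ x, 0 ≤ H x ∧ H x ≤ 2) (hG₀ : ∀ x, 0 ≤ G₀ x ∧ G₀ x ≤ 2)
    (hG₁ : ∀ x, 0 ≤ G₁ x ∧ G₁ x ≤ 2) (hF₀ : ∀ x, 0 ≤ F₀ x ∧ F₀ x ≤ 2)
    (hF₁ : ∀ x, 0 ≤ F₁ x ∧ F₁ x ≤ 2) (hF₂ : ∀ x, 0 ≤ F₂ x ∧ F₂ x ≤ 2) (j₁ j₂ j₃ : ℕ) :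
    T3 m₁ m₂ m₃ ρ ρ' σ σ' H G₀ G₁ F₀ F₁ F₂ = m₃.L (fun v => m₂.L (fun u => m₁.L (fun x =>
      lbT t₁ t₂ t₃ ρ ρ' σ σ' H G₀ G₁ F₀ F₁ F₂ j₁ j₂ j₃ v u x))) := by
  have hin : ∀ u v : ℤ, ∀ x : ℤ, |F₀ x * F₁ (x - (ρ + σ * u)) * F₂ (x - σ * (ρ' + σ' * v))| ≤ 8 := by
    intro u v x
    have h := lb_rng2 (lb_rng2 (hF₀ x) (hF₁ (x - (ρ + σ * u)))) (hF₂ (x - σ * (ρ' + σ' * v)))
    rw [abs_of_nonneg h.1]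
    linarith [h.2]
  have hin2 : ∀ v u : ℤ, |G₀ u * G₁ (u - (ρ' + σ' * v)) *
      m₁.L (fun x => F₀ x * F₁ (x - (ρ + σ * u)) * F₂ (x - σ * (ρ' + σ' * v)))| ≤ 32 := by
    intro v u
    have h1 := abs_L_le_const m₁ 8 (hin u v)
    have h2 := lb_rng2 (hG₀ u) (hG₁ (u - (ρ' + σ' * v)))
    rw [abs_mul, abs_of_nonneg h2.1]
    calc _ ≤ (2 * 2 : ℝ) * 8 := mul_le_mul h2.2 h1 (abs_nonneg _) (by norm_num)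
      _ = 32 := by norm_num
  have hin3 : ∀ v : ℤ, |H v * m₂.L (fun u => G₀ u * G₁ (u - (ρ' + σ' * v)) *
      m₁.L (fun x => F₀ x * F₁ (x - (ρ + σ * u)) * F₂ (x - σ * (ρ' + σ' * v))))| ≤ 64 := by
    intro v
    have h1 := abs_L_le_const m₂ 32 (hin2 v)
    rw [abs_mul, abs_of_nonneg (hH v).1]
    calc _ ≤ (2 : ℝ) * 32 := mul_le_mul (hH v).2 h1 (abs_nonneg _) (by norm_num)
      _ = 64 := by norm_num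
  unfold T3
  rw [← L_shift m₃ i₃ (Bd.of_abs_le 64 hin3) (j₃ * t₃)]
  congr 1
  funext v
  rw [← L_shift m₂ i₂ (Bd.of_abs_le 32 (hin2 (v + j₃ * t₃))) (j₂ * t₂), ← lb_mul]
  congr 1
  funext u
  rw [← L_shift m₁ i₁ (Bd.of_abs_le 8 (hin (u + j₂ * t₂) (v + j₃ * t₃))) (j₁ * t₁), ← lb_mul,
    ← lb_mul]
  congr 1
  funext x
  unfold lbT
  have a1 : u + (j₂ : ℤ) * t₂ - (ρ' + σ' * (v + j₃ * t₃)) =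
      u - (ρ' + σ' * v) + ((j₂ : ℤ) - j₃) * t₂ := by rw [ht₂]; ring
  have a2 : x + (j₁ : ℤ) * t₁ - (ρ + σ * (u + j₂ * t₂)) =
      x - (ρ + σ * u) + ((j₁ : ℤ) - j₂) * t₁ := by rw [ht₁]; ring
  have a3 : x + (j₁ : ℤ) * t₁ - σ * (ρ' + σ' * (v + j₃ * t₃)) =
      x - σ * (ρ' + σ' * v) + ((j₁ : ℤ) - j₃) * t₁ := by rw [ht₁, ht₂]; ring
  rw [a1, a2, a3]

/-- For all `j₁, j₂, j₃ < p`, by invariance (`v ↦ v + j₃ t₃`, `u ↦ u + j₂ t₂`, `x ↦ x + j₁ t₁`), `T3`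
is the nested mean of `H (v + j₃ t₃) (G₀ (u + j₂ t₂) G₁ (u - b + (j₂ - j₃) t₂) (F₀ (x + j₁ t₁)
F₁ (x - a + (j₁ - j₂) t₁) F₂ (x - σ b + (j₁ - j₃) t₁)))`, `a = ρ + σ u`, `b = ρ' + σ' v`
(`σ' t₃ = t₂`, `σ t₂ = t₁`). Sum over the `p³` triples and use `six` where the three conditions
hold: the sum is `≥ (ε/32)^6` times the three indicator functions. -/
theorem lower (m₁ m₂ m₃ : Mn ℤ) (i₁ : m₁.Inv) (i₂ : m₂.Inv) (i₃ : m₃.Inv) (p : ℕ) (hp : p.Prime)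
    (ε : ℝ) (hε : 0 < ε) (hε2 : ε ≤ 1 / 2) (hpε : 8 / ε < p) (ρ ρ' : ℤ) (σ σ' : ℕ)
    (t₁ t₂ t₃ : ℤ) (ht₂ : t₂ = σ' * t₃) (ht₁ : t₁ = σ * t₂)
    (H G₀ G₁ F₀ F₁ F₂ : ℤ → ℝ) (hH : ∀ x, 0 ≤ H x ∧ H x ≤ 2) (hG₀ : ∀ x, 0 ≤ G₀ x ∧ G₀ x ≤ 2)
    (hG₁ : ∀ x, 0 ≤ G₁ x ∧ G₁ x ≤ 2) (hF₀ : ∀ x, 0 ≤ F₀ x ∧ F₀ x ≤ 2)
    (hF₁ : ∀ x, 0 ≤ F₁ x ∧ F₁ x ≤ 2) (hF₂ : ∀ x, 0 ≤ F₂ x ∧ F₂ x ≤ 2)
    (e₃ : ε / 8 ≤ m₃.L (Set.indicator {v | Gd p t₃ ε H v} 1))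
    (e₂ : ∀ v : ℤ, ε / 8 ≤ m₂.L (Set.indicator
      {u | Gd p t₂ ε G₀ u ∧ Gd p t₂ ε G₁ (u - (ρ' + σ' * v))} 1))
    (e₁ : ∀ u v : ℤ, ε / 8 ≤ m₁.L (Set.indicator {x | Gd p t₁ ε F₀ x ∧
      Gd p t₁ ε F₁ (x - (ρ + σ * u)) ∧ Gd p t₁ ε F₂ (x - σ * (ρ' + σ' * v))} 1)) :
    (ε / 32) ^ 6 * (ε / 8) ^ 3 ≤ (p : ℝ) ^ 3 * T3 m₁ m₂ m₃ ρ ρ' σ σ' H G₀ G₁ F₀ F₁ F₂ := by
  set T : ℕ → ℕ → ℕ → ℤ → ℤ → ℤ → ℝ := lbT t₁ t₂ t₃ ρ ρ' σ σ' H G₀ G₁ F₀ F₁ F₂ with hT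
  have hTr : ∀ j₁ j₂ j₃ v u x, 0 ≤ T j₁ j₂ j₃ v u x ∧ T j₁ j₂ j₃ v u x ≤ 64 :=
    lb_T_rng t₁ t₂ t₃ ρ ρ' σ σ' H G₀ G₁ F₀ F₁ F₂ hH hG₀ hG₁ hF₀ hF₁ hF₂
  set S : ℤ → ℤ → ℤ → ℝ := fun v u x => ∑ j₁ ∈ Finset.range p, ∑ j₂ ∈ Finset.range p,
    ∑ j₃ ∈ Finset.range p, T j₁ j₂ j₃ v u x with hS
  set C : ℝ := ∑ j₁ ∈ Finset.range p, ∑ j₂ ∈ Finset.range p, ∑ j₃ ∈ Finset.range p, (64 : ℝ)
    with hC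
  have hS0 : ∀ v u x, 0 ≤ S v u x := fun v u x => Finset.sum_nonneg fun j₁ _ =>
    Finset.sum_nonneg fun j₂ _ => Finset.sum_nonneg fun j₃ _ => (hTr j₁ j₂ j₃ v u x).1
  have hS1 : ∀ v u x, S v u x ≤ C := fun v u x => Finset.sum_le_sum fun j₁ _ =>
    Finset.sum_le_sum fun j₂ _ => Finset.sum_le_sum fun j₃ _ => (hTr j₁ j₂ j₃ v u x).2
  have hSC : ∀ v u x, |S v u x| ≤ C := fun v u x => by
    rw [abs_of_nonneg (hS0 v u x)]; exact hS1 v u x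
  have e : (p : ℝ) ^ 3 * T3 m₁ m₂ m₃ ρ ρ' σ σ' H G₀ G₁ F₀ F₁ F₂ =
      m₃.L (fun v => m₂.L (fun u => m₁.L (fun x => S v u x))) := by
    have e1 : ∀ v u, m₁.L (fun x => S v u x) = ∑ j₁ ∈ Finset.range p, ∑ j₂ ∈ Finset.range p,
        ∑ j₃ ∈ Finset.range p, m₁.L (fun x => T j₁ j₂ j₃ v u x) := by
      intro v u
      rw [hS]
      simp only
      rw [lb_sum]
      refine Finset.sum_congr rfl fun j₁ _ => ?_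
      rw [lb_sum]
      refine Finset.sum_congr rfl fun j₂ _ => ?_
      rw [lb_sum]
    have e2 : ∀ v, m₂.L (fun u => m₁.L (fun x => S v u x)) = ∑ j₁ ∈ Finset.range p,
        ∑ j₂ ∈ Finset.range p, ∑ j₃ ∈ Finset.range p,
          m₂.L (fun u => m₁.L (fun x => T j₁ j₂ j₃ v u x)) := by
      intro v
      simp only [e1]
      rw [lb_sum]
      refine Finset.sum_congr rfl fun j₁ _ => ?_
      rw [lb_sum]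
      refine Finset.sum_congr rfl fun j₂ _ => ?_
      rw [lb_sum]
    simp only [e2]
    rw [lb_sum]
    have e3 : ∀ j₁ ∈ Finset.range p, m₃.L (fun v => ∑ j₂ ∈ Finset.range p,
        ∑ j₃ ∈ Finset.range p, m₂.L (fun u => m₁.L (fun x => T j₁ j₂ j₃ v u x))) =
        (p : ℝ) ^ 2 * T3 m₁ m₂ m₃ ρ ρ' σ σ' H G₀ G₁ F₀ F₁ F₂ := by
      intro j₁ _
      rw [lb_sum]
      have e4 : ∀ j₂ ∈ Finset.range p, m₃.L (fun v =>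
          ∑ j₃ ∈ Finset.range p, m₂.L (fun u => m₁.L (fun x => T j₁ j₂ j₃ v u x))) =
          (p : ℝ) * T3 m₁ m₂ m₃ ρ ρ' σ σ' H G₀ G₁ F₀ F₁ F₂ := by
        intro j₂ _
        rw [lb_sum]
        have e5 : ∀ j₃ ∈ Finset.range p, m₃.L (fun v =>
            m₂.L (fun u => m₁.L (fun x => T j₁ j₂ j₃ v u x))) =
            T3 m₁ m₂ m₃ ρ ρ' σ σ' H G₀ G₁ F₀ F₁ F₂ := by
          intro j₃ _
          exact (lb_shift m₁ m₂ m₃ i₁ i₂ i₃ ρ ρ' σ σ' t₁ t₂ t₃ ht₂ ht₁ H G₀ G₁ F₀ F₁ F₂ hH hG₀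
            hG₁ hF₀ hF₁ hF₂ j₁ j₂ j₃).symm
        rw [Finset.sum_congr rfl e5, Finset.sum_const, Finset.card_range, nsmul_eq_mul]
      rw [Finset.sum_congr rfl e4, Finset.sum_const, Finset.card_range, nsmul_eq_mul]
      ring
    rw [Finset.sum_congr rfl e3, Finset.sum_const, Finset.card_range, nsmul_eq_mul]
    ring
  rw [e]
  set A₃ : Set ℤ := {v | Gd p t₃ ε H v} with hA₃
  set A₂ : ℤ → Set ℤ := fun v => {u | Gd p t₂ ε G₀ u ∧ Gd p t₂ ε G₁ (u - (ρ' + σ' * v))}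
    with hA₂
  set A₁ : ℤ → ℤ → Set ℤ := fun v u => {x | Gd p t₁ ε F₀ x ∧
      Gd p t₁ ε F₁ (x - (ρ + σ * u)) ∧ Gd p t₁ ε F₂ (x - σ * (ρ' + σ' * v))} with hA₁
  have hq : 0 ≤ ε / 8 := by positivity
  have hq6 : 0 ≤ (ε / 32) ^ 6 := by positivity
  have hi : ∀ (A : Set ℤ) x, 0 ≤ Set.indicator A (1 : ℤ → ℝ) x := fun A x =>
    Set.indicator_nonneg (fun _ _ => by simp) x
  have key : ∀ v u x, (ε / 32) ^ 6 * Set.indicator A₃ (1 : ℤ → ℝ) v *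
      Set.indicator (A₂ v) (1 : ℤ → ℝ) u * Set.indicator (A₁ v u) (1 : ℤ → ℝ) x ≤ S v u x := by
    intro v u x
    by_cases h3 : v ∈ A₃
    · by_cases h2 : u ∈ A₂ v
      · by_cases h1 : x ∈ A₁ v u
        · rw [Set.indicator_of_mem h3, Set.indicator_of_mem h2, Set.indicator_of_mem h1]
          simp only [Pi.one_apply, mul_one]
          exact six p hp ε hε hε2 hpε t₁ t₂ t₃ H G₀ G₁ F₀ F₁ F₂ (fun x => (hH x).1)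
            (fun x => (hG₀ x).1) (fun x => (hG₁ x).1) (fun x => (hF₀ x).1) (fun x => (hF₁ x).1)
            (fun x => (hF₂ x).1) v u (u - (ρ' + σ' * v)) x (x - (ρ + σ * u))
            (x - σ * (ρ' + σ' * v)) h3 h2.1 h2.2 h1.1 h1.2.1 h1.2.2
        · rw [Set.indicator_of_notMem h1, mul_zero]; exact hS0 v u x
      · rw [Set.indicator_of_notMem h2, mul_zero, zero_mul]; exact hS0 v u x
    · rw [Set.indicator_of_notMem h3, mul_zero, zero_mul, zero_mul]; exact hS0 v u x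
  have k1 : ∀ v u, (ε / 32) ^ 6 * Set.indicator A₃ (1 : ℤ → ℝ) v * (ε / 8) *
      Set.indicator (A₂ v) (1 : ℤ → ℝ) u ≤ m₁.L (fun x => S v u x) := by
    intro v u
    have h := lb_ind m₁ (A₁ v u) ((ε / 32) ^ 6 * Set.indicator A₃ (1 : ℤ → ℝ) v *
      Set.indicator (A₂ v) (1 : ℤ → ℝ) u) (ε / 8)
      (mul_nonneg (mul_nonneg hq6 (hi _ _)) (hi _ _)) (fun x => S v u x)
      (Bd.of_abs_le C (hSC v u)) (key v u) (e₁ u v)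
    calc _ = (ε / 32) ^ 6 * Set.indicator A₃ (1 : ℤ → ℝ) v *
      Set.indicator (A₂ v) (1 : ℤ → ℝ) u * (ε / 8) := by ring
      _ ≤ _ := h
  have b1 : ∀ v u, |m₁.L (fun x => S v u x)| ≤ C := fun v u => abs_L_le_const m₁ C (hSC v u)
  have k2 : ∀ v, (ε / 32) ^ 6 * (ε / 8) * (ε / 8) * Set.indicator A₃ (1 : ℤ → ℝ) v ≤
      m₂.L (fun u => m₁.L (fun x => S v u x)) := by
    intro v
    have h := lb_ind m₂ (A₂ v) ((ε / 32) ^ 6 * Set.indicator A₃ (1 : ℤ → ℝ) v * (ε / 8)) (ε / 8)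
      (mul_nonneg (mul_nonneg hq6 (hi _ _)) hq) (fun u => m₁.L (fun x => S v u x))
      (Bd.of_abs_le C (b1 v)) (k1 v) (e₂ v)
    calc _ = (ε / 32) ^ 6 * Set.indicator A₃ (1 : ℤ → ℝ) v * (ε / 8) * (ε / 8) := by ring
      _ ≤ _ := h
  have h := lb_ind m₃ A₃ ((ε / 32) ^ 6 * (ε / 8) * (ε / 8)) (ε / 8)
      (mul_nonneg (mul_nonneg hq6 hq) hq) (fun v => m₂.L (fun u => m₁.L (fun x => S v u x)))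
      (Bd.of_abs_le C fun v => abs_L_le_const m₂ C (b1 v)) k2 e₃
  calc _ = (ε / 32) ^ 6 * (ε / 8) * (ε / 8) * (ε / 8) := by ring
    _ ≤ _ := h

end Pool.Agent.HOM
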