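import Pool.Agent.Lib_helper33.HOM.Defs
import Pool.Agent.Lib_helper33.HOMF.MA

set_option autoImplicit false

namespace Pool.Agent.HOM

open Filter Topology
open scoped BigOperators ComplexConjugate

theorem na_bern (t c : ℝ) (ht : 0 ≤ t) (hc : 0 ≤ c) (k : ℕ) :
    c ^ (k + 1) + ((k : ℝ) + 1) * c ^ k * (t - c) ≤ t ^ (k + 1) := by
  induction k with
  | zero => simp
  | succ k ih =>
    have h1 : t * (c ^ (k + 1) + ((k : ℝ) + 1) * c ^ k * (t - c)) ≤ t * t ^ (k + 1) :=
      mul_le_mul_of_nonneg_left ih ht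
    have h2 : 0 ≤ ((k : ℝ) + 1) * c ^ k * (t - c) ^ 2 := by positivity
    have e : t * (c ^ (k + 1) + ((k : ℝ) + 1) * c ^ k * (t - c)) =
        c ^ (k + 1 + 1) + (((k + 1 : ℕ) : ℝ) + 1) * c ^ (k + 1) * (t - c) +
          ((k : ℝ) + 1) * c ^ k * (t - c) ^ 2 := by
      push_cast; ring
    calc _ ≤ t * (c ^ (k + 1) + ((k : ℝ) + 1) * c ^ k * (t - c)) := by rw [e]; linarith
      _ ≤ t * t ^ (k + 1) := h1
      _ = t ^ (k + 1 + 1) := by ring

theorem na_pow {X : Type*} (φ : Mn X) (g : X → ℝ) (hg : Bd g) (h0 : ∀ x, 0 ≤ g x) (k : ℕ) :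
    (φ.L g) ^ (k + 1) ≤ φ.L (fun x => g x ^ (k + 1)) := by
  set c := φ.L g with hc
  have hc0 : 0 ≤ c := φ.nonneg g hg h0
  have h1 := L_mono φ (f := fun x => (c ^ (k + 1) - ((k : ℝ) + 1) * c ^ k * c) * 1 + ((k : ℝ) + 1) * c ^ k * g x)
    (g := fun x => g x ^ (k + 1))
    (((Bd.const _)).add ((Bd.const _).mulR hg)) (hg.powR _)
    (fun x => by
      have := na_bern (g x) c (h0 x) hc0 k
      linarith)
  have e : (fun x => (c ^ (k + 1) - ((k : ℝ) + 1) * c ^ k * c) * 1 + ((k : ℝ) + 1) * c ^ k * g x) =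
      (c ^ (k + 1) - ((k : ℝ) + 1) * c ^ k * c) • (fun _ : X => (1:ℝ)) + (((k : ℝ) + 1) * c ^ k) • g := by
    ext x; simp
  rw [e, map_add, map_smul, map_smul, φ.one, ← hc] at h1
  simp only [smul_eq_mul] at h1
  linarith

/-- the number of maps which are not injective -/
theorem na_count {ι : Type*} [DecidableEq ι] (T : Finset ι) (k : ℕ) :
    (((Fintype.piFinset (fun _ : Fin (k + 1) => T)).filter
      (fun f => ¬ Function.Injective f)).card) ≤ (k + 1) ^ 2 * T.card ^ k := by
  classical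
  have hsub : (Fintype.piFinset (fun _ : Fin (k + 1) => T)).filter (fun f => ¬ Function.Injective f) ⊆
      (Finset.univ : Finset (Fin (k + 1) × Fin (k + 1))).biUnion (fun p =>
        if p.1 = p.2 then ∅ else
          (Fintype.piFinset (fun _ : Fin (k + 1) => T)).filter (fun f => f p.1 = f p.2)) := by
    intro f hf
    rw [Finset.mem_filter] at hf
    obtain ⟨hf1, hf2⟩ := hf
    rw [Function.Injective] at hf2
    push Not at hf2
    obtain ⟨a, b, hab, hne⟩ := hf2
    rw [Finset.mem_biUnion]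
    refine ⟨(a, b), Finset.mem_univ _, ?_⟩
    simp only [hne, if_false]
    rw [Finset.mem_filter]
    exact ⟨hf1, hab⟩
  refine (Finset.card_le_card hsub).trans ?_
  refine (Finset.card_biUnion_le_card_mul _ _ (T.card ^ k) fun p _ => ?_).trans ?_
  · by_cases hp : p.1 = p.2
    · simp [hp]
    · rw [if_neg hp]
      have hinj : Set.InjOn (fun (f : Fin (k + 1) → ι) (j : {j // j ≠ p.2}) => f j)
          ((Fintype.piFinset (fun _ : Fin (k + 1) => T)).filter (fun f => f p.1 = f p.2) :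
            Finset (Fin (k + 1) → ι)) := by
        intro f hf g hg hfg
        have hf' := (Finset.mem_filter.mp (Finset.mem_coe.mp hf)).2
        have hg' := (Finset.mem_filter.mp (Finset.mem_coe.mp hg)).2
        ext j
        by_cases hj : j = p.2
        · have := congrFun hfg ⟨p.1, hp⟩
          simp only at this
          rw [hj, ← hf', ← hg', this]
        · exact congrFun hfg ⟨j, hj⟩
      have hmap : Set.MapsTo (fun (f : Fin (k + 1) → ι) (j : {j // j ≠ p.2}) => f j)
          ((Fintype.piFinset (fun _ : Fin (k + 1) => T)).filter (fun f => f p.1 = f p.2) :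
            Finset (Fin (k + 1) → ι))
          (Fintype.piFinset (fun _ : {j : Fin (k + 1) // j ≠ p.2} => T) : Finset _) := by
        intro f hf
        have hf' := (Finset.mem_filter.mp (Finset.mem_coe.mp hf)).1
        rw [Finset.mem_coe, Fintype.mem_piFinset]
        intro j
        exact (Fintype.mem_piFinset.mp hf') j
      refine (Finset.card_le_card_of_injOn _ hmap hinj).trans ?_
      rw [Fintype.card_piFinset, Finset.prod_const, Finset.card_univ]
      have : Fintype.card {j : Fin (k + 1) // j ≠ p.2} = k := by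
        rw [Fintype.card_subtype_compl]; simp
      rw [this]
  · rw [Finset.card_univ, Fintype.card_prod, Fintype.card_fin, sq]

theorem many {X ι : Type*} (φ : Mn X) (I : Set ι) (hI : I.Infinite) (F : ι → X → ℝ)
    (hF : ∀ i x, 0 ≤ F i x ∧ F i x ≤ 1) (κ : ℝ) (hκ : 0 < κ) (h : ∀ i ∈ I, κ ≤ φ.L (F i))
    (k : ℕ) : ∃ s : Finset ι, (s : Set ι) ⊆ I ∧ s.card = k ∧
      0 < φ.L (fun x => ∏ i ∈ s, F i x) := by
  classical
  rcases k with _ | k
  · refine ⟨∅, by simp, by simp, ?_⟩
    simp only [Finset.prod_empty]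
    rw [φ.one]; norm_num
  by_contra hcon
  push Not at hcon
  obtain ⟨n, hn⟩ := exists_nat_gt (((k : ℝ) + 1) ^ 2 / κ ^ (k + 1))
  have hn0 : (0:ℝ) < n := by
    have : (0:ℝ) ≤ ((k : ℝ) + 1) ^ 2 / κ ^ (k + 1) := by positivity
    exact this.trans_lt hn
  obtain ⟨T, hTI, hTn⟩ := hI.exists_subset_card_eq n
  have hFB : ∀ i, Bd (F i) := fun i => Bd.of_mem_Icc (hF i)
  set g : X → ℝ := fun x => ∑ i ∈ T, F i x with hg
  have hgB : Bd g := Bd.sum T fun i _ => hFB i
  have hg0 : ∀ x, 0 ≤ g x := fun x => Finset.sum_nonneg fun i _ => (hF i x).1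
  have hLg : (n : ℝ) * κ ≤ φ.L g := by
    have e : g = ∑ i ∈ T, F i := by ext x; simp [hg]
    rw [e, map_sum]
    calc (n : ℝ) * κ = ∑ _i ∈ T, κ := by rw [Finset.sum_const, hTn, nsmul_eq_mul]
      _ ≤ _ := Finset.sum_le_sum fun i hi => h i (hTI (Finset.mem_coe.mpr hi))
  have h1 : ((n : ℝ) * κ) ^ (k + 1) ≤ φ.L (fun x => g x ^ (k + 1)) :=
    (pow_le_pow_left₀ (by positivity) hLg _).trans (na_pow φ g hgB hg0 k)
  have e2 : (fun x => g x ^ (k + 1)) = ∑ f ∈ Fintype.piFinset (fun _ : Fin (k + 1) => T),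
      fun x => ∏ j, F (f j) x := by
    ext x
    rw [Finset.sum_apply]
    have := Finset.prod_univ_sum (fun _ : Fin (k + 1) => T) (fun _ i => F i x)
    rw [Finset.prod_const, Finset.card_univ, Fintype.card_fin] at this
    exact this
  rw [e2, map_sum, ← Finset.sum_filter_add_sum_filter_not _ (fun f => Function.Injective f)] at h1
  have h3 : ∑ f ∈ (Fintype.piFinset (fun _ : Fin (k + 1) => T)).filter
      (fun f => Function.Injective f), φ.L (fun x => ∏ j, F (f j) x) ≤ 0 := by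
    refine Finset.sum_nonpos fun f hf => ?_
    rw [Finset.mem_filter] at hf
    have hc := hcon (Finset.univ.image f) (by
      intro i hi
      rw [Finset.coe_image] at hi
      obtain ⟨j, _, rfl⟩ := hi
      exact hTI ((Fintype.mem_piFinset.mp hf.1) j)) (by
      rw [Finset.card_image_of_injective _ hf.2, Finset.card_univ, Fintype.card_fin])
    have e : (fun x => ∏ i ∈ Finset.univ.image f, F i x) = fun x => ∏ j, F (f j) x := by
      ext x
      rw [Finset.prod_image (fun a _ b _ hab => hf.2 hab)]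
    rw [e] at hc
    exact hc
  have h4 : ∑ f ∈ (Fintype.piFinset (fun _ : Fin (k + 1) => T)).filter
      (fun f => ¬ Function.Injective f), φ.L (fun x => ∏ j, F (f j) x) ≤
      (((k + 1) ^ 2 * n ^ k : ℕ) : ℝ) := by
    refine (Finset.sum_le_card_nsmul _ _ 1 fun f _ => ?_).trans ?_
    · refine L_le φ 1 (Bd.of_mem_Icc (a := 0) (b := 1) fun x => ?_) fun x => ?_
      · exact ⟨Finset.prod_nonneg fun j _ => (hF _ x).1,
          Finset.prod_le_one (fun j _ => (hF _ x).1) fun j _ => (hF _ x).2⟩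
      · exact Finset.prod_le_one (fun j _ => (hF _ x).1) fun j _ => (hF _ x).2
    · rw [nsmul_eq_mul, mul_one]
      have := na_count T k
      rw [hTn] at this
      exact_mod_cast this
  have h5 : ((n : ℝ) * κ) ^ (k + 1) ≤ ((k : ℝ) + 1) ^ 2 * (n : ℝ) ^ k := by
    have : (((k + 1) ^ 2 * n ^ k : ℕ) : ℝ) = ((k : ℝ) + 1) ^ 2 * (n : ℝ) ^ k := by push_cast; ring
    rw [← this]
    linarith
  have h6 : (n : ℝ) * κ ^ (k + 1) ≤ ((k : ℝ) + 1) ^ 2 := by
    have hp : (0:ℝ) < (n : ℝ) ^ k := by positivity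
    have e : ((n : ℝ) * κ) ^ (k + 1) = ((n : ℝ) * κ ^ (k + 1)) * (n : ℝ) ^ k := by ring
    rw [e] at h5
    exact le_of_mul_le_mul_right h5 hp
  rw [div_lt_iff₀ (by positivity)] at hn
  linarith


end Pool.Agent.HOM
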