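import Pool.Agent.Lib_helper33.HOM.Defs
import Pool.Agent.Lib_helper33.HOMF.MA
import Pool.Agent.Lib_helper33.HOMF.NA

/-!
# HOM, block NB: four bins from a positive mean
-/

set_option autoImplicit false

namespace Pool.Agent.HOM

open Filter Topology
open scoped BigOperators ComplexConjugate

theorem nb_CI (D : Set ℕ) (v : ℤ) : 0 ≤ CI D v ∧ CI D v ≤ 1 := by
  unfold CI
  split_ifs <;> norm_num

theorem nb_CI_ne {D : Set ℕ} {b b' : ℤ} (h : CI D (b' - b) ≠ 0) :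
    b ≠ b' ∧ (b - b').natAbs ∉ D := by
  unfold CI at h
  split_ifs at h with h1
  · refine ⟨fun e => h1.1 (by rw [e, sub_self]), ?_⟩
    rw [← Int.natAbs_neg, neg_sub]
    exact h1.2
  · exact absurd rfl h

theorem nb_mul {a b : ℝ} (ha : 0 ≤ a ∧ a ≤ 1) (hb : 0 ≤ b ∧ b ≤ 1) : 0 ≤ a * b ∧ a * b ≤ 1 :=
  ⟨mul_nonneg ha.1 hb.1, mul_le_one₀ ha.2 hb.1 hb.2⟩

theorem nb_prod {ι : Type*} (s : Finset ι) (f : ι → ℝ) (h : ∀ i, 0 ≤ f i ∧ f i ≤ 1) :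
    0 ≤ ∏ i ∈ s, f i ∧ ∏ i ∈ s, f i ≤ 1 :=
  ⟨Finset.prod_nonneg fun i _ => (h i).1, Finset.prod_le_one (fun i _ => (h i).1)
    fun i _ => (h i).2⟩

theorem nb_L {X : Type*} (m : Mn X) (f : X → ℝ) (h : ∀ x, 0 ≤ f x ∧ f x ≤ 1) :
    0 ≤ m.L f ∧ m.L f ≤ 1 :=
  ⟨m.nonneg f (Bd.of_mem_Icc h) fun x => (h x).1,
    L_le m 1 (Bd.of_mem_Icc h) fun x => (h x).2⟩

theorem nb_smul {X : Type*} (m : Mn X) (c : ℝ) (f : X → ℝ) :
    m.L (fun x => c * f x) = c * m.L f := by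
  have h : (fun x => c * f x) = c • f := rfl
  rw [h, map_smul, smul_eq_mul]

/-- a point has mean zero -/
theorem nb_single (m : Mn ℤ) (hm : m.Inv) (a : ℤ) :
    m.L (Set.indicator {a} (fun _ => (1 : ℝ))) ≤ 0 := by
  classical
  set c := m.L (Set.indicator {a} (fun _ => (1 : ℝ))) with hc
  have hr : ∀ x : ℤ, 0 ≤ Set.indicator {a} (fun _ => (1 : ℝ)) x ∧
      Set.indicator {a} (fun _ => (1 : ℝ)) x ≤ 1 := fun x => by
    by_cases h : x ∈ ({a} : Set ℤ)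
    · rw [Set.indicator_of_mem h]; norm_num
    · rw [Set.indicator_of_notMem h]; norm_num
  have hbd : Bd (Set.indicator {a} (fun _ => (1 : ℝ))) := Bd.of_mem_Icc hr
  have hn : ∀ n : ℕ, (n : ℝ) * c ≤ 1 := by
    intro n
    have h1 : m.L (∑ j ∈ Finset.range n, fun x : ℤ =>
        Set.indicator {a} (fun _ => (1 : ℝ)) (x + (j : ℤ))) = n * c := by
      have h0 : ∀ j ∈ Finset.range n, m.L (fun x : ℤ =>
          Set.indicator {a} (fun _ => (1 : ℝ)) (x + (j : ℤ))) = c :=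
        fun j _ => L_shift m hm hbd (j : ℤ)
      rw [map_sum, Finset.sum_congr rfl h0]
      rw [Finset.sum_const, Finset.card_range, nsmul_eq_mul]
    rw [← h1]
    have h2 : ∀ x : ℤ, (∑ j ∈ Finset.range n, fun x : ℤ =>
        Set.indicator {a} (fun _ => (1 : ℝ)) (x + (j : ℤ))) x ≤ 1 := by
      intro x
      rw [Finset.sum_apply]
      by_cases hx : ∃ j₀ ∈ Finset.range n, x + (j₀ : ℤ) = a
      · obtain ⟨j₀, hj₀, e⟩ := hx
        rw [Finset.sum_eq_single j₀]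
        · exact (hr _).2
        · intro j _ hj
          rw [Set.indicator_of_notMem]
          intro h
          rw [Set.mem_singleton_iff] at h
          exact hj (by omega)
        · intro h
          exact absurd hj₀ h
      · push Not at hx
        rw [Finset.sum_eq_zero]
        · norm_num
        · intro j hj
          rw [Set.indicator_of_notMem]
          exact fun h => hx j hj h
    refine L_le m 1 ?_ h2
    have h3 : Bd (fun x : ℤ => ∑ j ∈ Finset.range n,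
        Set.indicator {a} (fun _ => (1 : ℝ)) (x + (j : ℤ))) :=
      Bd.sum _ fun j _ => hbd.comp (fun x : ℤ => x + (j : ℤ))
    have h4 : (∑ j ∈ Finset.range n, fun x : ℤ =>
        Set.indicator {a} (fun _ => (1 : ℝ)) (x + (j : ℤ))) = fun x : ℤ =>
        ∑ j ∈ Finset.range n, Set.indicator {a} (fun _ => (1 : ℝ)) (x + (j : ℤ)) := by
      ext x
      rw [Finset.sum_apply]
    rw [h4]
    exact h3
  by_contra hpos
  push Not at hpos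
  obtain ⟨n, hn1⟩ := exists_nat_gt (1 / c)
  have h5 := hn n
  rw [div_lt_iff₀ hpos] at hn1
  linarith

/-- a finite set has mean zero -/
theorem nb_fin (m : Mn ℤ) (hm : m.Inv) (s : Finset ℤ) :
    m.L (Set.indicator (s : Set ℤ) (fun _ => (1 : ℝ))) ≤ 0 := by
  classical
  have h1 : Set.indicator (s : Set ℤ) (fun _ => (1 : ℝ)) =
      ∑ a ∈ s, Set.indicator {a} (fun _ => (1 : ℝ)) := by
    ext x
    rw [Finset.sum_apply]
    by_cases hx : x ∈ s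
    · rw [Set.indicator_of_mem (Finset.mem_coe.2 hx), Finset.sum_eq_single x]
      · rw [Set.indicator_of_mem (Set.mem_singleton x)]
      · intro a _ ha
        rw [Set.indicator_of_notMem]
        exact fun h => ha (Set.mem_singleton_iff.1 h).symm
      · intro h
        exact absurd hx h
    · rw [Set.indicator_of_notMem (fun h => hx (Finset.mem_coe.1 h)), Finset.sum_eq_zero]
      intro a ha
      rw [Set.indicator_of_notMem]
      intro h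
      rw [Set.mem_singleton_iff] at h
      exact hx (h ▸ ha)
  rw [h1, map_sum]
  exact Finset.sum_nonpos fun a _ => nb_single m hm a

/-- a function of positive mean is large at infinitely many points -/
theorem nb_inf (m : Mn ℤ) (hm : m.Inv) (g : ℤ → ℝ) (hg : ∀ x, 0 ≤ g x ∧ g x ≤ 1)
    (h : 0 < m.L g) : {x | m.L g / 2 ≤ g x}.Infinite := by
  intro hfin
  classical
  set s := hfin.toFinset with hs
  have hbs : Bd (Set.indicator (s : Set ℤ) (fun _ => (1 : ℝ))) := by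
    refine Bd.of_mem_Icc (a := 0) (b := 1) fun x => ?_
    by_cases h : x ∈ (s : Set ℤ)
    · rw [Set.indicator_of_mem h]; norm_num
    · rw [Set.indicator_of_notMem h]; norm_num
  have h1 : m.L g ≤ m.L (fun x => m.L g / 2 + Set.indicator (s : Set ℤ) (fun _ => (1 : ℝ)) x) := by
    refine L_mono m (Bd.of_mem_Icc hg) ((Bd.const _).add hbs) fun x => ?_
    by_cases hx : x ∈ (s : Set ℤ)
    · rw [Set.indicator_of_mem hx]
      have := (hg x).2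
      linarith
    · rw [Set.indicator_of_notMem hx, add_zero]
      rw [hs, Set.Finite.coe_toFinset, Set.mem_ofPred_eq, not_le] at hx
      exact hx.le
  have h2 : (fun x => m.L g / 2 + Set.indicator (s : Set ℤ) (fun _ => (1 : ℝ)) x) =
      (fun _ => m.L g / 2) + Set.indicator (s : Set ℤ) (fun _ => (1 : ℝ)) := rfl
  rw [h2, map_add, L_const] at h1
  have h3 := nb_fin m hm s
  linarith

theorem nb_shift (m : Mn ℤ) (hm : m.Inv) (α β b : ℤ) (hb : β ∣ b) (f : ℤ → ℝ)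
    (hf : ∀ y, 0 ≤ f y ∧ f y ≤ 1) :
    m.L (fun x => f (α + β * x - b)) = m.L (fun x => f (α + β * x)) := by
  obtain ⟨c, rfl⟩ := hb
  have h := L_shift m hm (f := fun x => f (α + β * x)) (Bd.of_mem_Icc fun x => hf _) (-c)
  rw [← h]
  congr 1
  ext x
  congr 1
  ring

theorem blowup (D : Set ℕ) (k : ℕ) (K : ℤ) (hK : 0 < K) (α₁ α₂ α₃ β₁ β₂ β₃ : ℤ) (hβ₁ : 0 < β₁)
    (hβ₂ : 0 < β₂) (hβ₃ : 0 < β₃) (a₁ : K ∣ α₁) (a₂ : K ∣ α₂) (a₃ : K ∣ α₃) (b₁ : K ∣ β₁)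
    (b₂ : K ∣ β₂) (b₃ : K ∣ β₃) (m₁ m₂ m₃ : Mn ℤ) (i₁ : m₁.Inv) (i₂ : m₂.Inv) (i₃ : m₃.Inv)
    (h : 0 < m₃.L (fun v => CI D (α₃ + β₃ * v) * m₂.L (fun u => CI D (α₂ + β₂ * u) *
      CI D (α₂ + β₂ * u - (α₃ + β₃ * v)) * m₁.L (fun x => CI D (α₁ + β₁ * x) *
        CI D (α₁ + β₁ * x - (α₂ + β₂ * u)) * CI D (α₁ + β₁ * x - (α₃ + β₃ * v)))))) :
    ∃ B : Fin 4 → Finset ℤ, (∀ i, (B i).card = k) ∧ (∀ i, ∀ b ∈ B i, K ∣ b) ∧
      ∀ i j, i < j → ∀ b ∈ B i, ∀ b' ∈ B j, b ≠ b' ∧ (b - b').natAbs ∉ D := by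
  classical
  rcases Nat.eq_zero_or_pos k with rfl | hk
  · exact ⟨fun _ => ∅, fun _ => rfl, fun _ b hb => absurd hb (Finset.notMem_empty b),
      fun _ _ _ b hb => absurd hb (Finset.notMem_empty b)⟩
  set C := CI D with hC
  have hC01 : ∀ v, 0 ≤ C v ∧ C v ≤ 1 := nb_CI D
  -- the function attached to `b`
  set F : ℤ → ℤ × (ℤ × ℤ) → ℝ := fun b p =>
    C (α₃ + β₃ * p.1 - b) * (C (α₂ + β₂ * p.2.1 - b) * C (α₂ + β₂ * p.2.1 - (α₃ + β₃ * p.1)) *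
      (C (α₁ + β₁ * p.2.2 - b) * C (α₁ + β₁ * p.2.2 - (α₂ + β₂ * p.2.1)) *
        C (α₁ + β₁ * p.2.2 - (α₃ + β₃ * p.1)))) with hF
  have hF01 : ∀ b p, 0 ≤ F b p ∧ F b p ≤ 1 := fun b p =>
    nb_mul (hC01 _) (nb_mul (nb_mul (hC01 _) (hC01 _)) (nb_mul (nb_mul (hC01 _) (hC01 _)) (hC01 _)))
  -- its mean
  set f₁ : ℤ → ℤ → ℝ := fun y₂ y₃ => m₁.L (fun x => C (α₁ + β₁ * x) *
        C (α₁ + β₁ * x - y₂) * C (α₁ + β₁ * x - y₃)) with hf₁
  have hf₁01 : ∀ y₂ y₃, 0 ≤ f₁ y₂ y₃ ∧ f₁ y₂ y₃ ≤ 1 := fun y₂ y₃ =>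
    nb_L m₁ _ fun x => nb_mul (nb_mul (hC01 _) (hC01 _)) (hC01 _)
  set f₂ : ℤ → ℝ := fun y₃ => m₂.L (fun u => C (α₂ + β₂ * u) *
      C (α₂ + β₂ * u - y₃) * f₁ (α₂ + β₂ * u) y₃) with hf₂
  have hf₂01 : ∀ y₃, 0 ≤ f₂ y₃ ∧ f₂ y₃ ≤ 1 := fun y₃ =>
    nb_L m₂ _ fun u => nb_mul (nb_mul (hC01 _) (hC01 _)) (hf₁01 _ _)
  set κ := m₃.L (fun v => C (α₃ + β₃ * v) * f₂ (α₃ + β₃ * v)) with hκ
  have hκ0 : 0 < κ := h
  have hmean : ∀ b, K * β₁ * β₂ * β₃ ∣ b → (m₃.prod (m₂.prod m₁)).L (F b) = κ := by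
    intro b hb
    have hb1 : β₁ ∣ b := Dvd.dvd.trans ⟨K * β₂ * β₃, by ring⟩ hb
    have hb2 : β₂ ∣ b := Dvd.dvd.trans ⟨K * β₁ * β₃, by ring⟩ hb
    have hb3 : β₃ ∣ b := Dvd.dvd.trans ⟨K * β₁ * β₂, by ring⟩ hb
    rw [Mn.prod_apply]
    have e1 : ∀ v u : ℤ, m₁.L (fun x => C (α₁ + β₁ * x - b) *
        C (α₁ + β₁ * x - (α₂ + β₂ * u)) * C (α₁ + β₁ * x - (α₃ + β₃ * v))) =
        f₁ (α₂ + β₂ * u - b) (α₃ + β₃ * v - b) := by
      intro v u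
      have h1 := nb_shift m₁ i₁ α₁ β₁ b hb1 (fun y => C y * C (y + b - (α₂ + β₂ * u)) *
        C (y + b - (α₃ + β₃ * v))) (fun y => nb_mul (nb_mul (hC01 _) (hC01 _)) (hC01 _))
      have h2 : (fun x => C (α₁ + β₁ * x - b) *
        C (α₁ + β₁ * x - (α₂ + β₂ * u)) * C (α₁ + β₁ * x - (α₃ + β₃ * v))) =
          (fun x => (fun y => C y * C (y + b - (α₂ + β₂ * u)) *
        C (y + b - (α₃ + β₃ * v))) (α₁ + β₁ * x - b)) := by
        funext x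
        beta_reduce
        rw [sub_add_cancel]
      rw [h2, h1, hf₁]
      beta_reduce
      congr 1
      funext x
      rw [show α₁ + β₁ * x + b - (α₂ + β₂ * u) = α₁ + β₁ * x - (α₂ + β₂ * u - b) by ring,
        show α₁ + β₁ * x + b - (α₃ + β₃ * v) = α₁ + β₁ * x - (α₃ + β₃ * v - b) by ring]
    have e2 : ∀ v : ℤ, m₂.L (fun u => C (α₂ + β₂ * u - b) * C (α₂ + β₂ * u - (α₃ + β₃ * v)) *
        f₁ (α₂ + β₂ * u - b) (α₃ + β₃ * v - b)) = f₂ (α₃ + β₃ * v - b) := by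
      intro v
      have h1 := nb_shift m₂ i₂ α₂ β₂ b hb2 (fun y => C y * C (y + b - (α₃ + β₃ * v)) *
        f₁ y (α₃ + β₃ * v - b)) (fun y => nb_mul (nb_mul (hC01 _) (hC01 _)) (hf₁01 _ _))
      have h2 : (fun u => C (α₂ + β₂ * u - b) * C (α₂ + β₂ * u - (α₃ + β₃ * v)) *
        f₁ (α₂ + β₂ * u - b) (α₃ + β₃ * v - b)) =
          (fun u => (fun y => C y * C (y + b - (α₃ + β₃ * v)) *
        f₁ y (α₃ + β₃ * v - b)) (α₂ + β₂ * u - b)) := by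
        funext u
        beta_reduce
        rw [sub_add_cancel]
      rw [h2, h1, hf₂]
      beta_reduce
      congr 1
      funext u
      rw [show α₂ + β₂ * u + b - (α₃ + β₃ * v) = α₂ + β₂ * u - (α₃ + β₃ * v - b) by ring]
    have e3 : (fun v : ℤ => (m₂.prod m₁).L (fun y => F b (v, y))) =
        fun v => (fun y => C y * f₂ y) (α₃ + β₃ * v - b) := by
      funext v
      rw [Mn.prod_apply]
      have h1 : (fun u : ℤ => m₁.L (fun x => F b (v, (u, x)))) = fun u =>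
          C (α₃ + β₃ * v - b) * (C (α₂ + β₂ * u - b) * C (α₂ + β₂ * u - (α₃ + β₃ * v)) *
            f₁ (α₂ + β₂ * u - b) (α₃ + β₃ * v - b)) := by
        funext u
        rw [← e1 v u, ← nb_smul, ← nb_smul]
      rw [h1, nb_smul, e2]
    rw [e3, nb_shift m₃ i₃ α₃ β₃ b hb3 (fun y => C y * f₂ y)
      (fun y => nb_mul (hC01 _) (hf₂01 _))]
  -- level 0
  have hN : 0 < K * β₁ * β₂ * β₃ := by positivity
  have hI : {b : ℤ | K * β₁ * β₂ * β₃ ∣ b}.Infinite := by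
    refine Set.infinite_of_injective_forall_mem (f := fun n : ℤ => K * β₁ * β₂ * β₃ * n) ?_ ?_
    · intro n n' e
      exact mul_left_cancel₀ hN.ne' e
    · intro n
      exact Dvd.intro n rfl
  obtain ⟨B₀, hB₀, hB₀k, hB₀p⟩ := many (m₃.prod (m₂.prod m₁)) _ hI F hF01 κ hκ0
    (fun b hb => (hmean b hb).ge) k
  set G : ℤ × (ℤ × ℤ) → ℝ := fun p => ∏ b ∈ B₀, F b p with hG
  have hG01 : ∀ p, 0 ≤ G p ∧ G p ≤ 1 := fun p => nb_prod _ _ fun b => hF01 b p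
  -- level 3
  have hg3 : ∀ v : ℤ, 0 ≤ (m₂.prod m₁).L (fun y => G (v, y)) ∧
      (m₂.prod m₁).L (fun y => G (v, y)) ≤ 1 := fun v => nb_L _ _ fun y => hG01 _
  have hp3 : 0 < m₃.L (fun v => (m₂.prod m₁).L (fun y => G (v, y))) := hB₀p
  obtain ⟨S₃, -, hS₃k, hS₃p⟩ := many (m₂.prod m₁) _ (nb_inf m₃ i₃ _ hg3 hp3)
    (fun v y => G (v, y)) (fun v y => hG01 _) _ (half_pos hp3) (fun v hv => hv) k
  -- level 2
  set G₂ : ℤ → ℤ → ℝ := fun u x => ∏ v ∈ S₃, G (v, (u, x)) with hG₂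
  have hG₂01 : ∀ u x, 0 ≤ G₂ u x ∧ G₂ u x ≤ 1 := fun u x => nb_prod _ _ fun v => hG01 _
  have hg2 : ∀ u : ℤ, 0 ≤ m₁.L (G₂ u) ∧ m₁.L (G₂ u) ≤ 1 := fun u => nb_L _ _ (hG₂01 u)
  have hp2 : 0 < m₂.L (fun u => m₁.L (G₂ u)) := hS₃p
  obtain ⟨S₂, -, hS₂k, hS₂p⟩ := many m₁ _ (nb_inf m₂ i₂ _ hg2 hp2)
    G₂ hG₂01 _ (half_pos hp2) (fun u hu => hu) k
  -- level 1
  set G₁ : ℤ → ℝ := fun x => ∏ u ∈ S₂, G₂ u x with hG₁
  have hG₁01 : ∀ x, 0 ≤ G₁ x ∧ G₁ x ≤ 1 := fun x => nb_prod _ _ fun u => hG₂01 u x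
  have hp1 : 0 < m₁.L G₁ := hS₂p
  obtain ⟨S₁, hS₁, hS₁k⟩ := (nb_inf m₁ i₁ _ hG₁01 hp1).exists_subset_card_eq k
  -- the values are nonzero
  have hne : ∀ x ∈ S₁, ∀ u ∈ S₂, ∀ v ∈ S₃, ∀ b ∈ B₀, F b (v, (u, x)) ≠ 0 := by
    intro x hx u hu v hv b hb h0
    have h1 : m₁.L G₁ / 2 ≤ G₁ x := hS₁ hx
    have h2 : G (v, (u, x)) = 0 := Finset.prod_eq_zero hb h0
    have h3 : G₂ u x = 0 := Finset.prod_eq_zero hv h2
    have h4 : G₁ x = 0 := Finset.prod_eq_zero hu h3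
    rw [h4] at h1
    linarith
  have hpos : ∀ s : Finset ℤ, s.card = k → ∃ y, y ∈ s := fun s hs =>
    Finset.card_pos.1 (by omega)
  obtain ⟨x₀, hx₀⟩ := hpos S₁ hS₁k
  obtain ⟨u₀, hu₀⟩ := hpos S₂ hS₂k
  obtain ⟨v₀, hv₀⟩ := hpos S₃ hS₃k
  obtain ⟨c₀, hc₀⟩ := hpos B₀ hB₀k
  have hfac : ∀ x ∈ S₁, ∀ u ∈ S₂, ∀ v ∈ S₃, ∀ b ∈ B₀,
      C (α₃ + β₃ * v - b) ≠ 0 ∧ C (α₂ + β₂ * u - b) ≠ 0 ∧ C (α₂ + β₂ * u - (α₃ + β₃ * v)) ≠ 0 ∧
      C (α₁ + β₁ * x - b) ≠ 0 ∧ C (α₁ + β₁ * x - (α₂ + β₂ * u)) ≠ 0 ∧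
      C (α₁ + β₁ * x - (α₃ + β₃ * v)) ≠ 0 := by
    intro x hx u hu v hv b hb
    have h1 : C (α₃ + β₃ * v - b) * (C (α₂ + β₂ * u - b) * C (α₂ + β₂ * u - (α₃ + β₃ * v)) *
      (C (α₁ + β₁ * x - b) * C (α₁ + β₁ * x - (α₂ + β₂ * u)) *
        C (α₁ + β₁ * x - (α₃ + β₃ * v)))) ≠ 0 := hne x hx u hu v hv b hb
    simp only [mul_ne_zero_iff] at h1
    tauto
  have hinj : ∀ α β : ℤ, 0 < β → Function.Injective (fun x : ℤ => α + β * x) := by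
    intro α β hβ x y e
    have h1 : β * x = β * y := by
      have h2 : α + β * x = α + β * y := e
      linarith
    exact mul_left_cancel₀ hβ.ne' h1
  refine ⟨![B₀, S₃.image (fun v => α₃ + β₃ * v), S₂.image (fun u => α₂ + β₂ * u),
    S₁.image (fun x => α₁ + β₁ * x)], ?_, ?_, ?_⟩
  · intro i
    fin_cases i
    · exact hB₀k
    · exact (Finset.card_image_of_injective _ (hinj α₃ β₃ hβ₃)).trans hS₃k
    · exact (Finset.card_image_of_injective _ (hinj α₂ β₂ hβ₂)).trans hS₂k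
    · exact (Finset.card_image_of_injective _ (hinj α₁ β₁ hβ₁)).trans hS₁k
  · have hdv : ∀ (α β : ℤ) (s : Finset ℤ), K ∣ α → K ∣ β →
        ∀ b ∈ s.image (fun x => α + β * x), K ∣ b := by
      intro α β s hα hβ b hb
      obtain ⟨x, -, rfl⟩ := Finset.mem_image.1 hb
      exact dvd_add hα (Dvd.dvd.mul_right hβ x)
    intro i
    fin_cases i
    · intro b hb
      have h1 : K * β₁ * β₂ * β₃ ∣ b := hB₀ hb
      exact Dvd.dvd.trans ⟨β₁ * β₂ * β₃, by ring⟩ h1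
    · exact hdv α₃ β₃ S₃ a₃ b₃
    · exact hdv α₂ β₂ S₂ a₂ b₂
    · exact hdv α₁ β₁ S₁ a₁ b₁
  · have h01 : ∀ b ∈ B₀, ∀ b' ∈ S₃.image (fun v => α₃ + β₃ * v),
        b ≠ b' ∧ (b - b').natAbs ∉ D := by
      intro b hb b' hb'
      obtain ⟨v, hv, rfl⟩ := Finset.mem_image.1 hb'
      exact nb_CI_ne (hfac x₀ hx₀ u₀ hu₀ v hv b hb).1
    have h02 : ∀ b ∈ B₀, ∀ b' ∈ S₂.image (fun u => α₂ + β₂ * u),
        b ≠ b' ∧ (b - b').natAbs ∉ D := by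
      intro b hb b' hb'
      obtain ⟨u, hu, rfl⟩ := Finset.mem_image.1 hb'
      exact nb_CI_ne (hfac x₀ hx₀ u hu v₀ hv₀ b hb).2.1
    have h03 : ∀ b ∈ B₀, ∀ b' ∈ S₁.image (fun x => α₁ + β₁ * x),
        b ≠ b' ∧ (b - b').natAbs ∉ D := by
      intro b hb b' hb'
      obtain ⟨x, hx, rfl⟩ := Finset.mem_image.1 hb'
      exact nb_CI_ne (hfac x hx u₀ hu₀ v₀ hv₀ b hb).2.2.2.1
    have h12 : ∀ b ∈ S₃.image (fun v => α₃ + β₃ * v), ∀ b' ∈ S₂.image (fun u => α₂ + β₂ * u),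
        b ≠ b' ∧ (b - b').natAbs ∉ D := by
      intro b hb b' hb'
      obtain ⟨v, hv, rfl⟩ := Finset.mem_image.1 hb
      obtain ⟨u, hu, rfl⟩ := Finset.mem_image.1 hb'
      exact nb_CI_ne (hfac x₀ hx₀ u hu v hv c₀ hc₀).2.2.1
    have h13 : ∀ b ∈ S₃.image (fun v => α₃ + β₃ * v), ∀ b' ∈ S₁.image (fun x => α₁ + β₁ * x),
        b ≠ b' ∧ (b - b').natAbs ∉ D := by
      intro b hb b' hb'
      obtain ⟨v, hv, rfl⟩ := Finset.mem_image.1 hb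
      obtain ⟨x, hx, rfl⟩ := Finset.mem_image.1 hb'
      exact nb_CI_ne (hfac x hx u₀ hu₀ v hv c₀ hc₀).2.2.2.2.2
    have h23 : ∀ b ∈ S₂.image (fun u => α₂ + β₂ * u), ∀ b' ∈ S₁.image (fun x => α₁ + β₁ * x),
        b ≠ b' ∧ (b - b').natAbs ∉ D := by
      intro b hb b' hb'
      obtain ⟨u, hu, rfl⟩ := Finset.mem_image.1 hb
      obtain ⟨x, hx, rfl⟩ := Finset.mem_image.1 hb'
      exact nb_CI_ne (hfac x hx u hu v₀ hv₀ c₀ hc₀).2.2.2.2.1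
    intro i j hij
    fin_cases i <;> fin_cases j <;>
      first
        | exact absurd hij (by decide)
        | exact h01
        | exact h02
        | exact h03
        | exact h12
        | exact h13
        | exact h23


end Pool.Agent.HOM
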