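import Pool.Agent.Lib_helper33.HOM.Defs
import Pool.Agent.Lib_helper33.HOMF.MA
import Pool.Agent.Lib_helper33.HOMF.NB

/-! Block NC: no positive mean. -/

set_option autoImplicit false

namespace Pool.Agent.HOM

open Filter Topology
open scoped BigOperators ComplexConjugate

theorem nc_adm (k : ℕ) (U : Finset ℕ) (hU : U.card ≤ 4 * k)
    (hsm : ∀ u ∈ U, (4 * k).factorial ∣ u) : Pool.Agent.Lib_helper23.PG.Admissible U := by
  classical
  intro p hp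
  by_cases hpk : p ≤ 4 * k
  · refine ⟨1, fun u hu h => ?_⟩
    have h1 : p ∣ u := ((hp.dvd_factorial).2 hpk).trans (hsm u hu)
    have h2 : u ≡ 0 [MOD p] := (Nat.modEq_zero_iff_dvd).2 h1
    have h3 : (0 : ℕ) ≡ 1 [MOD p] := h2.symm.trans h
    have h4 := (Nat.modEq_iff_dvd' (Nat.zero_le 1)).1 h3
    rw [Nat.sub_zero, Nat.dvd_one] at h4
    exact hp.one_lt.ne' h4
  · by_contra hcon
    push Not at hcon
    choose f hf hfm using hcon
    have h1 : (Finset.range p).card ≤ U.card := by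
      refine Finset.card_le_card_of_injOn (fun r => f r) (fun r _ => hf r) ?_
      intro a ha b hb hab
      rw [Finset.mem_coe, Finset.mem_range] at ha hb
      have h2 : a ≡ b [MOD p] := by
        have h3 := hfm a
        have h4 := hfm b
        simp only at hab
        rw [hab] at h3
        exact h3.symm.trans h4
      exact Nat.ModEq.eq_of_lt_of_lt h2 ha hb
    rw [Finset.card_range] at h1
    omega

theorem nc_CI (D : Set ℕ) (v : ℤ) : 0 ≤ CI D v ∧ CI D v ≤ 1 := by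
  unfold CI
  split_ifs <;> simp

theorem nc_prod {a b : ℝ} (ha : 0 ≤ a ∧ a ≤ 1) (hb : 0 ≤ b ∧ b ≤ 1) : 0 ≤ a * b ∧ a * b ≤ 1 :=
  ⟨mul_nonneg ha.1 hb.1, mul_le_one₀ ha.2 hb.1 hb.2⟩

theorem nc_L {X : Type*} (m : Mn X) {f : X → ℝ} (hf : ∀ x, 0 ≤ f x ∧ f x ≤ 1) :
    0 ≤ m.L f ∧ m.L f ≤ 1 :=
  ⟨le_L m 0 (Bd.of_mem_Icc hf) fun x => (hf x).1, L_le m 1 (Bd.of_mem_Icc hf) fun x => (hf x).2⟩

/-- Translate the bins by a large multiple of `K` to get sets of natural numbers, divisible by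
`(4 k)!`, hence admissible. -/
theorem k4null (D : Set ℕ) (k : ℕ) (hD : Pool.Agent.Lib_helper23.PG.HitsBins 4 k D)
    (α₁ α₂ α₃ β₁ β₂ β₃ : ℤ) (hβ₁ : 0 < β₁)
    (hβ₂ : 0 < β₂) (hβ₃ : 0 < β₃) (a₁ : ((4 * k).factorial : ℤ) ∣ α₁)
    (a₂ : ((4 * k).factorial : ℤ) ∣ α₂) (a₃ : ((4 * k).factorial : ℤ) ∣ α₃)
    (b₁ : ((4 * k).factorial : ℤ) ∣ β₁) (b₂ : ((4 * k).factorial : ℤ) ∣ β₂)
    (b₃ : ((4 * k).factorial : ℤ) ∣ β₃) (m₁ m₂ m₃ : Mn ℤ) (i₁ : m₁.Inv) (i₂ : m₂.Inv)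
    (i₃ : m₃.Inv) :
    m₃.L (fun v => CI D (α₃ + β₃ * v) * m₂.L (fun u => CI D (α₂ + β₂ * u) *
      CI D (α₂ + β₂ * u - (α₃ + β₃ * v)) * m₁.L (fun x => CI D (α₁ + β₁ * x) *
        CI D (α₁ + β₁ * x - (α₂ + β₂ * u)) * CI D (α₁ + β₁ * x - (α₃ + β₃ * v))))) = 0 := by
  classical
  by_contra hne
  have hpos : 0 < m₃.L (fun v => CI D (α₃ + β₃ * v) * m₂.L (fun u => CI D (α₂ + β₂ * u) *
      CI D (α₂ + β₂ * u - (α₃ + β₃ * v)) * m₁.L (fun x => CI D (α₁ + β₁ * x) *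
        CI D (α₁ + β₁ * x - (α₂ + β₂ * u)) * CI D (α₁ + β₁ * x - (α₃ + β₃ * v))))) := by
    refine lt_of_le_of_ne ?_ (Ne.symm hne)
    refine (nc_L m₃ fun v => nc_prod (nc_CI D _) (nc_L m₂ fun u => nc_prod (nc_prod (nc_CI D _)
      (nc_CI D _)) (nc_L m₁ fun x => nc_prod (nc_prod (nc_CI D _) (nc_CI D _)) (nc_CI D _)))).1
  obtain ⟨B, hBc, hBK, hBd⟩ := blowup D k ((4 * k).factorial : ℤ)
    (by exact_mod_cast Nat.factorial_pos _) α₁ α₂ α₃ β₁ β₂ β₃ hβ₁ hβ₂ hβ₃ a₁ a₂ a₃ b₁ b₂ b₃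
    m₁ m₂ m₃ i₁ i₂ i₃ hpos
  obtain ⟨W, hW⟩ : ∃ W : ℕ, W = (4 * k).factorial := ⟨_, rfl⟩
  have hW0 : 0 < W := hW ▸ Nat.factorial_pos _
  rw [← hW] at hBK
  -- a large translation
  obtain ⟨S, hS⟩ : ∃ S : ℕ, S = ∑ i, ∑ b ∈ B i, b.natAbs := ⟨_, rfl⟩
  have hSb : ∀ i, ∀ b ∈ B i, b.natAbs ≤ S := by
    intro i b hb
    rw [hS]
    refine (Finset.single_le_sum (f := fun b : ℤ => b.natAbs) (fun _ _ => Nat.zero_le _) hb).trans ?_
    exact Finset.single_le_sum (f := fun i => ∑ b ∈ B i, b.natAbs) (fun _ _ => Nat.zero_le _)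
      (Finset.mem_univ i)
  obtain ⟨t, ht⟩ : ∃ t : ℤ, t = (W : ℤ) * S := ⟨_, rfl⟩
  have hSW : (S : ℤ) ≤ t := by
    rw [ht]
    have h1 : (1 : ℤ) ≤ W := by exact_mod_cast hW0
    have h2 : (0 : ℤ) ≤ S := Int.natCast_nonneg _
    nlinarith
  have hnn : ∀ i, ∀ b ∈ B i, 0 ≤ b + t := by
    intro i b hb
    have h1 := hSb i b hb
    omega
  have hcast : ∀ i, ∀ b ∈ B i, (((b + t).toNat : ℕ) : ℤ) = b + t :=
    fun i b hb => Int.toNat_of_nonneg (hnn i b hb)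
  obtain ⟨H, hH⟩ : ∃ H : Fin 4 → Finset ℕ, H = fun i => (B i).image fun b => (b + t).toNat :=
    ⟨_, rfl⟩
  have hHc : ∀ i, (H i).card = k := by
    intro i
    rw [hH]
    simp only
    rw [Finset.card_image_of_injOn, hBc i]
    intro b hb b' hb' h
    have h1 := hcast i b hb
    have h2 := hcast i b' hb'
    simp only at h
    rw [h] at h1
    linarith
  have hdis : ∀ i j, i < j → ∀ a ∈ H i, ∀ c ∈ H j, a ≠ c ∧ ((a : ℤ) - c).natAbs ∉ D := by
    intro i j hij a ha c hc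
    rw [hH] at ha hc
    obtain ⟨b, hb, rfl⟩ := Finset.mem_image.1 ha
    obtain ⟨b', hb', rfl⟩ := Finset.mem_image.1 hc
    have h1 := hBd i j hij b hb b' hb'
    have h2 := hcast i b hb
    have h3 := hcast j b' hb'
    refine ⟨fun h => h1.1 ?_, ?_⟩
    · rw [h] at h2
      linarith
    · rw [h2, h3, show b + t - (b' + t) = b - b' by ring]
      exact h1.2
  obtain ⟨i, j, hij, a, ha, b, hb, hab, hDab⟩ := hD H hHc
    (fun i j hij => by
      rw [Finset.disjoint_left]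
      intro a ha hb
      rcases lt_or_gt_of_ne hij with h1 | h1
      · exact (hdis i j h1 a ha a hb).1 rfl
      · exact (hdis j i h1 a hb a ha).1 rfl)
    (by
      refine nc_adm k _ ?_ ?_
      · refine Finset.card_biUnion_le.trans ?_
        rw [Finset.sum_congr rfl fun i _ => hHc i]
        simp
      · intro u hu
        obtain ⟨i, -, hu⟩ := Finset.mem_biUnion.1 hu
        rw [hH] at hu
        obtain ⟨b, hb, rfl⟩ := Finset.mem_image.1 hu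
        rw [← hW]
        have h1 : (W : ℤ) ∣ (((b + t).toNat : ℕ) : ℤ) := by
          rw [hcast i b hb, ht]
          exact dvd_add (hBK i b hb) (dvd_mul_right _ _)
        exact Int.natCast_dvd_natCast.1 h1)
  have h1 : (b : ℤ) - a = ((b - a : ℕ) : ℤ) := by
    rw [Nat.cast_sub hab.le]
  have h2 : ((b : ℤ) - a).natAbs = b - a := by
    rw [h1, Int.natAbs_natCast]
  rcases lt_or_gt_of_ne hij with h3 | h3
  · refine (hdis i j h3 a ha b hb).2 ?_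
    rw [← Int.natAbs_neg, neg_sub, h2]
    exact hDab
  · refine (hdis j i h3 b hb a ha).2 ?_
    rw [h2]
    exact hDab

end Pool.Agent.HOM
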