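import Pool.Agent.Lib_helper33.HOM.Defs

set_option autoImplicit false

namespace Pool.Agent.HOM

open Filter Topology
open scoped BigOperators ComplexConjugate

/-! ## BLOCK QA -/

/-- Integer relations, as rational vectors. -/
def qa_rel (Z : Finset Circle) : Set (Z → ℚ) :=
  {v | ∃ a : Circle → ℤ, ∏ z ∈ Z, z ^ (a z) = 1 ∧ ∀ z : Z, v z = a z}

/-- Every vector of the span has an integer multiple which is an integer relation. -/
theorem qa_span (Z : Finset Circle) (v : Z → ℚ) (hv : v ∈ Submodule.span ℚ (qa_rel Z)) :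
    ∃ D : ℤ, D ≠ 0 ∧ (D : ℚ) • v ∈ qa_rel Z := by
  induction hv using Submodule.span_induction with
  | mem x hx => exact ⟨1, one_ne_zero, by simpa using hx⟩
  | zero => exact ⟨1, one_ne_zero, fun _ => 0, by simp, by simp⟩
  | add x y _ _ hx hy =>
    obtain ⟨D, hD, a, ha, hax⟩ := hx
    obtain ⟨E, hE, b, hb, hby⟩ := hy
    refine ⟨D * E, mul_ne_zero hD hE, fun z => E * a z + D * b z, ?_, fun z => ?_⟩
    · simp only [zpow_add, Finset.prod_mul_distrib]
      have h1 : ∏ z ∈ Z, z ^ (E * a z) = (∏ z ∈ Z, z ^ (a z)) ^ E := by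
        rw [← Finset.prod_zpow]
        exact Finset.prod_congr rfl fun z _ => by rw [mul_comm, zpow_mul]
      have h2 : ∏ z ∈ Z, z ^ (D * b z) = (∏ z ∈ Z, z ^ (b z)) ^ D := by
        rw [← Finset.prod_zpow]
        exact Finset.prod_congr rfl fun z _ => by rw [mul_comm, zpow_mul]
      rw [h1, h2, ha, hb, one_zpow, one_zpow, one_mul]
    · have e1 := hax z
      have e2 := hby z
      simp only [Pi.smul_apply, smul_eq_mul, Pi.add_apply] at e1 e2 ⊢
      push_cast
      rw [← e1, ← e2]
      ring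
  | smul c x _ hx =>
    obtain ⟨D, hD, a, ha, hax⟩ := hx
    refine ⟨D * c.den, mul_ne_zero hD (by exact_mod_cast c.den_nz), fun z => c.num * a z, ?_,
      fun z => ?_⟩
    · have h1 : ∏ z ∈ Z, z ^ (c.num * a z) = (∏ z ∈ Z, z ^ (a z)) ^ c.num := by
        rw [← Finset.prod_zpow]
        exact Finset.prod_congr rfl fun z _ => by rw [mul_comm, zpow_mul]
      rw [h1, ha, one_zpow]
    · have e1 := hax z
      simp only [Pi.smul_apply, smul_eq_mul] at e1 ⊢
      push_cast
      rw [← e1]
      have hc : (c : ℚ) * c.den = c.num := Rat.mul_den_eq_num c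
      rw [← hc]
      ring

open Classical in
/-- A unit vector is not in the span. -/
theorem qa_single (Z : Finset Circle) (hZ : ∀ z ∈ Z, ¬ IsOfFinOrder z) (w : Z) :
    (Pi.single w 1 : Z → ℚ) ∉ Submodule.span ℚ (qa_rel Z) := by
  classical
  intro h
  obtain ⟨D, hD, a, ha, hv⟩ := qa_span Z _ h
  apply hZ w.1 w.2
  rw [isOfFinOrder_iff_zpow_eq_one]
  refine ⟨D, hD, ?_⟩
  rw [← ha, ← Finset.prod_coe_sort, Fintype.prod_eq_single w]
  · have := hv w
    simp only [Pi.smul_apply, Pi.single_eq_same, smul_eq_mul, mul_one] at this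
    have h2 : D = a w := by exact_mod_cast this
    rw [← h2]
  · intro z hz
    have := hv z
    simp only [Pi.smul_apply, Pi.single_eq_of_ne hz, smul_eq_mul, mul_zero] at this
    have h2 : a z = 0 := by exact_mod_cast this.symm
    rw [h2, zpow_zero]

open Classical in
/-- A functional vanishing on relations and nonzero on all unit vectors. -/
theorem qa_functional (Z : Finset Circle) (hZ : ∀ z ∈ Z, ¬ IsOfFinOrder z) (S : Finset Z) :
    ∃ f : Module.Dual ℚ (Z → ℚ), (∀ v ∈ qa_rel Z, f v = 0) ∧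
      ∀ w ∈ S, f (Pi.single w 1) ≠ 0 := by
  classical
  induction S using Finset.induction_on with
  | empty => exact ⟨0, fun _ _ => rfl, by simp⟩
  | insert w S hw ih =>
    obtain ⟨f, hf, hfS⟩ := ih
    obtain ⟨g, hg, hgv⟩ := Submodule.exists_dual_map_eq_bot_of_notMem (qa_single Z hZ w)
      inferInstance
    have hg0 : ∀ v ∈ qa_rel Z, g v = 0 := by
      intro v hv
      have h1 : g v ∈ (Submodule.span ℚ (qa_rel Z)).map g :=
        Submodule.mem_map_of_mem (Submodule.subset_span hv)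
      rw [hgv] at h1
      exact (Submodule.mem_bot ℚ).1 h1
    -- choose t outside a finite set
    obtain ⟨t, ht⟩ := Infinite.exists_notMem_finset
      ((insert w S).image (fun u => -f (Pi.single u 1) / g (Pi.single u 1)) ∪ {0})
    rw [Finset.mem_union, not_or, Finset.mem_singleton, Finset.mem_image] at ht
    refine ⟨f + t • g, fun v hv => by simp [hf v hv, hg0 v hv], fun u hu => ?_⟩
    intro h0
    simp only [LinearMap.add_apply, LinearMap.smul_apply, smul_eq_mul] at h0
    by_cases hgu : g (Pi.single u 1) = 0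
    · rw [hgu, mul_zero, add_zero] at h0
      rcases Finset.mem_insert.1 hu with rfl | hu
      · exact hg hgu
      · exact hfS u hu h0
    · apply ht.1
      refine ⟨u, hu, ?_⟩
      rw [div_eq_iff hgu]
      linarith

theorem int_functional (Z : Finset Circle) (hZ : ∀ z ∈ Z, ¬ IsOfFinOrder z) :
    ∃ n : Circle → ℤ, (∀ z ∈ Z, n z ≠ 0) ∧
      ∀ a : Circle → ℤ, ∏ z ∈ Z, z ^ (a z) = 1 → ∑ z ∈ Z, a z * n z = 0 := by
  classical
  obtain ⟨f, hf, hS⟩ := qa_functional Z hZ Finset.univ
  -- common denominator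
  set D : ℕ := ∏ u : Z, (f (Pi.single u 1)).den with hD
  have hD0 : (D : ℚ) ≠ 0 := by
    rw [hD]
    exact_mod_cast Finset.prod_ne_zero_iff.2 fun u _ => (f (Pi.single u 1)).den_nz
  have hint : ∀ u : Z, ∃ m : ℤ, (m : ℚ) = D * f (Pi.single u 1) := by
    intro u
    obtain ⟨k, hk⟩ : (f (Pi.single u 1)).den ∣ D := Finset.dvd_prod_of_mem _ (Finset.mem_univ u)
    refine ⟨(f (Pi.single u 1)).num * k, ?_⟩
    rw [hk]
    push_cast
    have hc := Rat.mul_den_eq_num (f (Pi.single u 1))
    rw [← hc]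
    ring
  choose m hm using hint
  refine ⟨fun z => if h : z ∈ Z then m ⟨z, h⟩ else 0, fun z hz => ?_, fun a ha => ?_⟩
  · simp only [hz, dif_pos]
    intro h0
    have := hm ⟨z, hz⟩
    rw [h0] at this
    have h1 : (D : ℚ) * f (Pi.single ⟨z, hz⟩ 1) = 0 := by rw [← this]; simp
    rcases mul_eq_zero.1 h1 with h2 | h2
    · exact hD0 h2
    · exact hS _ (Finset.mem_univ _) h2
  · have hv : f (fun z : Z => (a z : ℚ)) = 0 := hf _ ⟨a, ha, fun _ => rfl⟩
    have hexp : f (fun z : Z => (a z : ℚ)) = ∑ u : Z, (a u : ℚ) * f (Pi.single u 1) := by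
      conv_lhs => rw [← Finset.univ_sum_single (fun z : Z => (a z : ℚ))]
      rw [map_sum]
      refine Finset.sum_congr rfl fun u _ => ?_
      have : (Pi.single u (a u : ℚ) : Z → ℚ) = (a u : ℚ) • Pi.single u 1 := by
        rw [← Pi.single_smul]; simp
      rw [this, map_smul, smul_eq_mul]
    have h3 : ((∑ z ∈ Z, a z * (if h : z ∈ Z then m ⟨z, h⟩ else 0) : ℤ) : ℚ) = 0 := by
      rw [← Finset.sum_coe_sort]
      push_cast
      have : ∀ u : Z, ((a u : ℚ) * ((if h : (u : Circle) ∈ Z then m ⟨u, h⟩ else 0 : ℤ) : ℚ)) =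
          D * ((a u : ℚ) * f (Pi.single u 1)) := by
        intro u
        rw [dif_pos u.2]
        rw [hm]
        ring
      rw [Finset.sum_congr rfl fun u _ => this u, ← Finset.mul_sum, ← hexp, hv, mul_zero]
    exact_mod_cast h3


end Pool.Agent.HOM
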