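import Pool.Agent.Lib_helper33.HOM.Defs

set_option autoImplicit false

namespace Pool.Agent.HOM

open Filter Topology
open scoped BigOperators ComplexConjugate

/-- `f` has mean `c` along the positive integers. -/
def qb_HM (f : ℕ → ℂ) (c : ℂ) : Prop :=
  Tendsto (fun T : ℕ => (T : ℂ)⁻¹ * ∑ t ∈ Finset.range T, f (t + 1)) atTop (𝓝 c)

theorem qb_HM_sum {κ : Type*} (s : Finset κ) (f : κ → ℕ → ℂ) (c : κ → ℂ)
    (h : ∀ i ∈ s, qb_HM (f i) (c i)) : qb_HM (fun t => ∑ i ∈ s, f i t) (∑ i ∈ s, c i) := by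
  unfold qb_HM
  have e : (fun T : ℕ => (T : ℂ)⁻¹ * ∑ t ∈ Finset.range T, ∑ i ∈ s, f i (t + 1)) =
      fun T : ℕ => ∑ i ∈ s, (T : ℂ)⁻¹ * ∑ t ∈ Finset.range T, f i (t + 1) := by
    ext T
    rw [Finset.sum_comm, Finset.mul_sum]
  rw [e]
  exact tendsto_finsetSum s (fun i hi => h i hi)

theorem qb_HM_const_mul (a : ℂ) {f : ℕ → ℂ} {c : ℂ} (h : qb_HM f c) :
    qb_HM (fun t => a * f t) (a * c) := by
  unfold qb_HM at *
  have e : (fun T : ℕ => (T : ℂ)⁻¹ * ∑ t ∈ Finset.range T, a * f (t + 1)) =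
      fun T : ℕ => a * ((T : ℂ)⁻¹ * ∑ t ∈ Finset.range T, f (t + 1)) := by
    ext T
    rw [← Finset.mul_sum]; ring
  rw [e]
  exact h.const_mul a

open Classical in
theorem qb_HM_pow (χ : Circle) : qb_HM (fun t => ((χ ^ t : Circle) : ℂ)) (if χ = 1 then 1 else 0) := by
  unfold qb_HM
  by_cases h1 : χ = 1
  · rw [if_pos h1, h1]
    refine Tendsto.congr' ?_ tendsto_const_nhds
    filter_upwards [eventually_gt_atTop 0] with T hT
    have : (T : ℂ) ≠ 0 := by exact_mod_cast hT.ne'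
    simp [this]
  · rw [if_neg h1]
    have hne : ((χ : ℂ) - 1) ≠ 0 := by
      intro h
      apply h1
      apply Circle.ext
      rw [sub_eq_zero] at h
      simpa using h
    have hb : ∀ T : ℕ, ‖∑ t ∈ Finset.range T, ((χ ^ (t + 1) : Circle) : ℂ)‖ ≤ 2 / ‖(χ : ℂ) - 1‖ := by
      intro T
      have e : ∑ t ∈ Finset.range T, ((χ ^ (t + 1) : Circle) : ℂ) =
          (χ : ℂ) * (((χ : ℂ) ^ T - 1) / ((χ : ℂ) - 1)) := by
        rw [← geom_sum_eq (by intro h; apply hne; rw [h]; simp), Finset.mul_sum]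
        refine Finset.sum_congr rfl fun t _ => ?_
        rw [Circle.coe_pow, pow_succ]; ring
      rw [e, norm_mul, norm_div, Circle.norm_coe, one_mul]
      have hpos : 0 < ‖(χ : ℂ) - 1‖ := norm_pos_iff.mpr hne
      apply div_le_div_of_nonneg_right _ hpos.le
      calc ‖(χ : ℂ) ^ T - 1‖ ≤ ‖(χ : ℂ) ^ T‖ + ‖(1 : ℂ)‖ := norm_sub_le _ _
        _ = 2 := by rw [norm_pow, Circle.norm_coe]; norm_num
    have hlim : Tendsto (fun T : ℕ => (2 / ‖(χ : ℂ) - 1‖) / (T : ℝ)) atTop (𝓝 0) :=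
      tendsto_const_div_atTop_nhds_zero_nat _
    refine squeeze_zero_norm (fun T => ?_) hlim
    rw [norm_mul, norm_inv, Complex.norm_natCast, mul_comm, ← div_eq_mul_inv]
    exact div_le_div_of_nonneg_right (hb T) (Nat.cast_nonneg T)

theorem qb_HM_le {f g : ℕ → ℝ} {c d : ℂ} (hf : qb_HM (fun t => (f t : ℂ)) c)
    (hg : qb_HM (fun t => (g t : ℂ)) d) (h : ∀ t, 0 < t → f t ≤ g t) : c.re ≤ d.re := by
  have e : ∀ (f : ℕ → ℝ) (T : ℕ), ((T : ℂ)⁻¹ * ∑ t ∈ Finset.range T, (f (t + 1) : ℂ)).re =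
      (T : ℝ)⁻¹ * ∑ t ∈ Finset.range T, f (t + 1) := by
    intro f T
    have : ((T : ℂ)⁻¹ * ∑ t ∈ Finset.range T, (f (t + 1) : ℂ)) =
        (((T : ℝ)⁻¹ * ∑ t ∈ Finset.range T, f (t + 1) : ℝ) : ℂ) := by push_cast; rfl
    rw [this, Complex.ofReal_re]
  have h1 := (Complex.continuous_re.tendsto c).comp hf
  have h2 := (Complex.continuous_re.tendsto d).comp hg
  refine le_of_tendsto_of_tendsto' h1 h2 fun T => ?_
  simp only [Function.comp]
  rw [e, e]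
  refine mul_le_mul_of_nonneg_left (Finset.sum_le_sum fun t _ => h _ (Nat.succ_pos t)) ?_
  exact inv_nonneg.mpr (Nat.cast_nonneg T)

/-- Fejer kernel. -/
noncomputable def qb_F (R : ℕ) (x : Circle) : ℝ := ‖∑ a ∈ Finset.range R, (x : ℂ) ^ a‖ ^ 2 / R

theorem qb_F_nonneg (R : ℕ) (x : Circle) : 0 ≤ qb_F R x := by
  unfold qb_F; positivity

theorem qb_F_small (R : ℕ) (x : Circle) (δ : ℝ) (hδ : 0 < δ) (h : δ < ‖(x : ℂ) - 1‖) :
    qb_F R x ≤ 4 / (R * δ ^ 2) := by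
  unfold qb_F
  have hne : (x : ℂ) - 1 ≠ 0 := norm_pos_iff.mp (hδ.trans h)
  have h1 : ‖∑ a ∈ Finset.range R, (x : ℂ) ^ a‖ ≤ 2 / δ := by
    rw [geom_sum_eq (by intro h'; apply hne; rw [h']; simp), norm_div]
    have : ‖(x : ℂ) ^ R - 1‖ ≤ 2 := by
      calc ‖(x : ℂ) ^ R - 1‖ ≤ ‖(x : ℂ) ^ R‖ + ‖(1 : ℂ)‖ := norm_sub_le _ _
        _ = 2 := by rw [norm_pow, Circle.norm_coe]; norm_num
    exact div_le_div₀ (by norm_num) this hδ h.le
  have h2 : ‖∑ a ∈ Finset.range R, (x : ℂ) ^ a‖ ^ 2 ≤ (2 / δ) ^ 2 :=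
    pow_le_pow_left₀ (norm_nonneg _) h1 2
  calc ‖∑ a ∈ Finset.range R, (x : ℂ) ^ a‖ ^ 2 / R ≤ (2 / δ) ^ 2 / R :=
        div_le_div_of_nonneg_right h2 (Nat.cast_nonneg R)
    _ = 4 / (R * δ ^ 2) := by
        rw [div_pow, div_div, mul_comm]; norm_num

theorem qb_F_eq (R : ℕ) (x : Circle) :
    (qb_F R x : ℂ) = (R : ℂ)⁻¹ * ∑ p ∈ Finset.range R ×ˢ Finset.range R,
      ((x ^ ((p.1 : ℤ) - (p.2 : ℤ)) : Circle) : ℂ) := by
  unfold qb_F
  have h1 : ((‖∑ a ∈ Finset.range R, (x : ℂ) ^ a‖ ^ 2 : ℝ) : ℂ) =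
      (∑ a ∈ Finset.range R, (x : ℂ) ^ a) * conj (∑ a ∈ Finset.range R, (x : ℂ) ^ a) := by
    rw [Complex.mul_conj, Complex.normSq_eq_norm_sq]
  rw [Complex.ofReal_div, h1, map_sum, Finset.sum_mul_sum, ← Finset.sum_product']
  rw [Complex.ofReal_natCast, div_eq_mul_inv, mul_comm]
  congr 1
  refine Finset.sum_congr rfl fun p _ => ?_
  rw [zpow_sub, zpow_natCast, zpow_natCast, Circle.coe_mul, Circle.coe_pow, map_pow,
    Circle.coe_inv_eq_conj, Circle.coe_pow, map_pow]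

theorem qb_F_diag (R : ℕ) (hR : 0 < R) (x : Circle) :
    (R : ℂ)⁻¹ * ∑ p ∈ (Finset.range R).image (fun a => (a, a)),
      ((x ^ ((p.1 : ℤ) - (p.2 : ℤ)) : Circle) : ℂ) = 1 := by
  rw [Finset.sum_image (by intro a _ b _ h; exact (Prod.ext_iff.mp h).1)]
  have : (R : ℂ) ≠ 0 := by exact_mod_cast hR.ne'
  simp [this]

open Classical in
theorem qb_HM_prod {ι : Type*} [Fintype ι] (y w : ι → Circle)
    (h : ∀ a : ι → ℤ, ∏ i, y i ^ a i = 1 → ∏ i, w i ^ a i = 1) (R : ℕ)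
    (Q : ι → Finset (ℕ × ℕ)) :
    qb_HM (fun t => ∏ i, ((R : ℂ)⁻¹ * ∑ p ∈ Q i,
      (((y i ^ t * (w i)⁻¹) ^ ((p.1 : ℤ) - (p.2 : ℤ)) : Circle) : ℂ)))
      (((R : ℂ)⁻¹) ^ (Fintype.card ι) *
        (((Fintype.piFinset Q).filter (fun p => ∏ i, y i ^ (((p i).1 : ℤ) - ((p i).2 : ℤ)) = 1)).card : ℂ)) := by
  have e : (fun t : ℕ => ∏ i, ((R : ℂ)⁻¹ * ∑ p ∈ Q i,
      (((y i ^ t * (w i)⁻¹) ^ ((p.1 : ℤ) - (p.2 : ℤ)) : Circle) : ℂ))) =
      fun t : ℕ => ((R : ℂ)⁻¹) ^ (Fintype.card ι) * ∑ p ∈ Fintype.piFinset Q,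
        (((∏ i, (w i) ^ (((p i).1 : ℤ) - ((p i).2 : ℤ)))⁻¹ : Circle) : ℂ) *
          (((∏ i, y i ^ (((p i).1 : ℤ) - ((p i).2 : ℤ))) ^ t : Circle) : ℂ) := by
    ext t
    rw [Finset.prod_mul_distrib, Finset.prod_const, Finset.card_univ, Finset.prod_univ_sum]
    congr 1
    refine Finset.sum_congr rfl fun p _ => ?_
    rw [← Circle.coe_mul]
    have : ∀ f : ι → Circle, ∏ i, ((f i : Circle) : ℂ) = ((∏ i, f i : Circle) : ℂ) := by
      intro f
      exact (map_prod Circle.coeHom f Finset.univ).symm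
    rw [this]
    congr 1
    rw [mul_comm, ← Finset.prod_pow, ← Finset.prod_inv_distrib, ← Finset.prod_mul_distrib]
    refine Finset.prod_congr rfl fun i _ => ?_
    rw [mul_zpow, inv_zpow, ← zpow_natCast, ← zpow_natCast, ← zpow_mul, ← zpow_mul, mul_comm (t : ℤ)]
  rw [e]
  refine qb_HM_const_mul _ ?_
  have hc : (((Fintype.piFinset Q).filter
      (fun p => ∏ i, y i ^ (((p i).1 : ℤ) - ((p i).2 : ℤ)) = 1)).card : ℂ) =
      ∑ p ∈ Fintype.piFinset Q, (if ∏ i, y i ^ (((p i).1 : ℤ) - ((p i).2 : ℤ)) = 1 then (1:ℂ) else 0) := by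
    rw [Finset.sum_boole]
  rw [hc]
  refine qb_HM_sum _ _ _ fun p _ => ?_
  have := qb_HM_const_mul (((∏ i, (w i) ^ (((p i).1 : ℤ) - ((p i).2 : ℤ)))⁻¹ : Circle) : ℂ)
    (qb_HM_pow (∏ i, y i ^ (((p i).1 : ℤ) - ((p i).2 : ℤ))))
  convert this using 1
  by_cases h1 : ∏ i, y i ^ (((p i).1 : ℤ) - ((p i).2 : ℤ)) = 1
  · rw [if_pos h1, h _ h1]; simp
  · rw [if_neg h1, mul_zero]

open Classical in
theorem qb_kron {ι : Type*} [Fintype ι] (y w : ι → Circle)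
    (h : ∀ a : ι → ℤ, ∏ i, y i ^ a i = 1 → ∏ i, w i ^ a i = 1) (δ : ℝ) (hδ : 0 < δ) :
    ∃ t : ℕ, 0 < t ∧ ∀ i, ‖ch (y i) t - w i‖ ≤ δ := by
  by_contra hcon
  push Not at hcon
  obtain ⟨R, hR⟩ := exists_nat_gt (4 * (Fintype.card ι : ℝ) / δ ^ 2)
  have hR0 : 0 < R := by
    have : (0:ℝ) ≤ 4 * (Fintype.card ι : ℝ) / δ ^ 2 := by positivity
    exact_mod_cast this.trans_lt hR
  have hR0' : (0:ℝ) < R := by exact_mod_cast hR0
  set full : Finset (ℕ × ℕ) := Finset.range R ×ˢ Finset.range R with hfull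
  set diag : Finset (ℕ × ℕ) := (Finset.range R).image (fun a => (a, a)) with hdiag
  have hsub : diag ⊆ full := by
    intro p hp
    rw [hdiag, Finset.mem_image] at hp
    obtain ⟨a, ha, rfl⟩ := hp
    rw [hfull, Finset.mem_product]; exact ⟨ha, ha⟩
  set Q : ι → ι → Finset (ℕ × ℕ) := fun j i => if i = j then diag else full with hQ
  set cnt' : (ι → Finset (ℕ × ℕ)) → ℕ := fun Q => ((Fintype.piFinset Q).filter
    (fun p => ∏ i, y i ^ (((p i).1 : ℤ) - ((p i).2 : ℤ)) = 1)).card with hcnt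
  -- means
  have hΦ : qb_HM (fun t => ((∏ i, qb_F R (y i ^ t * (w i)⁻¹) : ℝ) : ℂ))
      (((R : ℂ)⁻¹) ^ (Fintype.card ι) * (cnt' (fun _ => full) : ℂ)) := by
    have := qb_HM_prod y w h R (fun _ => full)
    convert this using 2 with t
    rw [Complex.ofReal_prod]
    exact Finset.prod_congr rfl fun i _ => qb_F_eq R _
  have hΦj : ∀ j, qb_HM (fun t => ((∏ i ∈ Finset.univ.erase j, qb_F R (y i ^ t * (w i)⁻¹) : ℝ) : ℂ))
      (((R : ℂ)⁻¹) ^ (Fintype.card ι) * (cnt' (Q j) : ℂ)) := by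
    intro j
    have := qb_HM_prod y w h R (Q j)
    convert this using 2 with t
    rw [Complex.ofReal_prod, ← Finset.mul_prod_erase Finset.univ _ (Finset.mem_univ j)]
    have hj : Q j j = diag := by simp [hQ]
    rw [hj, hdiag, qb_F_diag R hR0, one_mul]
    refine Finset.prod_congr rfl fun i hi => ?_
    have : Q j i = full := by simp [hQ, Finset.ne_of_mem_erase hi]
    rw [this]
    exact qb_F_eq R _
  have hsum := qb_HM_const_mul ((4 / (R * δ ^ 2) : ℝ) : ℂ)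
    (qb_HM_sum Finset.univ _ _ fun j _ => hΦj j)
  have hle := qb_HM_le (f := fun t => ∏ i, qb_F R (y i ^ t * (w i)⁻¹))
    (g := fun t => 4 / (R * δ ^ 2) * ∑ j, ∏ i ∈ Finset.univ.erase j, qb_F R (y i ^ t * (w i)⁻¹))
    hΦ (by
      convert hsum using 2 with t
      push_cast; rfl) (fun t ht => by
      obtain ⟨j, hj⟩ := hcon t ht
      have h1 : δ < ‖((y j ^ t * (w j)⁻¹ : Circle) : ℂ) - 1‖ := by
        have : ((y j ^ t * (w j)⁻¹ : Circle) : ℂ) - 1 = (ch (y j) t - w j) * (((w j)⁻¹ : Circle) : ℂ) := by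
          rw [sub_mul, ← Circle.coe_mul (w j), mul_inv_cancel, Circle.coe_one, ch, zpow_natCast,
            ← Circle.coe_mul]
        rw [this, norm_mul, Circle.norm_coe, mul_one]
        exact hj
      have h2 := qb_F_small R _ δ hδ h1
      rw [← Finset.mul_prod_erase Finset.univ _ (Finset.mem_univ j)]
      refine mul_le_mul h2 ?_ (Finset.prod_nonneg fun i _ => qb_F_nonneg R _) (by positivity)
      exact Finset.single_le_sum
        (f := fun j => ∏ i ∈ Finset.univ.erase j, qb_F R (y i ^ t * (w i)⁻¹))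
        (fun i _ => Finset.prod_nonneg fun i _ => qb_F_nonneg R _) (Finset.mem_univ j))
  have hmono : ∀ j, cnt' (Q j) ≤ cnt' (fun _ => full) := by
    intro j
    apply Finset.card_le_card
    apply Finset.filter_subset_filter
    apply Fintype.piFinset_subset
    intro i
    by_cases hij : i = j
    · simp only [hQ, hij, if_true]; exact hsub
    · simp only [hQ, hij, if_false]; exact subset_rfl
  have hpos : 0 < cnt' (fun _ => full) := by
    apply Finset.card_pos.mpr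
    refine ⟨fun _ => (0, 0), ?_⟩
    rw [Finset.mem_filter, Fintype.mem_piFinset]
    refine ⟨fun i => ?_, by simp⟩
    rw [hfull, Finset.mem_product]
    exact ⟨Finset.mem_range.mpr hR0, Finset.mem_range.mpr hR0⟩
  have e1 : (((R : ℂ)⁻¹) ^ (Fintype.card ι) * (cnt' (fun _ => full) : ℂ)).re =
      ((R : ℝ)⁻¹) ^ (Fintype.card ι) * (cnt' (fun _ => full) : ℝ) := by
    rw [← Complex.ofReal_re (((R : ℝ)⁻¹) ^ (Fintype.card ι) * (cnt' (fun _ => full) : ℝ))]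
    push_cast; rfl
  have e2 : (((4 / (R * δ ^ 2) : ℝ) : ℂ) * ∑ j, ((R : ℂ)⁻¹) ^ (Fintype.card ι) * (cnt' (Q j) : ℂ)).re =
      4 / (R * δ ^ 2) * ∑ j, ((R : ℝ)⁻¹) ^ (Fintype.card ι) * (cnt' (Q j) : ℝ) := by
    rw [← Complex.ofReal_re (4 / (R * δ ^ 2) * ∑ j, ((R : ℝ)⁻¹) ^ (Fintype.card ι) * (cnt' (Q j) : ℝ))]
    push_cast; rfl
  rw [e1, e2] at hle
  set S : ℝ := ((R : ℝ)⁻¹) ^ (Fintype.card ι) * (cnt' (fun _ => full) : ℝ) with hS
  have hSpos : 0 < S := by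
    have : (0:ℝ) < (cnt' (fun _ => full) : ℝ) := by exact_mod_cast hpos
    positivity
  have hle2 : ∑ j, ((R : ℝ)⁻¹) ^ (Fintype.card ι) * (cnt' (Q j) : ℝ) ≤ Fintype.card ι * S := by
    calc ∑ j, ((R : ℝ)⁻¹) ^ (Fintype.card ι) * (cnt' (Q j) : ℝ) ≤ ∑ _j : ι, S := by
          refine Finset.sum_le_sum fun j _ => ?_
          have : (cnt' (Q j) : ℝ) ≤ (cnt' (fun _ => full) : ℝ) := by exact_mod_cast hmono j
          exact mul_le_mul_of_nonneg_left this (by positivity)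
      _ = Fintype.card ι * S := by rw [Finset.sum_const, Finset.card_univ, nsmul_eq_mul]
  have hle3 : S ≤ 4 / (R * δ ^ 2) * (Fintype.card ι * S) :=
    hle.trans (mul_le_mul_of_nonneg_left hle2 (by positivity))
  have hlt : 4 / (R * δ ^ 2) * (Fintype.card ι * S) < S := by
    have : 4 / (R * δ ^ 2) * (Fintype.card ι * S) = (4 * (Fintype.card ι : ℝ) / δ ^ 2) / R * S := by
      field_simp
    rw [this]
    have h3 : (4 * (Fintype.card ι : ℝ) / δ ^ 2) / R < 1 := (div_lt_one hR0').mpr hR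
    calc _ < 1 * S := mul_lt_mul_of_pos_right h3 hSpos
      _ = S := one_mul S
  exact absurd hle3 (not_le.mpr hlt)

theorem kron (Z : Finset Circle) (y w : Circle → Circle)
    (h : ∀ a : Circle → ℤ, ∏ z ∈ Z, (y z) ^ (a z) = 1 → ∏ z ∈ Z, (w z) ^ (a z) = 1)
    (δ : ℝ) (hδ : 0 < δ) : ∃ t : ℕ, 0 < t ∧ ∀ z ∈ Z, ‖ch (y z) t - w z‖ ≤ δ := by
  classical
  have key := qb_kron (ι := Z) (fun z => y z) (fun z => w z) (fun a ha => by
    have h1 := h (fun z => if hz : z ∈ Z then a ⟨z, hz⟩ else 0)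
    have e : ∀ f : Circle → Circle, ∏ z ∈ Z, (f z) ^ (if hz : z ∈ Z then a ⟨z, hz⟩ else 0) =
        ∏ z : Z, (f z) ^ (a z) := by
      intro f
      rw [← Finset.prod_coe_sort]
      refine Finset.prod_congr rfl fun z _ => ?_
      rw [dif_pos z.2]
    rw [e, e] at h1
    exact h1 ha) δ hδ
  obtain ⟨t, ht, h2⟩ := key
  exact ⟨t, ht, fun z hz => h2 ⟨z, hz⟩⟩


end Pool.Agent.HOM
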