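import Pool.Agent.Lib_helper33.HOM.Defs
import Pool.Agent.Lib_helper33.HOMF.QA
import Pool.Agent.Lib_helper33.HOMF.QB

set_option autoImplicit false

namespace Pool.Agent.HOM

open Filter Topology
open scoped BigOperators ComplexConjugate

theorem qc_root (p : ℕ) (hp : p.Prime) : ∃ ζ : Circle, ζ ^ p = 1 ∧ ζ ≠ 1 := by
  have hp0 : (p : ℝ) ≠ 0 := by exact_mod_cast hp.ne_zero
  have h1 : ((Circle.exp (2 * Real.pi / p) : Circle) : ℂ) =
      Complex.exp (2 * Real.pi * Complex.I / p) := by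
    rw [Circle.coe_exp]
    congr 1
    push_cast
    ring
  have h2 := Complex.isPrimitiveRoot_exp p hp.ne_zero
  refine ⟨Circle.exp (2 * Real.pi / p), ?_, ?_⟩
  · apply Circle.ext
    rw [Circle.coe_pow, h1, Circle.coe_one]
    exact h2.pow_eq_one
  · intro h
    have h3 := congrArg (fun z : Circle => (z : ℂ)) h
    simp only [Circle.coe_one] at h3
    rw [h1] at h3
    exact h2.ne_one hp.one_lt h3

/-- `n` from `int_functional`, `p` a prime larger than `P₀` and all `|n z|`, `y z = z^M`,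
`w z = exp (2 π i n z / p)` (`≠ 1` as `p ∤ n z`). If `∏ (z^M)^(a z) = 1` then `∑ M a z n z = 0`, so
`∑ a z n z = 0` and `∏ (w z)^(a z) = 1`: `kron` gives `t'`, and `t = M t'`. -/
theorem sampling (Z : Finset Circle) (hZ : ∀ z ∈ Z, ¬ IsOfFinOrder z) (M : ℕ) (hM : 0 < M)
    (P₀ : ℕ) : ∃ p : ℕ, p.Prime ∧ P₀ < p ∧ ∀ δ : ℝ, 0 < δ → ∃ t : ℕ, 0 < t ∧ M ∣ t ∧
      ∀ z ∈ Z, ∃ w : Circle, w ^ p = 1 ∧ w ≠ 1 ∧ ‖ch z t - w‖ ≤ δ := by
  obtain ⟨n, hn0, hn⟩ := int_functional Z hZ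
  obtain ⟨p, hpl, hp⟩ := Nat.exists_infinite_primes (P₀ + ∑ z ∈ Z, (n z).natAbs + 1)
  obtain ⟨ζ, hζ, hζ1⟩ := qc_root p hp
  have hk : ∀ a : Circle → ℤ, ∏ z ∈ Z, (z ^ (M : ℤ)) ^ (a z) = 1 →
      ∏ z ∈ Z, (ζ ^ (n z)) ^ (a z) = 1 := by
    intro a ha
    have h1 : ∏ z ∈ Z, z ^ ((M : ℤ) * a z) = 1 := by
      rw [← ha]
      refine Finset.prod_congr rfl fun z _ => ?_
      rw [zpow_mul]
    have h2 := hn _ h1
    have h3 : ∑ z ∈ Z, a z * n z = 0 := by
      have h4 : (M : ℤ) * ∑ z ∈ Z, a z * n z = 0 := by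
        rw [Finset.mul_sum, ← h2]
        refine Finset.sum_congr rfl fun z _ => ?_
        ring
      rcases mul_eq_zero.1 h4 with h5 | h5
      · omega
      · exact h5
    have h4 : ∀ s : Finset Circle, ∏ z ∈ s, (ζ ^ (n z)) ^ (a z) = ζ ^ (∑ z ∈ s, a z * n z) := by
      classical
      intro s
      induction s using Finset.induction_on with
      | empty => simp
      | insert z s hz ih =>
        rw [Finset.prod_insert hz, Finset.sum_insert hz, zpow_add, ih, ← zpow_mul, mul_comm (n z)]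
    rw [h4, h3, zpow_zero]
  refine ⟨p, hp, by omega, fun δ hδ => ?_⟩
  obtain ⟨t, ht, htz⟩ := kron Z (fun z => z ^ (M : ℤ)) (fun z => ζ ^ (n z)) hk δ hδ
  refine ⟨M * t, Nat.mul_pos hM ht, dvd_mul_right _ _, fun z hz => ⟨ζ ^ (n z), ?_, ?_, ?_⟩⟩
  · rw [← zpow_natCast, ← zpow_mul, mul_comm, zpow_mul, zpow_natCast, hζ, one_zpow]
  · intro h1
    have : Fact p.Prime := ⟨hp⟩
    have h2 : orderOf ζ = p := orderOf_eq_prime hζ hζ1
    have h3 : (p : ℤ) ∣ n z := by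
      rw [← h2]
      exact orderOf_dvd_iff_zpow_eq_one.2 h1
    have h4 : p ∣ (n z).natAbs := Int.natCast_dvd.1 h3
    have h5 : p ≤ (n z).natAbs := Nat.le_of_dvd (Int.natAbs_pos.2 (hn0 z hz)) h4
    have h6 : (n z).natAbs ≤ ∑ z ∈ Z, (n z).natAbs :=
      Finset.single_le_sum (f := fun z => (n z).natAbs) (fun _ _ => Nat.zero_le _) hz
    omega
  · have h1 := htz z hz
    rw [ch_zpow] at h1
    push_cast
    exact h1


end Pool.Agent.HOM
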