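import Pool.Agent.Lib_helper33.HOM.Defs

/-!
# Block KA: a raw kernel (MP_49610d_nt)
-/

set_option autoImplicit false

namespace Pool.Agent.HOM

open Filter Topology
open scoped BigOperators ComplexConjugate

/-- the group algebra -/
abbrev ka_A : Type := MonoidAlgebra ℝ Circle

/-- the character -/
noncomputable def ka_chM (s : ℤ) : Circle →* ℂ where
  toFun z := ch z s
  map_one' := ch_one_left s
  map_mul' z w := ch_mul z w s

/-- the value at `s` -/
noncomputable def ka_ev (s : ℤ) : ka_A →ₐ[ℝ] ℂ := MonoidAlgebra.lift ℝ ℂ Circle (ka_chM s)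

/-- inversion -/
noncomputable def ka_inv : ka_A ≃+* ka_A :=
  MonoidAlgebra.mapDomainRingEquiv ℝ (MulEquiv.inv Circle)

/-- a basis element -/
noncomputable def ka_b (z : Circle) : ka_A := MonoidAlgebra.single z 1

theorem ka_ev_b (s : ℤ) (z : Circle) : ka_ev s (ka_b z) = ch z s := by
  rw [ka_ev, ka_b, MonoidAlgebra.lift_single, one_smul]
  rfl

theorem ka_inv_coeff (x : ka_A) (z : Circle) : (ka_inv x).coeff z = x.coeff z⁻¹ := by
  rw [ka_inv, MonoidAlgebra.coeff_mapDomainRingEquiv, Finsupp.equivMapDomain_apply]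
  rfl

open Classical in
theorem ka_b_coeff (z w : Circle) : (ka_b z).coeff w = if z = w then 1 else 0 := by
  rw [ka_b, MonoidAlgebra.coeff_single, Finsupp.single_apply]

theorem ka_inv_b (z : Circle) : ka_inv (ka_b z) = ka_b z⁻¹ := by
  classical
  refine MonoidAlgebra.ext (Finsupp.ext fun w => ?_)
  rw [ka_inv_coeff, ka_b_coeff, ka_b_coeff]
  by_cases h : z = w⁻¹
  · rw [if_pos h, if_pos (by rw [h, inv_inv])]
  · rw [if_neg h, if_neg fun h' => h (by rw [← h', inv_inv])]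

theorem ka_b_mul (z w : Circle) : ka_b z * ka_b w = ka_b (z * w) := by
  rw [ka_b, ka_b, MonoidAlgebra.single_mul_single, one_mul]
  rfl

theorem ka_b_mul_coeff (z w : Circle) (x : ka_A) : (ka_b z * x).coeff w = x.coeff (z⁻¹ * w) := by
  rw [ka_b, MonoidAlgebra.coeff_single_mul_apply, one_mul]

/-- good elements -/
structure ka_Good (x : ka_A) : Prop where
  nonneg : ∀ z, 0 ≤ x.coeff z
  symm : ka_inv x = x
  pos : ∀ s, ∃ r : ℝ, 0 ≤ r ∧ ka_ev s x = r

theorem ka_mul {x y : ka_A} (hx : ka_Good x) (hy : ka_Good y) : ka_Good (x * y) where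
  nonneg z := by
    rw [MonoidAlgebra.coeff_mul_apply_left]
    exact Finset.sum_nonneg fun h _ => mul_nonneg (hx.nonneg h) (hy.nonneg _)
  symm := by rw [map_mul, hx.symm, hy.symm]
  pos s := by
    obtain ⟨r, hr, h1⟩ := hx.pos s
    obtain ⟨r', hr', h2⟩ := hy.pos s
    exact ⟨r * r', mul_nonneg hr hr', by rw [map_mul, h1, h2]; push_cast; ring⟩

theorem ka_one : ka_Good 1 where
  nonneg z := by
    have h1 : (1 : ka_A) = ka_b 1 := rfl
    rw [h1, ka_b_coeff]
    split_ifs <;> norm_num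
  symm := map_one _
  pos s := ⟨1, zero_le_one, by rw [map_one]; norm_num⟩

/-- the Fejer kernel -/
noncomputable def ka_phi (R : ℕ) (l : Circle) : ka_A :=
  (R : ℝ)⁻¹ • ((∑ a ∈ Finset.range R, ka_b (l ^ a)) * ∑ b ∈ Finset.range R, ka_b (l⁻¹ ^ b))

theorem ka_phi_eq (R : ℕ) (l : Circle) (x : ka_A) (z : Circle) : (ka_phi R l * x).coeff z =
    (R : ℝ)⁻¹ * ∑ a ∈ Finset.range R, ∑ b ∈ Finset.range R,
      x.coeff (l ^ ((b : ℤ) - a) * z) := by
  rw [ka_phi, smul_mul_assoc, MonoidAlgebra.coeff_smul_apply, smul_eq_mul, Finset.sum_mul_sum,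
    Finset.sum_mul, MonoidAlgebra.coeff_sum, Finsupp.finsetSum_apply]
  congr 1
  refine Finset.sum_congr rfl fun a _ => ?_
  rw [Finset.sum_mul, MonoidAlgebra.coeff_sum, Finsupp.finsetSum_apply]
  refine Finset.sum_congr rfl fun b _ => ?_
  rw [ka_b_mul, ka_b_mul_coeff]
  congr 2
  rw [mul_inv, inv_pow, inv_inv, zpow_sub, zpow_natCast, zpow_natCast, mul_comm]

theorem ka_phi_good (R : ℕ) (l : Circle) : ka_Good (ka_phi R l) where
  nonneg z := by
    rw [← mul_one (ka_phi R l), ka_phi_eq]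
    exact mul_nonneg (inv_nonneg.2 (Nat.cast_nonneg _))
      (Finset.sum_nonneg fun a _ => Finset.sum_nonneg fun b _ => ka_one.nonneg _)
  symm := by
    refine MonoidAlgebra.ext (Finsupp.ext fun z => ?_)
    rw [ka_inv_coeff, ← mul_one (ka_phi R l), ka_phi_eq, ka_phi_eq, Finset.sum_comm]
    congr 1
    refine Finset.sum_congr rfl fun a _ => Finset.sum_congr rfl fun b _ => ?_
    have h1 : (1 : ka_A).coeff (l ^ ((a : ℤ) - b) * z⁻¹) = (ka_inv 1).coeff (l ^ ((b : ℤ) - a) * z) := by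
      rw [ka_inv_coeff, mul_inv, ← zpow_neg, neg_sub]
    rw [h1, map_one]
  pos s := by
    have h1 : ka_ev s (∑ b ∈ Finset.range R, ka_b (l⁻¹ ^ b)) =
        conj (ka_ev s (∑ a ∈ Finset.range R, ka_b (l ^ a))) := by
      rw [map_sum, map_sum, map_sum]
      refine Finset.sum_congr rfl fun a _ => ?_
      rw [ka_ev_b, ka_ev_b, ← ch_neg, inv_pow, ch_inv]
    refine ⟨(R : ℝ)⁻¹ * Complex.normSq (ka_ev s (∑ a ∈ Finset.range R, ka_b (l ^ a))),
      mul_nonneg (inv_nonneg.2 (Nat.cast_nonneg _)) (Complex.normSq_nonneg _), ?_⟩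
    rw [ka_phi, map_smul, map_mul, h1, Complex.mul_conj, Complex.real_smul, Complex.ofReal_mul]

theorem ka_phi_one_le {R : ℕ} (hR : 0 < R) (l : Circle) {x : ka_A} (hx : ∀ z, 0 ≤ x.coeff z) :
    x.coeff 1 ≤ (ka_phi R l * x).coeff 1 := by
  rw [ka_phi_eq]
  have h1 : ∑ a ∈ Finset.range R, x.coeff 1 ≤ ∑ a ∈ Finset.range R, ∑ b ∈ Finset.range R,
      x.coeff (l ^ ((b : ℤ) - a) * 1) := by
    refine Finset.sum_le_sum fun a ha => ?_
    have h2 := Finset.single_le_sum (f := fun b : ℕ => x.coeff (l ^ ((b : ℤ) - a) * 1))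
      (fun b _ => hx _) ha
    simpa using h2
  rw [Finset.sum_const, Finset.card_range, nsmul_eq_mul] at h1
  have h3 : (0 : ℝ) < R := Nat.cast_pos.2 hR
  rw [inv_mul_eq_div, le_div_iff₀ h3, mul_comm]
  exact h1

/-- the lower bound -/
theorem ka_lower {R : ℕ} (hR : 0 < R) (l : Circle) {x : ka_A} (hx : ka_Good x) :
    (ka_phi R l * x).coeff 1 - (ka_phi R l * x).coeff l ≤
      (R : ℝ)⁻¹ * (ka_phi R l * x).coeff 1 := by
  have h0 := ka_phi_one_le hR l hx.nonneg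
  let g : ℤ → ℝ := fun k => x.coeff (l ^ k)
  have hg : ∀ k, g (-k) = g k := fun k => by
    show x.coeff (l ^ (-k)) = x.coeff (l ^ k)
    rw [zpow_neg, ← ka_inv_coeff, hx.symm]
  have h1 : (ka_phi R l * x).coeff 1 =
      (R : ℝ)⁻¹ * ∑ a ∈ Finset.range R, ∑ b ∈ Finset.range R, g ((b : ℤ) - a) := by
    rw [ka_phi_eq]
    simp only [mul_one]
    rfl
  have h2 : (ka_phi R l * x).coeff l =
      (R : ℝ)⁻¹ * ∑ a ∈ Finset.range R, ∑ b ∈ Finset.range R, g (((b + 1 : ℕ) : ℤ) - a) := by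
    rw [ka_phi_eq]
    congr 1
    refine Finset.sum_congr rfl fun a _ => Finset.sum_congr rfl fun b _ => ?_
    show _ = x.coeff (l ^ (((b + 1 : ℕ) : ℤ) - a))
    congr 2
    rw [← zpow_add_one]
    congr 1
    push_cast
    ring
  have h3 : ∑ a ∈ Finset.range R, ∑ b ∈ Finset.range R, g ((b : ℤ) - a) -
      ∑ a ∈ Finset.range R, ∑ b ∈ Finset.range R, g (((b + 1 : ℕ) : ℤ) - a) = g 0 - g R := by
    rw [← Finset.sum_sub_distrib]
    have h4 : ∀ a ∈ Finset.range R, (∑ b ∈ Finset.range R, g ((b : ℤ) - a) -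
        ∑ b ∈ Finset.range R, g (((b + 1 : ℕ) : ℤ) - a)) = g a - g ((R : ℤ) - a) := by
      intro a _
      rw [← Finset.sum_sub_distrib, Finset.sum_range_sub' (fun b : ℕ => g ((b : ℤ) - a))]
      rw [Nat.cast_zero, zero_sub, hg]
    rw [Finset.sum_congr rfl h4, Finset.sum_sub_distrib]
    have h5 : ∑ a ∈ Finset.range R, g ((R : ℤ) - a) =
        ∑ a ∈ Finset.range R, g ((a + 1 : ℕ) : ℤ) := by
      rw [← Finset.sum_range_reflect]
      refine Finset.sum_congr rfl fun a ha => ?_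
      have := Finset.mem_range.1 ha
      congr 1
      omega
    rw [h5, ← Finset.sum_sub_distrib, Finset.sum_range_sub' (fun a : ℕ => g (a : ℤ))]
    rfl
  have h6 : g 0 = x.coeff 1 := by
    show x.coeff (l ^ (0 : ℤ)) = _
    rw [zpow_zero]
  have h7 : 0 ≤ g R := hx.nonneg _
  rw [h1, h2, ← mul_sub, h3, ← h1]
  refine mul_le_mul_of_nonneg_left ?_ (inv_nonneg.2 (Nat.cast_nonneg _))
  linarith

theorem ka_pow_coe {M : ℕ} (z : Circle) (hz : z ^ M = 1) : (z : ℂ) ^ M = 1 := by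
  rw [← Circle.coe_pow, hz, Circle.coe_one]

/-- the roots of unity -/
theorem ka_fin {M : ℕ} (hM : 0 < M) : {z : Circle | z ^ M = 1}.Finite := by
  have h1 : {z : ℂ | z ^ M = 1}.Finite := by
    refine (Polynomial.nthRoots M (1 : ℂ)).toFinset.finite_toSet.subset fun z hz => ?_
    rw [Finset.mem_coe, Multiset.mem_toFinset, Polynomial.mem_nthRoots hM]
    exact hz
  refine (h1.preimage (Circle.coe_injective.injOn)).subset fun z hz => ?_
  exact ka_pow_coe z hz

/-- the sum of the roots of unity -/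
noncomputable def ka_mu {M : ℕ} (hM : 0 < M) : ka_A := ∑ z ∈ (ka_fin hM).toFinset, ka_b z

theorem ka_mu_b {M : ℕ} (hM : 0 < M) {w : Circle} (hw : w ^ M = 1) :
    ka_b w * ka_mu hM = ka_mu hM := by
  rw [ka_mu, Finset.mul_sum]
  refine Finset.sum_bij (fun z _ => w * z) ?_ ?_ ?_ ?_
  · intro z hz
    rw [Set.Finite.mem_toFinset] at hz ⊢
    show (w * z) ^ M = 1
    rw [mul_pow, hw, one_mul]
    exact hz
  · intro z _ z' _ h
    exact mul_left_cancel h
  · intro z hz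
    rw [Set.Finite.mem_toFinset] at hz
    refine ⟨w⁻¹ * z, ?_, mul_inv_cancel_left w z⟩
    rw [Set.Finite.mem_toFinset]
    show (w⁻¹ * z) ^ M = 1
    rw [mul_pow, inv_pow, hw, inv_one, one_mul]
    exact hz
  · intro z _
    exact ka_b_mul w z

theorem ka_mu_good {M : ℕ} (hM : 0 < M) : ka_Good (ka_mu hM) where
  nonneg z := by
    rw [ka_mu, MonoidAlgebra.coeff_sum, Finsupp.finsetSum_apply]
    refine Finset.sum_nonneg fun w _ => ?_
    rw [ka_b_coeff]
    split_ifs <;> norm_num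
  symm := by
    rw [ka_mu, map_sum]
    refine Finset.sum_bij (fun z _ => z⁻¹) ?_ ?_ ?_ ?_
    · intro z hz
      rw [Set.Finite.mem_toFinset] at hz ⊢
      show z⁻¹ ^ M = 1
      rw [inv_pow, show z ^ M = 1 from hz, inv_one]
    · intro z _ z' _ h
      exact inv_injective h
    · intro z hz
      rw [Set.Finite.mem_toFinset] at hz
      refine ⟨z⁻¹, ?_, inv_inv z⟩
      rw [Set.Finite.mem_toFinset]
      show z⁻¹ ^ M = 1
      rw [inv_pow, show z ^ M = 1 from hz, inv_one]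
    · intro z _
      exact ka_inv_b z
  pos s := by
    by_cases h : ∃ w : Circle, w ^ M = 1 ∧ ch w s ≠ 1
    · obtain ⟨w, hw, hs⟩ := h
      have h1 := congrArg (ka_ev s) (ka_mu_b hM hw)
      rw [map_mul, ka_ev_b] at h1
      have h2 : (ch w s - 1) * ka_ev s (ka_mu hM) = 0 := by rw [sub_mul, h1, one_mul, sub_self]
      rcases mul_eq_zero.1 h2 with h3 | h3
      · exact absurd (sub_eq_zero.1 h3) hs
      · exact ⟨0, le_rfl, by rw [h3]; norm_num⟩
    · push Not at h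
      refine ⟨((ka_fin hM).toFinset.card : ℝ), Nat.cast_nonneg _, ?_⟩
      rw [ka_mu, map_sum, Finset.sum_congr rfl fun z hz => by
        rw [ka_ev_b, h z ((Set.Finite.mem_toFinset (ka_fin hM)).1 hz)], Finset.sum_const, nsmul_eq_mul,
        mul_one]
      norm_num

theorem ka_mu_one {M : ℕ} (hM : 0 < M) : 0 < (ka_mu hM).coeff 1 := by
  rw [ka_mu, MonoidAlgebra.coeff_sum, Finsupp.finsetSum_apply]
  refine Finset.sum_pos' (fun w _ => ?_) ⟨1, ?_, ?_⟩
  · rw [ka_b_coeff]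
    split_ifs <;> norm_num
  · rw [Set.Finite.mem_toFinset]
    exact one_pow M
  · rw [ka_b_coeff, if_pos rfl]
    exact one_pos

/-- support -/
theorem ka_supp {M : ℕ} (hM : 0 < M) {x : ka_A} {z : Circle} (hz : (ka_mu hM * x).coeff z ≠ 0) :
    ∃ w : Circle, w ^ M = 1 ∧ x.coeff (w⁻¹ * z) ≠ 0 := by
  rw [ka_mu, Finset.sum_mul, MonoidAlgebra.coeff_sum, Finsupp.finsetSum_apply] at hz
  obtain ⟨w, hw, h⟩ := Finset.exists_ne_zero_of_sum_ne_zero hz
  rw [ka_b_mul_coeff] at h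
  exact ⟨w, (Set.Finite.mem_toFinset (ka_fin hM)).1 hw, h⟩

theorem ka_prod_good (R : ℕ) (s : Finset Circle) : ka_Good (∏ l ∈ s, ka_phi R l) := by
  classical
  induction s using Finset.induction_on with
  | empty => exact ka_one
  | insert l s hl ih =>
    rw [Finset.prod_insert hl]
    exact ka_mul (ka_phi_good R l) ih

theorem ka_prod_pos {R : ℕ} (hR : 0 < R) (s : Finset Circle) {x : ka_A} (hx : ka_Good x)
    (h0 : 0 < x.coeff 1) : 0 < ((∏ l ∈ s, ka_phi R l) * x).coeff 1 := by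
  classical
  induction s using Finset.induction_on with
  | empty => rwa [Finset.prod_empty, one_mul]
  | insert l s hl ih =>
    rw [Finset.prod_insert hl, mul_assoc]
    exact ih.trans_le (ka_phi_one_le hR l (ka_mul (ka_prod_good R s) hx).nonneg)

theorem raw_kernel (Λ : Finset Circle) (τ : ℝ) (hτ : 0 < τ) :
    ∃ (Z : Finset Circle) (G : Circle → ℝ) (M : ℕ), 0 < M ∧ 0 < G 1 ∧ (∀ z, 0 ≤ G z) ∧
      (∀ z, z ∉ Z → G z = 0) ∧ (∀ ζ, ζ ^ M = 1 → ζ ∈ Z ∧ G ζ = G 1) ∧ (∀ z, G z⁻¹ = G z) ∧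
      (∀ s : ℤ, 0 ≤ (∑ z ∈ Z, (G z : ℂ) * ch z s).re) ∧
      (∀ z, G z ≠ 0 → IsOfFinOrder z → z ^ M = 1) ∧
      (∀ z ∈ Λ, (1 - τ) * G 1 ≤ G z) := by
  classical
  obtain ⟨R, hR1⟩ := exists_nat_gt τ⁻¹
  have hR0 : (0 : ℝ) < R := (inv_pos.2 hτ).trans hR1
  have hR : 0 < R := Nat.cast_pos.1 hR0
  have hRτ : (R : ℝ)⁻¹ ≤ τ := inv_le_of_inv_le₀ hτ hR1.le
  let Φ : ka_A := ∏ l ∈ Λ, ka_phi R l
  let M : ℕ := ∏ y ∈ Φ.coeff.support.filter (fun y => IsOfFinOrder y), orderOf y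
  have hM : 0 < M := Finset.prod_pos fun y hy => (Finset.mem_filter.1 hy).2.orderOf_pos
  have hΦ : ka_Good Φ := ka_prod_good R Λ
  let G : ka_A := ka_mu hM * Φ
  have hG : ka_Good G := ka_mul (ka_mu_good hM) hΦ
  refine ⟨G.coeff.support ∪ (ka_fin hM).toFinset, fun z => G.coeff z, M, hM, ?_, hG.nonneg,
    ?_, ?_, ?_, ?_, ?_, ?_⟩
  · show 0 < (ka_mu hM * Φ).coeff 1
    rw [mul_comm]
    exact ka_prod_pos hR Λ (ka_mu_good hM) (ka_mu_one hM)
  · intro z hz
    by_contra h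
    exact hz (Finset.mem_union_left _ (Finsupp.mem_support_iff.2 h))
  · intro w hw
    refine ⟨Finset.mem_union_right _ ((Set.Finite.mem_toFinset (ka_fin hM)).2 hw), ?_⟩
    have h1 : ka_b w * G = G := by
      show ka_b w * (ka_mu hM * Φ) = ka_mu hM * Φ
      rw [← mul_assoc, ka_mu_b hM hw]
    have h2 : (ka_b w * G).coeff w = G.coeff 1 := by
      rw [ka_b_mul_coeff, inv_mul_cancel]
    rw [h1] at h2
    exact h2
  · intro z
    show G.coeff z⁻¹ = G.coeff z
    rw [← ka_inv_coeff, hG.symm]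
  · intro s
    obtain ⟨r, hr, h1⟩ := hG.pos s
    have h2 : ∑ z ∈ G.coeff.support ∪ (ka_fin hM).toFinset, (G.coeff z : ℂ) * ch z s =
        ka_ev s G := by
      rw [ka_ev, MonoidAlgebra.lift_apply, Finsupp.sum]
      symm
      refine (Finset.sum_subset Finset.subset_union_left fun z _ hz => ?_).trans
        (Finset.sum_congr rfl fun z _ => ?_)
      · rw [Finsupp.notMem_support_iff.1 hz, zero_smul]
      · rw [Complex.real_smul]
        rfl
    rw [h2, h1, Complex.ofReal_re]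
    exact hr
  · intro z hz hf
    obtain ⟨w, hw, h1⟩ := ka_supp hM hz
    have hwf : IsOfFinOrder w := isOfFinOrder_iff_pow_eq_one.2 ⟨M, hM, hw⟩
    have h2 : IsOfFinOrder (w⁻¹ * z) := hwf.inv.mul hf
    have h3 : orderOf (w⁻¹ * z) ∣ M := Finset.dvd_prod_of_mem _
      (Finset.mem_filter.2 ⟨Finsupp.mem_support_iff.2 h1, h2⟩)
    have h4 : (w⁻¹ * z) ^ M = 1 := orderOf_dvd_iff_pow_eq_one.1 h3
    rw [mul_pow, inv_pow, hw, inv_one, one_mul] at h4
    exact h4
  · intro l hl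
    have h1 : G = ka_phi R l * ((∏ l' ∈ Λ.erase l, ka_phi R l') * ka_mu hM) := by
      show ka_mu hM * ∏ l ∈ Λ, ka_phi R l = _
      rw [← Finset.mul_prod_erase Λ _ hl]
      ring
    have h2 := ka_lower hR l (ka_mul (ka_prod_good R (Λ.erase l)) (ka_mu_good hM))
    rw [← h1] at h2
    have h3 : (R : ℝ)⁻¹ * G.coeff 1 ≤ τ * G.coeff 1 :=
      mul_le_mul_of_nonneg_right hRτ (hG.nonneg 1)
    show (1 - τ) * G.coeff 1 ≤ G.coeff l
    linarith


end Pool.Agent.HOM
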