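import Pool.Agent.Lib_helper33.HOM.Defs
import Pool.Agent.Lib_helper33.HOMF.KA

/-!
# Block KB: normalisation of kernels
-/

set_option autoImplicit false

namespace Pool.Agent.HOM

open Filter Topology
open scoped BigOperators ComplexConjugate

open Classical in
theorem kb_avg (y : Circle) :
    Tendsto (fun N : ℕ => (N : ℂ)⁻¹ * ∑ s ∈ Finset.range N, ch y s) atTop
      (𝓝 (if y = 1 then 1 else 0)) := by
  by_cases hy : y = 1
  · subst hy
    rw [if_pos rfl]
    refine tendsto_const_nhds.congr' ?_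
    filter_upwards [eventually_gt_atTop 0] with N hN
    simp only [ch_one_left, Finset.sum_const, Finset.card_range, nsmul_eq_mul, mul_one]
    rw [inv_mul_cancel₀ (by exact_mod_cast hN.ne')]
  · rw [if_neg hy]
    have hy' : (y : ℂ) - 1 ≠ 0 := by
      intro h
      apply hy
      apply Circle.ext
      rw [sub_eq_zero.1 h]
      simp
    have hy0 : 0 < ‖(y : ℂ) - 1‖ := norm_pos_iff.2 hy'
    rw [tendsto_zero_iff_norm_tendsto_zero]
    have hb : Tendsto (fun N : ℕ => (2 / ‖(y : ℂ) - 1‖) * (N : ℝ)⁻¹) atTop (𝓝 0) := by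
      have := (tendsto_inv_atTop_nhds_zero_nat (𝕜 := ℝ)).const_mul (2 / ‖(y : ℂ) - 1‖)
      rwa [mul_zero] at this
    refine squeeze_zero (fun N => norm_nonneg _) (fun N => ?_) hb
    have e : ∑ s ∈ Finset.range N, ch y s = ((y : ℂ) ^ N - 1) / ((y : ℂ) - 1) := by
      rw [← geom_sum_eq (fun h => hy' (by rw [h, sub_self]))]
      refine Finset.sum_congr rfl fun s _ => ?_
      rw [ch_eq, zpow_natCast]
    rw [norm_mul, e, norm_div, norm_inv, Complex.norm_natCast]
    have h1 : ‖(y : ℂ) ^ N - 1‖ ≤ 2 := by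
      refine (norm_sub_le _ _).trans ?_
      rw [norm_pow, Circle.norm_coe, one_pow, norm_one]
      norm_num
    calc (N : ℝ)⁻¹ * (‖(y : ℂ) ^ N - 1‖ / ‖(y : ℂ) - 1‖)
        ≤ (N : ℝ)⁻¹ * (2 / ‖(y : ℂ) - 1‖) := by gcongr
      _ = (2 / ‖(y : ℂ) - 1‖) * (N : ℝ)⁻¹ := mul_comm _ _

open Classical in
/-- averages of `∑ g z ch (u z) s` -/
theorem kb_lim (Z : Finset Circle) (g : Circle → ℝ) (u : Circle → Circle) :
    Tendsto (fun N : ℕ => (N : ℂ)⁻¹ * ∑ s ∈ Finset.range N, ∑ z ∈ Z, (g z : ℂ) * ch (u z) s) atTop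
      (𝓝 (∑ z ∈ Z, (g z : ℂ) * (if u z = 1 then 1 else 0))) := by
  have h := tendsto_finsetSum Z (fun z _ => (kb_avg (u z)).const_mul (g z : ℂ))
  refine h.congr fun N => ?_
  rw [Finset.sum_comm, Finset.mul_sum]
  refine Finset.sum_congr rfl fun z _ => ?_
  rw [← Finset.mul_sum]
  ring

theorem coef_le (Z : Finset Circle) (G : Circle → ℝ) (hZ : ∀ z, z ∉ Z → G z = 0)
    (hs : ∀ z, G z⁻¹ = G z) (h0 : ∀ z, 0 ≤ G z)
    (hp : ∀ s : ℤ, 0 ≤ (∑ z ∈ Z, (G z : ℂ) * ch z s).re) (w : Circle) : G w ≤ G 1 := by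
  classical
  set P : ℤ → ℂ := fun s => ∑ z ∈ Z, (G z : ℂ) * ch z s with hP
  -- the limits
  have l1 : Tendsto (fun N : ℕ => (N : ℂ)⁻¹ * ∑ s ∈ Finset.range N, P s * ch w (-(s : ℤ))) atTop
      (𝓝 (G w : ℂ)) := by
    have h := kb_lim Z G (fun z => z * w⁻¹)
    have e : ∑ z ∈ Z, (G z : ℂ) * (if z * w⁻¹ = 1 then (1 : ℂ) else 0) = G w := by
      by_cases hw : w ∈ Z
      · rw [Finset.sum_eq_single w]
        · simp
        · intro z _ hz
          rw [if_neg (fun h => hz (mul_inv_eq_one.1 h)), mul_zero]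
        · intro h; exact absurd hw h
      · rw [hZ w hw, Finset.sum_eq_zero]
        · simp
        · intro z hz
          rw [if_neg (fun h => hw (by rw [← mul_inv_eq_one.1 h]; exact hz)), mul_zero]
    rw [e] at h
    refine h.congr fun N => ?_
    congr 1
    refine Finset.sum_congr rfl fun s _ => ?_
    rw [hP, Finset.sum_mul]
    refine Finset.sum_congr rfl fun z _ => ?_
    rw [ch_mul, ch_inv]
    ring
  have l2 : Tendsto (fun N : ℕ => (N : ℂ)⁻¹ * ∑ s ∈ Finset.range N,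
      conj (P s) * ch w (-(s : ℤ))) atTop (𝓝 (G w : ℂ)) := by
    have h := kb_lim Z G (fun z => z⁻¹ * w⁻¹)
    have e : ∑ z ∈ Z, (G z : ℂ) * (if z⁻¹ * w⁻¹ = 1 then (1 : ℂ) else 0) = G w := by
      have hi : ∀ z : Circle, z⁻¹ * w⁻¹ = 1 ↔ z = w⁻¹ := by
        intro z
        rw [mul_inv_eq_one, inv_eq_iff_eq_inv]
      rw [← hs w]
      by_cases hw : w⁻¹ ∈ Z
      · rw [Finset.sum_eq_single w⁻¹]
        · simp
        · intro z _ hz
          rw [if_neg (fun h => hz ((hi z).1 h)), mul_zero]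
        · intro h; exact absurd hw h
      · rw [hZ _ hw, Finset.sum_eq_zero]
        · simp
        · intro z hz
          rw [if_neg (fun h => hw (by rw [← (hi z).1 h]; exact hz)), mul_zero]
    rw [e] at h
    refine h.congr fun N => ?_
    congr 1
    refine Finset.sum_congr rfl fun s _ => ?_
    rw [hP, map_sum, Finset.sum_mul]
    refine Finset.sum_congr rfl fun z _ => ?_
    rw [ch_mul, ch_inv, ch_inv, map_mul, Complex.conj_ofReal, ← ch_neg]
    ring
  have l3 : Tendsto (fun N : ℕ => (N : ℂ)⁻¹ * ∑ s ∈ Finset.range N, P s) atTop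
      (𝓝 (G 1 : ℂ)) := by
    have h := kb_lim Z G (fun z => z)
    have e : ∑ z ∈ Z, (G z : ℂ) * (if z = 1 then (1 : ℂ) else 0) = G 1 := by
      by_cases hw : (1 : Circle) ∈ Z
      · rw [Finset.sum_eq_single 1]
        · simp
        · intro z _ hz
          rw [if_neg hz, mul_zero]
        · intro h; exact absurd hw h
      · rw [hZ _ hw, Finset.sum_eq_zero]
        · simp
        · intro z hz
          rw [if_neg (fun h => hw (by rw [← h]; exact hz)), mul_zero]
    rw [e] at h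
    exact h
  -- the real part
  have l4 : Tendsto (fun N : ℕ => ‖(N : ℂ)⁻¹ * ∑ s ∈ Finset.range N,
      ((P s).re : ℂ) * ch w (-(s : ℤ))‖) atTop (𝓝 ‖(G w : ℂ)‖) := by
    have h := (l1.add l2).const_mul (1 / 2 : ℂ)
    have e : (1 / 2 : ℂ) * ((G w : ℂ) + G w) = G w := by ring
    rw [e] at h
    refine (h.congr fun N => ?_).norm
    rw [← mul_add, ← Finset.sum_add_distrib, ← mul_assoc, mul_comm (1 / 2 : ℂ), mul_assoc,
      Finset.mul_sum]
    congr 1
    refine Finset.sum_congr rfl fun s _ => ?_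
    rw [Complex.re_eq_add_conj]
    ring
  have l5 : Tendsto (fun N : ℕ => ((N : ℂ)⁻¹ * ∑ s ∈ Finset.range N, P s).re) atTop
      (𝓝 (G 1)) := by
    have h := (Complex.continuous_re.tendsto _).comp l3
    rw [Complex.ofReal_re] at h
    exact h
  have l6 : ‖(G w : ℂ)‖ ≤ G 1 := by
    refine le_of_tendsto_of_tendsto' l4 l5 fun N => ?_
    have e : ((N : ℂ)⁻¹ * ∑ s ∈ Finset.range N, P s).re =
        (N : ℝ)⁻¹ * ∑ s ∈ Finset.range N, (P s).re := by
      rw [show (N : ℂ)⁻¹ = (((N : ℝ)⁻¹ : ℝ) : ℂ) by push_cast; rfl, Complex.re_ofReal_mul,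
        Complex.re_sum]
    rw [e, norm_mul, norm_inv, Complex.norm_natCast]
    gcongr
    refine (norm_sum_le _ _).trans (Finset.sum_le_sum fun s _ => ?_)
    rw [norm_mul, norm_ch, mul_one, Complex.norm_real, Real.norm_eq_abs, abs_of_nonneg (hp s)]
  rw [Complex.norm_real, Real.norm_eq_abs, abs_of_nonneg (h0 w)] at l6
  exact l6

theorem ker_exists (Λ : Finset Circle) (τ : ℝ) (hτ : 0 < τ) :
    ∃ K : Ker, ∀ z ∈ Λ, 1 - τ ≤ K.c z := by
  classical
  obtain ⟨Z, G, M, hM, hG1, hG0, hZ, hone, hs, hp, htor, hL⟩ := raw_kernel Λ τ hτ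
  refine ⟨⟨Z.filter (fun z => G z ≠ 0), fun z => G z / G 1, M, hM,
    fun z => div_nonneg (hG0 z) hG1.le, ?_, ?_, ?_, ?_, ?_, ?_⟩, ?_⟩
  · intro z hz
    have : G z = 0 := by
      by_contra h
      apply hz
      rw [Finset.mem_filter]
      refine ⟨?_, h⟩
      by_contra h'
      exact h (hZ z h')
    rw [this, zero_div]
  · intro z hz
    obtain ⟨h1, h2⟩ := hone z hz
    refine ⟨Finset.mem_filter.2 ⟨h1, by rw [h2]; exact hG1.ne'⟩, ?_⟩
    rw [h2, div_self hG1.ne']
  · intro z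
    rw [div_le_one hG1]
    exact coef_le Z G hZ hs hG0 hp z
  · intro z
    rw [hs]
  · intro s
    have e : ∑ z ∈ Z.filter (fun z => G z ≠ 0), ((G z / G 1 : ℝ) : ℂ) * ch z s =
        (((G 1)⁻¹ : ℝ) : ℂ) * ∑ z ∈ Z, (G z : ℂ) * ch z s := by
      rw [Finset.sum_filter, Finset.mul_sum]
      refine Finset.sum_congr rfl fun z _ => ?_
      by_cases h : G z = 0
      · simp [h]
      · rw [if_pos h]
        push_cast
        rw [div_eq_mul_inv]
        ring
    rw [e, Complex.re_ofReal_mul]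
    exact mul_nonneg (inv_nonneg.2 hG1.le) (hp s)
  · intro z hz hf
    exact htor z (Finset.mem_filter.1 hz).2 hf
  · intro z hz
    show 1 - τ ≤ G z / G 1
    rw [le_div_iff₀ hG1]
    exact hL z hz

end Pool.Agent.HOM
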