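import Pool.Agent.Lib_helper33.HOM.Defs
import Pool.Agent.Lib_helper33.HOMF.HA
import Pool.Agent.Lib_helper33.HOMF.HB
import Pool.Agent.Lib_helper33.HOMF.KC
import Pool.Agent.Lib_helper33.HOMF.MB
import Pool.Agent.Lib_helper33.HOMF.MD

/-!
# Half of the multiples: block SB, two approximants are close
-/

set_option autoImplicit false

namespace Pool.Agent.HOM

open Filter Topology
open scoped BigOperators ComplexConjugate

/-- Pythagoras for finitely many orthogonal vectors. -/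
theorem sb_pyth {H : Type} [NormedAddCommGroup H] [InnerProductSpace ℂ H] (v : Circle → H)
    (hv : ∀ z w, z ≠ w → inner ℂ (v z) (v w) = 0) (a : Circle → ℂ) (W : Finset Circle) :
    ‖∑ z ∈ W, a z • v z‖ ^ 2 = ∑ z ∈ W, ‖a z‖ ^ 2 * ‖v z‖ ^ 2 := by
  classical
  induction W using Finset.induction_on with
  | empty => simp
  | insert z s hz ih =>
    rw [Finset.sum_insert hz, Finset.sum_insert hz, ← ih]
    have h0 : inner ℂ (a z • v z) (∑ w ∈ s, a w • v w) = 0 := by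
      rw [inner_sum]
      apply Finset.sum_eq_zero
      intro w hw
      rw [inner_smul_left, inner_smul_right, hv z w (by rintro rfl; exact hz hw)]
      simp
    have := norm_add_sq_eq_norm_sq_add_norm_sq_of_inner_eq_zero _ _ h0
    rw [pow_two, this, norm_smul]
    ring

/-- The vector of an approximant converges. -/
theorem sb_tendsto {H : Type} [NormedAddCommGroup H] [InnerProductSpace ℂ H]
    (ι : (ℤ → ℂ) →ₗ[ℂ] H) (S : H →ₗᵢ[ℂ] H)
    (hS : ∀ f : ℤ → ℂ, Bd f → ι (fun x => f (x + 1)) = S (ι f)) (P : Circle → H →L[ℂ] H)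
    (hlim : ∀ z h, Tendsto (fun N : ℕ => (N : ℂ)⁻¹ • ∑ a ∈ Finset.range N,
        ch z (-(a : ℤ)) • (⇑S)^[a] h) atTop (𝓝 (P z h))) (K : Ker) (f : ℤ → ℝ) (hf : Bd f) :
    Tendsto (fun N : ℕ => ι (fun x => (K.app N f x : ℂ))) atTop
      (𝓝 (∑ z ∈ K.Z, (K.c z : ℂ) • P z (ι (fun y => (f y : ℂ))))) := by
  have e : ∀ N : ℕ, ι (fun x => (K.app N f x : ℂ)) = ∑ z ∈ K.Z, (K.c z : ℂ) •
      ((N : ℂ)⁻¹ • ∑ a ∈ Finset.range N, ch z (-(a : ℤ)) • (⇑S)^[a] (ι (fun y => (f y : ℂ)))) := by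
    intro N
    have e1 : (fun x => (K.app N f x : ℂ)) =
        ∑ z ∈ K.Z, (K.c z : ℂ) • tav z N (fun y => (f y : ℂ)) := by
      ext x
      rw [app_eq]
      simp [Finset.sum_apply]
    rw [e1, map_sum]
    refine Finset.sum_congr rfl (fun z _ => ?_)
    rw [map_smul, iota_tav ι S hS _ hf.ofReal]
  simp_rw [e]
  exact tendsto_finsetSum _ (fun z _ => (hlim z _).const_smul _)

theorem sb_bd (K : Ker) (N : ℕ) (f : ℤ → ℝ) (hf : Bd f) : Bd (K.app N f) := by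
  unfold Ker.app
  exact (Bd.sum _ (fun z _ => (Bd.const _).mul (Bd_tav z N hf.ofReal))).re

/-- The limits of two approximants are close. -/
theorem sb_close {H : Type} [NormedAddCommGroup H] [InnerProductSpace ℂ H] (v : Circle → H)
    (hv : ∀ z w, z ≠ w → inner ℂ (v z) (v w) = 0) (hb : ∀ Λ : Finset Circle,
      ∑ z ∈ Λ, ‖v z‖ ^ 2 ≤ 1) (τ : ℝ) (hτ : 0 < τ) (Λ : Finset Circle)
    (hΛ : ∀ Λ' : Finset Circle, Disjoint Λ Λ' → ∑ z ∈ Λ', ‖v z‖ ^ 2 ≤ τ ^ 2 / 16)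
    (K K' : Ker) (h1 : ∀ z ∈ Λ, 1 - τ / 2 ≤ K.c z) (h2 : ∀ z ∈ Λ, 1 - τ / 2 ≤ K'.c z) :
    ‖∑ z ∈ K.Z, (K.c z : ℂ) • v z - ∑ z ∈ K'.Z, (K'.c z : ℂ) • v z‖ ≤ 3 / 4 * τ := by
  classical
  set W : Finset Circle := K.Z ∪ K'.Z with hW
  have e1 : ∑ z ∈ K.Z, (K.c z : ℂ) • v z = ∑ z ∈ W, (K.c z : ℂ) • v z := by
    refine Finset.sum_subset Finset.subset_union_left (fun z _ hz => ?_)
    rw [K.supp z hz]; simp
  have e2 : ∑ z ∈ K'.Z, (K'.c z : ℂ) • v z = ∑ z ∈ W, (K'.c z : ℂ) • v z := by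
    refine Finset.sum_subset Finset.subset_union_right (fun z _ hz => ?_)
    rw [K'.supp z hz]; simp
  have e3 : ∑ z ∈ W, (K.c z : ℂ) • v z - ∑ z ∈ W, (K'.c z : ℂ) • v z =
      ∑ z ∈ W, ((K.c z - K'.c z : ℝ) : ℂ) • v z := by
    rw [← Finset.sum_sub_distrib]
    refine Finset.sum_congr rfl (fun z _ => ?_)
    rw [← sub_smul]
    push_cast
    rfl
  rw [e1, e2, e3]
  have hsq : ‖∑ z ∈ W, ((K.c z - K'.c z : ℝ) : ℂ) • v z‖ ^ 2 ≤ (3 / 4 * τ) ^ 2 := by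
    rw [sb_pyth v hv (fun z => ((K.c z - K'.c z : ℝ) : ℂ)) W]
    rw [← Finset.sum_filter_add_sum_filter_not W (fun z => z ∈ Λ)]
    have b1 : ∑ z ∈ W.filter (fun z => z ∈ Λ), ‖((K.c z - K'.c z : ℝ) : ℂ)‖ ^ 2 * ‖v z‖ ^ 2 ≤
        (τ / 2) ^ 2 := by
      calc ∑ z ∈ W.filter (fun z => z ∈ Λ), ‖((K.c z - K'.c z : ℝ) : ℂ)‖ ^ 2 * ‖v z‖ ^ 2
          ≤ ∑ z ∈ W.filter (fun z => z ∈ Λ), (τ / 2) ^ 2 * ‖v z‖ ^ 2 := by
            refine Finset.sum_le_sum (fun z hz => ?_)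
            have hz' : z ∈ Λ := (Finset.mem_filter.mp hz).2
            refine mul_le_mul_of_nonneg_right ?_ (by positivity)
            rw [Complex.norm_real, Real.norm_eq_abs]
            refine pow_le_pow_left₀ (abs_nonneg _) ?_ 2
            rw [abs_le]
            have a1 := h1 z hz'
            have a2 := h2 z hz'
            have a3 := K.le_one z
            have a4 := K'.le_one z
            constructor <;> linarith
        _ = (τ / 2) ^ 2 * ∑ z ∈ W.filter (fun z => z ∈ Λ), ‖v z‖ ^ 2 := by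
            rw [Finset.mul_sum]
        _ ≤ (τ / 2) ^ 2 * 1 := mul_le_mul_of_nonneg_left (hb _) (by positivity)
        _ = (τ / 2) ^ 2 := mul_one _
    have b2 : ∑ z ∈ W.filter (fun z => ¬ z ∈ Λ), ‖((K.c z - K'.c z : ℝ) : ℂ)‖ ^ 2 * ‖v z‖ ^ 2 ≤
        τ ^ 2 / 16 := by
      calc ∑ z ∈ W.filter (fun z => ¬ z ∈ Λ), ‖((K.c z - K'.c z : ℝ) : ℂ)‖ ^ 2 * ‖v z‖ ^ 2
          ≤ ∑ z ∈ W.filter (fun z => ¬ z ∈ Λ), ‖v z‖ ^ 2 := by
            refine Finset.sum_le_sum (fun z _ => ?_)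
            refine mul_le_of_le_one_left (by positivity) ?_
            rw [Complex.norm_real, Real.norm_eq_abs]
            refine pow_le_one₀ (abs_nonneg _) ?_
            rw [abs_le]
            have a1 := K.nonneg z
            have a2 := K'.nonneg z
            have a3 := K.le_one z
            have a4 := K'.le_one z
            constructor <;> linarith
        _ ≤ τ ^ 2 / 16 := by
            refine hΛ _ ?_
            rw [Finset.disjoint_left]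
            intro z hz hz'
            exact (Finset.mem_filter.mp hz').2 hz
    nlinarith [sq_nonneg τ]
  exact le_of_sq_le_sq hsq (by positivity) |>.trans le_rfl

theorem app_close (m : Mn ℤ) (hm : m.Inv) {f : ℤ → ℝ} (hf : ∀ x, 0 ≤ f x ∧ f x ≤ 1) (τ : ℝ)
    (hτ : 0 < τ) : ∃ Λ : Finset Circle, ∀ K' : Ker, (∀ z ∈ Λ, 1 - τ / 2 ≤ K'.c z) →
      ∃ N₀' : ℕ, ∀ N' ≥ N₀', ∀ K : Ker, (∀ z ∈ Λ, 1 - τ / 2 ≤ K.c z) → ∃ N₀ : ℕ, ∀ N ≥ N₀,
        nrm m (fun x => K.app N f x - K'.app N' f x) ≤ τ := by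
  obtain ⟨H, i1, i2, i3, ι, S, -, hnorm, hshift⟩ := gns m hm
  obtain ⟨P, hlim, -, -, -, -, horth, hbes⟩ := spectral S
  have hfb : Bd f := Bd.of_mem_Icc hf
  set h : H := ι (fun y => (f y : ℂ)) with hh
  have hh1 : ‖h‖ ≤ 1 := by
    rw [hh, hnorm _ hfb.ofReal]
    refine nrm_le m 1 zero_le_one (fun x => ?_)
    rw [Complex.norm_real, Real.norm_eq_abs, abs_le]
    constructor <;> linarith [(hf x).1, (hf x).2]
  obtain ⟨Λ, hΛ⟩ := tail_small (fun z => ⇑(P z)) h (fun Λ => hbes Λ h) (τ ^ 2 / 16) (by positivity)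
  have hb : ∀ Λ : Finset Circle, ∑ z ∈ Λ, ‖P z h‖ ^ 2 ≤ 1 := by
    intro Λ
    refine (hbes Λ h).trans ?_
    exact pow_le_one₀ (norm_nonneg _) hh1
  have hor : ∀ z w, z ≠ w → inner ℂ (P z h) (P w h) = 0 := fun z w hzw => horth z w h h hzw
  have hev : ∀ K : Ker, ∃ N₀ : ℕ, ∀ N ≥ N₀, ‖ι (fun x => (K.app N f x : ℂ)) -
      ∑ z ∈ K.Z, (K.c z : ℂ) • P z h‖ ≤ τ / 8 := by
    intro K
    have h1 := sb_tendsto ι S hshift P hlim K f hfb
    have h2 := (Metric.tendsto_atTop.mp h1) (τ / 8) (by positivity)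
    obtain ⟨N₀, hN₀⟩ := h2
    refine ⟨N₀, fun N hN => ?_⟩
    have := hN₀ N hN
    rw [dist_eq_norm] at this
    exact this.le
  refine ⟨Λ, fun K' hK' => ?_⟩
  obtain ⟨N₀', hN₀'⟩ := hev K'
  refine ⟨N₀', fun N' hN' K hK => ?_⟩
  obtain ⟨N₀, hN₀⟩ := hev K
  refine ⟨N₀, fun N hN => ?_⟩
  have a1 := hN₀ N hN
  have a2 := hN₀' N' hN'
  have a3 := sb_close (fun z => P z h) hor hb τ hτ Λ hΛ K K' hK hK'
  have hbd : Bd (fun x => K.app N f x - K'.app N' f x) := (sb_bd K N f hfb).sub (sb_bd K' N' f hfb)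
  rw [← nrm_ofReal, ← hnorm _ hbd.ofReal]
  have e : (fun x => ((K.app N f x - K'.app N' f x : ℝ) : ℂ)) =
      (fun x => (K.app N f x : ℂ)) - fun x => (K'.app N' f x : ℂ) := by
    ext x; simp
  rw [e, map_sub]
  set u := ι (fun x => (K.app N f x : ℂ))
  set u' := ι (fun x => (K'.app N' f x : ℂ))
  set l := ∑ z ∈ K.Z, (K.c z : ℂ) • P z h
  set l' := ∑ z ∈ K'.Z, (K'.c z : ℂ) • P z h
  have e2 : u - u' = (u - l) + (l - l') - (u' - l') := by abel
  rw [e2]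
  refine (norm_sub_le _ _).trans ?_
  have := norm_add_le (u - l) (l - l')
  linarith


end Pool.Agent.HOM
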