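import Pool.Agent.Lib_helper33.HOM.Defs
import Pool.Agent.Lib_helper33.HOMF.HA
import Pool.Agent.Lib_helper33.HOMF.HB
import Pool.Agent.Lib_helper33.HOMF.KC
import Pool.Agent.Lib_helper33.HOMF.MB
import Pool.Agent.Lib_helper33.HOMF.MD

set_option autoImplicit false

namespace Pool.Agent.HOM

open Filter Topology
open scoped BigOperators ComplexConjugate

theorem sc_iter {H : Type} [NormedAddCommGroup H] [InnerProductSpace ℂ H] (S : H →ₗᵢ[ℂ] H)
    (a : ℕ) (h : H) : ‖(⇑S)^[a] h‖ = ‖h‖ := by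
  induction a with
  | zero => rfl
  | succ a ih => rw [Function.iterate_succ_apply', S.norm_map, ih]

theorem sc_iter_add {H : Type} [NormedAddCommGroup H] [InnerProductSpace ℂ H] (S : H →ₗᵢ[ℂ] H)
    (a : ℕ) (h h' : H) : (⇑S)^[a] (h + h') = (⇑S)^[a] h + (⇑S)^[a] h' := by
  induction a with
  | zero => rfl
  | succ a ih => rw [Function.iterate_succ_apply', Function.iterate_succ_apply',
      Function.iterate_succ_apply', ih, map_add]

theorem sc_avg_le {H : Type} [NormedAddCommGroup H] [InnerProductSpace ℂ H] (S : H →ₗᵢ[ℂ] H)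
    (z : Circle) (N : ℕ) (h : H) :
    ‖(N : ℂ)⁻¹ • ∑ a ∈ Finset.range N, ch z (-(a : ℤ)) • (⇑S)^[a] h‖ ≤ ‖h‖ := by
  rw [norm_smul]
  have h1 : ‖∑ a ∈ Finset.range N, ch z (-(a : ℤ)) • (⇑S)^[a] h‖ ≤ N * ‖h‖ := by
    refine (norm_sum_le _ _).trans ?_
    refine (Finset.sum_le_sum (g := fun _ => ‖h‖) fun a _ => ?_).trans ?_
    · rw [norm_smul, norm_ch, one_mul, sc_iter]
    · simp
  rcases Nat.eq_zero_or_pos N with hN | hN
  · subst hN
    simp
  · have hN' : (0:ℝ) < N := by exact_mod_cast hN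
    rw [norm_inv, Complex.norm_natCast]
    calc (N:ℝ)⁻¹ * ‖∑ a ∈ Finset.range N, ch z (-(a : ℤ)) • (⇑S)^[a] h‖
        ≤ (N:ℝ)⁻¹ * (N * ‖h‖) := mul_le_mul_of_nonneg_left h1 (by positivity)
      _ = ‖h‖ := by field_simp

theorem sc_avg_add {H : Type} [NormedAddCommGroup H] [InnerProductSpace ℂ H] (S : H →ₗᵢ[ℂ] H)
    (z : Circle) (N : ℕ) (h h' : H) :
    (N : ℂ)⁻¹ • ∑ a ∈ Finset.range N, ch z (-(a : ℤ)) • (⇑S)^[a] (h + h') =
      (N : ℂ)⁻¹ • ∑ a ∈ Finset.range N, ch z (-(a : ℤ)) • (⇑S)^[a] h +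
      (N : ℂ)⁻¹ • ∑ a ∈ Finset.range N, ch z (-(a : ℤ)) • (⇑S)^[a] h' := by
  rw [← smul_add, ← Finset.sum_add_distrib]
  congr 1
  refine Finset.sum_congr rfl fun a _ => ?_
  rw [sc_iter_add, smul_add]

theorem app_uni (m : Mn ℤ) (hm : m.Inv) {f : ℤ → ℝ} (hf : ∀ x, 0 ≤ f x ∧ f x ≤ 1) (η : ℝ)
    (hη : 0 < η) : ∃ Λ : Finset Circle, ∀ K : Ker, (∀ z ∈ Λ, 1 - η / 2 ≤ K.c z) →
      ∃ N₀ : ℕ, ∀ N ≥ N₀, ∃ N₁ : ℕ, 0 < N₁ ∧
        Uni m N₁ η (fun x => ((f x - K.app N f x : ℝ) : ℂ)) := by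
  classical
  obtain ⟨H, _, _, _, ι, S, -, hnorm, hshift⟩ := gns m hm
  obtain ⟨P, hP1, -, hP3, hP4, hP5, -, hP7⟩ := spectral S
  set fc : ℤ → ℂ := fun y => (f y : ℂ) with hfc
  have hfcB : Bd fc := (Bd.of_mem_Icc hf).ofReal
  set h : H := ι fc with hh
  have hh1 : ‖h‖ ≤ 1 := by
    rw [hh, hnorm fc hfcB]
    refine nrm_le m 1 zero_le_one fun x => ?_
    rw [hfc]
    simp only
    rw [Complex.norm_real, Real.norm_eq_abs, abs_le]
    have := hf x
    constructor <;> linarith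
  obtain ⟨Λ, hΛ⟩ := tail_small (fun z => ⇑(P z)) h (fun Λ => hP7 Λ h) ((η / 2) ^ 2) (by positivity)
  refine ⟨Λ, fun K hK => ?_⟩
  have hsmall : ∀ z, z ∉ Λ → ‖P z h‖ ≤ η / 2 := by
    intro z hz
    have := hΛ {z} (by simpa using hz)
    rw [Finset.sum_singleton] at this
    exact (sq_le_sq₀ (norm_nonneg _) (by positivity)).1 this
  set U : H := h - ∑ w ∈ K.Z, (K.c w : ℂ) • P w h with hU
  have hPU : ∀ z, P z U = ((1 - K.c z : ℝ) : ℂ) • P z h := by
    intro z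
    rw [hU, map_sub, map_sum]
    have : ∑ w ∈ K.Z, P z ((K.c w : ℂ) • P w h) = (K.c z : ℂ) • P z h := by
      by_cases hz : z ∈ K.Z
      · rw [Finset.sum_eq_single z]
        · rw [map_smul, hP4]
        · intro w _ hw
          rw [map_smul, hP5 z w h (Ne.symm hw), smul_zero]
        · intro h'
          exact absurd hz h'
      · rw [K.supp z hz, Finset.sum_eq_zero]
        · simp
        · intro w hw
          rw [map_smul, hP5 z w h (fun h' => hz (h' ▸ hw)), smul_zero]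
    rw [this]
    push_cast
    rw [sub_smul, one_smul]
  have hPUn : ∀ z, ‖P z U‖ ≤ η / 2 := by
    intro z
    have h0 : 0 ≤ 1 - K.c z := by linarith [K.le_one z]
    have h1 : 1 - K.c z ≤ 1 := by linarith [K.nonneg z]
    rw [hPU, norm_smul, Complex.norm_real, Real.norm_eq_abs, abs_of_nonneg h0]
    by_cases hz : z ∈ Λ
    · have h2 := hK z hz
      calc (1 - K.c z) * ‖P z h‖ ≤ (η / 2) * 1 :=
            mul_le_mul (by linarith) ((hP3 z h).trans hh1) (norm_nonneg _) (by positivity)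
        _ = η / 2 := mul_one _
    · calc (1 - K.c z) * ‖P z h‖ ≤ 1 * (η / 2) :=
            mul_le_mul h1 (hsmall z hz) (norm_nonneg _) zero_le_one
        _ = η / 2 := one_mul _
  obtain ⟨N₁, hN₁, hN₁'⟩ := dini S U (3 * η / 4) (by
    intro z
    have h1 := (hP1 z U).norm
    have h2 : ‖P z U‖ < 3 * η / 4 := lt_of_le_of_lt (hPUn z) (by linarith)
    obtain ⟨N, hN, hN'⟩ := ((h1.eventually (gt_mem_nhds h2)).and (eventually_gt_atTop 0)).exists
    exact ⟨N, hN', hN⟩)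
  have hlim : Tendsto (fun N : ℕ => h - ∑ w ∈ K.Z, (K.c w : ℂ) • ι (tav w N fc)) atTop
      (𝓝 U) := by
    refine tendsto_const_nhds.sub (tendsto_finsetSum _ fun w _ => ?_)
    refine Tendsto.const_smul ?_ _
    have := hP1 w h
    refine this.congr fun N => ?_
    rw [iota_tav ι S hshift fc hfcB]
  have hev : ∀ᶠ N : ℕ in atTop, ‖(h - ∑ w ∈ K.Z, (K.c w : ℂ) • ι (tav w N fc)) - U‖ < η / 4 := by
    have := (hlim.sub_const U).norm
    rw [sub_self, norm_zero] at this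
    exact this.eventually (gt_mem_nhds (by positivity))
  obtain ⟨N₀, hN₀⟩ := eventually_atTop.1 hev
  refine ⟨N₀, fun N hN => ⟨N₁, hN₁, fun z => ?_⟩⟩
  have happ : (fun x => ((K.app N f x : ℝ) : ℂ)) = ∑ w ∈ K.Z, (K.c w : ℂ) • tav w N fc := by
    ext x
    rw [app_eq, Finset.sum_apply]
    rfl
  have hBapp : Bd (fun x => ((K.app N f x : ℝ) : ℂ)) := by
    have h1 : Bd (fun x => ∑ w ∈ K.Z, (K.c w : ℂ) * tav w N fc x) :=
      Bd.sum _ fun w _ => (Bd.const _).mul (Bd_tav w N hfcB)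
    have h2 : (fun x => ((K.app N f x : ℝ) : ℂ)) = fun x => ∑ w ∈ K.Z, (K.c w : ℂ) * tav w N fc x := by
      ext x
      exact app_eq K N f x
    rw [h2]
    exact h1
  set g : ℤ → ℂ := fun x => ((f x - K.app N f x : ℝ) : ℂ) with hg
  have hg' : g = fc - ∑ w ∈ K.Z, (K.c w : ℂ) • tav w N fc := by
    rw [← happ]
    ext x
    simp [hg, hfc]
  have hgB : Bd g := by
    have : g = fun x => fc x - ((K.app N f x : ℝ) : ℂ) := by
      ext x
      simp [hg, hfc]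
    rw [this]
    exact hfcB.sub hBapp
  have hιg : ι g = h - ∑ w ∈ K.Z, (K.c w : ℂ) • ι (tav w N fc) := by
    rw [hg', map_sub, map_sum]
    congr 1
    exact Finset.sum_congr rfl fun w _ => map_smul _ _ _
  rw [← hnorm _ (Bd_tav z N₁ hgB), iota_tav ι S hshift g hgB]
  have e1 : ι g = U + (ι g - U) := by abel
  rw [e1, sc_avg_add]
  refine (norm_add_le _ _).trans ?_
  have h2 := hN₁' z
  have h3 := sc_avg_le S z N₁ (ι g - U)
  have h4 : ‖ι g - U‖ < η / 4 := by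
    rw [hιg]
    exact hN₀ N hN
  linarith

end Pool.Agent.HOM

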