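import Pool.Agent.Lib_helper33.HOM.Defs
import Pool.Agent.Lib_helper33.HOMF.KB
import Pool.Agent.Lib_helper33.HOMF.KC
import Pool.Agent.Lib_helper33.HOMF.SA
import Pool.Agent.Lib_helper33.HOMF.SB
import Pool.Agent.Lib_helper33.HOMF.SC

set_option autoImplicit false

namespace Pool.Agent.HOM

open Filter Topology
open scoped BigOperators ComplexConjugate

/-- `Λ` from `app_close`. Given `K'`, `N'` and `η`: let `K` be a kernel (`ker_exists`) with
`c ≥ 1 - min τ η / 2` on `Λ` and on the set of `app_uni` for `η`. `Z = K.Z`, `c = K.c`; for `τ'` take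
`N` large, `E z = tav z N f`, `F = K.app N f` (`tav_eig` for the finitely many `z ∈ Z`, `app_eq`,
`app_nonneg`, `app_le` with `θ = 1`, `app_close`, `app_uni`). -/
theorem fa_app (m : Mn ℤ) (hm : m.Inv) {f : ℤ → ℝ} (hf : ∀ x, 0 ≤ f x ∧ f x ≤ 1) (τ : ℝ)
    (hτ : 0 < τ) : ∃ Λ : Finset Circle, ∀ K' : Ker, (∀ z ∈ Λ, 1 - τ / 2 ≤ K'.c z) →
      ∃ N₀' : ℕ, ∀ N' ≥ N₀', FA m f (K'.app N' f) τ := by
  classical
  obtain ⟨Λ, hΛ⟩ := app_close m hm hf τ hτ
  refine ⟨Λ, fun K' hK' => ?_⟩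
  obtain ⟨N₀', hN₀'⟩ := hΛ K' hK'
  refine ⟨N₀', fun N' hN' => ?_⟩
  intro η hη
  obtain ⟨Λ', hΛ'⟩ := app_uni m hm hf η hη
  obtain ⟨K, hK⟩ := ker_exists (Λ ∪ Λ') (min τ η / 2) (by positivity)
  have hmt : min τ η ≤ τ := min_le_left _ _
  have hme : min τ η ≤ η := min_le_right _ _
  have hK1 : ∀ z ∈ Λ, 1 - τ / 2 ≤ K.c z := fun z hz => by
    have := hK z (Finset.mem_union_left _ hz)
    linarith
  have hK2 : ∀ z ∈ Λ', 1 - η / 2 ≤ K.c z := fun z hz => by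
    have := hK z (Finset.mem_union_right _ hz)
    linarith
  obtain ⟨A, hA⟩ := hN₀' N' hN' K hK1
  obtain ⟨B, hB⟩ := hΛ' K hK2
  obtain ⟨C, hC0, hC⟩ := app_le K 1 one_pos
  have hfb : Bd (fun y => (f y : ℂ)) := Bd.ofReal (Bd.of_mem_Icc hf)
  have hf1 : ∀ x, ‖(f x : ℂ)‖ ≤ 1 := fun x => by
    rw [Complex.norm_real, Real.norm_eq_abs, abs_of_nonneg (hf x).1]
    exact (hf x).2
  refine ⟨K.Z, K.c, fun τ' hτ' => ?_⟩
  have hex : ∀ z : Circle, ∃ N₀ : ℕ, 0 < N₀ ∧ ∀ N ≥ N₀, Eig m z τ' (tav z N (fun y => (f y : ℂ))) :=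
    fun z => tav_eig m hm hfb z τ' hτ'
  choose D hD0 hD using hex
  set N : ℕ := max (max A B) (max C (∑ z ∈ K.Z, D z)) with hN
  have hNA : A ≤ N := le_trans (le_max_left _ _) (le_max_left _ _)
  have hNB : B ≤ N := le_trans (le_max_right _ _) (le_max_left _ _)
  have hNC : C ≤ N := le_trans (le_max_left _ _) (le_max_right _ _)
  have hND : ∀ z ∈ K.Z, D z ≤ N := fun z hz =>
    le_trans (Finset.single_le_sum (f := D) (fun _ _ => Nat.zero_le _) hz)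
      (le_trans (le_max_right _ _) (le_max_right _ _))
  obtain ⟨N₁, hN₁, hU⟩ := hB N hNB
  refine ⟨fun z => tav z N (fun y => (f y : ℂ)), K.app N f, N₁, hN₁, ?_, hA N hNA, hU⟩
  refine ⟨K.nonneg, ?_, ?_, ?_, ?_⟩
  · intro z _ x
    exact norm_tav_le z N 1 zero_le_one hf1 x
  · intro z hz
    exact hD z N (hND z hz)
  · intro x
    exact app_eq K N f x
  · intro x
    refine ⟨app_nonneg K N (fun y => (hf y).1) x, ?_⟩
    have := hC N hNC f hf x
    linarith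


end Pool.Agent.HOM
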