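import Pool.Agent.Lib_helper33.HOM.Defs
import Pool.Agent.Lib_helper33.HOMF.KC
import Pool.Agent.Lib_helper33.HOMF.SF

/-!
# Half of the multiples, block SE: counting along a progression
-/

set_option autoImplicit false

namespace Pool.Agent.HOM

open Filter Topology
open scoped BigOperators ComplexConjugate

theorem se_nat (a w : Circle) (n : ℕ) :
    ‖ch a n - ch w n‖ ≤ (n : ℝ) * ‖(a : ℂ) - (w : ℂ)‖ := by
  induction n with
  | zero => simp
  | succ n ih =>
    have e : ch a ((n + 1 : ℕ) : ℤ) - ch w ((n + 1 : ℕ) : ℤ) =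
        ch a n * ((a : ℂ) - (w : ℂ)) + (ch a n - ch w n) * (w : ℂ) := by
      push_cast
      rw [ch_add, ch_add, ch_one, ch_one]
      ring
    rw [e]
    refine (norm_add_le _ _).trans ?_
    rw [norm_mul, norm_mul, norm_ch, Circle.norm_coe]
    push_cast
    linarith

theorem se_int (a w : Circle) (j : ℤ) :
    ‖ch a j - ch w j‖ ≤ |(j : ℝ)| * ‖(a : ℂ) - (w : ℂ)‖ := by
  obtain ⟨n, rfl | rfl⟩ := Int.eq_nat_or_neg j
  · have := se_nat a w n
    simpa using this
  · rw [ch_neg, ch_neg, ← map_sub, RCLike.norm_conj]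
    have := se_nat a w n
    simpa using this

theorem se_geom (w : Circle) (p : ℕ) (h1 : w ^ p = 1) (h2 : w ≠ 1) :
    ∑ j ∈ Finset.range p, ch w (j : ℤ) = 0 := by
  have h3 : (w : ℂ) ≠ 1 := by
    intro h
    apply h2
    apply Circle.ext
    simpa using h
  have h4 : (w : ℂ) ^ p = 1 := by
    have := congrArg (fun x : Circle => (x : ℂ)) h1
    simpa using this
  have e : ∀ j ∈ Finset.range p, ch w (j : ℤ) = (w : ℂ) ^ j := by
    intro j _
    rw [ch_eq, zpow_natCast]
  rw [Finset.sum_congr rfl e, geom_sum_eq h3, h4]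
  simp

theorem se_per (w : Circle) (p : ℕ) (h1 : w ^ p = 1) (j : ℤ) : ch w (j - p) = ch w j := by
  have h4 : ch w (p : ℤ) = 1 := by
    rw [ch, zpow_natCast, h1]
    rfl
  have : ch w j = ch w (j - p) * ch w p := by
    rw [← ch_add]
    congr 1
    ring
  rw [this, h4, mul_one]

/-- the counting argument -/
theorem se_count (p : ℕ) (θ d : ℝ) (hθ : 0 < θ) (g : ℕ → ℝ) (hg : ∀ j < p, g j ≤ 1 + θ / 2)
    (hs : ∑ j ∈ Finset.range p, g j = p * d) :
    (d - 4 * θ) * p ≤ (((Finset.range p).filter (fun j => 5 * θ / 2 ≤ g j)).card : ℝ) := by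
  set J := (Finset.range p).filter (fun j => 5 * θ / 2 ≤ g j) with hJ
  have hJp : (J.card : ℝ) ≤ p := by
    have : J.card ≤ (Finset.range p).card := Finset.card_le_card (Finset.filter_subset _ _)
    rw [Finset.card_range] at this
    exact_mod_cast this
  have h1 : ∑ j ∈ Finset.range p, g j ≤
      ∑ j ∈ Finset.range p, ((if 5 * θ / 2 ≤ g j then (1 + θ / 2) else 0) + 5 * θ / 2) := by
    refine Finset.sum_le_sum fun j hj => ?_
    have := hg j (Finset.mem_range.1 hj)
    split_ifs with h <;> linarith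
  rw [Finset.sum_add_distrib, Finset.sum_const, Finset.card_range, ← Finset.sum_filter,
    Finset.sum_const, hs] at h1
  simp only [nsmul_eq_mul] at h1
  have h2 : (J.card : ℝ) * (θ / 2) ≤ p * (θ / 2) :=
    mul_le_mul_of_nonneg_right hJp (by positivity)
  have h3 : (0 : ℝ) ≤ p := Nat.cast_nonneg p
  nlinarith

theorem cnt_low (K : Ker) (θ : ℝ) (hθ : 0 < θ) (hθ1 : θ ≤ 1) (p : ℕ) (hp : 0 < p) (t : ℤ)
    (ht : (K.M : ℤ) ∣ t)
    (hw : ∀ z ∈ K.Z, ¬ IsOfFinOrder z → ∃ w : Circle, w ^ p = 1 ∧ w ≠ 1 ∧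
      ‖ch z t - w‖ ≤ θ / (8 * (∑ z ∈ K.Z, K.c z + 1)) / p) :
    ∃ N₀ : ℕ, ∀ N ≥ N₀, ∀ f : ℤ → ℝ, (∀ x, 0 ≤ f x ∧ f x ≤ 1) → ∀ y : ℤ,
      (dn K.M N f y - 4 * θ) * p ≤ cnt p t (2 * θ) (K.app (K.M * N) f) y := by
  classical
  have hp0 : (0 : ℝ) < p := Nat.cast_pos.2 hp
  have hM0 : (0 : ℝ) < K.M := Nat.cast_pos.2 K.M_pos
  set S : ℝ := ∑ z ∈ K.Z, K.c z with hS
  have hS0 : 0 ≤ S := Finset.sum_nonneg fun z _ => K.nonneg z
  obtain ⟨N₁, hN₁, happ⟩ := app_le K (θ / 4) (by positivity)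
  obtain ⟨N₂, hN₂⟩ := exists_nat_ge (16 * (S + 1) * p * |(t : ℝ)| / θ)
  refine ⟨max N₁ N₂ + 1, fun N hN f hf y => ?_⟩
  have hN0 : 0 < N := by omega
  have hN1 : N₁ ≤ K.M * N := by
    have : N ≤ K.M * N := Nat.le_mul_of_pos_left N K.M_pos
    omega
  have hMN : 0 < K.M * N := Nat.mul_pos K.M_pos hN0
  have hMN0 : (0 : ℝ) < ((K.M * N : ℕ) : ℝ) := Nat.cast_pos.2 hMN
  -- the auxiliary roots of unity
  choose! w hw1 hw2 hw3 using hw
  have hinf : ∀ z ∈ K.Z, z ^ K.M ≠ 1 → ¬ IsOfFinOrder z := fun z hz h h' => h (K.tors z hz h')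
  set fc : ℤ → ℂ := fun x => (f x : ℂ) with hfc
  have hfc1 : ∀ x, ‖fc x‖ ≤ 1 := by
    intro x
    rw [hfc, Complex.norm_real, Real.norm_eq_abs, abs_le]
    constructor <;> linarith [(hf x).1, (hf x).2]
  set E : Circle → ℂ := fun z => tav z (K.M * N) fc y with hE
  have hE1 : ∀ z, ‖E z‖ ≤ 1 := fun z => norm_tav_le z _ 1 zero_le_one hfc1 y
  set G : ℤ → ℂ := fun j => ∑ z ∈ K.Z, if z ^ K.M = 1 then E z else
    (K.c z : ℂ) * ch (w z) j * E z with hG
  set g : ℤ → ℝ := fun j => (G j).re with hg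
  set h : ℤ → ℝ := K.app (K.M * N) f with hh
  -- the error of the approximation
  have herr : ∀ j : ℤ, |(j : ℝ)| ≤ p → |h (y + j * t) - g j| ≤ θ / 4 := by
    intro j hj
    have e1 : h (y + j * t) - g j = ((h (y + j * t) : ℂ) - G j).re := by
      rw [Complex.sub_re, Complex.ofReal_re]
    rw [e1]
    refine (Complex.abs_re_le_norm _).trans ?_
    rw [hh, app_eq, hG]
    simp only
    rw [← Finset.sum_sub_distrib]
    have hb : ∀ z ∈ K.Z, ‖(K.c z : ℂ) * tav z (K.M * N) fc (y + j * t) -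
        (if z ^ K.M = 1 then E z else (K.c z : ℂ) * ch (w z) j * E z)‖ ≤
        K.c z * (2 * (p * |(t : ℝ)|) / ((K.M * N : ℕ) : ℝ) + θ / (8 * (S + 1))) := by
      intro z hz
      have hc : ‖(K.c z : ℂ)‖ = K.c z := by
        rw [Complex.norm_real, Real.norm_eq_abs, abs_of_nonneg (K.nonneg z)]
      have h1 := tav_shift z (K.M * N) hMN hfc1 y (j * t)
      have h2 : 2 * |((j * t : ℤ) : ℝ)| / ((K.M * N : ℕ) : ℝ) ≤
          2 * (p * |(t : ℝ)|) / ((K.M * N : ℕ) : ℝ) := by
        push_cast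
        rw [abs_mul]
        gcongr
      have h3 : 0 ≤ θ / (8 * (S + 1)) := by positivity
      split_ifs with hz1
      · have hc1 : K.c z = 1 := (K.one z hz1).2
        have hz2 : ch z (j * t) = 1 := by
          obtain ⟨k, rfl⟩ := ht
          have : j * ((K.M : ℤ) * k) = (K.M : ℤ) * (j * k) := by ring
          rw [this, ch, zpow_mul, zpow_natCast, hz1, one_zpow]
          rfl
        rw [hz2, one_mul] at h1
        rw [hc1, Complex.ofReal_one, one_mul, one_mul]
        exact (h1.trans h2).trans (le_add_of_nonneg_right h3)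
      · have h4 : ‖ch z (j * t) - ch (w z) j‖ ≤ θ / (8 * (S + 1)) := by
          rw [mul_comm j t, ← ch_zpow]
          refine (se_int _ _ _).trans ?_
          have h5 := hw3 z hz (hinf z hz hz1)
          have h6 : ((z ^ t : Circle) : ℂ) = ch z t := rfl
          rw [h6]
          calc |(j : ℝ)| * ‖ch z t - (w z : ℂ)‖ ≤ p * (θ / (8 * (S + 1)) / p) := by
                gcongr
            _ = θ / (8 * (S + 1)) := by field_simp
        have e2 : (K.c z : ℂ) * tav z (K.M * N) fc (y + j * t) -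
            (K.c z : ℂ) * ch (w z) j * E z = (K.c z : ℂ) *
              ((tav z (K.M * N) fc (y + j * t) - ch z (j * t) * E z) +
                (ch z (j * t) - ch (w z) j) * E z) := by ring
        rw [e2, norm_mul, hc]
        refine mul_le_mul_of_nonneg_left ((norm_add_le _ _).trans ?_) (K.nonneg z)
        refine add_le_add (h1.trans h2) ?_
        rw [norm_mul]
        calc ‖ch z (j * t) - ch (w z) j‖ * ‖E z‖ ≤ θ / (8 * (S + 1)) * 1 := by
              gcongr
              exact hE1 z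
          _ = θ / (8 * (S + 1)) := mul_one _
    refine (norm_sum_le _ _).trans ((Finset.sum_le_sum hb).trans ?_)
    rw [← Finset.sum_mul, ← hS, mul_add]
    have h5 : S * (2 * (p * |(t : ℝ)|) / ((K.M * N : ℕ) : ℝ)) ≤ θ / 8 := by
      have h6 : 16 * (S + 1) * p * |(t : ℝ)| ≤ θ * ((K.M * N : ℕ) : ℝ) := by
        rw [div_le_iff₀ hθ] at hN₂
        have h7 : (N₂ : ℝ) ≤ ((K.M * N : ℕ) : ℝ) := by
          have : N ≤ K.M * N := Nat.le_mul_of_pos_left N K.M_pos
          exact_mod_cast (by omega : N₂ ≤ K.M * N)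
        nlinarith
      rw [← mul_div_assoc, div_le_iff₀ hMN0]
      have h8 : 0 ≤ p * |(t : ℝ)| := by positivity
      nlinarith
    have h6 : S * (θ / (8 * (S + 1))) ≤ θ / 8 := by
      rw [← mul_div_assoc, div_le_iff₀ (by positivity)]
      nlinarith
    linarith
  -- periodicity
  have hper : ∀ j : ℤ, g (j - p) = g j := by
    intro j
    rw [hg]
    simp only
    congr 1
    rw [hG]
    refine Finset.sum_congr rfl fun z hz => ?_
    split_ifs with hz1
    · rfl
    · rw [se_per (w z) p (hw1 z hz (hinf z hz hz1))]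
  -- the average
  have hsum : ∑ j ∈ Finset.range p, g (j : ℤ) = p * dn K.M N f y := by
    have hd := dn_eq K.M N K.M_pos hN0 (K.Z.filter fun z => z ^ K.M = 1) (by
      intro z
      rw [Finset.mem_filter]
      exact ⟨fun h => h.2, fun h => ⟨(K.one z h).1, h⟩⟩) f y
    have e1 : ∑ j ∈ Finset.range p, G (j : ℤ) = p * (dn K.M N f y : ℂ) := by
      rw [hG]
      simp only
      rw [Finset.sum_comm]
      have e2 : ∀ z ∈ K.Z, ∑ j ∈ Finset.range p, (if z ^ K.M = 1 then E z else
          (K.c z : ℂ) * ch (w z) (j : ℤ) * E z) = if z ^ K.M = 1 then p * E z else 0 := by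
        intro z hz
        split_ifs with hz1
        · simp
        · rw [← Finset.sum_mul, ← Finset.mul_sum,
            se_geom (w z) p (hw1 z hz (hinf z hz hz1)) (hw2 z hz (hinf z hz hz1))]
          simp
      rw [Finset.sum_congr rfl e2, ← Finset.sum_filter, ← Finset.mul_sum, ← hd]
    have e3 := congrArg Complex.re e1
    rw [Complex.re_sum] at e3
    rw [hg]
    simp only
    rw [e3, ← Complex.ofReal_natCast, ← Complex.ofReal_mul, Complex.ofReal_re]
  have hup : ∀ j < p, g (j : ℤ) ≤ 1 + θ / 2 := by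
    intro j hj
    have h1 := herr (j : ℤ) (by
      rw [Int.cast_natCast, abs_of_nonneg (Nat.cast_nonneg j)]
      exact_mod_cast hj.le)
    have h2 := happ _ hN1 f hf (y + j * t)
    rw [abs_le] at h1
    rw [← hh] at h2
    linarith [h1.1]
  have hcard := se_count p θ (dn K.M N f y) hθ (fun j => g (j : ℤ)) hup hsum
  refine hcard.trans ?_
  have hsub : (Finset.range p).filter (fun j : ℕ => 5 * θ / 2 ≤ g (j : ℤ)) ⊆
      (Finset.range p).filter (fun j : ℕ => 2 * θ ≤ h (y + j * t) ∧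
        2 * θ ≤ h (y + ((j : ℤ) - p) * t)) := by
    intro j hj
    rw [Finset.mem_filter] at hj ⊢
    obtain ⟨hj1, hj2⟩ := hj
    have hj3 := Finset.mem_range.1 hj1
    have h1 := herr (j : ℤ) (by
      rw [Int.cast_natCast, abs_of_nonneg (Nat.cast_nonneg j)]
      exact_mod_cast hj3.le)
    have h2 := herr ((j : ℤ) - p) (by
      push_cast
      rw [abs_le]
      have h5 : (j : ℝ) ≤ p := by exact_mod_cast hj3.le
      have h6 : (0 : ℝ) ≤ j := Nat.cast_nonneg j
      constructor <;> linarith)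
    rw [hper, abs_le] at h2
    rw [abs_le] at h1
    exact ⟨hj1, by linarith [h1.1], by linarith [h2.1]⟩
  have := Finset.card_le_card hsub
  rw [cnt]
  exact_mod_cast this


end Pool.Agent.HOM
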