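import Pool.Agent.Lib_helper33.HOM.Defs
import Pool.Agent.Lib_helper33.HOMF.KB
import Pool.Agent.Lib_helper33.HOMF.KC
import Pool.Agent.Lib_helper33.HOMF.SD
import Pool.Agent.Lib_helper33.HOMF.SE
import Pool.Agent.Lib_helper33.HOMF.SF

set_option autoImplicit false

namespace Pool.Agent.HOM

open Filter Topology
open scoped BigOperators ComplexConjugate

theorem package (m : Mn ℤ) (hm : m.Inv) {f : ℤ → ℝ} (hf : ∀ x, 0 ≤ f x ∧ f x ≤ 1) (τ θ : ℝ)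
    (hτ : 0 < τ) (hθ : 0 < θ) (hθ1 : θ ≤ 1) :
    ∃ (M : ℕ) (Z : Finset Circle) (δ : ℝ), 0 < M ∧ 0 < δ ∧ (∀ z ∈ Z, ¬ IsOfFinOrder z) ∧
      ∀ (p : ℕ) (t : ℤ), 0 < p → (M : ℤ) ∣ t →
        (∀ z ∈ Z, ∃ w : Circle, w ^ p = 1 ∧ w ≠ 1 ∧ ‖ch z t - w‖ ≤ δ / p) →
        ∃ h d : ℤ → ℝ, Pack m f h d M p t τ θ := by
  classical
  obtain ⟨Λ, hΛ⟩ := fa_app m hm hf τ hτ
  obtain ⟨K, hK⟩ := ker_exists Λ (τ / 2) (by positivity)
  obtain ⟨N₀', hN₀'⟩ := hΛ K hK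
  have hS : 0 ≤ ∑ z ∈ K.Z, K.c z := Finset.sum_nonneg fun z _ => K.nonneg z
  refine ⟨K.M, K.Z.filter (fun z => ¬ IsOfFinOrder z), θ / (8 * (∑ z ∈ K.Z, K.c z + 1)),
    K.M_pos, by positivity, fun z hz => (Finset.mem_filter.1 hz).2, ?_⟩
  intro p t hp ht hw
  obtain ⟨N₁, hN₁⟩ := cnt_low K θ hθ hθ1 p hp t ht
    (fun z hz hz' => hw z (Finset.mem_filter.2 ⟨hz, hz'⟩))
  obtain ⟨N₂, hN₂⟩ := dn_shift m hm K.M K.M_pos hf τ hτ
  obtain ⟨N₃, hN₃0, hN₃⟩ := app_le K 1 one_pos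
  have hM1 : 1 ≤ K.M := K.M_pos
  set N := N₀' + N₁ + N₂ + N₃ with hN
  have hNpos : 0 < N := by omega
  have hMN : N ≤ K.M * N := Nat.le_mul_of_pos_left _ K.M_pos
  refine ⟨K.app (K.M * N) f, dn K.M N f, ?_⟩
  have hbd : Bd f := Bd.of_mem_Icc hf
  exact
    { h_rng := fun x => ⟨app_nonneg K _ (fun x => (hf x).1) x, by
        have := hN₃ (K.M * N) (by omega) f hf x
        linarith⟩
      d_rng := fun x => dn_rng K.M N hNpos hf x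
      d_mean := dn_mean m hm K.M N hNpos hbd
      d_shift := fun k hk => hN₂ N (by omega) k hk
      fa := hN₀' (K.M * N) (by omega)
      low := fun y => hN₁ N (by omega) f hf y }


end Pool.Agent.HOM
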