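import Pool.Agent.Lib_helper33.HOM.Defs
import Pool.Agent.Lib_helper33.HOMF.CE
import Pool.Agent.Lib_helper33.HOMF.LA
import Pool.Agent.Lib_helper33.HOMF.LB
import Pool.Agent.Lib_helper33.HOMF.MA
import Pool.Agent.Lib_helper33.HOMF.NC
import Pool.Agent.Lib_helper33.HOMF.QC
import Pool.Agent.Lib_helper33.HOMF.SG

set_option autoImplicit false

namespace Pool.Agent.HOM

open Filter Topology
open scoped BigOperators ComplexConjugate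

theorem za_CI_rng (D : Set ℕ) (v : ℤ) : 0 ≤ CI D v ∧ CI D v ≤ 1 := by
  unfold CI
  split_ifs <;> norm_num

theorem za_infinite {z : Circle} (hz : ¬ IsOfFinOrder z) {n : ℕ} (hn : 0 < n) :
    ¬ IsOfFinOrder (z ^ n) := by
  intro h
  exact hz ((isOfFinOrder_pow.1 h).resolve_right hn.ne')

theorem za_cnt_mono (p : ℕ) (t : ℤ) (F : ℤ → ℝ) (y : ℤ) {θ θ' : ℝ} (h : θ' ≤ θ) :
    cnt p t θ F y ≤ cnt p t θ' F y := by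
  classical
  unfold cnt
  apply Finset.card_le_card
  intro j hj
  simp only [Finset.mem_filter] at hj ⊢
  exact ⟨hj.1, h.trans hj.2.1, h.trans hj.2.2⟩

theorem za_Gd_mono (p : ℕ) (t : ℤ) (F : ℤ → ℝ) (y : ℤ) {ε ε' : ℝ} (h : ε' ≤ ε)
    (hG : Gd p t ε F y) : Gd p t ε' F y := by
  unfold Gd at hG ⊢
  have h1 : (cnt p t (ε / 32) F y : ℝ) ≤ cnt p t (ε' / 32) F y := by
    exact_mod_cast za_cnt_mono p t F y (by linarith)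
  have h2 : (1 / 2 + ε' / 4) * (p : ℝ) ≤ (1 / 2 + ε / 4) * p :=
    mul_le_mul_of_nonneg_right (by linarith) (Nat.cast_nonneg _)
  linarith

theorem za_ind (m : Mn ℤ) {A B : Set ℤ} (h : A ⊆ B) :
    m.L (Set.indicator A 1) ≤ m.L (Set.indicator B 1) := by
  have hb : ∀ S : Set ℤ, Bd (Set.indicator S (1 : ℤ → ℝ)) := fun S =>
    Bd.of_mem_Icc (a := 0) (b := 1) fun x => by
      by_cases hx : x ∈ S <;> simp [hx]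
  refine L_mono m (hb A) (hb B) fun x => ?_
  exact Set.indicator_le_indicator_of_subset h (fun _ => zero_le_one) x

theorem main_key (D : Set ℕ) (k : ℕ) (hD : Pool.Agent.Lib_helper23.PG.HitsBins 4 k D) :
    ∃ K : ℕ, 0 < K ∧ ∀ α β : ℤ, (K : ℤ) ∣ α → (K : ℤ) ∣ β → 0 < β →
      ∀ m : Mn ℤ, m.Inv → m.L (fun x => CI D (α + β * x)) ≤ 1 / 2 := by
  classical
  by_contra hcon
  push Not at hcon
  have hle1 : ∀ (α β : ℤ) (m : Mn ℤ), m.L (fun x => CI D (α + β * x)) ≤ 1 := fun α β m =>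
    L_le m 1 (Bd.of_mem_Icc (a := 0) (b := 1) fun x => za_CI_rng D _)
      (fun x => (za_CI_rng D _).2)
  have hfac : 0 < (4 * k).factorial := Nat.factorial_pos _
  -- first level
  obtain ⟨α₁, β₁, hα₁, hβ₁, hβ₁0, m₁, i₁, hm₁⟩ := hcon _ hfac
  have r₁ : ∀ x : ℤ, 0 ≤ CI D (α₁ + β₁ * x) ∧ CI D (α₁ + β₁ * x) ≤ 1 := fun x => za_CI_rng D _
  obtain ⟨ε₁, hε₁⟩ : ∃ e : ℝ, e = m₁.L (fun x => CI D (α₁ + β₁ * x)) - 1 / 2 := ⟨_, rfl⟩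
  have hε₁0 : 0 < ε₁ := by linarith
  have hε₁2 : ε₁ ≤ 1 / 2 := by linarith [hle1 α₁ β₁ m₁]
  have hmean₁ : 1 / 2 + ε₁ ≤ m₁.L (fun x => CI D (α₁ + β₁ * x)) := by linarith
  obtain ⟨M₁, Z₁, δ₁, hM₁, hδ₁, hZ₁, P₁⟩ := package m₁ i₁ r₁ (ε₁ ^ 2 / 1000) (ε₁ / 32)
    (by positivity) (by positivity) (by linarith)
  -- second level
  have hK₂ : 0 < β₁.toNat * M₁ := Nat.mul_pos (by omega) hM₁
  obtain ⟨α₂, β₂, hα₂, hβ₂, hβ₂0, m₂, i₂, hm₂⟩ := hcon _ hK₂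
  have r₂ : ∀ x : ℤ, 0 ≤ CI D (α₂ + β₂ * x) ∧ CI D (α₂ + β₂ * x) ≤ 1 := fun x => za_CI_rng D _
  obtain ⟨ε₂, hε₂⟩ : ∃ e : ℝ, e = m₂.L (fun x => CI D (α₂ + β₂ * x)) - 1 / 2 := ⟨_, rfl⟩
  have hε₂0 : 0 < ε₂ := by linarith
  have hε₂2 : ε₂ ≤ 1 / 2 := by linarith [hle1 α₂ β₂ m₂]
  have hmean₂ : 1 / 2 + ε₂ ≤ m₂.L (fun x => CI D (α₂ + β₂ * x)) := by linarith
  obtain ⟨M₂, Z₂, δ₂, hM₂, hδ₂, hZ₂, P₂⟩ := package m₂ i₂ r₂ (ε₂ ^ 2 / 1000) (ε₂ / 32)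
    (by positivity) (by positivity) (by linarith)
  -- third level
  have hK₃ : 0 < β₂.toNat * M₂ := Nat.mul_pos (by omega) hM₂
  obtain ⟨α₃, β₃, hα₃, hβ₃, hβ₃0, m₃, i₃, hm₃⟩ := hcon _ hK₃
  have r₃ : ∀ x : ℤ, 0 ≤ CI D (α₃ + β₃ * x) ∧ CI D (α₃ + β₃ * x) ≤ 1 := fun x => za_CI_rng D _
  obtain ⟨ε₃, hε₃⟩ : ∃ e : ℝ, e = m₃.L (fun x => CI D (α₃ + β₃ * x)) - 1 / 2 := ⟨_, rfl⟩
  have hε₃0 : 0 < ε₃ := by linarith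
  have hε₃2 : ε₃ ≤ 1 / 2 := by linarith [hle1 α₃ β₃ m₃]
  have hmean₃ : 1 / 2 + ε₃ ≤ m₃.L (fun x => CI D (α₃ + β₃ * x)) := by linarith
  obtain ⟨M₃, Z₃, δ₃, hM₃, hδ₃, hZ₃, P₃⟩ := package m₃ i₃ r₃ (ε₃ ^ 2 / 1000) (ε₃ / 32)
    (by positivity) (by positivity) (by linarith)
  -- the smallest excess
  obtain ⟨ε, hεdef⟩ : ∃ e : ℝ, e = min ε₁ (min ε₂ ε₃) := ⟨_, rfl⟩
  have hε : 0 < ε := by rw [hεdef]; exact lt_min hε₁0 (lt_min hε₂0 hε₃0)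
  have hεε₁ : ε ≤ ε₁ := by rw [hεdef]; exact min_le_left _ _
  have hεε₂ : ε ≤ ε₂ := by rw [hεdef]; exact (min_le_right _ _).trans (min_le_left _ _)
  have hεε₃ : ε ≤ ε₃ := by rw [hεdef]; exact (min_le_right _ _).trans (min_le_right _ _)
  have hε2 : ε ≤ 1 / 2 := hεε₁.trans hε₁2
  have c₂ : ((β₁.toNat * M₁ : ℕ) : ℤ) = β₁ * M₁ := by
    push_cast; rw [Int.toNat_of_nonneg hβ₁0.le]
  have c₃ : ((β₂.toNat * M₂ : ℕ) : ℤ) = β₂ * M₂ := by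
    push_cast; rw [Int.toNat_of_nonneg hβ₂0.le]
  rw [c₂] at hα₂ hβ₂
  rw [c₃] at hα₃ hβ₃
  obtain ⟨a₂, ha₂⟩ := hα₂
  obtain ⟨b₂, hb₂⟩ := hβ₂
  obtain ⟨a₃, ha₃⟩ := hα₃
  obtain ⟨b₃, hb₃⟩ := hβ₃
  have hM₁' : (0 : ℤ) < M₁ := by exact_mod_cast hM₁
  have hM₂' : (0 : ℤ) < M₂ := by exact_mod_cast hM₂
  have hb₂0 : 0 < b₂ := by
    rcases lt_or_ge 0 b₂ with h | h
    · exact h
    · have : β₂ ≤ 0 := by rw [hb₂]; nlinarith [mul_pos hβ₁0 hM₁']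
      omega
  have hb₃0 : 0 < b₃ := by
    rcases lt_or_ge 0 b₃ with h | h
    · exact h
    · have : β₃ ≤ 0 := by rw [hb₃]; nlinarith [mul_pos hβ₂0 hM₂']
      omega
  -- parameters
  set σ : ℕ := M₁ * b₂.toNat with hσ
  set σ' : ℕ := M₂ * b₃.toNat with hσ'
  set ρ : ℤ := M₁ * a₂ with hρ
  set ρ' : ℤ := M₂ * a₃ with hρ'
  have hσZ : (σ : ℤ) = M₁ * b₂ := by
    rw [hσ]; push_cast; rw [Int.toNat_of_nonneg hb₂0.le]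
  have hσ'Z : (σ' : ℤ) = M₂ * b₃ := by
    rw [hσ']; push_cast; rw [Int.toNat_of_nonneg hb₃0.le]
  have hσ0 : 0 < σ := by
    have : (0:ℤ) < σ := by rw [hσZ]; positivity
    exact_mod_cast this
  have hσ'0 : 0 < σ' := by
    have : (0:ℤ) < σ' := by rw [hσ'Z]; positivity
    exact_mod_cast this
  have eβ₂ : β₂ = β₁ * σ := by rw [hσZ, hb₂]; ring
  have eα₂ : α₂ = β₁ * ρ := by rw [hρ, ha₂]; ring
  have eβ₃ : β₃ = β₂ * σ' := by rw [hσ'Z, hb₃]; ring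
  have eα₃ : α₃ = β₂ * ρ' := by rw [hρ', ha₃]; ring
  have fβ₂ : ((4 * k).factorial : ℤ) ∣ β₂ := by rw [eβ₂]; exact hβ₁.mul_right _
  have fα₂ : ((4 * k).factorial : ℤ) ∣ α₂ := by rw [eα₂]; exact hβ₁.mul_right _
  have fβ₃ : ((4 * k).factorial : ℤ) ∣ β₃ := by rw [eβ₃]; exact fβ₂.mul_right _
  have fα₃ : ((4 * k).factorial : ℤ) ∣ α₃ := by rw [eα₃]; exact fβ₂.mul_right _
  -- the mean of the `K_4` is zero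
  have hnull : T3 m₁ m₂ m₃ ρ ρ' σ σ' (fun x => CI D (α₃ + β₃ * x)) (fun x => CI D (α₂ + β₂ * x))
      (fun x => CI D (α₂ + β₂ * x)) (fun x => CI D (α₁ + β₁ * x)) (fun x => CI D (α₁ + β₁ * x))
      (fun x => CI D (α₁ + β₁ * x)) = 0 := by
    have h := k4null D k hD α₁ α₂ α₃ β₁ β₂ β₃ hβ₁0 hβ₂0 hβ₃0 hα₁ fα₂ fα₃ hβ₁ fβ₂ fβ₃
      m₁ m₂ m₃ i₁ i₂ i₃
    rw [← h]
    unfold T3
    congr 1
    ext v
    congr 2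
    ext u
    beta_reduce
    have e1 : α₂ + β₂ * (u - (ρ' + σ' * v)) = α₂ + β₂ * u - (α₃ + β₃ * v) := by
      rw [eα₃, eβ₃]; ring
    rw [e1]
    congr 2
    ext x
    beta_reduce
    have e2 : α₁ + β₁ * (x - (ρ + σ * u)) = α₁ + β₁ * x - (α₂ + β₂ * u) := by
      rw [eα₂, eβ₂]; ring
    have e3 : α₁ + β₁ * (x - σ * (ρ' + σ' * v)) = α₁ + β₁ * x - (α₃ + β₃ * v) := by
      rw [eα₃, eβ₃, eβ₂]; ring
    rw [e2, e3]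
  -- sampling
  set Θ : Finset Circle := (Z₁.image (fun z => z ^ (σ * σ'))) ∪ (Z₂.image (fun z => z ^ σ')) ∪ Z₃
    with hΘ
  have hΘinf : ∀ z ∈ Θ, ¬ IsOfFinOrder z := by
    intro z hz
    rw [hΘ, Finset.mem_union, Finset.mem_union, Finset.mem_image, Finset.mem_image] at hz
    rcases hz with (⟨w, hw, rfl⟩ | ⟨w, hw, rfl⟩) | hz
    · exact za_infinite (hZ₁ w hw) (Nat.mul_pos hσ0 hσ'0)
    · exact za_infinite (hZ₂ w hw) hσ'0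
    · exact hZ₃ z hz
  obtain ⟨p, hp, hpP, hsamp⟩ := sampling Θ hΘinf M₃ hM₃ ⌈8 / ε⌉₊
  have hp0 : 0 < p := hp.pos
  have hp0' : (0 : ℝ) < p := by exact_mod_cast hp0
  have hpε : 8 / ε < p := (Nat.le_ceil _).trans_lt (by exact_mod_cast hpP)
  set δ : ℝ := min δ₁ (min δ₂ δ₃) / p with hδ
  have hδ0 : 0 < δ := by
    rw [hδ]; exact div_pos (lt_min hδ₁ (lt_min hδ₂ hδ₃)) hp0'
  have hδ1' : δ ≤ δ₁ / p := by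
    rw [hδ]; exact div_le_div_of_nonneg_right (min_le_left _ _) hp0'.le
  have hδ2' : δ ≤ δ₂ / p := by
    rw [hδ]; exact div_le_div_of_nonneg_right ((min_le_right _ _).trans (min_le_left _ _)) hp0'.le
  have hδ3' : δ ≤ δ₃ / p := by
    rw [hδ]; exact div_le_div_of_nonneg_right ((min_le_right _ _).trans (min_le_right _ _)) hp0'.le
  obtain ⟨t, ht0, hMt, ht⟩ := hsamp δ hδ0
  -- the three packages
  have hs₁ : ∀ z ∈ Z₁, ∃ w : Circle, w ^ p = 1 ∧ w ≠ 1 ∧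
      ‖ch z ((σ : ℤ) * ((σ' : ℤ) * t)) - w‖ ≤ δ₁ / p := by
    intro z hz
    have hz' : z ^ (σ * σ') ∈ Θ := by
      rw [hΘ]
      exact Finset.mem_union_left _ (Finset.mem_union_left _ (Finset.mem_image_of_mem _ hz))
    obtain ⟨w, hw1, hw2, hw3⟩ := ht _ hz'
    refine ⟨w, hw1, hw2, ?_⟩
    have e : ch (z ^ (σ * σ')) (t : ℤ) = ch z ((σ : ℤ) * ((σ' : ℤ) * t)) := by
      have := ch_zpow z ((σ * σ' : ℕ) : ℤ) t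
      rw [zpow_natCast] at this
      rw [this]; push_cast; rw [mul_assoc]
    rw [← e]
    exact hw3.trans hδ1'
  have hs₂ : ∀ z ∈ Z₂, ∃ w : Circle, w ^ p = 1 ∧ w ≠ 1 ∧
      ‖ch z ((σ' : ℤ) * t) - w‖ ≤ δ₂ / p := by
    intro z hz
    have hz' : z ^ σ' ∈ Θ := by
      rw [hΘ]
      exact Finset.mem_union_left _ (Finset.mem_union_right _ (Finset.mem_image_of_mem _ hz))
    obtain ⟨w, hw1, hw2, hw3⟩ := ht _ hz'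
    refine ⟨w, hw1, hw2, ?_⟩
    have e : ch (z ^ σ') (t : ℤ) = ch z ((σ' : ℤ) * t) := by
      have := ch_zpow z (σ' : ℤ) t
      rw [zpow_natCast] at this
      rw [this]
    rw [← e]
    exact hw3.trans hδ2'
  have hs₃ : ∀ z ∈ Z₃, ∃ w : Circle, w ^ p = 1 ∧ w ≠ 1 ∧ ‖ch z (t : ℤ) - w‖ ≤ δ₃ / p := by
    intro z hz
    have hz' : z ∈ Θ := by
      rw [hΘ]
      exact Finset.mem_union_right _ hz
    obtain ⟨w, hw1, hw2, hw3⟩ := ht _ hz'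
    exact ⟨w, hw1, hw2, hw3.trans hδ3'⟩
  have dσ : (M₁ : ℤ) ∣ (σ : ℤ) := by rw [hσZ]; exact dvd_mul_right _ _
  have dσ' : (M₂ : ℤ) ∣ (σ' : ℤ) := by rw [hσ'Z]; exact dvd_mul_right _ _
  have dρ : (M₁ : ℤ) ∣ ρ := dvd_mul_right _ _
  have dρ' : (M₂ : ℤ) ∣ ρ' := dvd_mul_right _ _
  obtain ⟨h₁, d₁, Q₁⟩ := P₁ p ((σ : ℤ) * ((σ' : ℤ) * t)) hp0 (dσ.mul_right _) hs₁
  obtain ⟨h₂, d₂, Q₂⟩ := P₂ p ((σ' : ℤ) * t) hp0 (dσ'.mul_right _) hs₂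
  obtain ⟨h₃, d₃, Q₃⟩ := P₃ p (t : ℤ) hp0 (by exact_mod_cast hMt) hs₃
  -- counting
  set κ : ℝ := (ε / 32) ^ 6 * (ε / 8) ^ 3 / (2 * (p : ℝ) ^ 3) with hκ
  have hκ0 : 0 < κ := by rw [hκ]; positivity
  obtain ⟨H, G₀, G₁, F₀, F₁, F₂, rH, rG₀, rG₁, rF₀, rF₁, rF₂, cH, cG₀, cG₁, cF₀, cF₁, cF₂, hT⟩ :=
    count m₁ m₂ m₃ i₁ i₂ i₃ _ _ _ h₁ h₂ h₃ r₁ r₂ r₃ _ _ _ Q₁.fa Q₂.fa Q₃.fa ρ ρ' σ σ'
      hσ0 hσ'0 κ hκ0 hnull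
  -- the lower bound
  have e₃ : ε / 8 ≤ m₃.L (Set.indicator {v | Gd p (t : ℤ) ε H v} 1) := by
    have h := event m₃ i₃ ε₃ hε₃0 hε₃2 _ h₃ d₃ M₃ p hp0 (t : ℤ) Q₃ hmean₃ H H H rH rH rH cH cH cH
      0 0 (dvd_zero _) (dvd_zero _)
    refine le_trans (by linarith) (h.trans (za_ind m₃ ?_))
    intro x hx
    exact za_Gd_mono p _ _ _ hεε₃ hx.1
  have e₂ : ∀ v : ℤ, ε / 8 ≤ m₂.L (Set.indicator {u | Gd p ((σ' : ℤ) * t) ε G₀ u ∧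
      Gd p ((σ' : ℤ) * t) ε G₁ (u - (ρ' + σ' * v))} 1) := by
    intro v
    have dv : (M₂ : ℤ) ∣ -(ρ' + σ' * v) := (dvd_neg).2 (dvd_add dρ' (dσ'.mul_right _))
    have h := event m₂ i₂ ε₂ hε₂0 hε₂2 _ h₂ d₂ M₂ p hp0 ((σ' : ℤ) * t) Q₂ hmean₂ G₀ G₁ G₀
      rG₀ rG₁ rG₀ cG₀ cG₁ cG₀ (-(ρ' + σ' * v)) 0 dv (dvd_zero _)
    refine le_trans (by linarith) (h.trans (za_ind m₂ ?_))
    intro x hx
    exact ⟨za_Gd_mono p _ _ _ hεε₂ hx.1, za_Gd_mono p _ _ _ hεε₂ hx.2.1⟩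
  have e₁ : ∀ u v : ℤ, ε / 8 ≤ m₁.L (Set.indicator {x |
      Gd p ((σ : ℤ) * ((σ' : ℤ) * t)) ε F₀ x ∧
      Gd p ((σ : ℤ) * ((σ' : ℤ) * t)) ε F₁ (x - (ρ + σ * u)) ∧
      Gd p ((σ : ℤ) * ((σ' : ℤ) * t)) ε F₂ (x - σ * (ρ' + σ' * v))} 1) := by
    intro u v
    have du : (M₁ : ℤ) ∣ -(ρ + σ * u) := (dvd_neg).2 (dvd_add dρ (dσ.mul_right _))
    have dv : (M₁ : ℤ) ∣ -(σ * (ρ' + σ' * v)) := (dvd_neg).2 (dσ.mul_right _)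
    have h := event m₁ i₁ ε₁ hε₁0 hε₁2 _ h₁ d₁ M₁ p hp0 ((σ : ℤ) * ((σ' : ℤ) * t)) Q₁ hmean₁
      F₀ F₁ F₂ rF₀ rF₁ rF₂ cF₀ cF₁ cF₂ (-(ρ + σ * u)) (-(σ * (ρ' + σ' * v))) du dv
    refine le_trans (by linarith) (h.trans (za_ind m₁ ?_))
    intro x hx
    exact ⟨za_Gd_mono p _ _ _ hεε₁ hx.1, za_Gd_mono p _ _ _ hεε₁ hx.2.1,
      za_Gd_mono p _ _ _ hεε₁ hx.2.2⟩
  have hlow := lower m₁ m₂ m₃ i₁ i₂ i₃ p hp ε hε hε2 hpε ρ ρ' σ σ' ((σ : ℤ) * ((σ' : ℤ) * t))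
    ((σ' : ℤ) * t) t rfl rfl H G₀ G₁ F₀ F₁ F₂ rH rG₀ rG₁ rF₀ rF₁ rF₂ e₃ e₂ e₁
  have hp3 : 0 < (p : ℝ) ^ 3 := by positivity
  have h1 : (p : ℝ) ^ 3 * T3 m₁ m₂ m₃ ρ ρ' σ σ' H G₀ G₁ F₀ F₁ F₂ ≤ (p : ℝ) ^ 3 * κ :=
    mul_le_mul_of_nonneg_left hT hp3.le
  have h2 : (p : ℝ) ^ 3 * κ = (ε / 32) ^ 6 * (ε / 8) ^ 3 / 2 := by
    rw [hκ]; field_simp
  have h3 : 0 < (ε / 32) ^ 6 * (ε / 8) ^ 3 := by positivity
  linarith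

end Pool.Agent.HOM
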