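import Pool.Agent.Lib_helper33.HOM.Defs
import Pool.Agent.Lib_helper33.HOMF.MC
import Pool.Agent.Lib_helper33.HOMF.ZA

/-!
# Half of the multiples, block ZB: windows
-/

set_option autoImplicit false

namespace Pool.Agent.HOM

open Filter Topology
open scoped BigOperators ComplexConjugate

/-- The pigeonhole principle for residue classes. -/
theorem zb_pigeon (n : ℕ) (hn : 0 < n) (Q : ℕ → ℕ → Prop)
    (h : ∀ L : ℕ, ∃ a N : ℕ, L ≤ N ∧ Q a N) :
    ∃ α : ℕ, α < n ∧ ∀ L : ℕ, ∃ a N : ℕ, L ≤ N ∧ Q a N ∧ a % n = α := by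
  by_contra hcon
  push Not at hcon
  choose! Lf hLf using hcon
  obtain ⟨a, N, hN, hQ⟩ := h (∑ α ∈ Finset.range n, Lf α)
  have h1 : a % n < n := Nat.mod_lt _ hn
  have h2 : Lf (a % n) ≤ ∑ α ∈ Finset.range n, Lf α :=
    Finset.single_le_sum (f := Lf) (fun _ _ => Nat.zero_le _) (Finset.mem_range.2 h1)
  exact hLf (a % n) h1 a N (h2.trans hN) hQ rfl

/-- Counting in a window. -/
theorem zb_count (D : Set ℕ) (n : ℕ) (hn : 0 < n) (a N : ℕ) :
    (N : ℝ) - (({j : ℕ | a + j * n ∈ D} ∩ Set.Iio N).ncard : ℝ) - 1 ≤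
      ∑ j ∈ Finset.range N, CI D ((a : ℤ) + n * j) := by
  classical
  have h1 : ({j : ℕ | a + j * n ∈ D} ∩ Set.Iio N) =
      (((Finset.range N).filter fun j => a + j * n ∈ D : Finset ℕ) : Set ℕ) := by
    ext j
    simp only [Set.mem_inter_iff, Set.mem_setOf_eq, Set.mem_Iio, Finset.coe_filter,
      Finset.mem_range]
    exact and_comm
  rw [h1, Set.ncard_coe_finset]
  have h2 : (((Finset.range N).filter fun j => a + j * n ∈ D).card : ℝ) =
      ∑ j ∈ Finset.range N, (if a + j * n ∈ D then (1 : ℝ) else 0) := by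
    rw [Finset.sum_boole]
  have h3 : (N : ℝ) = ∑ _j ∈ Finset.range N, (1 : ℝ) := by
    rw [Finset.sum_const, Finset.card_range, nsmul_eq_mul, mul_one]
  have h4 : ∑ j ∈ Finset.range N, (if j = 0 then (1 : ℝ) else 0) ≤ 1 := by
    rw [Finset.sum_ite_eq' (Finset.range N) 0 (fun _ => (1 : ℝ))]
    split_ifs
    · exact le_rfl
    · exact zero_le_one
  have h5 : ∑ _j ∈ Finset.range N, (1 : ℝ) ≤
      ∑ j ∈ Finset.range N, (CI D ((a : ℤ) + n * j) + (if a + j * n ∈ D then (1 : ℝ) else 0) +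
        (if j = 0 then (1 : ℝ) else 0)) := by
    refine Finset.sum_le_sum fun j _ => ?_
    have h0 : 0 ≤ CI D ((a : ℤ) + n * j) := by
      unfold CI
      split_ifs
      · exact zero_le_one
      · exact le_rfl
    by_cases hj : j = 0
    · rw [if_pos hj]
      split_ifs <;> linarith
    · rw [if_neg hj]
      by_cases hD : a + j * n ∈ D
      · rw [if_pos hD]
        linarith
      · rw [if_neg hD]
        have h6 : ((a : ℤ) + n * j).natAbs = a + j * n := by
          have : ((a : ℤ) + n * j) = ((a + j * n : ℕ) : ℤ) := by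
            push_cast
            ring
          rw [this, Int.natAbs_natCast]
        have h7 : ((a : ℤ) + n * j) ≠ 0 := by
          intro h8
          rw [h8, Int.natAbs_zero] at h6
          have h9 : 0 < j * n := Nat.mul_pos (Nat.pos_of_ne_zero hj) hn
          omega
        have h8 : CI D ((a : ℤ) + n * j) = 1 := by
          unfold CI
          rw [if_pos]
          exact ⟨h7, by rw [h6]; exact hD⟩
        rw [h8]
        norm_num
  rw [Finset.sum_add_distrib, Finset.sum_add_distrib, ← h3, ← h2] at h5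
  linarith

/-- `K` from `main_key`. -/
theorem main_windows (D : Set ℕ) (k : ℕ)
    (hD : Pool.Agent.Lib_helper23.PG.HitsBins 4 k D) :
    ∃ K : ℕ, 0 < K ∧ ∀ n : ℕ, 0 < n → K ∣ n → ∀ ε : ℝ, 0 < ε → ∃ L : ℕ, ∀ a N : ℕ, K ∣ a → L ≤ N →
      (1 / 2 - ε) * N ≤ (({j : ℕ | a + j * n ∈ D} ∩ Set.Iio N).ncard : ℝ) := by
  obtain ⟨K, hK, hkey⟩ := main_key D k hD
  refine ⟨K, hK, fun n hn hKn ε hε => ?_⟩
  by_contra hcon
  push Not at hcon
  obtain ⟨α, hα, h1⟩ := zb_pigeon n hn (fun a N => K ∣ a ∧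
    (({j : ℕ | a + j * n ∈ D} ∩ Set.Iio N).ncard : ℝ) < (1 / 2 - ε) * N) (fun L => by
      obtain ⟨a, N, ha, hN, h⟩ := hcon L
      exact ⟨a, N, hN, ha, h⟩)
  have hKα : K ∣ α := by
    obtain ⟨a, N, -, ⟨ha, -⟩, hm⟩ := h1 0
    rw [← hm]
    exact (Nat.dvd_mod_iff hKn).2 ha
  obtain ⟨m, hm, hmf⟩ := mean_of_windows (fun x : ℤ => CI D ((α : ℤ) + n * x))
    (Bd.of_mem_Icc (a := 0) (b := 1) fun x => by
      unfold CI
      split_ifs
      · exact ⟨zero_le_one, le_rfl⟩
      · exact ⟨le_rfl, zero_le_one⟩) (1 / 2 + 3 * ε / 4) (fun L => by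
      obtain ⟨T, hT⟩ := exists_nat_gt (4 / ε)
      obtain ⟨a, N, hN, ⟨-, hc⟩, hmod⟩ := h1 (max L (T + 1))
      refine ⟨((a / n : ℕ) : ℤ), N, (le_max_left _ _).trans hN, ?_, ?_⟩
      · have := (le_max_right L (T + 1)).trans hN
        omega
      · have h2 : ∀ j : ℕ, (α : ℤ) + n * (((a / n : ℕ) : ℤ) + j) = (a : ℤ) + n * j := by
          intro j
          have h3 : (a : ℤ) = ((a % n : ℕ) : ℤ) + n * ((a / n : ℕ) : ℤ) := by
            exact_mod_cast (Nat.mod_add_div a n).symm
          rw [hmod] at h3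
          rw [h3]
          ring
        simp only [h2]
        have h4 := zb_count D n hn a N
        have h5 : 4 / ε < N := by
          have h6 : (T : ℝ) ≤ N := by
            have := (le_max_right L (T + 1)).trans hN
            exact_mod_cast (Nat.le_succ T).trans this
          linarith
        have h7 : 4 < N * ε := by
          rwa [div_lt_iff₀ hε] at h5
        nlinarith)
  have h2 := hkey α n (by exact_mod_cast hKα) (by exact_mod_cast hKn) (by exact_mod_cast hn) m hm
  linarith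

end Pool.Agent.HOM
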